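import Pool.Agent.Run7.h891.Star

/-! From a bad sequence to an antichain of connected graphs of the same exact rank. -/

set_option autoImplicit false

open Set Ordinal

namespace Run7.h891

universe u v w

variable {V : Type u} {W : Type v}

/-- The ranks of the members of the sequence are nondecreasing. -/
def NonDec (G : ℕ → SimpleGraph V) (X : ℕ → Set V) : Prop :=
  ∀ m n, m ≤ n → ∀ γ : Ordinal.{0}, RankLE (G n) γ (X n) → RankLE (G m) γ (X m)

theorem exists_nonDec (G : ℕ → SimpleGraph V) (X : ℕ → Set V)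
    (h : ∀ n, ∃ α < ω₁, RankLE (G n) α (X n)) :
    ∃ g : ℕ → ℕ, StrictMono g ∧ NonDec (fun n => G (g n)) (fun n => X (g n)) := by
  classical
  let rk : ℕ → Ordinal.{0} := fun n => sInf {α | RankLE (G n) α (X n)}
  have hne : ∀ n, {α | RankLE (G n) α (X n)}.Nonempty := fun n => by
    obtain ⟨α, _, h⟩ := h n
    exact ⟨α, h⟩
  have hrk : ∀ n γ, RankLE (G n) γ (X n) ↔ rk n ≤ γ := by
    intro n γ
    constructor
    · intro h
      exact csInf_le' h
    · intro h
      exact (csInf_mem (hne n) : RankLE (G n) (rk n) (X n)).mono_ord h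
  obtain ⟨g, hg⟩ := (wellQuasiOrdered_le (α := Ordinal.{0})).exists_monotone_subseq rk
  refine ⟨g, g.strictMono, fun m n hmn γ h => ?_⟩
  rw [hrk] at h ⊢
  exact (hg m n hmn).trans h

/-- Least rank. -/
theorem exists_least_rank {G : SimpleGraph V} {X : Set V} (h : ∃ α < ω₁, RankLE G α X) :
    ∃ β : Ordinal.{0}, β < ω₁ ∧ RankLE G β X ∧ ∀ γ < β, ¬ RankLE G γ X := by
  obtain ⟨α, hα, h⟩ := h
  let E : Set Ordinal.{0} := {α | RankLE G α X}
  have hne : E.Nonempty := ⟨α, h⟩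
  refine ⟨sInf E, ?_, csInf_mem hne, fun γ hγ h' => ?_⟩
  · exact (csInf_le' (show α ∈ E from h)).trans_lt hα
  · exact absurd (csInf_le' (show γ ∈ E from h')) (not_le.2 hγ)

section step

variable (G : ℕ → SimpleGraph V) (X : ℕ → Set V)

/-- A hub over infinitely many copies of `G k`. -/
def hubG (k : ℕ) : SimpleGraph (Unit ⊕ ℕ × V) := star (fun _ : ℕ => G k)

/-- Carrier of `hubG`. -/
def hubX (k : ℕ) : Set (Unit ⊕ ℕ × V) := starSet Set.univ (fun _ : ℕ => X k)

/-- A centre over `2 k + 1` copies of `hubG k`. -/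
def dG (k : ℕ) : SimpleGraph (Unit ⊕ ℕ × (Unit ⊕ ℕ × V)) := star (fun _ : ℕ => hubG G k)

/-- Carrier of `dG`. -/
def dX (k : ℕ) : Set (Unit ⊕ ℕ × (Unit ⊕ ℕ × V)) :=
  starSet {i | i < 2 * k + 1} (fun _ : ℕ => hubX X k)

/-- The special vertices of `dG`. -/
def dR (V : Type u) (l : ℕ) : Option (Fin (2 * l + 1)) → Unit ⊕ ℕ × (Unit ⊕ ℕ × V)
  | none => .inl ()
  | some i => .inr (i.1, .inl ())

theorem d_conn (k : ℕ) : Conn (dG G k) (dX X k) := star_conn

theorem d_comp {l : ℕ} {A : Set (Unit ⊕ ℕ × (Unit ⊕ ℕ × V))} (hA : Conn (dG G l) A)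
    (hne : A.Nonempty) (hsub : A ⊆ dX X l \ range (dR V l)) :
    ∃ i n, A ⊆ copySet Unit i (copySet Unit n (X l)) := by
  obtain ⟨i, hi, h1⟩ := star_comp hA hne (hsub.trans sdiff_subset)
    (fun h => (hsub h).2 ⟨none, rfl⟩)
  have h1' : A ⊆ starCopy (fun _ : ℕ => hubG G l) i '' (hubX X l) := h1
  have himg : starCopy (fun _ : ℕ => hubG G l) i '' (starCopy (fun _ : ℕ => hubG G l) i ⁻¹' A)
      = A := by
    rw [image_preimage_eq_inter_range]
    exact inter_eq_left.2 (h1'.trans (image_subset_range _ _))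
  have hA' : Conn (hubG G l) (starCopy (fun _ : ℕ => hubG G l) i ⁻¹' A) := by
    rw [← conn_image (starCopy (fun _ : ℕ => hubG G l) i), himg]
    exact hA
  have hne' : (starCopy (fun _ : ℕ => hubG G l) i ⁻¹' A).Nonempty := by
    rw [← image_nonempty (f := starCopy (fun _ : ℕ => hubG G l) i), himg]
    exact hne
  have hsub' : (starCopy (fun _ : ℕ => hubG G l) i ⁻¹' A) ⊆ hubX X l := by
    intro x hx
    obtain ⟨y, hy, he⟩ := h1' hx
    rwa [← (starCopy (fun _ : ℕ => hubG G l) i).injective he]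
  obtain ⟨n, _, h2⟩ := star_comp hA' hne' hsub' (by
    intro h
    exact (hsub h).2 ⟨some ⟨i, hi⟩, rfl⟩)
  refine ⟨i, n, ?_⟩
  rw [← himg]
  exact image_mono h2

theorem d_model {l : ℕ} {U : Type w} {H : SimpleGraph U} {Y P : Set U}
    {B : U → Set (Unit ⊕ ℕ × (Unit ⊕ ℕ × V))} (hB : IsModel H Y (dG G l) (dX X l) B)
    (hP : P ⊆ Y) (hPc : Conn H P) (hPne : P.Nonempty)
    (h : ∀ w ∈ P, Disjoint (B w) (range (dR V l))) : Minor H P (G l) (X l) := by
  have hconn := hB.conn_union hP hPc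
  obtain ⟨p, hp⟩ := hPne
  obtain ⟨x, hx⟩ := hB.ne p (hP hp)
  obtain ⟨i, n, hsub⟩ := d_comp G X hconn ⟨x, mem_biUnion hp hx⟩
    (iUnion₂_subset fun w hw y hy => ⟨hB.sub w (hP hw) hy, Set.disjoint_left.1 (h w hw) hy⟩)
  have h1 : Minor H P (dG G l) (copySet Unit i (copySet Unit n (X l))) :=
    ⟨B, (hB.restrict hP).shrink (fun t ht => (subset_biUnion_of_mem ht).trans hsub)⟩
  unfold dG at h1
  have h2 := minor_copy_right.1 h1
  unfold hubG at h2
  exact (minor_copy_right (T := fun _ : ℕ => G l) (i := n)).1 h2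

/-- The copies of `G k` at the `i`-th hub. -/
def dP (k : ℕ) (i n : ℕ) : Set (Unit ⊕ ℕ × (Unit ⊕ ℕ × V)) :=
  copySet Unit i (copySet Unit n (X k))

theorem dP_subset {k i n : ℕ} (hi : i < 2 * k + 1) : dP X k i n ⊆ dX X k := by
  rintro _ ⟨_, ⟨x, hx, rfl⟩, rfl⟩
  exact inr_mem_starSet.2 ⟨hi, inr_mem_starSet.2 ⟨mem_univ _, hx⟩⟩

theorem dP_disjoint {k i n m : ℕ} (h : n ≠ m) : Disjoint (dP X k i n) (dP X k i m) := by
  unfold dP copySet
  refine (disjoint_image_iff ?_).2 ?_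
  · intro x y hxy
    exact (Prod.ext_iff.1 (Sum.inr_injective hxy)).2
  · exact copySet_disjoint h _ _

theorem dP_conn {k i n : ℕ} (h : Conn (G k) (X k)) : Conn (dG G k) (dP X k i n) :=
  copy_conn.2 (copy_conn.2 h)

theorem dP_nonempty {k i n : ℕ} (h : (X k).Nonempty) : (dP X k i n).Nonempty :=
  (h.image _).image _

theorem dP_rank {k i n : ℕ} {α : Ordinal.{0}} :
    RankLE (dG G k) α (dP X k i n) ↔ RankLE (G k) α (X k) := by
  unfold dP dG
  rw [copy_rank]
  exact copy_rank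

theorem dP_minor {k i n : ℕ} {U : Type w} {H : SimpleGraph U} {Y : Set U} :
    Minor (dG G k) (dP X k i n) H Y ↔ Minor (G k) (X k) H Y := by
  unfold dP dG
  rw [minor_copy_left]
  exact minor_copy_left

theorem d_antichain (hc : ∀ k, Conn (G k) (X k)) (hne : ∀ k, (X k).Nonempty)
    (hr : ∀ k, ∃ α < ω₁, RankLE (G k) α (X k)) (hnd : NonDec G X)
    (hbad : ∀ i j, i < j → ¬ Minor (G i) (X i) (G j) (X j)) {k l : ℕ} (hkl : k ≠ l) :
    ¬ Minor (dG G k) (dX X k) (dG G l) (dX X l) := by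
  classical
  rintro ⟨B, hB⟩
  rcases lt_or_gt_of_ne hkl with h | h
  · -- `k < l`
    obtain ⟨n, _, hn⟩ := hB.avoid (I := (Set.univ : Set ℕ)) Set.infinite_univ
      (P := fun n => dP X k 0 n) (fun n _ => dP_subset X (by omega))
      (fun n _ m _ hnm => dP_disjoint X hnm) (finite_range (dR V l))
    have h1 := d_model G X hB (dP_subset X (by omega)) (dP_conn G X (hc k))
      (dP_nonempty X (hne k)) hn
    exact hbad k l h ((dP_minor G X).1 h1)
  · -- `l < k`
    obtain ⟨β, _, hβ1, hβ2⟩ := exists_least_rank (hr k)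
    have hK : ∀ z ∈ dX X l \ range (dR V l),
        RankLE (dG G l) β (comp (dG G l) (dX X l \ range (dR V l)) z) := by
      intro z hz
      obtain ⟨i, n, hsub⟩ := d_comp G X (comp_conn (v := z)) ⟨z, mem_comp_self hz⟩ comp_subset
      refine RankLE.mono_set ?_ hsub
      exact (dP_rank G X (k := l) (i := i) (n := n)).2 (hnd l k h.le β hβ1)
    have key : ∀ i : Fin (2 * k + 1), ∃ o : Option (Fin (2 * l + 1)),
        dR V l o ∈ B (.inr (i.1, .inl ())) := by
      intro i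
      have hs : (Sum.inr (i.1, Sum.inl ()) : Unit ⊕ ℕ × (Unit ⊕ ℕ × V)) ∈ dX X k := by
        exact inr_mem_starSet.2 ⟨i.2, hub_mem_starSet⟩
      obtain ⟨x, hx, ⟨o, rfl⟩⟩ := hub (finite_range (dR V l)) hK hB hs
        (I := (Set.univ : Set ℕ)) Set.infinite_univ
        (P := fun n => dP X k i n) (fun n _ => dP_subset X i.2)
        (fun n _ m _ hnm => dP_disjoint X hnm) (fun n _ => dP_conn G X (hc k))
        (by
          intro n _
          obtain ⟨x, hx⟩ := hne k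
          exact ⟨.inr (i.1, .inr (n, x)), ⟨_, ⟨x, hx, rfl⟩, rfl⟩, rfl, rfl⟩)
        (fun n _ γ hγ h => hβ2 γ hγ ((dP_rank G X).1 h))
      exact ⟨o, hx⟩
    choose o ho using key
    have hinj : Function.Injective o := by
      intro i j hij
      have h1 := ho i
      have h2 := ho j
      rw [hij] at h1
      have hsi : (Sum.inr (i.1, Sum.inl ()) : Unit ⊕ ℕ × (Unit ⊕ ℕ × V)) ∈ dX X k := by
        exact inr_mem_starSet.2 ⟨i.2, hub_mem_starSet⟩
      have hsj : (Sum.inr (j.1, Sum.inl ()) : Unit ⊕ ℕ × (Unit ⊕ ℕ × V)) ∈ dX X k := by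
        exact inr_mem_starSet.2 ⟨j.2, hub_mem_starSet⟩
      have h3 := hB.eq_of_mem hsi hsj h1 h2
      have h4 := (Prod.ext_iff.1 (Sum.inr_injective h3)).1
      exact Fin.ext h4
    have hcard := Fintype.card_le_of_injective o hinj
    simp only [Fintype.card_fin, Fintype.card_option] at hcard
    omega

theorem d_rank {k : ℕ} (hr : ∃ α < ω₁, RankLE (G k) α (X k)) :
    ∃ α < ω₁, RankLE (dG G k) α (dX X k) := by
  obtain ⟨α, hα, h⟩ := hr
  refine ⟨Order.succ (Order.succ α), succ_lt_omega_one (succ_lt_omega_one hα), ?_⟩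
  refine star_rank_le fun i _ => ⟨Order.succ α, Order.lt_succ _, ?_⟩
  exact star_rank_le fun n _ => ⟨α, Order.lt_succ _, h⟩

end step

/-- The infinitely many pairwise disjoint infinite sets of indices. -/
def mset (n : ℕ) : Set ℕ := {m | (Nat.unpair m).1 = n}

theorem mset_infinite (n : ℕ) : (mset n).Infinite := by
  refine Set.infinite_of_injective_forall_mem (f := fun k => Nat.pair n k) ?_ ?_
  · intro a b hab
    have := Nat.pair_eq_pair.1 hab
    exact this.2
  · intro k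
    simp [mset]

theorem mset_infinite' (n j : ℕ) : (mset n ∩ {m | j ≤ m}).Infinite := by
  intro h
  refine mset_infinite n ((h.union (Set.finite_lt_nat j)).subset ?_)
  intro m hm
  rcases lt_or_ge m j with h | h
  · exact Or.inr h
  · exact Or.inl ⟨hm, h⟩

/-- From a bad sequence of graphs of countable rank we get an infinite antichain of connected
graphs of the same exact rank. -/
theorem exists_antichain [Countable V] (G : ℕ → SimpleGraph V) (X : ℕ → Set V)
    (hr : ∀ k, ∃ α < ω₁, RankLE (G k) α (X k))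
    (hbad : ∀ i j, i < j → ¬ Minor (G i) (X i) (G j) (X j)) :
    ∃ (W : Type u) (_ : Countable W) (K : ℕ → SimpleGraph W) (Z : ℕ → Set W)
      (ρ : Ordinal.{0}), ρ < ω₁ ∧ (∀ n, Conn (K n) (Z n)) ∧ (∀ n, (Z n).Nonempty) ∧
      (∀ n, RankLE (K n) ρ (Z n)) ∧ (∀ n, ∀ γ < ρ, ¬ RankLE (K n) γ (Z n)) ∧
      ∀ i j, i ≠ j → ¬ Minor (K i) (Z i) (K j) (Z j) := by
  classical
  -- cones
  let G1 : ℕ → SimpleGraph (Unit ⊕ Unit × V) := fun k => cone (G k)
  let X1 : ℕ → Set (Unit ⊕ Unit × V) := fun k => coneSet (X k)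
  have hr1 : ∀ k, ∃ α < ω₁, RankLE (G1 k) α (X1 k) := fun k => by
    obtain ⟨α, hα, h⟩ := hr k
    exact ⟨α, hα, cone_rank h⟩
  obtain ⟨g, hg, hnd⟩ := exists_nonDec G1 X1 hr1
  let G2 : ℕ → SimpleGraph (Unit ⊕ Unit × V) := fun k => G1 (g k)
  let X2 : ℕ → Set (Unit ⊕ Unit × V) := fun k => X1 (g k)
  have hbad2 : ∀ i j, i < j → ¬ Minor (G2 i) (X2 i) (G2 j) (X2 j) := fun i j hij h =>
    hbad _ _ (hg hij) (minor_of_cone h)
  have hd : ∀ k l, k ≠ l → ¬ Minor (dG G2 k) (dX X2 k) (dG G2 l) (dX X2 l) := fun k l hkl =>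
    d_antichain G2 X2 (fun _ => cone_conn) (fun _ => coneSet_nonempty) (fun k => hr1 (g k)) hnd
      hbad2 hkl
  have hdr : ∀ k, ∃ α < ω₁, RankLE (dG G2 k) α (dX X2 k) := fun k => d_rank G2 X2 (hr1 (g k))
  obtain ⟨g', hg', hnd'⟩ := exists_nonDec (dG G2) (dX X2) hdr
  let D : ℕ → SimpleGraph (Unit ⊕ ℕ × (Unit ⊕ ℕ × (Unit ⊕ Unit × V))) := fun k => dG G2 (g' k)
  let Y : ℕ → Set (Unit ⊕ ℕ × (Unit ⊕ ℕ × (Unit ⊕ Unit × V))) := fun k => dX X2 (g' k)
  have hDanti : ∀ k l, k ≠ l → ¬ Minor (D k) (Y k) (D l) (Y l) := fun k l hkl =>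
    hd _ _ (fun h => hkl (hg'.injective h))
  have hDc : ∀ k, Conn (D k) (Y k) := fun k => d_conn _ _ _
  have hDne : ∀ k, (Y k).Nonempty := fun k => ⟨.inl (), hub_mem_starSet⟩
  have hDr : ∀ k, ∃ α < ω₁, RankLE (D k) α (Y k) := fun k => hdr _
  -- the common rank
  have hE : ∃ α : Ordinal.{0}, α < ω₁ ∧ ∀ j, ∃ β < α, RankLE (D j) β (Y j) := by
    choose a ha ha' using hDr
    refine ⟨Order.succ (⨆ j, a j), succ_lt_omega_one (Ordinal.iSup_lt_omega_one ha), fun j => ?_⟩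
    exact ⟨a j, Order.lt_succ_of_le (Ordinal.le_iSup a j), ha' j⟩
  obtain ⟨α0, hα0, hα0'⟩ := hE
  let E : Set Ordinal.{0} := {α | ∀ j, ∃ β < α, RankLE (D j) β (Y j)}
  have hEne : E.Nonempty := ⟨α0, hα0'⟩
  let ρ := sInf E
  have hρE : ρ ∈ E := csInf_mem hEne
  have hρ : ρ < ω₁ := (csInf_le' (show α0 ∈ E from hα0')).trans_lt hα0
  refine ⟨Unit ⊕ ℕ × (Unit ⊕ ℕ × (Unit ⊕ ℕ × (Unit ⊕ Unit × V))), inferInstance,
    fun n => star D, fun n => starSet (mset n) Y, ρ, hρ, fun n => star_conn,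
    fun n => ⟨.inl (), hub_mem_starSet⟩, fun n => star_rank_le fun i _ => hρE i, ?_, ?_⟩
  · intro n γ hγ h
    have hγE : γ ∈ E := by
      intro j
      have h1 : RankLE (star D) γ (starSet (mset n ∩ {m | j ≤ m}) Y) := by
        refine h.mono_set ?_
        rintro (⟨⟩ | ⟨i, x⟩) hz
        · exact hub_mem_starSet
        · simp only [inr_mem_starSet] at hz ⊢
          exact ⟨hz.1.1, hz.2⟩
      obtain ⟨m, hm, β, hβ, h2⟩ := star_rank_ge (mset_infinite' n j) (fun i _ => hDne i)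
        (fun i _ => hDc i) h1
      exact ⟨β, hβ, hnd' j m hm.2 β h2⟩
    exact absurd (csInf_le' hγE) (not_le.2 hγ)
  · rintro n k hnk ⟨B, hB⟩
    obtain ⟨m, hm, h1⟩ := hB.avoid (mset_infinite n) (P := fun m => copySet Unit m (Y m))
      (fun m hm => star_copySet_subset hm) (fun i _ j _ hij => copySet_disjoint hij _ _)
      (finite_singleton (.inl ()))
    obtain ⟨m', hm', h2⟩ := star_model_in_copy hB (star_copySet_subset hm)
      (copy_conn.2 (hDc m)) ((hDne m).image _)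
      (fun w hw h => Set.disjoint_left.1 (h1 w hw) h rfl)
    have h3 := minor_copy_left.1 h2
    have h4 : m = m' := by
      by_contra hne
      exact hDanti m m' hne h3
    subst h4
    exact hnk (hm.symm.trans hm')

end Run7.h891
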