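import Pool.Agent.Run7.h891.Bridge

/-! Attaching copies of graphs to a base graph; the hub lemma. -/

set_option autoImplicit false

open Set Ordinal

namespace Run7.h891

universe u v w

variable {V : Type u} {W : Type v} {U : Type w}

/-- Among infinitely many pairwise disjoint sets one avoids a given finite set. -/
theorem avoid {ι : Type*} {I : Set ι} (hI : I.Infinite) {P : ι → Set W}
    (hPd : ∀ i ∈ I, ∀ j ∈ I, i ≠ j → Disjoint (P i) (P j)) {F : Set W} (hF : F.Finite) :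
    ∃ i ∈ I, Disjoint (P i) F := by
  by_contra hcon
  push Not at hcon
  refine hI ((finite_hit hPd hF).subset ?_)
  intro i hi
  exact ⟨hi, Set.not_disjoint_iff_nonempty_inter.1 (hcon i hi)⟩

theorem IsModel.avoid {H : SimpleGraph W} {Y : Set W} {K : SimpleGraph U} {Z : Set U}
    {B : W → Set U} (hB : IsModel H Y K Z B) {ι : Type*} {I : Set ι} (hI : I.Infinite)
    {P : ι → Set W} (hP : ∀ i ∈ I, P i ⊆ Y)
    (hPd : ∀ i ∈ I, ∀ j ∈ I, i ≠ j → Disjoint (P i) (P j)) {F : Set U} (hF : F.Finite) :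
    ∃ i ∈ I, ∀ w ∈ P i, Disjoint (B w) F := by
  obtain ⟨i, hi, h⟩ := Run7.h891.avoid hI hPd (finite_hit hB.disj hF)
  refine ⟨i, hi, fun w hw => ?_⟩
  by_contra hcon
  exact Set.disjoint_left.1 h hw ⟨hP i hi hw, Set.not_disjoint_iff_nonempty_inter.1 hcon⟩

/-- The hub lemma. -/
theorem hub {K : SimpleGraph U} {Z R : Set U} {β : Ordinal.{0}} (hR : R.Finite)
    (hK : ∀ z ∈ Z \ R, RankLE K β (comp K (Z \ R) z)) {H : SimpleGraph W} {Y : Set W}
    {B : W → Set U} (hB : IsModel H Y K Z B) {s : W} (hs : s ∈ Y) {ι : Type*} {I : Set ι}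
    (hI : I.Infinite) {P : ι → Set W} (hP : ∀ i ∈ I, P i ⊆ Y)
    (hPd : ∀ i ∈ I, ∀ j ∈ I, i ≠ j → Disjoint (P i) (P j)) (hPc : ∀ i ∈ I, Conn H (P i))
    (hPs : ∀ i ∈ I, ∃ p ∈ P i, H.Adj s p) (hPr : ∀ i ∈ I, ∀ γ < β, ¬ RankLE H γ (P i)) :
    (B s ∩ R).Nonempty := by
  by_contra hcon
  rw [← Set.not_disjoint_iff_nonempty_inter, not_not] at hcon
  obtain ⟨z0, hz0⟩ := hB.ne s hs
  have hz0' : z0 ∈ Z \ R := ⟨hB.sub s hs hz0, fun h => Set.disjoint_left.1 hcon hz0 h⟩
  set X := comp K (Z \ R) z0 with hX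
  -- a copy avoiding `R` lies in `X`
  have key : ∀ i ∈ I, (∀ w ∈ P i, Disjoint (B w) R) → ∀ w ∈ P i, B w ⊆ X := by
    intro i hi hiR w hw
    have hsub : ∀ w ∈ P i, B w ⊆ Z \ R := fun w hw x hx =>
      ⟨hB.sub w (hP i hi hw) hx, fun h => Set.disjoint_left.1 (hiR w hw) hx h⟩
    have hsubs : B s ⊆ Z \ R := fun x hx =>
      ⟨hB.sub s hs hx, fun h => Set.disjoint_left.1 hcon hx h⟩
    have hsX : B s ⊆ X := conn_subset_comp_self (hB.conn s hs) hsubs hz0
    obtain ⟨p, hp, hsp⟩ := hPs i hi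
    obtain ⟨x, hx, y, hy, hxy⟩ := hB.adj s hs p (hP i hi hp) hsp
    have hyX : y ∈ X := comp_closed (hsX hx) (hsub p hp hy) hxy
    have hconn := hB.conn_union (hP i hi) (hPc i hi)
    have hall : (⋃ t ∈ P i, B t) ⊆ X :=
      conn_subset_comp hconn (iUnion₂_subset hsub) (mem_biUnion hp hy) hyX
    exact (subset_biUnion_of_mem hw).trans hall
  have hrk := hK z0 hz0'
  rw [rankLE_iff] at hrk
  rcases hrk with hfin | ⟨S, hS, hrk⟩
  · obtain ⟨i, hi, h⟩ := hB.avoid hI hP hPd (hR.union hfin)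
    obtain ⟨p, hp, _⟩ := hPs i hi
    obtain ⟨x, hx⟩ := hB.ne p (hP i hi hp)
    have h1 := key i hi (fun w hw => (h w hw).mono_right subset_union_left) p hp hx
    exact Set.disjoint_left.1 (h p hp) hx (Or.inr h1)
  · obtain ⟨i, hi, h⟩ := hB.avoid hI hP hPd (hR.union hS)
    obtain ⟨p, hp, _⟩ := hPs i hi
    obtain ⟨x, hx⟩ := hB.ne p (hP i hi hp)
    have h1 := key i hi (fun w hw => (h w hw).mono_right subset_union_left)
    have hsub : ∀ w ∈ P i, B w ⊆ X \ S := fun w hw y hy =>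
      ⟨h1 w hw hy, fun hyS => Set.disjoint_left.1 (h w hw) hy (Or.inr hyS)⟩
    obtain ⟨γ, hγ, h'⟩ := hrk x (hsub p hp hx)
    have hconn := hB.conn_union (hP i hi) (hPc i hi)
    have hall : (⋃ t ∈ P i, B t) ⊆ comp K (X \ S) x :=
      conn_subset_comp_self hconn (iUnion₂_subset hsub) (mem_biUnion hp hx)
    refine hPr i hi γ hγ (h'.of_model (B := B) ?_)
    exact (hB.restrict (hP i hi)).shrink (fun t ht => (subset_biUnion_of_mem ht).trans hall)

section attach

variable {ι : Type*}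

/-- The relation underlying `att`. -/
def attRel (G : SimpleGraph V) (a : ι → V) (T : ι → SimpleGraph W) :
    V ⊕ ι × W → V ⊕ ι × W → Prop
  | .inl u, .inl v => G.Adj u v
  | .inl u, .inr p => a p.1 = u
  | .inr p, .inl u => a p.1 = u
  | .inr p, .inr q => p.1 = q.1 ∧ (T p.1).Adj p.2 q.2

/-- The graph obtained from `G` by adding, for every `i`, a copy of `T i`, all of whose vertices
are joined to the vertex `a i` of `G`. -/
def att (G : SimpleGraph V) (a : ι → V) (T : ι → SimpleGraph W) : SimpleGraph (V ⊕ ι × W) where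
  Adj := attRel G a T
  symm := ⟨by
    rintro (u | ⟨i, x⟩) (v | ⟨j, y⟩) h
    · exact G.symm.symm _ _ h
    · exact h
    · exact h
    · obtain ⟨h1, h2⟩ := h
      simp only at h1 h2
      subst h1
      exact ⟨rfl, h2.symm⟩⟩
  loopless := ⟨by
    rintro (u | ⟨i, x⟩) h
    · exact G.loopless.irrefl _ h
    · exact (T i).loopless.irrefl _ h.2⟩

variable {G : SimpleGraph V} {a : ι → V} {T : ι → SimpleGraph W}

@[simp] theorem att_inl_inl {u v : V} : (att G a T).Adj (.inl u) (.inl v) ↔ G.Adj u v := Iff.rfl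
@[simp] theorem att_inl_inr {u : V} {i : ι} {x : W} :
    (att G a T).Adj (.inl u) (.inr (i, x)) ↔ a i = u := Iff.rfl
@[simp] theorem att_inr_inl {u : V} {i : ι} {x : W} :
    (att G a T).Adj (.inr (i, x)) (.inl u) ↔ a i = u := Iff.rfl
@[simp] theorem att_inr_inr {i j : ι} {x y : W} :
    (att G a T).Adj (.inr (i, x)) (.inr (j, y)) ↔ i = j ∧ (T i).Adj x y := Iff.rfl

/-- The embedding of the base graph. -/
def attBase (G : SimpleGraph V) (a : ι → V) (T : ι → SimpleGraph W) : G ↪g att G a T where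
  toFun := .inl
  inj' := Sum.inl_injective
  map_rel_iff' := Iff.rfl

/-- The embedding of the `i`-th copy. -/
def attCopy (G : SimpleGraph V) (a : ι → V) (T : ι → SimpleGraph W) (i : ι) :
    T i ↪g att G a T where
  toFun x := .inr (i, x)
  inj' x y h := by
    have := Sum.inr_injective h
    exact (Prod.ext_iff.1 this).2
  map_rel_iff' {x y} := by
    show (i = i ∧ (T i).Adj x y) ↔ _
    simp

@[simp] theorem attBase_apply (u : V) : attBase G a T u = .inl u := rfl
@[simp] theorem attCopy_apply (i : ι) (x : W) : attCopy G a T i x = .inr (i, x) := rfl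

/-- A connected set which meets a copy and avoids its attachment vertex lies in that copy. -/
theorem att_subset_copy {A : Set (V ⊕ ι × W)} (hA : Conn (att G a T) A) {i : ι} {x : W}
    (hx : Sum.inr (i, x) ∈ A) (ha : Sum.inl (a i) ∉ A) : A ⊆ range (attCopy G a T i) := by
  intro z hz
  refine (hA _ hx z hz).closed ⟨x, rfl⟩ ?_
  rintro _ ⟨y, rfl⟩ _ b hb hyb
  rcases b with u | ⟨j, y'⟩
  · simp only [attCopy_apply, att_inr_inl] at hyb
    rw [← hyb] at hb
    exact absurd hb ha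
  · simp only [attCopy_apply, att_inr_inr] at hyb
    obtain ⟨rfl, _⟩ := hyb
    exact ⟨y', rfl⟩

theorem att_exit {A : Set (V ⊕ ι × W)} (hA : Conn (att G a T) A) {i : ι} {x : W}
    (hx : Sum.inr (i, x) ∈ A) {u : V} (hu : Sum.inl u ∈ A) : Sum.inl (a i) ∈ A := by
  by_contra h
  obtain ⟨y, hy⟩ := att_subset_copy hA hx h hu
  simp at hy

/-- Retraction of `att` onto the base graph. -/
def retr (a : ι → V) : V ⊕ ι × W → V
  | .inl u => u
  | .inr p => a p.1

/-- The base part of a connected set is connected. -/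
theorem att_conn_base {A : Set (V ⊕ ι × W)} (hA : Conn (att G a T) A) :
    Conn G (Sum.inl ⁻¹' A) := by
  intro x hx y hy
  have key : ∀ z, Reach (att G a T) A (.inl x) z → Reach G (Sum.inl ⁻¹' A) x (retr a z) := by
    intro z hz
    refine hz.induct (P := fun z => Reach G (Sum.inl ⁻¹' A) x (retr a z)) (Reach.refl hx) ?_
    rintro (b | ⟨i, b⟩) (c | ⟨j, c⟩) hb hxb hc hbc
    · exact hb.step hbc hc
    · simp only [att_inl_inr] at hbc
      simpa [retr, hbc] using hb
    · simp only [att_inr_inl] at hbc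
      simpa [retr, hbc] using hb
    · simp only [att_inr_inr] at hbc
      simpa [retr, hbc.1] using hb
  exact key _ (hA _ hx _ hy)

/-- The part of `att` given by a carrier of the base, a set of indices and a carrier for each
copy. -/
def attSet (X : Set V) (I : Set ι) (Z : ι → Set W) : Set (V ⊕ ι × W) :=
  {p | (∃ u ∈ X, p = .inl u) ∨ ∃ i ∈ I, ∃ x ∈ Z i, p = .inr (i, x)}

@[simp] theorem inl_mem_attSet {X : Set V} {I : Set ι} {Z : ι → Set W} {u : V} :
    Sum.inl u ∈ attSet X I Z ↔ u ∈ X := by simp [attSet]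

@[simp] theorem inr_mem_attSet {X : Set V} {I : Set ι} {Z : ι → Set W} {i : ι} {x : W} :
    Sum.inr (i, x) ∈ attSet X I Z ↔ i ∈ I ∧ x ∈ Z i := by
  constructor
  · rintro (⟨u, _, h⟩ | ⟨j, hj, y, hy, h⟩)
    · simp at h
    · obtain ⟨rfl, rfl⟩ := Prod.ext_iff.1 (Sum.inr_injective h)
      exact ⟨hj, hy⟩
  · rintro ⟨h1, h2⟩
    exact Or.inr ⟨i, h1, x, h2, rfl⟩

/-- The `i`-th copy as a vertex set. -/
def copySet (V : Type*) (i : ι) (Z : Set W) : Set (V ⊕ ι × W) := (fun x => .inr (i, x)) '' Z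

theorem copySet_eq (i : ι) (Z : Set W) : copySet V i Z = attCopy G a T i '' Z := rfl

@[simp] theorem inr_mem_copySet {i j : ι} {Z : Set W} {x : W} :
    (Sum.inr (j, x) : V ⊕ ι × W) ∈ copySet V i Z ↔ j = i ∧ x ∈ Z := by
  constructor
  · rintro ⟨y, hy, h⟩
    obtain ⟨rfl, rfl⟩ := Prod.ext_iff.1 (Sum.inr_injective h)
    exact ⟨rfl, hy⟩
  · rintro ⟨rfl, h⟩
    exact ⟨x, h, rfl⟩

@[simp] theorem inl_not_mem_copySet {i : ι} {Z : Set W} {u : V} :
    (Sum.inl u : V ⊕ ι × W) ∉ copySet V i Z := by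
  rintro ⟨y, hy, h⟩
  simp at h

theorem copySet_subset {X : Set V} {I : Set ι} {Z : ι → Set W} {i : ι} (hi : i ∈ I) :
    copySet V i (Z i) ⊆ attSet X I Z := by
  rintro _ ⟨x, hx, rfl⟩
  exact inr_mem_attSet.2 ⟨hi, hx⟩

theorem copySet_disjoint {i j : ι} (hij : i ≠ j) (Z Z' : Set W) :
    Disjoint (copySet V i Z) (copySet V j Z') := by
  rw [Set.disjoint_left]
  rintro _ ⟨x, hx, rfl⟩ ⟨y, hy, h⟩
  exact hij (Prod.ext_iff.1 (Sum.inr_injective h)).1.symm

theorem attSet_inter_copy {X : Set V} {I : Set ι} {Z : ι → Set W} {A : Set (V ⊕ ι × W)}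
    (hA : A ⊆ attSet X I Z) {i : ι} (h : A ⊆ range (attCopy G a T i)) :
    A ⊆ copySet V i (Z i) := by
  intro z hz
  obtain ⟨x, rfl⟩ := h hz
  have := hA hz
  simp only [attCopy_apply, inr_mem_attSet] at this
  simp [this.2]

end attach

end Run7.h891
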