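import Mathlib

/-! Basic notions: reachability inside a set, connected sets, minor models relative to vertex sets. -/

set_option autoImplicit false

open Set

namespace Run7.h891

universe u v w

variable {V : Type u} {W : Type v} {U : Type w}

/-- `y` can be reached from `x` inside the vertex set `A`. -/
def Reach (G : SimpleGraph V) (A : Set V) (x y : V) : Prop :=
  x ∈ A ∧ Relation.ReflTransGen (fun a b => G.Adj a b ∧ b ∈ A) x y

namespace Reach

variable {G : SimpleGraph V} {A A' : Set V} {x y z : V}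

theorem left (h : Reach G A x y) : x ∈ A := h.1

theorem right (h : Reach G A x y) : y ∈ A := by
  obtain ⟨hx, h⟩ := h
  induction h with
  | refl => exact hx
  | tail _ h2 _ => exact h2.2

theorem refl (hx : x ∈ A) : Reach G A x x := ⟨hx, Relation.ReflTransGen.refl⟩

theorem trans (h : Reach G A x y) (h' : Reach G A y z) : Reach G A x z :=
  ⟨h.1, h.2.trans h'.2⟩

theorem step (h : Reach G A x y) (h1 : G.Adj y z) (hz : z ∈ A) : Reach G A x z :=
  ⟨h.1, h.2.tail ⟨h1, hz⟩⟩

theorem of_adj (hx : x ∈ A) (hy : y ∈ A) (h : G.Adj x y) : Reach G A x y :=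
  (refl hx).step h hy

theorem symm (h : Reach G A x y) : Reach G A y x := by
  obtain ⟨hx, h⟩ := h
  induction h with
  | refl => exact refl hx
  | @tail b c hb h2 ih =>
    have hbA : b ∈ A := right ⟨hx, hb⟩
    exact (of_adj h2.2 hbA h2.1.symm).trans ih

theorem mono (h : Reach G A x y) (hA : A ⊆ A') : Reach G A' x y := by
  obtain ⟨hx, h⟩ := h
  induction h with
  | refl => exact refl (hA hx)
  | tail _ h2 ih => exact ih.step h2.1 (hA h2.2)

/-- A set which contains the start and is closed under edges inside `A` contains the end. -/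
theorem closed (h : Reach G A x y) {P : Set V} (hx : x ∈ P)
    (hP : ∀ a ∈ P, a ∈ A → ∀ b ∈ A, G.Adj a b → b ∈ P) : y ∈ P := by
  obtain ⟨hxA, h⟩ := h
  induction h with
  | refl => exact hx
  | @tail b c hb h2 ih => exact hP b ih (right ⟨hxA, hb⟩) c h2.2 h2.1

theorem induct (h : Reach G A x y) {P : V → Prop} (hx : P x)
    (hP : ∀ a b, P a → Reach G A x a → b ∈ A → G.Adj a b → P b) : P y := by
  obtain ⟨hxA, h⟩ := h
  induction h with
  | refl => exact hx
  | @tail b c hb h2 ih => exact hP b c ih ⟨hxA, hb⟩ h2.2 h2.1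

end Reach

/-- The vertex set `A` is connected in `G` (the empty set counts as connected here). -/
def Conn (G : SimpleGraph V) (A : Set V) : Prop := ∀ x ∈ A, ∀ y ∈ A, Reach G A x y

/-- The component of `v` in `G[X]`. -/
def comp (G : SimpleGraph V) (X : Set V) (v : V) : Set V := {w | Reach G X v w}

section comp

variable {G : SimpleGraph V} {X Y A : Set V} {v w : V}

theorem comp_subset : comp G X v ⊆ X := fun _ h => Reach.right h

theorem mem_comp_self (hv : v ∈ X) : v ∈ comp G X v := Reach.refl hv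

theorem reach_comp {a b : V} (h : Reach G X a b) : Reach G (comp G X a) a b := by
  have : b ∈ {b | Reach G X a b ∧ Reach G (comp G X a) a b} := by
    refine h.closed (P := {b | Reach G X a b ∧ Reach G (comp G X a) a b}) ?_ ?_
    · exact ⟨Reach.refl h.left, Reach.refl (mem_comp_self h.left)⟩
    · rintro c ⟨hc1, hc2⟩ _ d hd hcd
      have h3 : Reach G X a d := hc1.step hcd hd
      exact ⟨h3, hc2.step hcd h3⟩
  exact this.2

theorem comp_conn : Conn G (comp G X v) := by
  intro x hx y hy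
  have h1 := reach_comp hx
  have h2 := reach_comp hy
  exact h1.symm.trans h2

theorem comp_eq_of_mem (h : w ∈ comp G X v) : comp G X w = comp G X v := by
  have h' : Reach G X v w := h
  ext z
  exact ⟨fun hz => h'.trans hz, fun hz => h'.symm.trans hz⟩

theorem conn_subset_comp (hA : Conn G A) (hAX : A ⊆ X) {x : V} (hx : x ∈ A)
    (hxv : x ∈ comp G X v) : A ⊆ comp G X v := by
  intro y hy
  have h1 : Reach G X x y := (hA x hx y hy).mono hAX
  have h2 : Reach G X v x := hxv
  exact h2.trans h1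

theorem conn_subset_comp_self (hA : Conn G A) (hAX : A ⊆ X) {x : V} (hx : x ∈ A) :
    A ⊆ comp G X x :=
  conn_subset_comp hA hAX hx (mem_comp_self (hAX hx))

theorem comp_mono (h : X ⊆ Y) : comp G X v ⊆ comp G Y v := fun _ hw => Reach.mono hw h

theorem comp_closed {a b : V} (ha : a ∈ comp G X v) (hb : b ∈ X) (hab : G.Adj a b) :
    b ∈ comp G X v := Reach.step ha hab hb

end comp

theorem conn_singleton (G : SimpleGraph V) (x : V) : Conn G {x} := by
  rintro y rfl z rfl
  exact Reach.refl rfl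

theorem conn_biUnion {G : SimpleGraph V} {H : SimpleGraph W} {T : Set W} {B : W → Set V}
    (hT : Conn H T) (hc : ∀ w ∈ T, Conn G (B w))
    (hadj : ∀ a ∈ T, ∀ b ∈ T, H.Adj a b → ∃ x ∈ B a, ∃ y ∈ B b, G.Adj x y) :
    Conn G (⋃ w ∈ T, B w) := by
  intro x hx y hy
  simp only [mem_iUnion, exists_prop] at hx hy
  obtain ⟨a, ha, hxa⟩ := hx
  obtain ⟨b, hb, hyb⟩ := hy
  have key : ∀ z ∈ B b, Reach G (⋃ w ∈ T, B w) x z := by
    have hsub : ∀ w ∈ T, B w ⊆ ⋃ w ∈ T, B w := fun w hw => subset_biUnion_of_mem hw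
    have h := hT a ha b hb
    refine h.induct (P := fun b => ∀ z ∈ B b, Reach G (⋃ w ∈ T, B w) x z) ?_ ?_
    · intro z hz
      exact (hc a ha x hxa z hz).mono (hsub a ha)
    · intro c d ihc hac hd hcd z hz
      obtain ⟨p, hp, q, hq, hpq⟩ := hadj c hac.right d hd hcd
      exact ((ihc p hp).step hpq (hsub d hd hq)).trans ((hc d hd q hq z hz).mono (hsub d hd))
  exact key y hyb

/-- `B` is a minor model of `H[Y]` in `G[X]`. -/
structure IsModel (H : SimpleGraph W) (Y : Set W) (G : SimpleGraph V) (X : Set V)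
    (B : W → Set V) : Prop where
  sub : ∀ w ∈ Y, B w ⊆ X
  ne : ∀ w ∈ Y, (B w).Nonempty
  conn : ∀ w ∈ Y, Conn G (B w)
  disj : ∀ a ∈ Y, ∀ b ∈ Y, a ≠ b → Disjoint (B a) (B b)
  adj : ∀ a ∈ Y, ∀ b ∈ Y, H.Adj a b → ∃ x ∈ B a, ∃ y ∈ B b, G.Adj x y

/-- `H[Y]` is a minor of `G[X]`. -/
def Minor (H : SimpleGraph W) (Y : Set W) (G : SimpleGraph V) (X : Set V) : Prop :=
  ∃ B : W → Set V, IsModel H Y G X B

namespace IsModel

variable {H : SimpleGraph W} {Y : Set W} {G : SimpleGraph V} {X : Set V} {B : W → Set V}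

theorem eq_of_mem (h : IsModel H Y G X B) {a b : W} (ha : a ∈ Y) (hb : b ∈ Y) {x : V}
    (hxa : x ∈ B a) (hxb : x ∈ B b) : a = b := by
  by_contra hab
  exact Set.disjoint_left.1 (h.disj a ha b hb hab) hxa hxb

theorem restrict (h : IsModel H Y G X B) {Y' : Set W} (hY : Y' ⊆ Y) : IsModel H Y' G X B where
  sub w hw := h.sub w (hY hw)
  ne w hw := h.ne w (hY hw)
  conn w hw := h.conn w (hY hw)
  disj a ha b hb := h.disj a (hY ha) b (hY hb)
  adj a ha b hb := h.adj a (hY ha) b (hY hb)

theorem shrink (h : IsModel H Y G X B) {X' : Set V} (hX : ∀ w ∈ Y, B w ⊆ X') :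
    IsModel H Y G X' B where
  sub := hX
  ne := h.ne
  conn := h.conn
  disj := h.disj
  adj := h.adj

theorem refl (G : SimpleGraph V) {X X' : Set V} (hX : X ⊆ X') :
    IsModel G X G X' (fun v => {v}) where
  sub w hw := by
    rintro _ rfl
    exact hX hw
  ne w _ := singleton_nonempty w
  conn w _ := conn_singleton G w
  disj a _ b _ hab := by simpa using hab
  adj a _ b _ hab := ⟨a, rfl, b, rfl, hab⟩

/-- The union of the branch sets over a connected set. -/
theorem conn_union (h : IsModel H Y G X B) {T : Set W} (hT : T ⊆ Y) (hc : Conn H T) :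
    Conn G (⋃ w ∈ T, B w) :=
  conn_biUnion hc (fun w hw => h.conn w (hT hw))
    (fun a ha b hb => h.adj a (hT ha) b (hT hb))

theorem comp {K : SimpleGraph U} {Z : Set U} {C : V → Set U}
    (h : IsModel H Y G X B) (h' : IsModel G X K Z C) :
    IsModel H Y K Z (fun w => ⋃ v ∈ B w, C v) where
  sub w hw := by
    intro z hz
    simp only [mem_iUnion, exists_prop] at hz
    obtain ⟨v, hv, hz⟩ := hz
    exact h'.sub v (h.sub w hw hv) hz
  ne w hw := by
    obtain ⟨v, hv⟩ := h.ne w hw
    obtain ⟨z, hz⟩ := h'.ne v (h.sub w hw hv)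
    exact ⟨z, mem_biUnion hv hz⟩
  conn w hw := h'.conn_union (h.sub w hw) (h.conn w hw)
  disj a ha b hb hab := by
    rw [Set.disjoint_left]
    intro z hza hzb
    simp only [mem_iUnion, exists_prop] at hza hzb
    obtain ⟨v, hv, hz⟩ := hza
    obtain ⟨v', hv', hz'⟩ := hzb
    have := h'.eq_of_mem (h.sub a ha hv) (h.sub b hb hv') hz hz'
    subst this
    exact hab (h.eq_of_mem ha hb hv hv')
  adj a ha b hb hab := by
    obtain ⟨x, hx, y, hy, hxy⟩ := h.adj a ha b hb hab
    obtain ⟨p, hp, q, hq, hpq⟩ := h'.adj x (h.sub a ha hx) y (h.sub b hb hy) hxy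
    exact ⟨p, mem_biUnion hx hp, q, mem_biUnion hy hq, hpq⟩

end IsModel

theorem Minor.refl (G : SimpleGraph V) (X : Set V) : Minor G X G X :=
  ⟨_, IsModel.refl G subset_rfl⟩

theorem Minor.of_subset (G : SimpleGraph V) {X X' : Set V} (h : X ⊆ X') : Minor G X G X' :=
  ⟨_, IsModel.refl G h⟩

theorem Minor.trans {H : SimpleGraph W} {Y : Set W} {G : SimpleGraph V} {X : Set V}
    {K : SimpleGraph U} {Z : Set U} (h : Minor H Y G X) (h' : Minor G X K Z) :
    Minor H Y K Z := by
  obtain ⟨B, hB⟩ := h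
  obtain ⟨C, hC⟩ := h'
  exact ⟨_, hB.comp hC⟩

end Run7.h891
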