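import Pool.Agent.Run7.h891.Count

/-! Measurability of the rank and analyticity of the minor relation. -/

set_option autoImplicit false

open Set Ordinal MeasureTheory

namespace Run7.h891

section reach

variable {Ω : Type*} [MeasurableSpace Ω]

/-- Vertices reached in exactly `n` steps. -/
def stepReach (G : SimpleGraph ℕ) (A : Set ℕ) (x : ℕ) : ℕ → Set ℕ
  | 0 => {y | y = x ∧ x ∈ A}
  | n + 1 => {y | ∃ z, z ∈ stepReach G A x n ∧ G.Adj z y ∧ y ∈ A}

theorem reach_iff_step {G : SimpleGraph ℕ} {A : Set ℕ} {x y : ℕ} :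
    Reach G A x y ↔ ∃ n, y ∈ stepReach G A x n := by
  constructor
  · intro h
    refine h.induct (P := fun y => ∃ n, y ∈ stepReach G A x n) ⟨0, rfl, h.left⟩ ?_
    rintro a b ⟨n, hn⟩ _ hb hab
    exact ⟨n + 1, a, hn, hab, hb⟩
  · rintro ⟨n, hn⟩
    induction n generalizing y with
    | zero =>
      obtain ⟨rfl, h⟩ := hn
      exact Reach.refl h
    | succ n ih =>
      obtain ⟨z, hz, h1, h2⟩ := hn
      exact (ih hz).step h1 h2

theorem meas_reach {Gr : Ω → SimpleGraph ℕ} {A : Ω → Set ℕ}
    (hG : ∀ a b, MeasurableSet {o | (Gr o).Adj a b}) (hA : ∀ v, MeasurableSet {o | v ∈ A o})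
    (x y : ℕ) : MeasurableSet {o | Reach (Gr o) (A o) x y} := by
  have h1 : ∀ n y, MeasurableSet {o | y ∈ stepReach (Gr o) (A o) x n} := by
    intro n
    induction n with
    | zero =>
      intro y
      by_cases h : y = x
      · subst h
        have : {o | y ∈ stepReach (Gr o) (A o) y 0} = {o | y ∈ A o} := by
          ext o
          simp [stepReach]
        rw [this]
        exact hA y
      · have : {o | y ∈ stepReach (Gr o) (A o) x 0} = ∅ := by
          ext o
          simp [stepReach, h]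
        rw [this]
        exact MeasurableSet.empty
    | succ n ih =>
      intro y
      have : {o | y ∈ stepReach (Gr o) (A o) x (n + 1)} =
          ⋃ z, ({o | z ∈ stepReach (Gr o) (A o) x n} ∩ ({o | (Gr o).Adj z y} ∩ {o | y ∈ A o})) := by
        ext o
        simp [stepReach]
      rw [this]
      exact MeasurableSet.iUnion fun z => (ih z).inter ((hG z y).inter (hA y))
  have : {o | Reach (Gr o) (A o) x y} = ⋃ n, {o | y ∈ stepReach (Gr o) (A o) x n} := by
    ext o
    simp [reach_iff_step]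
  rw [this]
  exact MeasurableSet.iUnion fun n => h1 n y

/-- Iterated components. -/
def XX (G : SimpleGraph ℕ) : List (Finset ℕ × ℕ) → Set ℕ
  | [] => Set.univ
  | p :: l => comp G (XX G l \ p.1) p.2

theorem meas_XX {Gr : Ω → SimpleGraph ℕ} (hG : ∀ a b, MeasurableSet {o | (Gr o).Adj a b})
    (l : List (Finset ℕ × ℕ)) : ∀ v, MeasurableSet {o | v ∈ XX (Gr o) l} := by
  induction l with
  | nil =>
    intro v
    simp [XX]
  | cons p l ih =>
    intro v
    have h2 : ∀ u, MeasurableSet {o | u ∈ XX (Gr o) l \ (p.1 : Set ℕ)} := by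
      intro u
      by_cases hu : u ∈ p.1
      · have : {o | u ∈ XX (Gr o) l \ (p.1 : Set ℕ)} = ∅ := by
          ext o
          simp [hu]
        rw [this]
        exact MeasurableSet.empty
      · have : {o | u ∈ XX (Gr o) l \ (p.1 : Set ℕ)} = {o | u ∈ XX (Gr o) l} := by
          ext o
          simp [hu]
        rw [this]
        exact ih u
    exact meas_reach hG h2 p.2 v

theorem meas_rank {Gr : Ω → SimpleGraph ℕ} (hG : ∀ a b, MeasurableSet {o | (Gr o).Adj a b})
    (α : Ordinal.{0}) (hα : α < ω₁) :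
    ∀ l : List (Finset ℕ × ℕ), MeasurableSet {o | RankLE (Gr o) α (XX (Gr o) l)} := by
  induction α using WellFoundedLT.induction with
  | _ α ih =>
  intro l
  have hc : Countable (Set.Iio α) := countable_Iio_of_lt hα
  have hfin : MeasurableSet {o | (XX (Gr o) l).Finite} := by
    have : {o | (XX (Gr o) l).Finite} =
        ⋃ N : ℕ, ⋂ v : ℕ, ({o | v ∈ XX (Gr o) l}ᶜ ∪ {_o | v ≤ N}) := by
      ext o
      simp only [mem_ofPred_eq, mem_iUnion, mem_iInter, mem_union, mem_compl_iff]
      constructor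
      · intro h
        obtain ⟨N, hN⟩ := h.bddAbove
        refine ⟨N, fun v => ?_⟩
        by_cases hv : v ∈ XX (Gr o) l
        · exact Or.inr (hN hv)
        · exact Or.inl hv
      · rintro ⟨N, hN⟩
        refine (Set.finite_Iic N).subset fun v hv => ?_
        exact (hN v).resolve_left (not_not.2 hv)
    rw [this]
    exact MeasurableSet.iUnion fun N => MeasurableSet.iInter fun v =>
      (meas_XX hG l v).compl.union (MeasurableSet.const _)
  have : {o | RankLE (Gr o) α (XX (Gr o) l)} = {o | (XX (Gr o) l).Finite} ∪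
      ⋃ S : Finset ℕ, ⋂ v : ℕ, ({o | v ∈ XX (Gr o) l ∧ v ∉ S}ᶜ ∪
        ⋃ β : Set.Iio α, {o | RankLE (Gr o) β (XX (Gr o) ((S, v) :: l))}) := by
    ext o
    simp only [mem_ofPred_eq, mem_union, mem_iUnion, mem_iInter, mem_compl_iff]
    rw [rankLE_iff]
    refine or_congr Iff.rfl ?_
    constructor
    · rintro ⟨S, hS, h⟩
      refine ⟨hS.toFinset, fun v => ?_⟩
      by_cases hv : v ∈ XX (Gr o) l ∧ v ∉ hS.toFinset
      · right
        rw [Set.Finite.mem_toFinset] at hv
        obtain ⟨β, hβ, h'⟩ := h v hv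
        refine ⟨⟨β, hβ⟩, ?_⟩
        show RankLE (Gr o) β (comp (Gr o) (XX (Gr o) l \ (hS.toFinset : Set ℕ)) v)
        rwa [Set.Finite.coe_toFinset]
      · exact Or.inl hv
    · rintro ⟨S, h⟩
      refine ⟨S, S.finite_toSet, fun v hv => ?_⟩
      obtain ⟨⟨β, hβ⟩, h'⟩ := (h v).resolve_left (not_not.2 hv)
      exact ⟨β, hβ, h'⟩
  rw [this]
  refine hfin.union (MeasurableSet.iUnion fun S => MeasurableSet.iInter fun v =>
    MeasurableSet.union ?_ (MeasurableSet.iUnion fun β => ih β.1 β.2 (β.2.trans hα) _))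
  by_cases hv : v ∈ S
  · have : {o | v ∈ XX (Gr o) l ∧ v ∉ S} = ∅ := by
      ext o
      simp [hv]
    rw [this, compl_empty]
    exact MeasurableSet.univ
  · have : {o | v ∈ XX (Gr o) l ∧ v ∉ S} = {o | v ∈ XX (Gr o) l} := by
      ext o
      simp [hv]
    rw [this]
    exact (meas_XX hG l v).compl

/-- The family of branch sets coded by a function. -/
def brs (b : ℕ → ℕ) (w : ℕ) : Set ℕ := {v | b v = w + 1}

theorem exists_brs {H G : SimpleGraph ℕ} (h : Minor H Set.univ G Set.univ) :
    ∃ b : ℕ → ℕ, IsModel H Set.univ G Set.univ (brs b) := by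
  classical
  obtain ⟨B, hB⟩ := h
  refine ⟨fun v => if h : ∃ w, v ∈ B w then h.choose + 1 else 0, ?_⟩
  have : brs (fun v => if h : ∃ w, v ∈ B w then h.choose + 1 else 0) = B := by
    funext w
    ext v
    show (if h : ∃ w, v ∈ B w then h.choose + 1 else 0) = w + 1 ↔ _
    constructor
    · intro h
      by_cases hv : ∃ w, v ∈ B w
      · rw [dif_pos hv] at h
        have h1 : hv.choose = w := by omega
        rw [← h1]
        exact hv.choose_spec
      · rw [dif_neg hv] at h
        omega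
    · intro h
      have hv : ∃ w, v ∈ B w := ⟨w, h⟩
      rw [dif_pos hv]
      have := hB.eq_of_mem (mem_univ _) (mem_univ _) hv.choose_spec h
      omega
  rw [this]
  exact hB

theorem meas_model {Gr1 Gr2 : Ω → SimpleGraph ℕ} {b : Ω → ℕ → ℕ}
    (hG1 : ∀ x y, MeasurableSet {o | (Gr1 o).Adj x y})
    (hG2 : ∀ x y, MeasurableSet {o | (Gr2 o).Adj x y})
    (hb : ∀ v k, MeasurableSet {o | b o v = k}) :
    MeasurableSet {o | IsModel (Gr1 o) Set.univ (Gr2 o) Set.univ (brs (b o))} := by
  have : {o | IsModel (Gr1 o) Set.univ (Gr2 o) Set.univ (brs (b o))} =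
      (⋂ w : ℕ, ⋃ v : ℕ, {o | b o v = w + 1}) ∩
      ((⋂ w : ℕ, ⋂ x : ℕ, ⋂ y : ℕ, ({o | b o x = w + 1}ᶜ ∪ ({o | b o y = w + 1}ᶜ ∪
        {o | Reach (Gr2 o) (brs (b o) w) x y}))) ∩
      (⋂ a : ℕ, ⋂ c : ℕ, ({o | (Gr1 o).Adj a c}ᶜ ∪ ⋃ x : ℕ, ⋃ y : ℕ,
        ({o | b o x = a + 1} ∩ ({o | b o y = c + 1} ∩ {o | (Gr2 o).Adj x y}))))) := by
    ext o
    simp only [mem_ofPred_eq, mem_inter_iff, mem_iUnion, mem_iInter, mem_compl_iff, mem_union]
    constructor
    · intro h
      refine ⟨fun w => h.ne w (mem_univ w), fun w x y => ?_, fun a c => ?_⟩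
      · by_cases hx : b o x = w + 1
        · by_cases hy : b o y = w + 1
          · exact Or.inr (Or.inr (h.conn w (mem_univ w) x hx y hy))
          · exact Or.inr (Or.inl hy)
        · exact Or.inl hx
      · by_cases hac : (Gr1 o).Adj a c
        · obtain ⟨x, hx, y, hy, hxy⟩ := h.adj a (mem_univ a) c (mem_univ c) hac
          exact Or.inr ⟨x, y, hx, hy, hxy⟩
        · exact Or.inl hac
    · rintro ⟨h1, h2, h3⟩
      refine ⟨fun w _ => subset_univ _, fun w _ => h1 w, ?_, ?_, ?_⟩
      · intro w _ x hx y hy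
        exact ((h2 w x y).resolve_left (not_not.2 hx)).resolve_left (not_not.2 hy)
      · intro a _ c _ hac
        rw [Set.disjoint_left]
        intro x hx hx'
        have h4 : b o x = a + 1 := hx
        have h5 : b o x = c + 1 := hx'
        omega
      · intro a _ c _ hac
        obtain ⟨x, y, hx, hy, hxy⟩ := (h3 a c).resolve_left (not_not.2 hac)
        exact ⟨x, hx, y, hy, hxy⟩
  rw [this]
  refine (MeasurableSet.iInter fun w => MeasurableSet.iUnion fun v => hb v _).inter
    ((MeasurableSet.iInter fun w => MeasurableSet.iInter fun x => MeasurableSet.iInter fun y =>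
      (hb x _).compl.union ((hb y _).compl.union (meas_reach hG2 (fun v => hb v _) x y))).inter
    (MeasurableSet.iInter fun a => MeasurableSet.iInter fun c => (hG1 a c).compl.union
      (MeasurableSet.iUnion fun x => MeasurableSet.iUnion fun y =>
        (hb x _).inter ((hb y _).inter (hG2 x y)))))

end reach

instance polish_aux : PolishSpace (ℕ × ℕ → Bool) := by
  have h1 : SecondCountableTopology (ℕ × ℕ → Bool) := inferInstance
  have h2 : TopologicalSpace.IsCompletelyMetrizableSpace (ℕ × ℕ → Bool) := inferInstance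
  exact { h1, h2 with }

/-- The graph coded by a function. -/
def gr (E : ℕ × ℕ → Bool) : SimpleGraph ℕ where
  Adj a b := E (a, b) = true ∧ E (b, a) = true ∧ a ≠ b
  symm := ⟨fun _ _ h => ⟨h.2.1, h.1, h.2.2.symm⟩⟩
  loopless := ⟨fun _ h => h.2.2 rfl⟩

theorem gr_edgeIndicator (G : SimpleGraph ℕ) : gr (edgeIndicator G) = G := by
  ext a b
  show (edgeIndicator G (a, b) = true ∧ edgeIndicator G (b, a) = true ∧ a ≠ b) ↔ G.Adj a b
  simp only [edgeIndicator, decide_eq_true_eq]
  exact ⟨fun h => h.1, fun h => ⟨h, h.symm, h.ne⟩⟩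

theorem meas_coord {ι : Type*} {β : Type*} [MeasurableSpace β] [MeasurableSingletonClass β]
    (i : ι) (b : β) : MeasurableSet {E : ι → β | E i = b} := by
  have h : Measurable (fun E : ι → β => E i) := measurable_pi_apply i
  exact h (measurableSet_singleton b)

theorem meas_gr (a b : ℕ) : MeasurableSet {E : ℕ × ℕ → Bool | (gr E).Adj a b} := by
  have h1 : ∀ p : ℕ × ℕ, MeasurableSet {E : ℕ × ℕ → Bool | E p = true} := fun p =>
    meas_coord p true
  have : {E : ℕ × ℕ → Bool | (gr E).Adj a b} =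
      {E : ℕ × ℕ → Bool | E (a, b) = true} ∩ ({E | E (b, a) = true} ∩ {_E | a ≠ b}) := rfl
  rw [this]
  exact (h1 _).inter ((h1 _).inter (MeasurableSet.const _))

theorem meas_range : MeasurableSet (range edgeIndicator) := by
  have : range edgeIndicator = {E : ℕ × ℕ → Bool | ∀ a b, (gr E).Adj a b ↔ E (a, b) = true} := by
    ext E
    constructor
    · rintro ⟨G, rfl⟩ a b
      rw [gr_edgeIndicator]
      simp [edgeIndicator]
    · intro h
      refine ⟨gr E, ?_⟩
      funext p
      have h1 := h p.1 p.2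
      rw [Bool.eq_iff_iff]
      simp only [edgeIndicator, decide_eq_true_eq]
      exact h1
  rw [this]
  have h2 : {E : ℕ × ℕ → Bool | ∀ a b, (gr E).Adj a b ↔ E (a, b) = true} =
      ⋂ a : ℕ, ⋂ b : ℕ, {E | (gr E).Adj a b ↔ E (a, b) = true} := by
    ext E
    simp
  rw [h2]
  refine MeasurableSet.iInter fun a => MeasurableSet.iInter fun b => ?_
  have h3 : MeasurableSet {E : ℕ × ℕ → Bool | E (a, b) = true} := meas_coord (a, b) true
  have h4 : {E : ℕ × ℕ → Bool | (gr E).Adj a b ↔ E (a, b) = true} =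
      ({E | (gr E).Adj a b} ∩ {E | E (a, b) = true}) ∪
      ({E | (gr E).Adj a b}ᶜ ∩ {E | E (a, b) = true}ᶜ) := by
    ext E
    simp only [mem_ofPred_eq, mem_union, mem_inter_iff, mem_compl_iff]
    tauto
  rw [h4]
  exact ((meas_gr a b).inter h3).union ((meas_gr a b).compl.inter h3.compl)

theorem borelFamily_iff {C : Set (SimpleGraph ℕ)} :
    BorelFamily C ↔ ∃ B : Set (ℕ × ℕ → Bool), MeasurableSet B ∧ edgeIndicator ⁻¹' B = C := by
  unfold BorelFamily graphTopology
  rw [borel_comap, MeasurableSpace.measurableSet_comap, ← BorelSpace.measurable_eq]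

theorem analytic_down (G : SimpleGraph ℕ) :
    AnalyticSet {E : ℕ × ℕ → Bool | Minor (gr E) Set.univ G Set.univ} := by
  have h1 : MeasurableSet {p : (ℕ × ℕ → Bool) × (ℕ → ℕ) |
      IsModel (gr p.1) Set.univ G Set.univ (brs p.2)} := by
    refine meas_model (Ω := (ℕ × ℕ → Bool) × (ℕ → ℕ)) (Gr1 := fun p => gr p.1)
      (Gr2 := fun _ => G) (b := fun p => p.2) ?_ ?_ ?_
    · intro x y
      exact measurable_fst (meas_gr x y)
    · intro x y
      exact MeasurableSet.const _
    · intro v k
      exact measurable_snd (meas_coord v k)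
  have h2 : {E : ℕ × ℕ → Bool | Minor (gr E) Set.univ G Set.univ} =
      Prod.fst '' {p : (ℕ × ℕ → Bool) × (ℕ → ℕ) |
        IsModel (gr p.1) Set.univ G Set.univ (brs p.2)} := by
    ext E
    constructor
    · intro h
      obtain ⟨b, hb⟩ := exists_brs h
      exact ⟨(E, b), hb, rfl⟩
    · rintro ⟨⟨E', b⟩, hb, rfl⟩
      exact ⟨_, hb⟩
  rw [h2]
  exact h1.analyticSet_image measurable_fst

theorem analytic_up (G : SimpleGraph ℕ) :
    AnalyticSet {E : ℕ × ℕ → Bool | Minor G Set.univ (gr E) Set.univ} := by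
  have h1 : MeasurableSet {p : (ℕ × ℕ → Bool) × (ℕ → ℕ) |
      IsModel G Set.univ (gr p.1) Set.univ (brs p.2)} := by
    refine meas_model (Ω := (ℕ × ℕ → Bool) × (ℕ → ℕ)) (Gr2 := fun p => gr p.1)
      (Gr1 := fun _ => G) (b := fun p => p.2) ?_ ?_ ?_
    · intro x y
      exact MeasurableSet.const _
    · intro x y
      exact measurable_fst (meas_gr x y)
    · intro v k
      exact measurable_snd (meas_coord v k)
  have h2 : {E : ℕ × ℕ → Bool | Minor G Set.univ (gr E) Set.univ} =
      Prod.fst '' {p : (ℕ × ℕ → Bool) × (ℕ → ℕ) |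
        IsModel G Set.univ (gr p.1) Set.univ (brs p.2)} := by
    ext E
    constructor
    · intro h
      obtain ⟨b, hb⟩ := exists_brs h
      exact ⟨(E, b), hb, rfl⟩
    · rintro ⟨⟨E', b⟩, hb, rfl⟩
      exact ⟨_, hb⟩
  rw [h2]
  exact h1.analyticSet_image measurable_fst

theorem meas_rankLE {α : Ordinal.{0}} (hα : α < ω₁) :
    MeasurableSet {E : ℕ × ℕ → Bool | RankLE (gr E) α Set.univ} :=
  meas_rank meas_gr α hα []

/-- The code of a graph on `ℕ` without roots. -/
def code0 (G : SimpleGraph ℕ) : Code (Fin 0) where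
  G := G
  X := Set.univ
  r := fun i => i.elim0
  inj := fun i => i.elim0
  mem := fun i => i.elim0

/-- If there are countably many types of graphs of rank at most `α`, every minor-closed family
of graphs of rank at most `α` is Borel. -/
theorem borel_of_types {C : Set (SimpleGraph ℕ)} {α : Ordinal.{0}} (hα : α < ω₁)
    (htypes : ∃ f : Code (Fin 0) → ℕ, ∀ x y : Code (Fin 0), x.RankLE α → y.RankLE α →
      f x = f y → RLE x y)
    (hC : ∀ G ∈ C, RankLE G α Set.univ)
    (hmc : ∀ G ∈ C, ∀ H : SimpleGraph ℕ, Minor H Set.univ G Set.univ → H ∈ C) :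
    BorelFamily C := by
  classical
  obtain ⟨f, hf⟩ := htypes
  have hf' : ∀ G H : SimpleGraph ℕ, RankLE G α Set.univ → RankLE H α Set.univ →
      f (code0 G) = f (code0 H) → Minor G Set.univ H Set.univ := by
    intro G H hG hH h
    obtain ⟨B, hB, _⟩ := hf (code0 G) (code0 H) hG hH h
    exact ⟨B, hB⟩
  let R : Set (ℕ × ℕ → Bool) := {E | RankLE (gr E) α Set.univ}
  have hR : MeasurableSet R := meas_rankLE hα
  -- the family as a set of codes
  let C' : Set (ℕ × ℕ → Bool) := {E | gr E ∈ C}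
  have hCR : C' ⊆ R := fun E hE => hC _ hE
  have hA : ∀ (P : Set (SimpleGraph ℕ)), ∃ rep : ℕ → SimpleGraph ℕ, ∀ G ∈ P,
      rep (f (code0 G)) ∈ P ∧ f (code0 (rep (f (code0 G)))) = f (code0 G) := by
    intro P
    refine ⟨fun t => if h : ∃ G ∈ P, f (code0 G) = t then h.choose else ⊥, fun G hG => ?_⟩
    have h : ∃ G' ∈ P, f (code0 G') = f (code0 G) := ⟨G, hG, rfl⟩
    simp only [dif_pos h]
    exact h.choose_spec
  -- `C'` is analytic
  have h1 : AnalyticSet C' := by
    obtain ⟨rep, hrep⟩ := hA C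
    have : C' = ⋃ t : {t : ℕ // rep t ∈ C},
        {E : ℕ × ℕ → Bool | Minor (gr E) Set.univ (rep t) Set.univ} := by
      ext E
      simp only [mem_iUnion]
      constructor
      · intro hE
        obtain ⟨h2, h3⟩ := hrep (gr E) hE
        exact ⟨⟨_, h2⟩, hf' _ _ (hC _ hE) (hC _ h2) h3.symm⟩
      · rintro ⟨⟨t, ht⟩, h⟩
        exact hmc _ ht _ h
    rw [this]
    exact AnalyticSet.iUnion fun t => analytic_down _
  -- the complement is analytic
  have h2 : AnalyticSet C'ᶜ := by
    let P : Set (SimpleGraph ℕ) := {G | RankLE G α Set.univ ∧ G ∉ C}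
    obtain ⟨rep, hrep⟩ := hA P
    have h3 : C'ᶜ = Rᶜ ∪ ⋃ t : {t : ℕ // rep t ∈ P},
        (R ∩ {E : ℕ × ℕ → Bool | Minor (rep t) Set.univ (gr E) Set.univ}) := by
      ext E
      simp only [mem_union, mem_iUnion, mem_compl_iff, mem_inter_iff]
      constructor
      · intro hE
        by_cases hER : E ∈ R
        · right
          have hEP : gr E ∈ P := ⟨hER, hE⟩
          obtain ⟨h4, h5⟩ := hrep (gr E) hEP
          exact ⟨⟨_, h4⟩, hER, hf' _ _ h4.1 hER h5⟩
        · exact Or.inl hER
      · rintro (h | ⟨⟨t, ht⟩, _, h⟩) hE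
        · exact h (hCR hE)
        · exact ht.2 (hmc _ hE _ h)
    rw [h3]
    have h4 : AnalyticSet (⋃ b : Bool, (bif b then Rᶜ else ⋃ t : {t : ℕ // rep t ∈ P},
        (R ∩ {E : ℕ × ℕ → Bool | Minor (rep t) Set.univ (gr E) Set.univ}))) := by
      refine AnalyticSet.iUnion fun b => ?_
      cases b
      · refine AnalyticSet.iUnion fun t => ?_
        have h5 : AnalyticSet (⋂ c : Bool, (bif c then R else
            {E : ℕ × ℕ → Bool | Minor (rep t) Set.univ (gr E) Set.univ})) := by
          refine AnalyticSet.iInter fun c => ?_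
          cases c
          · exact analytic_up _
          · exact hR.analyticSet
        convert h5 using 1
        ext E
        simp [and_comm]
      · exact hR.compl.analyticSet
    convert h4 using 1
    ext E
    simp only [mem_union, mem_iUnion, Bool.exists_bool]
    simp only [cond_true, cond_false, mem_iUnion]
    tauto
  have h3 : MeasurableSet C' := h1.measurableSet_of_compl h2
  rw [borelFamily_iff]
  refine ⟨C', h3, ?_⟩
  ext G
  show gr (edgeIndicator G) ∈ C ↔ G ∈ C
  rw [gr_edgeIndicator]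

/-- Under well-quasi-ordering, every minor-closed family of bounded countable rank is Borel. -/
theorem borel_of_wqo (hW : WQO) {C : Set (SimpleGraph ℕ)} {α : Ordinal.{0}} (hα : α < ω₁)
    (hC : ∀ G ∈ C, RankLE G α Set.univ)
    (hmc : ∀ G ∈ C, ∀ H : SimpleGraph ℕ, Minor H Set.univ G Set.univ → H ∈ C) :
    BorelFamily C :=
  borel_of_types hα (countable_types (fun n => rwqo_of_wqo hW (Fin n)) α hα 0) hC hmc

end Run7.h891
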