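import Pool.Agent.Run7.h891.Gadget

/-! Well-quasi-ordering of rooted graphs from that of unrooted ones. -/

set_option autoImplicit false

open Set Ordinal

namespace Run7.h891

universe u v w

/-- A rooted graph, with vertices in `ℕ`. -/
structure Code (Q : Type) where
  G : SimpleGraph ℕ
  X : Set ℕ
  r : Q → ℕ
  inj : Function.Injective r
  mem : ∀ q, r q ∈ X

/-- Rooted minors. -/
def RLE {Q : Type} (x y : Code Q) : Prop :=
  ∃ B : ℕ → Set ℕ, IsModel x.G x.X y.G y.X B ∧ ∀ q, y.r q ∈ B (x.r q)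

theorem RLE.refl {Q : Type} (x : Code Q) : RLE x x :=
  ⟨_, IsModel.refl x.G subset_rfl, fun _ => rfl⟩

theorem RLE.trans {Q : Type} {x y z : Code Q} (h : RLE x y) (h' : RLE y z) : RLE x z := by
  obtain ⟨B, hB, hB'⟩ := h
  obtain ⟨C, hC, hC'⟩ := h'
  exact ⟨_, hB.comp hC, fun q => mem_biUnion (hB' q) (hC' q)⟩

/-- The rank of a code is at most `α`. -/
def Code.RankLE {Q : Type} (x : Code Q) (α : Ordinal.{0}) : Prop := Run7.h891.RankLE x.G α x.X

/-- Well-quasi-ordering of the countable graphs of countable rank. -/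
def WQO : Prop := ∀ (V : Type) [Countable V] (G : ℕ → SimpleGraph V) (X : ℕ → Set V),
  (∀ k, ∃ α < ω₁, RankLE (G k) α (X k)) → ∃ i j, i < j ∧ Minor (G i) (X i) (G j) (X j)

/-- Well-quasi-ordering of the rooted countable graphs of countable rank. -/
def RWQO (Q : Type) : Prop := ∀ x : ℕ → Code Q, (∀ k, ∃ α < ω₁, (x k).RankLE α) →
  ∃ i j, i < j ∧ RLE (x i) (x j)

section plus

variable {V : Type u}

/-- Underlying relation of `plus`. -/
def plusRel (G : SimpleGraph V) : V ⊕ Bool → V ⊕ Bool → Prop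
  | .inl u, .inl v => G.Adj u v
  | .inl _, .inr _ => True
  | .inr _, .inl _ => True
  | .inr _, .inr _ => False

/-- Add two new vertices, joined to all old ones. -/
def plus (G : SimpleGraph V) : SimpleGraph (V ⊕ Bool) where
  Adj := plusRel G
  symm := ⟨by
    rintro (u | b) (v | c) h
    · exact G.symm.symm _ _ h
    · trivial
    · trivial
    · exact h⟩
  loopless := ⟨by
    rintro (u | b) h
    · exact G.loopless.irrefl _ h
    · exact h⟩

/-- Carrier of `plus`. -/
def plusX (X : Set V) : Set (V ⊕ Bool) := {p | ∀ u, p = .inl u → u ∈ X}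

@[simp] theorem inl_mem_plusX {X : Set V} {u : V} : Sum.inl u ∈ plusX X ↔ u ∈ X := by
  constructor
  · intro h
    exact h u rfl
  · intro h v hv
    rwa [← Sum.inl_injective hv]

@[simp] theorem inr_mem_plusX {X : Set V} {b : Bool} : (Sum.inr b : V ⊕ Bool) ∈ plusX X := by
  intro v hv
  simp at hv

/-- The embedding of a graph in `plus`. -/
def plusEmb (G : SimpleGraph V) : G ↪g plus G where
  toFun := .inl
  inj' := Sum.inl_injective
  map_rel_iff' := Iff.rfl

end plus

section enc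

variable {Q : Type} (x y : Code Q) {W : Type} (T : SimpleGraph W) (Z : Set W)

/-- The extended root map. -/
def Code.rp : Q ⊕ Bool → ℕ ⊕ Bool := Sum.map x.r id

theorem Code.rp_inj : Function.Injective x.rp := by
  rintro (a | a) (b | b) h
  · simp only [Code.rp, Sum.map_inl] at h
    exact congrArg _ (x.inj (Sum.inl_injective h))
  · simp [Code.rp] at h
  · simp [Code.rp] at h
  · simpa [Code.rp] using h

theorem Code.rp_mem (q : Q ⊕ Bool) : x.rp q ∈ plusX x.X := by
  rcases q with q | b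
  · simpa [Code.rp] using x.mem q
  · simp [Code.rp]

/-- The unrooted encoding of a rooted graph. -/
def enc : SimpleGraph ((ℕ ⊕ Bool) ⊕ ((Q ⊕ Bool) × ℕ) × W) :=
  att (plus x.G) (fun p : (Q ⊕ Bool) × ℕ => x.rp p.1) (fun _ => T)

/-- Its carrier. -/
def encX : Set ((ℕ ⊕ Bool) ⊕ ((Q ⊕ Bool) × ℕ) × W) :=
  attSet (plusX x.X) Set.univ (fun _ => Z)

/-- Rooted minors of the extended graphs, up to a permutation of the roots. -/
def PR (π : Equiv.Perm (Q ⊕ Bool)) : Prop :=
  ∃ B : ℕ ⊕ Bool → Set (ℕ ⊕ Bool), IsModel (plus x.G) (plusX x.X) (plus y.G) (plusX y.X) B ∧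
    ∀ q, y.rp (π q) ∈ B (x.rp q)

theorem PR.refl : PR x x 1 :=
  ⟨_, IsModel.refl _ subset_rfl, fun _ => rfl⟩

theorem PR.trans {x y z : Code Q} {π σ : Equiv.Perm (Q ⊕ Bool)} (h : PR x y π) (h' : PR y z σ) :
    PR x z (σ * π) := by
  obtain ⟨B, hB, hB'⟩ := h
  obtain ⟨C, hC, hC'⟩ := h'
  exact ⟨_, hB.comp hC, fun q => mem_biUnion (hB' q) (hC' (π q))⟩

theorem PR.rle {x y : Code Q} (h : PR x y 1) : RLE x y := by
  obtain ⟨B, hB, hr⟩ := h
  have h1 : IsModel x.G x.X (plus y.G) (plusX y.X) (fun v => B (.inl v)) := by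
    refine IsModel.precomp (K := plus x.G) (Z := x.X) (e := Sum.inl)
      (Sum.inl_injective.injOn) (fun _ _ _ _ h => h) (hB.restrict ?_)
    rintro _ ⟨v, hv, rfl⟩
    exact inl_mem_plusX.2 hv
  have h2 : IsModel x.G x.X (plus y.G) (plusEmb y.G '' y.X) (fun v => B (.inl v)) := by
    refine h1.shrink ?_
    rintro v hv (u | b) hz
    · exact ⟨u, inl_mem_plusX.1 (h1.sub v hv hz), rfl⟩
    · exfalso
      have h3 : (Sum.inr b : ℕ ⊕ Bool) ∈ B (.inr b) := hr (.inr b)
      have h4 := hB.eq_of_mem (inl_mem_plusX.2 hv) inr_mem_plusX hz h3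
      simp at h4
  refine ⟨_, h2.pull (plusEmb y.G), fun q => ?_⟩
  exact hr (.inl q)

variable {x y T Z}

theorem enc_comp_rank {β : Ordinal.{0}} (hT : RankLE T β Z) (hy : y.RankLE β)
    (z : (ℕ ⊕ Bool) ⊕ ((Q ⊕ Bool) × ℕ) × W)
    (_hz : z ∈ encX y Z \ range (fun q : Q ⊕ Bool => Sum.inl (y.rp q))) :
    RankLE (enc y T) β
      (comp (enc y T) (encX y Z \ range (fun q : Q ⊕ Bool => Sum.inl (y.rp q))) z) := by
  set R : Set ((ℕ ⊕ Bool) ⊕ ((Q ⊕ Bool) × ℕ) × W) :=
    range (fun q : Q ⊕ Bool => Sum.inl (y.rp q)) with hR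
  have hconn : Conn (enc y T) (comp (enc y T) (encX y Z \ R) z) := comp_conn
  by_cases hcase : ∃ p w, Sum.inr (p, w) ∈ comp (enc y T) (encX y Z \ R) z
  · obtain ⟨p, w, hpw⟩ := hcase
    have h1 : Sum.inl (y.rp p.1) ∉ comp (enc y T) (encX y Z \ R) z := fun h =>
      (comp_subset h).2 ⟨p.1, rfl⟩
    have h2 := att_subset_copy hconn hpw h1
    have h3 := attSet_inter_copy (comp_subset.trans sdiff_subset) h2
    refine RankLE.mono_set ?_ h3
    exact (rankLE_image (attCopy (plus y.G) (fun p : (Q ⊕ Bool) × ℕ => y.rp p.1)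
      (fun _ => T) p)).2 hT
  · push Not at hcase
    let f : y.G ↪g enc y T := (attBase (plus y.G) (fun p : (Q ⊕ Bool) × ℕ => y.rp p.1)
      (fun _ => T)).comp (plusEmb y.G)
    have h3 : comp (enc y T) (encX y Z \ R) z ⊆ f '' y.X := by
      rintro ((u | b) | ⟨p, w⟩) hu
      · have := (comp_subset hu).1
        exact ⟨u, inl_mem_plusX.1 (inl_mem_attSet.1 this), rfl⟩
      · exact absurd ⟨.inr b, rfl⟩ (comp_subset hu).2
      · exact absurd hu (hcase p w)
    exact RankLE.mono_set ((rankLE_image f).2 hy) h3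

theorem enc_rank [Finite Q] {β : Ordinal.{0}} (hT : RankLE T β Z) (hy : y.RankLE β) :
    RankLE (enc y T) (Order.succ β) (encX y Z) := by
  rw [rankLE_iff]
  exact Or.inr ⟨_, finite_range (fun q : Q ⊕ Bool => Sum.inl (y.rp q)), fun z hz =>
    ⟨β, Order.lt_succ β, enc_comp_rank hT hy z hz⟩⟩

/-- The main step: a minor of the encodings gives a rooted minor up to a permutation. -/
theorem exists_perm [Finite Q] {β : Ordinal.{0}} (hTc : Conn T Z) (hTne : Z.Nonempty)
    (hT : RankLE T β Z) (hT' : ∀ γ < β, ¬ RankLE T γ Z) (hy : y.RankLE β)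
    (h : Minor (enc x T) (encX x Z) (enc y T) (encX y Z)) :
    ∃ π : Equiv.Perm (Q ⊕ Bool), PR x y π := by
  classical
  obtain ⟨B, hB⟩ := h
  have hmemr : ∀ q : Q ⊕ Bool, (Sum.inl (x.rp q) : (ℕ ⊕ Bool) ⊕ ((Q ⊕ Bool) × ℕ) × W) ∈
      encX x Z := fun q => inl_mem_attSet.2 (x.rp_mem q)
  have hmeml : ∀ v ∈ plusX x.X, (Sum.inl v : (ℕ ⊕ Bool) ⊕ ((Q ⊕ Bool) × ℕ) × W) ∈
      encX x Z := fun v hv => inl_mem_attSet.2 hv
  have key : ∀ q : Q ⊕ Bool, ∃ q' : Q ⊕ Bool, Sum.inl (y.rp q') ∈ B (.inl (x.rp q)) := by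
    intro q
    obtain ⟨z, hz, ⟨q', rfl⟩⟩ := hub
      (finite_range (fun q : Q ⊕ Bool => (Sum.inl (y.rp q) :
        (ℕ ⊕ Bool) ⊕ ((Q ⊕ Bool) × ℕ) × W)))
      (enc_comp_rank hT hy) hB (hmemr q)
      (I := (Set.univ : Set ℕ)) Set.infinite_univ
      (P := fun n => copySet (ℕ ⊕ Bool) (q, n) Z)
      (fun n _ => copySet_subset (Z := fun _ : (Q ⊕ Bool) × ℕ => Z) (mem_univ (q, n)))
      (fun i _ j _ hij => copySet_disjoint (by simpa using hij) _ _)
      (fun n _ => (conn_image (attCopy (plus x.G) (fun p : (Q ⊕ Bool) × ℕ => x.rp p.1)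
        (fun _ => T) (q, n))).2 hTc)
      (fun n _ => by
        obtain ⟨w, hw⟩ := hTne
        exact ⟨.inr ((q, n), w), ⟨w, hw, rfl⟩, rfl⟩)
      (fun n _ γ hγ h => hT' γ hγ ((rankLE_image (attCopy (plus x.G)
        (fun p : (Q ⊕ Bool) × ℕ => x.rp p.1) (fun _ => T) (q, n))).1 h))
    exact ⟨q', hz⟩
  choose π0 hπ0 using key
  have hinj : Function.Injective π0 := by
    intro q q' h
    have h1 := hπ0 q
    rw [h] at h1
    have h2 := hB.eq_of_mem (hmemr q) (hmemr q') h1 (hπ0 q')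
    exact x.rp_inj (Sum.inl_injective h2)
  have hbij : Function.Bijective π0 := Finite.injective_iff_bijective.1 hinj
  -- non-root branch sets avoid the roots
  have hroot : ∀ v ∈ plusX x.X, (∀ q, v ≠ x.rp q) → ∀ q', Sum.inl (y.rp q') ∉ B (.inl v) := by
    intro v hv hnr q' hmem
    obtain ⟨q, rfl⟩ := hbij.2 q'
    have := hB.eq_of_mem (hmeml v hv) (hmemr q) hmem (hπ0 q)
    exact hnr q (Sum.inl_injective this)
  -- non-root branch sets avoid the copies
  have hcopy : ∀ v ∈ plusX x.X, (∀ q, v ≠ x.rp q) → ∀ p w, Sum.inr (p, w) ∉ B (.inl v) := by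
    intro v hv hnr p w hmem
    have hsub := att_subset_copy (hB.conn _ (hmeml v hv)) hmem (hroot v hv hnr p.1)
    have hb : ∀ b : Bool, Sum.inl (y.rp p.1) ∈ B (.inl (x.rp (.inr b))) := by
      intro b
      have hadj : (enc x T).Adj (.inl v) (.inl (x.rp (.inr b))) := by
        rcases v with v | c
        · exact trivial
        · exact absurd rfl (hnr (.inr c))
      obtain ⟨x1, hx1, y1, hy1, hxy⟩ := hB.adj _ (hmeml v hv) _ (hmemr (.inr b)) hadj
      obtain ⟨w1, rfl⟩ := hsub hx1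
      rcases y1 with u | ⟨p', w'⟩
      · have hxy' : y.rp p.1 = u := hxy
        rw [hxy']
        exact hy1
      · obtain ⟨h1, _⟩ := hxy
        simp only at h1
        subst h1
        exact att_exit (hB.conn _ (hmemr (.inr b))) hy1 (hπ0 (.inr b))
    have := hB.eq_of_mem (hmemr (.inr false)) (hmemr (.inr true)) (hb false) (hb true)
    have h2 := x.rp_inj (Sum.inl_injective this)
    simp at h2
  -- retractions
  have hretr : ∀ v ∈ plusX x.X, ∀ z ∈ B (.inl v),
      Sum.inl (retr (fun p : (Q ⊕ Bool) × ℕ => y.rp p.1) z) ∈ B (.inl v) := by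
    rintro v hv (u | ⟨p, w⟩) hz
    · exact hz
    · by_cases hr : ∃ q, v = x.rp q
      · obtain ⟨q, rfl⟩ := hr
        exact att_exit (hB.conn _ (hmemr q)) hz (hπ0 q)
      · push Not at hr
        exact absurd hz (hcopy v hv hr p w)
  refine ⟨Equiv.ofBijective π0 hbij, fun v => Sum.inl ⁻¹' B (.inl v), ⟨?_, ?_, ?_, ?_, ?_⟩, ?_⟩
  · intro v hv u hu
    exact inl_mem_attSet.1 (hB.sub _ (hmeml v hv) hu)
  · intro v hv
    obtain ⟨z, hz⟩ := hB.ne _ (hmeml v hv)
    exact ⟨_, hretr v hv z hz⟩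
  · intro v hv
    exact att_conn_base (hB.conn _ (hmeml v hv))
  · intro a ha b hb hab
    exact (hB.disj _ (hmeml a ha) _ (hmeml b hb) (fun h => hab (Sum.inl_injective h))).preimage _
  · intro a ha b hb hab
    obtain ⟨x1, hx1, y1, hy1, hxy⟩ := hB.adj _ (hmeml a ha) _ (hmeml b hb) hab
    have h1 := hretr a ha x1 hx1
    have h2 := hretr b hb y1 hy1
    have hne : retr (fun p : (Q ⊕ Bool) × ℕ => y.rp p.1) x1 ≠
        retr (fun p : (Q ⊕ Bool) × ℕ => y.rp p.1) y1 := by
      intro h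
      rw [h] at h1
      have h3 := hB.eq_of_mem (hmeml a ha) (hmeml b hb) h1 h2
      rw [Sum.inl_injective h3] at hab
      exact (plus x.G).loopless.irrefl _ hab
    refine ⟨_, h1, _, h2, ?_⟩
    rcases x1 with u | ⟨p, w⟩ <;> rcases y1 with u' | ⟨p', w'⟩
    · exact hxy
    · exact absurd (show u = y.rp p'.1 from Eq.symm hxy) hne
    · exact absurd (show y.rp p.1 = u' from hxy) hne
    · have hpp : p = p' := hxy.1
      exact absurd (show y.rp p.1 = y.rp p'.1 from by rw [hpp]) hne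
  · intro q
    exact hπ0 q

end enc

/-- Rooted well-quasi-ordering follows from the unrooted one. -/
theorem rwqo_of_wqo (hW : WQO) (Q : Type) [Finite Q] : RWQO Q := by
  classical
  intro x hx
  -- the gadget
  let T : SimpleGraph (Unit ⊕ ℕ × ℕ) := star (fun i => (x i).G)
  let Z : Set (Unit ⊕ ℕ × ℕ) := starSet Set.univ (fun i => (x i).X)
  have hTc : Conn T Z := star_conn
  have hTne : Z.Nonempty := ⟨.inl (), hub_mem_starSet⟩
  have hTr : ∃ α < ω₁, RankLE T α Z := by
    choose a ha ha' using hx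
    refine ⟨Order.succ (⨆ j, a j), succ_lt_omega_one (Ordinal.iSup_lt_omega_one ha), ?_⟩
    exact star_rank_le fun i _ => ⟨a i, Order.lt_succ_of_le (Ordinal.le_iSup a i), ha' i⟩
  obtain ⟨β, hβ, hT, hT'⟩ := exists_least_rank hTr
  have hxβ : ∀ i, (x i).RankLE β := by
    intro i
    have h1 : RankLE T β (copySet Unit i (x i).X) :=
      hT.mono_set (star_copySet_subset (I := Set.univ) (Z := fun i => (x i).X) (mem_univ i))
    exact (copy_rank (T := fun i => (x i).G) (i := i)).1 h1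
  -- the encodings
  let R : ℕ → ℕ → Prop := fun i j =>
    Minor (enc (x i) T) (encX (x i) Z) (enc (x j) T) (encX (x j) Z)
  have hRwqo : WellQuasiOrdered R := by
    intro f
    exact hW _ (fun n => enc (x (f n)) T) (fun n => encX (x (f n)) Z) (fun n =>
      ⟨Order.succ β, succ_lt_omega_one hβ, enc_rank hT (hxβ _)⟩)
  have hpre : IsPreorder ℕ R :=
    { refl := fun i => Minor.refl _ _
      trans := fun i j k h h' => h.trans h' }
  obtain ⟨g, hg⟩ := hRwqo.exists_monotone_subseq id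
  have hstep : ∀ n, ∃ π : Equiv.Perm (Q ⊕ Bool), PR (x (g n)) (x (g (n + 1))) π := fun n =>
    exists_perm hTc hTne hT hT' (hxβ _) (hg n (n + 1) (Nat.le_succ n))
  choose π hπ using hstep
  let p : ℕ → Equiv.Perm (Q ⊕ Bool) := fun n => Nat.rec 1 (fun n q => π n * q) n
  have hp : ∀ n, p (n + 1) = π n * p n := fun n => rfl
  have hPR : ∀ m n, m ≤ n → PR (x (g m)) (x (g n)) (p n * (p m)⁻¹) := by
    intro m n hmn
    induction n, hmn using Nat.le_induction with
    | base =>
      rw [mul_inv_cancel]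
      exact PR.refl _
    | succ n _ ih =>
      rw [hp, mul_assoc]
      exact ih.trans (hπ n)
  obtain ⟨m, n, hmn, heq⟩ := Finite.exists_ne_map_eq_of_infinite p
  rcases lt_or_gt_of_ne hmn with h | h
  · refine ⟨g m, g n, g.strictMono h, PR.rle ?_⟩
    have := hPR m n h.le
    rwa [heq, mul_inv_cancel] at this
  · refine ⟨g n, g m, g.strictMono h, PR.rle ?_⟩
    have := hPR n m h.le
    rwa [heq, mul_inv_cancel] at this

end Run7.h891
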