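import Pool.Agent.Run7.h891.StarOne
import Pool.Agent.Run7.h891.Rooted
import Pool.Agent.H557R3.BqoTree

/-! If the countable graphs of countable rank are well-quasi-ordered, they are
better-quasi-ordered. -/

set_option autoImplicit false

open Set Ordinal

namespace Run7.h891

open Pool.Agent.H557R3.Bqo (W LC Rep cons shift rep_of_lc cons_shift shift_strictMono)

universe u v w

/-- Countable graphs of countable rank. -/
abbrev RQ := {p : SimpleGraph ℕ × Set ℕ // ∃ α < ω₁, RankLE p.1 α p.2}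

/-- The minor relation. -/
def rqle (p q : RQ) : Prop := Minor p.1.1 p.1.2 q.1.1 q.1.2

/-- Connected graphs with a root. -/
structure RG where
  G : SimpleGraph ℕ
  X : Set ℕ
  r : ℕ
  mem : r ∈ X
  conn : Conn G X

/-- The minor relation between the underlying graphs. -/
def RG.le (a b : RG) : Prop := Minor a.G a.X b.G b.X

theorem RG.le_trans {a b c : RG} (h : a.le b) (h' : b.le c) : a.le c := Minor.trans h h'

section cone3

variable {V : Type u}

/-- The triple cone. -/
def cone3 (G : SimpleGraph V) := cone (cone (cone G))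

/-- Its carrier. -/
def cone3Set (X : Set V) := coneSet (coneSet (coneSet X))

theorem minor_of_cone3 {G : SimpleGraph V} {X : Set V} {W : Type v} {H : SimpleGraph W}
    {Y : Set W} (h : Minor (cone3 G) (cone3Set X) (cone3 H) (cone3Set Y)) : Minor G X H Y :=
  minor_of_cone (minor_of_cone (minor_of_cone h))

theorem cone3_rank {G : SimpleGraph V} {X : Set V} {α : Ordinal.{0}} (h : RankLE G α X) :
    RankLE (cone3 G) α (cone3Set X) := cone_rank (cone_rank (cone_rank h))

/-- The cone over a nonempty connected graph with at least two vertices is two-connected. -/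
theorem twoConn_cone {G : SimpleGraph V} {X : Set V} (hc : Conn G X) {a b : V} (ha : a ∈ X)
    (hb : b ∈ X) (hab : a ≠ b) (hn : ∀ x ∈ X, ∃ y ∈ X, G.Adj x y) :
    TwoConn (cone G) (coneSet X) := by
  classical
  have hin : ∀ x, (Sum.inr ((), x) : Unit ⊕ Unit × V) ∈ coneSet X ↔ x ∈ X := by
    intro x
    simp [coneSet]
  have hhub : (Sum.inl () : Unit ⊕ Unit × V) ∈ coneSet X := hub_mem_starSet
  refine ⟨coneSet_nonempty, cone_conn, ?_, ?_⟩
  · intro x hx
    rcases x with ⟨⟩ | ⟨⟨⟩, x⟩
    · -- the rest is a copy of `G[X]`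
      have h1 : (coneSet X \ {Sum.inl ()} : Set (Unit ⊕ Unit × V)) = copySet Unit () X := by
        ext z
        rcases z with ⟨⟩ | ⟨⟨⟩, z⟩
        · simp
        · simp [hin]
      rw [h1]
      exact (copy_conn (T := fun _ : Unit => G) (i := ())).2 hc
    · have h : ∀ z ∈ coneSet X \ {(Sum.inr ((), x) : Unit ⊕ Unit × V)},
          Reach (cone G) (coneSet X \ {Sum.inr ((), x)}) (.inl ()) z := by
        intro z hz
        have hhub' : (Sum.inl () : Unit ⊕ Unit × V) ∈
            coneSet X \ {(Sum.inr ((), x) : Unit ⊕ Unit × V)} := ⟨hhub, by simp⟩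
        rcases z with ⟨⟩ | ⟨⟨⟩, z⟩
        · exact Reach.refl hhub'
        · exact Reach.of_adj hhub' hz rfl
      intro p hp q hq
      exact (h p hp).symm.trans (h q hq)
  · intro x hx
    rcases x with ⟨⟩ | ⟨⟨⟩, x⟩
    · exact ⟨_, (hin a).2 ha, _, (hin b).2 hb, by simpa using hab, rfl, rfl⟩
    · obtain ⟨y, hy, hxy⟩ := hn x ((hin x).1 hx)
      exact ⟨_, hhub, _, (hin y).2 hy, by simp, rfl, ⟨rfl, hxy⟩⟩

theorem twoConn_cone3 {G : SimpleGraph V} {X : Set V} : TwoConn (cone3 G) (cone3Set X) := by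
  refine twoConn_cone cone_conn (a := .inl ()) (b := .inr ((), .inl ())) hub_mem_starSet ?_ (by simp)
    ?_
  · simp [coneSet]
  · rintro (⟨⟩ | ⟨⟨⟩, x⟩) hx
    · refine ⟨.inr ((), .inl ()), ?_, rfl⟩
      simp [coneSet]
    · exact ⟨.inl (), hub_mem_starSet, rfl⟩

end cone3

/-- A fixed embedding for leaves. -/
noncomputable def eL : (Unit ⊕ Unit × (Unit ⊕ Unit × (Unit ⊕ Unit × ℕ))) ↪ ℕ :=
  (nonempty_embedding_nat _).some

/-- A fixed embedding for nodes. -/
noncomputable def eN : (Unit ⊕ (ℕ × ℕ) × ℕ) ↪ ℕ := (nonempty_embedding_nat _).some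

/-- The rooted graph of a leaf. -/
noncomputable def RG.leaf (p : RQ) : RG where
  G := (cone3 p.1.1).map eL
  X := SimpleGraph.Embedding.map eL (cone3 p.1.1) '' cone3Set p.1.2
  r := SimpleGraph.Embedding.map eL (cone3 p.1.1) (.inl ())
  mem := mem_image_of_mem _ hub_mem_starSet
  conn := (conn_image (SimpleGraph.Embedding.map eL (cone3 p.1.1))).2 cone_conn

/-- The rooted graph of a node. -/
noncomputable def RG.node (A : ℕ → RG) : RG where
  G := (star1 (fun p : ℕ × ℕ => (A p.1).G) (fun p => (A p.1).r)).map eN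
  X := SimpleGraph.Embedding.map eN (star1 (fun p : ℕ × ℕ => (A p.1).G) (fun p => (A p.1).r)) ''
    starSet Set.univ (fun p : ℕ × ℕ => (A p.1).X)
  r := SimpleGraph.Embedding.map eN (star1 (fun p : ℕ × ℕ => (A p.1).G) (fun p => (A p.1).r))
    (.inl ())
  mem := mem_image_of_mem _ hub_mem_starSet
  conn := (conn_image (SimpleGraph.Embedding.map eN _)).2
    (star1_conn (fun p => (A p.1).conn) (fun p => (A p.1).mem))

theorem leaf_le_leaf {p q : RQ} (h : (RG.leaf p).le (RG.leaf q)) : rqle p q :=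
  minor_of_cone3 ((minor_image_left (SimpleGraph.Embedding.map eL (cone3 p.1.1))).1
    ((minor_image_right (SimpleGraph.Embedding.map eL (cone3 q.1.1))).1 h))

theorem leaf_le_node {p : RQ} {B : ℕ → RG} (h : (RG.leaf p).le (RG.node B)) :
    ∃ m, (RG.leaf p).le (B m) := by
  have h1 := (minor_image_left (SimpleGraph.Embedding.map eL (cone3 p.1.1))).1
    ((minor_image_right (SimpleGraph.Embedding.map eN
      (star1 (fun p : ℕ × ℕ => (B p.1).G) (fun p => (B p.1).r)))).1 h)
  obtain ⟨j, hj⟩ := twoConn_star1 twoConn_cone3 h1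
  exact ⟨j.1, (minor_image_left (SimpleGraph.Embedding.map eL (cone3 p.1.1))).2 hj⟩

theorem node_le_node {A B : ℕ → RG} (h : (RG.node A).le (RG.node B)) :
    (∀ n, ∃ m, (A n).le (B m)) ∨ ∃ m, (RG.node A).le (B m) := by
  have h1 := (minor_image_left (SimpleGraph.Embedding.map eN
      (star1 (fun p : ℕ × ℕ => (A p.1).G) (fun p => (A p.1).r)))).1
    ((minor_image_right (SimpleGraph.Embedding.map eN
      (star1 (fun p : ℕ × ℕ => (B p.1).G) (fun p => (B p.1).r)))).1 h)
  rcases star1_star1 (K := fun n => (A n).G) (X := fun n => (A n).X) (s := fun n => (A n).r)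
    (fun n => (A n).conn) (fun n => (A n).mem) h1 with h2 | ⟨j, hj⟩
  · left
    intro n
    obtain ⟨j, hj⟩ := h2 n
    exact ⟨j.1, hj⟩
  · right
    exact ⟨j.1, (minor_image_left (SimpleGraph.Embedding.map eN
      (star1 (fun p : ℕ × ℕ => (A p.1).G) (fun p => (A p.1).r)))).2 hj⟩

theorem le_node (A : ℕ → RG) (n : ℕ) : (A n).le (RG.node A) := by
  refine (minor_image_right (SimpleGraph.Embedding.map eN
      (star1 (fun p : ℕ × ℕ => (A p.1).G) (fun p => (A p.1).r)))).2 ?_
  have h1 : Minor (A n).G (A n).X (star1 (fun p : ℕ × ℕ => (A p.1).G) (fun p => (A p.1).r))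
      (copySet Unit (n, 0) (A n).X) :=
    (star1_copy_minor (T := fun p : ℕ × ℕ => (A p.1).G) (i := (n, 0))).2 (Minor.refl _ _)
  exact h1.trans (Minor.of_subset _ (star_copySet_subset
    (Z := fun p : ℕ × ℕ => (A p.1).X) (i := (n, 0)) (mem_univ _)))

/-- The rooted graph of a tree. -/
noncomputable def gam : W RQ → RG
  | .elem p => RG.leaf p
  | .set A => RG.node fun n => gam (A n)

theorem gam_elem (p : RQ) : gam (.elem p) = RG.leaf p := rfl
theorem gam_set (A : ℕ → W RQ) : gam (.set A) = RG.node fun n => gam (A n) := rfl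

theorem gam_rank (T : W RQ) : ∃ α < ω₁, RankLE (gam T).G α (gam T).X := by
  induction T with
  | elem p =>
    obtain ⟨α, hα, h⟩ := p.2
    exact ⟨α, hα, (rankLE_image (SimpleGraph.Embedding.map eL (cone3 p.1.1))).2 (cone3_rank h)⟩
  | set A ih =>
    choose a ha ha' using ih
    refine ⟨Order.succ (⨆ j, a j), succ_lt_omega_one (Ordinal.iSup_lt_omega_one ha), ?_⟩
    refine (rankLE_image (SimpleGraph.Embedding.map eN (star1
      (fun p : ℕ × ℕ => (gam (A p.1)).G) (fun p => (gam (A p.1)).r)))).2 ?_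
    exact star1_rank fun i => ⟨a i.1, Order.lt_succ_of_le (Ordinal.le_iSup a i.1), ha' i.1⟩

/-- The tree `T` represents the function `c` on sequences with entries at least `b`. -/
def Tr : W RQ → ℕ → ((ℕ → ℕ) → RQ) → Prop
  | .elem q => fun _ c => ∀ X, c X = q
  | .set A => fun b c => ∀ n, Tr (A n) (b + n + 1) (fun X => c (cons (b + n) X))

theorem exists_tr {c : (ℕ → ℕ) → RQ} (hc : Rep c) : ∀ b, ∃ T, Tr T b c := by
  induction hc with
  | const k => exact fun b => ⟨.elem k, fun _ => rfl⟩
  | step f _ ih =>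
    intro b
    choose T hT using fun n => ih (b + n) (b + n + 1)
    exact ⟨.set T, hT⟩

/-- Prepend a finite sequence. -/
def app : List ℕ → (ℕ → ℕ) → (ℕ → ℕ)
  | [], Z => Z
  | a :: l, Z => cons a (app l Z)

theorem app_append (l : List ℕ) (a : ℕ) (Z : ℕ → ℕ) : app (l ++ [a]) Z = app l (cons a Z) := by
  induction l with
  | nil => rfl
  | cons b l ih => simp only [List.cons_append, app, ih]

/-- Increasing sequences with entries at least `b`. -/
def Inc (b : ℕ) (X : ℕ → ℕ) : Prop := StrictMono X ∧ b ≤ X 0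

theorem Inc.shift {b : ℕ} {X : ℕ → ℕ} (h : Inc b X) : Inc (X 0 + 1) (shift X) :=
  ⟨shift_strictMono h.1, h.1 Nat.zero_lt_one⟩

theorem Inc.cons {a b : ℕ} {X : ℕ → ℕ} (h : Inc (a + 1) X) (hab : b ≤ a) :
    Inc b (cons a X) := by
  refine ⟨strictMono_nat_of_lt_succ fun k => ?_, hab⟩
  cases k with
  | zero => exact h.2
  | succ k => exact h.1 (Nat.lt_succ_self k)

theorem leaf_play {q : RQ} (S : W RQ) : ∀ (b : ℕ) (c : (ℕ → ℕ) → RQ), Tr S b c →
    (gam S).le (RG.leaf q) → ∀ X, Inc b X → rqle (c X) q := by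
  induction S with
  | elem p =>
    intro b c hc h X _
    rw [hc X]
    exact leaf_le_leaf h
  | set A ih =>
    intro b c hc h X hX
    obtain ⟨n, hn⟩ : ∃ n, X 0 = b + n := ⟨X 0 - b, by have := hX.2; omega⟩
    have h1 : (gam (A n)).le (RG.leaf q) := RG.le_trans (le_node (fun n => gam (A n)) n) h
    have h2 := ih n (b + n + 1) _ (hc n) h1 (shift X) (by
      have := hX.shift
      rwa [hn] at this)
    have h3 : cons (b + n) (shift X) = X := by
      rw [← hn]
      exact cons_shift X
    rwa [h3] at h2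

theorem play (T : W RQ) : ∀ (S : W RQ) (b b' : ℕ) (c d : (ℕ → ℕ) → RQ) (a : ℕ) (l : List ℕ),
    Tr S b c → Tr T b' d → (gam S).le (gam T) →
    (∀ Z, Inc b' Z → Inc b (app (a :: l) Z)) →
    ∃ Z, Inc b' Z ∧ rqle (c (app (a :: l) Z)) (d Z) := by
  induction T with
  | elem q =>
    intro S b b' c d a l hc hd h hI
    have hZ : Inc b' (fun k => b' + k) := ⟨fun _ _ h => by simpa using h, le_refl _⟩
    refine ⟨_, hZ, ?_⟩
    rw [hd]
    exact leaf_play S b c hc h _ (hI _ hZ)
  | set B ih =>
    intro S b b' c d a l hc hd h hI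
    -- moving only on the right
    have hright : ∀ m, (gam S).le (gam (B m)) →
        ∃ Z, Inc b' Z ∧ rqle (c (app (a :: l) Z)) (d Z) := by
      intro m hm
      obtain ⟨Z, hZ, hr⟩ := ih m S b (b' + m + 1) c _ a (l ++ [b' + m]) hc (hd m) hm (by
        intro Z hZ
        rw [← List.cons_append, app_append]
        exact hI _ (hZ.cons (Nat.le_add_right _ _)))
      refine ⟨cons (b' + m) Z, hZ.cons (Nat.le_add_right _ _), ?_⟩
      rw [← List.cons_append, app_append] at hr
      exact hr
    cases S with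
    | elem p =>
      obtain ⟨m, hm⟩ := leaf_le_node h
      exact hright m hm
    | set A =>
      rcases node_le_node h with h1 | ⟨m, hm⟩
      swap
      · exact hright m hm
      -- moving on both sides
      have hba : b ≤ a := (hI (fun k => b' + k) ⟨fun _ _ h => by simpa using h, le_refl _⟩).2
      obtain ⟨n, rfl⟩ : ∃ n, a = b + n := ⟨a - b, by omega⟩
      obtain ⟨m, hm⟩ := h1 n
      -- the new queue
      have hq : ∃ a' l', l ++ [b' + m] = a' :: l' := by
        cases l with
        | nil => exact ⟨_, _, rfl⟩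
        | cons x l => exact ⟨_, _, rfl⟩
      obtain ⟨a', l', hal⟩ := hq
      obtain ⟨Z, hZ, hr⟩ := ih m (A n) (b + n + 1) (b' + m + 1) _ _ a' l' (hc n) (hd m) hm (by
        intro Z hZ
        rw [← hal, app_append]
        have := (hI _ (hZ.cons (Nat.le_add_right b' m))).shift
        exact this)
      refine ⟨cons (b' + m) Z, hZ.cons (Nat.le_add_right _ _), ?_⟩
      rw [← hal, app_append] at hr
      exact hr

/-- Well-quasi-ordering implies better-quasi-ordering. -/
theorem bqo_of_wqo (hW : WQO) (f : (ℕ → ℕ) → RQ) (hf : LC f) :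
    ∃ X : ℕ → ℕ, StrictMono X ∧ rqle (f X) (f (shift X)) := by
  have hf' : ∀ n, LC (fun X => f (cons n X)) := by
    intro n X
    obtain ⟨k, hk⟩ := hf (cons n X)
    refine ⟨k, fun Y hY => hk _ ?_⟩
    intro i hi
    cases i with
    | zero => rfl
    | succ i => exact hY i (by omega)
  choose T hT using fun n => exists_tr (rep_of_lc (hf' n)) (n + 1)
  obtain ⟨m, n, hmn, hle⟩ := hW ℕ (fun n => (gam (T n)).G) (fun n => (gam (T n)).X)
    (fun n => gam_rank (T n))
  obtain ⟨Z, hZ, hr⟩ := play (T n) (T m) (m + 1) (n + 1) _ _ n [] (hT m) (hT n) hle (by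
    intro Z hZ
    exact hZ.cons hmn)
  have h1 : Inc 0 (cons m (cons n Z)) := (hZ.cons (show m + 1 ≤ n from hmn)).cons (Nat.zero_le m)
  exact ⟨cons m (cons n Z), h1.1, hr⟩

end Run7.h891
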