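import Pool.Agent.Run7.h891.Tree

/-! From a bad sequence to complete analytic sets of graphs. -/

set_option autoImplicit false

open Set Ordinal

namespace Run7.h891

open Pool.Agent.H534R3.NonBorel (br)

universe u v w

/-- Transport of a graph to the vertex set `ℕ`. -/
def toNat {P : Type u} (e : P ≃ ℕ) (F : SimpleGraph P) : SimpleGraph ℕ := F.comap e.symm

theorem toNat_adj {P : Type u} (e : P ≃ ℕ) (F : SimpleGraph P) (a b : ℕ) :
    (toNat e F).Adj a b ↔ F.Adj (e.symm a) (e.symm b) := Iff.rfl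

/-- The isomorphism of a graph with its transport. -/
def toNatEmb {P : Type u} (e : P ≃ ℕ) (F : SimpleGraph P) : F ↪g toNat e F where
  toFun := e
  inj' := e.injective
  map_rel_iff' {x y} := by
    show F.Adj (e.symm (e x)) (e.symm (e y)) ↔ _
    simp

theorem toNatEmb_image {P : Type u} (e : P ≃ ℕ) (F : SimpleGraph P) :
    toNatEmb e F '' Set.univ = Set.univ := by
  rw [image_univ]
  exact e.surjective.range_eq

theorem toNat_minor_right {P : Type u} (e : P ≃ ℕ) (F : SimpleGraph P) {W : Type v}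
    {H : SimpleGraph W} {Y : Set W} :
    Minor H Y (toNat e F) Set.univ ↔ Minor H Y F Set.univ := by
  rw [← toNatEmb_image e F]
  exact minor_image_right (toNatEmb e F)

theorem toNat_minor_left {P : Type u} (e : P ≃ ℕ) (F : SimpleGraph P) {W : Type v}
    {H : SimpleGraph W} {Y : Set W} :
    Minor (toNat e F) Set.univ H Y ↔ Minor F Set.univ H Y := by
  rw [← toNatEmb_image e F]
  exact minor_image_left (toNatEmb e F)

theorem toNat_rank {P : Type u} (e : P ≃ ℕ) (F : SimpleGraph P) {α : Ordinal.{0}} :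
    RankLE (toNat e F) α Set.univ ↔ RankLE F α Set.univ := by
  rw [← toNatEmb_image e F]
  exact rankLE_image (toNatEmb e F)

theorem continuous_toNat {P : Type u} (e : P ≃ ℕ) (F : (List ℕ → Bool) → SimpleGraph P)
    (hF : ∀ x y, ∃ s : List ℕ, ∀ t t', t s = t' s → ((F t).Adj x y ↔ (F t').Adj x y)) :
    @Continuous _ _ _ graphTopology (fun t => toNat e (F t)) := by
  classical
  refine continuous_induced_rng.2 ?_
  refine continuous_pi fun p => ?_
  obtain ⟨s, hs⟩ := hF (e.symm p.1) (e.symm p.2)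
  -- factor through the coordinate `s`
  let g : Bool → Bool := fun b => edgeIndicator (toNat e (F (fun _ => b))) p
  have hg : ∀ t, edgeIndicator (toNat e (F t)) p = g (t s) := by
    intro t
    simp only [g, edgeIndicator, toNat_adj, decide_eq_decide]
    exact hs t (fun _ => t s) rfl
  have : (fun t => edgeIndicator (toNat e (F t)) p) = g ∘ (fun t => t s) := by
    funext t
    exact hg t
  show Continuous (fun t => edgeIndicator (toNat e (F t)) p)
  rw [this]
  exact (continuous_of_discreteTopology).comp (continuous_apply s)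

section

variable {W : Type} [Countable W] {K : ℕ → SimpleGraph W} {Z : ℕ → Set W} {ρ : Ordinal.{0}}

/-- The tree of (unreversed) lists coded by `t`, in terms of reversed lists. -/
def treeOf (t : List ℕ → Bool) : Set (List ℕ) := {s | t s.reverse = true}

theorem exists_pre_iff (t : List ℕ → Bool) :
    (∃ f : ℕ → ℕ, ∀ k, pre f k ∈ treeOf t) ↔ ∃ f : ℕ → ℕ, ∀ n, t (br f n) = true := by
  refine exists_congr fun f => forall_congr' fun k => ?_
  show t (pre f k).reverse = true ↔ _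
  rw [← reverse_br, List.reverse_reverse]

theorem exists_host (hρ : ρ < ω₁) (hc : ∀ n, Conn (K n) (Z n)) (hne : ∀ n, (Z n).Nonempty)
    (hr : ∀ n, RankLE (K n) ρ (Z n)) (hr' : ∀ n, ∀ γ < ρ, ¬ RankLE (K n) γ (Z n))
    (ha : ∀ i j, i ≠ j → ¬ Minor (K i) (Z i) (K j) (Z j)) :
    ∃ Δ : SimpleGraph ℕ, (∃ α < ω₁, RankLE Δ α Set.univ) ∧
      ∃ Φ : (List ℕ → Bool) → SimpleGraph ℕ, @Continuous _ _ _ graphTopology Φ ∧
        ∀ t, Minor (Φ t) Set.univ Δ Set.univ ↔ ∃ f : ℕ → ℕ, ∀ n, t (br f n) = true := by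
  classical
  have i1 : Infinite (GQ × (Unit ⊕ (ℕ ⊕ ℕ) × W)) := Prod.infinite_of_left
  have i2 : Infinite ((List ℕ ⊕ GQ) × (Unit ⊕ (ℕ ⊕ ℕ) × W)) := Prod.infinite_of_left
  obtain ⟨e1⟩ : Nonempty ((GQ × (Unit ⊕ (ℕ ⊕ ℕ) × W)) ≃ ℕ) := nonempty_equiv_of_countable
  obtain ⟨e2⟩ : Nonempty (((List ℕ ⊕ GQ) × (Unit ⊕ (ℕ ⊕ ℕ) × W)) ≃ ℕ) :=
    nonempty_equiv_of_countable
  let host := famGraph K Z (Sum.inl '' (Set.univ : Set (List ℕ)) : Set (List ℕ ⊕ GQ))
    (Sum.elim hostM fun _ => ∅)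
  refine ⟨toNat e2 host, ⟨Order.succ (Order.succ ρ),
    succ_lt_omega_one (succ_lt_omega_one hρ), (toNat_rank e2 host).2 (famGraph_rank hr _ _)⟩,
    fun t => toNat e1 (famGraph K Z (act (treeOf t)) guestN), ?_, ?_⟩
  · refine continuous_toNat e1 (fun t => famGraph K Z (act (treeOf t)) guestN) ?_
    rintro ⟨q, x⟩ y
    have key : ∃ s : List ℕ, ∀ t t' : List ℕ → Bool, t s = t' s →
        (q ∈ act (treeOf t) ↔ q ∈ act (treeOf t')) := by
      rcases q with (_ | s) | s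
      · exact ⟨[], fun t t' _ => Iff.rfl⟩
      · refine ⟨s.reverse, fun t t' h => ?_⟩
        show t s.reverse = true ↔ t' s.reverse = true
        rw [h]
      · refine ⟨s.reverse, fun t t' h => ?_⟩
        show ¬ t s.reverse = true ↔ ¬ t' s.reverse = true
        rw [h]
    obtain ⟨s, hs⟩ := key
    refine ⟨s, fun t t' h => ?_⟩
    have := hs t t' h
    show (_ ∧ q ∈ act (treeOf t) ∧ _) ↔ (_ ∧ q ∈ act (treeOf t') ∧ _)
    rw [this]
  · intro t
    rw [toNat_minor_left, toNat_minor_right,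
      fam_minor_iff hc hne hr hr' ha (act (treeOf t)) guestN Set.univ hostM, match_iff,
      exists_pre_iff]

theorem exists_guest (hρ : ρ < ω₁) (hc : ∀ n, Conn (K n) (Z n)) (hne : ∀ n, (Z n).Nonempty)
    (hr : ∀ n, RankLE (K n) ρ (Z n)) (hr' : ∀ n, ∀ γ < ρ, ¬ RankLE (K n) γ (Z n))
    (ha : ∀ i j, i ≠ j → ¬ Minor (K i) (Z i) (K j) (Z j)) :
    ∃ Γ : SimpleGraph ℕ, ∃ α < ω₁, RankLE Γ α Set.univ ∧
      ∃ Φ : (List ℕ → Bool) → SimpleGraph ℕ, @Continuous _ _ _ graphTopology Φ ∧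
        (∀ t, RankLE (Φ t) α Set.univ) ∧
        ∀ t, Minor Γ Set.univ (Φ t) Set.univ ↔ ∃ f : ℕ → ℕ, ∀ n, t (br f n) = true := by
  classical
  have i1 : Infinite (Option (List ℕ) × (Unit ⊕ (ℕ ⊕ ℕ) × W)) := Prod.infinite_of_left
  have i2 : Infinite ((List ℕ ⊕ Option (List ℕ)) × (Unit ⊕ (ℕ ⊕ ℕ) × W)) :=
    Prod.infinite_of_left
  obtain ⟨e1⟩ : Nonempty ((Option (List ℕ) × (Unit ⊕ (ℕ ⊕ ℕ) × W)) ≃ ℕ) :=
    nonempty_equiv_of_countable
  obtain ⟨e2⟩ : Nonempty (((List ℕ ⊕ Option (List ℕ)) × (Unit ⊕ (ℕ ⊕ ℕ) × W)) ≃ ℕ) :=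
    nonempty_equiv_of_countable
  let guest := famGraph K Z (Set.univ : Set (Option (List ℕ))) (fun q => {lab' q})
  let host : (List ℕ → Bool) → SimpleGraph ((List ℕ ⊕ Option (List ℕ)) ×
      (Unit ⊕ (ℕ ⊕ ℕ) × W)) := fun t =>
    famGraph K Z (Sum.inl '' (Set.univ : Set (List ℕ)) : Set (List ℕ ⊕ Option (List ℕ)))
    (Sum.elim (hostM' (treeOf t)) fun _ => ∅)
  refine ⟨toNat e1 guest, Order.succ (Order.succ ρ),
    succ_lt_omega_one (succ_lt_omega_one hρ), (toNat_rank e1 guest).2 (famGraph_rank hr _ _),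
    fun t => toNat e2 (host t), ?_, ?_, ?_⟩
  · refine continuous_toNat e2 host ?_
    rintro ⟨q, x⟩ y
    rcases q with s | q
    · refine ⟨s.reverse, fun t t' h => ?_⟩
      have h1 : hostM' (treeOf t) s = hostM' (treeOf t') s := by
        ext z
        show (z = _ ∨ (t s.reverse = true ∧ _)) ↔ (z = _ ∨ (t' s.reverse = true ∧ _))
        rw [h]
      show (_ ∧ _ ∧ x ∈ gadZ Z (hostM' (treeOf t) s) ∧ y.2 ∈ gadZ Z (hostM' (treeOf t) s) ∧ _) ↔
        (_ ∧ _ ∧ x ∈ gadZ Z (hostM' (treeOf t') s) ∧ y.2 ∈ gadZ Z (hostM' (treeOf t') s) ∧ _)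
      rw [h1]
    · exact ⟨[], fun t t' _ => Iff.rfl⟩
  · intro t
    exact (toNat_rank e2 _).2 (famGraph_rank hr _ _)
  · intro t
    rw [toNat_minor_left, toNat_minor_right,
      fam_minor_iff hc hne hr hr' ha Set.univ (fun q => {lab' q}) Set.univ (hostM' (treeOf t)),
      match_iff', exists_pre_iff]

end

end Run7.h891
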