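import Pool.Agent.Run7.h891.Borel
import Pool.Agent.Run7.h891.Reduce

/-! The official forms of the equivalences. -/

set_option autoImplicit false

open Set Ordinal MeasureTheory

namespace Run7.h891

/-- Well-quasi-ordering of the countable rayless graphs. -/
theorem wqo_iff : WQO ↔ ∀ (V : ℕ → Type) (_ : ∀ i, Countable (V i)) (G : ∀ i, SimpleGraph (V i)),
    (∀ i, Rayless (G i)) → ∃ i j, i < j ∧ IsMinor (G i) (G j) := by
  classical
  constructor
  · intro h V hV G hG
    have hemb : ∀ i, ∃ f : V i → ℕ, Function.Injective f := fun i => exists_injective_nat (V i)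
    choose f hf using hemb
    let e : ∀ i, V i ↪ ℕ := fun i => ⟨f i, hf i⟩
    let E : ∀ i, G i ↪g (G i).map (e i) := fun i => SimpleGraph.Embedding.map (e i) (G i)
    obtain ⟨i, j, hij, hm⟩ := h ℕ (fun i => (G i).map (e i)) (fun i => E i '' Set.univ) (by
      intro i
      obtain ⟨α, hα, h1⟩ := rayless_iff.1 (hG i)
      exact ⟨α, hα, (rankLE_image (E i)).2 h1⟩)
    refine ⟨i, j, hij, isMinor_iff.2 ?_⟩
    exact (minor_image_right (E j)).1 ((minor_image_left (E i)).1 hm)
  · intro h V _ G X hX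
    obtain ⟨i, j, hij, hm⟩ := h (fun i => X i) (fun i => inferInstance)
      (fun i => (G i).induce (X i)) (by
        intro i
        rw [rayless_iff]
        obtain ⟨α, hα, h1⟩ := hX i
        refine ⟨α, hα, ?_⟩
        rw [← rankLE_image (SimpleGraph.Embedding.induce (G := G i) (X i))]
        have h2 : (SimpleGraph.Embedding.induce (G := G i) (X i)) '' Set.univ = X i := by
          ext x
          simp
        rw [h2]
        exact h1)
    exact ⟨i, j, hij, isMinor_induce_iff.1 hm⟩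

/-- The set of graphs on `ℕ` of countable rank at most `α`, officially. -/
theorem hasRank_nat {G : SimpleGraph ℕ} {α : Ordinal.{0}} :
    HasRankLE α G ↔ RankLE G α Set.univ := hasRankLE_iff

/-- The preimage of a Borel family under a continuous map is Borel. -/
theorem BorelFamily.preimage {X : Type*} [TopologicalSpace X] [MeasurableSpace X] [BorelSpace X]
    {C : Set (SimpleGraph ℕ)} (hC : BorelFamily C) {Φ : X → SimpleGraph ℕ}
    (hΦ : @Continuous _ _ _ graphTopology Φ) : MeasurableSet (Φ ⁻¹' C) := by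
  rw [borelFamily_iff] at hC
  obtain ⟨B, hB, rfl⟩ := hC
  have h1 : Continuous (fun x => edgeIndicator (Φ x)) := continuous_induced_rng.1 hΦ
  exact h1.measurable hB

/-- If the countable rayless graphs are not well-quasi-ordered, then some principal minor-closed
family of rayless graphs is not Borel. -/
theorem not_wqo_host (h : ¬ WQO) : ∃ Δ : SimpleGraph ℕ, (∃ α < ω₁, RankLE Δ α Set.univ) ∧
    ¬ BorelFamily {H | Minor H Set.univ Δ Set.univ} := by
  unfold WQO at h
  push Not at h
  obtain ⟨V, hV, G, X, hr, hbad⟩ := h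
  obtain ⟨W, hW, K, Z, ρ, hρ, hc, hne, hr1, hr2, ha⟩ := exists_antichain G X hr hbad
  obtain ⟨Δ, hΔ, Φ, hΦ, hΦ'⟩ := exists_host hρ hc hne hr1 hr2 ha
  refine ⟨Δ, hΔ, fun hB => ?_⟩
  apply Pool.Agent.H534R3.NonBorel.illFounded_not_measurable
  have := hB.preimage hΦ
  have h2 : Φ ⁻¹' {H | Minor H Set.univ Δ Set.univ} =
      {t : List ℕ → Bool | ∃ f : ℕ → ℕ, ∀ n, t (Pool.Agent.H534R3.NonBorel.br f n) = true} := by
    ext t
    exact hΦ' t
  rwa [h2] at this

theorem q1_iff_not_wqo :
    (∃ C : Set (SimpleGraph ℕ), (∀ G ∈ C, Rayless G) ∧ MinorClosed C ∧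
      (∃ α < ω₁, ∀ G ∈ C, HasRankLE α G) ∧ ¬ BorelFamily C) ↔ ¬ WQO := by
  constructor
  · rintro ⟨C, _, h2, ⟨α, hα, h3⟩, h4⟩ hW
    exact h4 (borel_of_wqo hW hα (fun G hG => hasRank_nat.1 (h3 G hG))
      (fun G hG H hH => h2 G hG H (isMinor_iff.2 hH)))
  · intro h
    obtain ⟨Δ, ⟨α, hα, hΔ⟩, hB⟩ := not_wqo_host h
    refine ⟨{H | Minor H Set.univ Δ Set.univ}, ?_, ?_, ⟨α, hα, ?_⟩, hB⟩
    · intro G hG
      exact rayless_iff.2 ⟨α, hα, hΔ.of_minor hG⟩
    · intro G hG H hH
      exact (isMinor_iff.1 hH).trans hG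
    · intro G hG
      exact hasRank_nat.2 (hΔ.of_minor hG)

end Run7.h891
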