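import Pool.Agent.Run7.h891.Defs3
import Pool.Agent.Run7.h891.BqoGraph
import Pool.Agent.Run7.h891.Official

/-! The official form of the equivalence with better-quasi-ordering. -/

set_option autoImplicit false

open Set Ordinal

namespace Run7.h891

theorem wqo_iff_official : WQO ↔ WellQuasiOrdered MinorLE := by
  rw [wqo_iff]
  constructor
  · intro h f
    obtain ⟨i, j, hij, hm⟩ := h (fun i => (f i).V) (fun i => (f i).countable) (fun i => (f i).G)
      (fun i => (f i).rayless)
    exact ⟨i, j, hij, hm⟩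
  · intro h V hV G hG
    obtain ⟨i, j, hij, hm⟩ := h fun i => ⟨V i, G i, hV i, hG i⟩
    exact ⟨i, j, hij, hm⟩

/-- The code of a countable rayless graph. -/
theorem exists_rq (G : CountableRaylessGraph) : ∃ p : RQ, Minor G.G Set.univ p.1.1 p.1.2 ∧
    Minor p.1.1 p.1.2 G.G Set.univ := by
  have := G.countable
  obtain ⟨e, he⟩ := exists_injective_nat G.V
  let e' : G.V ↪ ℕ := ⟨e, he⟩
  let E : G.G ↪g G.G.map e' := SimpleGraph.Embedding.map e' G.G
  obtain ⟨α, hα, h1⟩ := rayless_iff.1 G.rayless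
  refine ⟨⟨(G.G.map e', E '' Set.univ), α, hα, (rankLE_image E).2 h1⟩, ?_, ?_⟩
  · exact (minor_image_right E).2 (Minor.refl _ _)
  · exact (minor_image_left E).2 (Minor.refl _ _)

theorem wqo_iff_bqo : WellQuasiOrdered MinorLE ↔ BetterQuasiOrdered MinorLE := by
  classical
  constructor
  · intro h f hf
    have hW := wqo_iff_official.2 h
    choose code hcode1 hcode2 using exists_rq
    obtain ⟨X, hX, hr⟩ := bqo_of_wqo hW (fun X => code (f X)) (by
      intro X
      obtain ⟨n, hn⟩ := hf X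
      exact ⟨n, fun Y hY => congrArg code (hn Y hY)⟩)
    refine ⟨X, hX, isMinor_iff.2 ?_⟩
    exact (hcode1 _).trans (Minor.trans hr (hcode2 _))
  · intro h f
    obtain ⟨X, hX, hr⟩ := h (fun X => f (X 0)) (by
      intro X
      exact ⟨1, fun Y hY => by simp only [hY 0 Nat.zero_lt_one]⟩)
    exact ⟨X 0, X 1, hX Nat.zero_lt_one, hr⟩

theorem q1_tfae :
    [¬ ∃ C : Set (SimpleGraph ℕ), (∀ G ∈ C, Rayless G) ∧ MinorClosed C ∧
      (∃ α < ω₁, ∀ G ∈ C, HasRankLE α G) ∧ ¬ BorelFamily C,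
      WellQuasiOrdered MinorLE, BetterQuasiOrdered MinorLE].TFAE := by
  tfae_have 1 ↔ 2 := by
    rw [q1_iff_not_wqo, not_not]
    exact wqo_iff_official
  tfae_have 2 ↔ 3 := wqo_iff_bqo
  tfae_finish

end Run7.h891
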