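import Pool.Agent.Run7.h891.Basic

/-! The rank of a (rayless) graph, relative to a vertex set. -/

set_option autoImplicit false

open Set Ordinal

namespace Run7.h891

universe u v w

variable {V : Type u} {W : Type v} {U : Type w}

/-- `G[X]` has rank at most `α`. -/
def RankLE (G : SimpleGraph V) (α : Ordinal.{0}) (X : Set V) : Prop :=
  X.Finite ∨ ∃ S : Set V, S.Finite ∧
    ∀ v ∈ X \ S, ∃ β : Ordinal.{0}, ∃ _ : β < α, RankLE G β (comp G (X \ S) v)
termination_by α

theorem rankLE_iff (G : SimpleGraph V) (α : Ordinal.{0}) (X : Set V) :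
    RankLE G α X ↔ X.Finite ∨ ∃ S : Set V, S.Finite ∧
      ∀ v ∈ X \ S, ∃ β < α, RankLE G β (comp G (X \ S) v) := by
  rw [RankLE]
  simp only [exists_prop]

theorem finite_hit {Y : Set W} {B : W → Set V}
    (hdisj : ∀ a ∈ Y, ∀ b ∈ Y, a ≠ b → Disjoint (B a) (B b)) {S : Set V} (hS : S.Finite) :
    {w ∈ Y | (B w ∩ S).Nonempty}.Finite := by
  refine Set.Finite.of_injOn (f := fun w => B w ∩ S) (t := {b | b ⊆ S}) ?_ ?_ hS.finite_subsets
  · intro w _
    exact inter_subset_right
  · intro a ha b hb hab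
    by_contra hne
    obtain ⟨x, hx⟩ := ha.2
    have hx' : x ∈ B b ∩ S := by
      have : B a ∩ S = B b ∩ S := hab
      rw [← this]
      exact hx
    exact Set.disjoint_left.1 (hdisj a ha.1 b hb.1 hne) hx.1 hx'.1

theorem IsModel.finite {H : SimpleGraph W} {Y : Set W} {G : SimpleGraph V} {X : Set V}
    {B : W → Set V} (h : IsModel H Y G X B) (hX : X.Finite) : Y.Finite := by
  refine (finite_hit h.disj hX).subset ?_
  intro w hw
  refine ⟨hw, ?_⟩
  obtain ⟨x, hx⟩ := h.ne w hw
  exact ⟨x, hx, h.sub w hw hx⟩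

theorem RankLE.of_finite {G : SimpleGraph V} {α : Ordinal.{0}} {X : Set V} (h : X.Finite) :
    RankLE G α X := (rankLE_iff G α X).2 (Or.inl h)

theorem RankLE.mono_ord {G : SimpleGraph V} {α β : Ordinal.{0}} {X : Set V} (h : RankLE G α X)
    (hαβ : α ≤ β) : RankLE G β X := by
  rw [rankLE_iff] at h ⊢
  rcases h with h | ⟨S, hS, h⟩
  · exact Or.inl h
  · refine Or.inr ⟨S, hS, fun v hv => ?_⟩
    obtain ⟨γ, hγ, h'⟩ := h v hv
    exact ⟨γ, hγ.trans_le hαβ, h'⟩

theorem RankLE.of_model {G : SimpleGraph V} {H : SimpleGraph W} {B : W → Set V}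
    {α : Ordinal.{0}} : ∀ {X : Set V} {Y : Set W}, RankLE G α X → IsModel H Y G X B →
      RankLE H α Y := by
  induction α using WellFoundedLT.induction with
  | _ α ih =>
  intro X Y h hB
  rw [rankLE_iff] at h ⊢
  rcases h with h | ⟨S, hS, h⟩
  · exact Or.inl (hB.finite h)
  · refine Or.inr ⟨{w ∈ Y | (B w ∩ S).Nonempty}, finite_hit hB.disj hS, fun w hw => ?_⟩
    set S' := {w ∈ Y | (B w ∩ S).Nonempty} with hS'
    set T := Run7.h891.comp H (Y \ S') w with hT
    have hTY : T ⊆ Y \ S' := comp_subset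
    have hTY' : T ⊆ Y := hTY.trans sdiff_subset
    have hwT : w ∈ T := mem_comp_self hw
    obtain ⟨v, hv⟩ := hB.ne w hw.1
    have hsub : ∀ t ∈ T, B t ⊆ X \ S := by
      intro t ht x hx
      refine ⟨hB.sub t (hTY' ht) hx, fun hxS => ?_⟩
      exact (hTY ht).2 ⟨hTY' ht, ⟨x, hx, hxS⟩⟩
    obtain ⟨β, hβ, h'⟩ := h v (hsub w hwT hv)
    refine ⟨β, hβ, ih β hβ h' (Y := T) ?_⟩
    have hconn := hB.conn_union hTY' comp_conn
    have hall : (⋃ t ∈ T, B t) ⊆ Run7.h891.comp G (X \ S) v := by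
      refine conn_subset_comp_self hconn ?_ (mem_biUnion hwT hv)
      exact iUnion₂_subset hsub
    exact (hB.restrict hTY').shrink (fun t ht => (subset_biUnion_of_mem ht).trans hall)

theorem RankLE.of_minor {G : SimpleGraph V} {H : SimpleGraph W}
    {α : Ordinal.{0}} {X : Set V} {Y : Set W} (h : RankLE G α X) (hm : Minor H Y G X) :
    RankLE H α Y := by
  obtain ⟨B, hB⟩ := hm
  exact h.of_model hB

theorem RankLE.mono_set {G : SimpleGraph V} {α : Ordinal.{0}} {X Y : Set V} (h : RankLE G α X)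
    (hYX : Y ⊆ X) : RankLE G α Y := h.of_minor (Minor.of_subset G hYX)

/-- To bound the rank it is enough to bound the ranks of supersets of the components. -/
theorem RankLE.of_comps {G : SimpleGraph V} {α : Ordinal.{0}} {X S : Set V} (hS : S.Finite)
    (h : ∀ v ∈ X \ S, ∃ β < α, ∃ Z : Set V, comp G (X \ S) v ⊆ Z ∧ RankLE G β Z) :
    RankLE G α X := by
  rw [rankLE_iff]
  refine Or.inr ⟨S, hS, fun v hv => ?_⟩
  obtain ⟨β, hβ, Z, hZ, h'⟩ := h v hv
  exact ⟨β, hβ, h'.mono_set hZ⟩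

theorem RankLE.union_finite {G : SimpleGraph V} {α : Ordinal.{0}} {X F : Set V}
    (h : RankLE G α X) (hF : F.Finite) : RankLE G α (X ∪ F) := by
  rw [rankLE_iff] at h
  rcases h with h | ⟨S, hS, h⟩
  · exact RankLE.of_finite (h.union hF)
  · refine RankLE.of_comps (S := S ∪ F) (hS.union hF) fun v hv => ?_
    have hv' : v ∈ X \ S := by
      refine ⟨?_, fun h => hv.2 (Or.inl h)⟩
      rcases hv.1 with h | h
      · exact h
      · exact absurd (Or.inr h) hv.2
    obtain ⟨β, hβ, h'⟩ := h v hv'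
    refine ⟨β, hβ, _, comp_mono ?_, h'⟩
    rintro x ⟨hx, hxS⟩
    refine ⟨?_, fun h => hxS (Or.inl h)⟩
    rcases hx with h | h
    · exact h
    · exact absurd (Or.inr h) hxS

theorem succ_lt_omega_one {α : Ordinal.{0}} (h : α < ω₁) : Order.succ α < ω₁ :=
  (Cardinal.isSuccLimit_omega 1).succ_lt h

theorem zero_lt_omega_one : (0 : Ordinal.{0}) < ω₁ := Ordinal.omega_pos 1

/-- If the vertex set is countable and all components of `G[X \ S]` have countable rank, so has
`G[X]`. -/
theorem exists_rank_of_comps [Countable V] {G : SimpleGraph V} {X S : Set V} (hS : S.Finite)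
    (h : ∀ v ∈ X \ S, ∃ β < ω₁, RankLE G β (comp G (X \ S) v)) :
    ∃ α < ω₁, RankLE G α X := by
  classical
  have h' : ∀ v : V, ∃ β < ω₁, v ∈ X \ S → RankLE G β (comp G (X \ S) v) := by
    intro v
    by_cases hv : v ∈ X \ S
    · obtain ⟨β, hβ, h⟩ := h v hv
      exact ⟨β, hβ, fun _ => h⟩
    · exact ⟨0, zero_lt_omega_one, fun h => absurd h hv⟩
  choose b hb hb' using h'
  refine ⟨Order.succ (⨆ v, b v), succ_lt_omega_one (Ordinal.iSup_lt_omega_one hb), ?_⟩
  rw [rankLE_iff]
  refine Or.inr ⟨S, hS, fun v hv => ⟨b v, ?_, hb' v hv⟩⟩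
  exact Order.lt_succ_of_le (Ordinal.le_iSup b v)

/-- A ranked graph has no ray. -/
theorem RankLE.no_ray {G : SimpleGraph V} {α : Ordinal.{0}} : ∀ {X : Set V}, RankLE G α X →
    ¬ ∃ f : ℕ → V, Function.Injective f ∧ (∀ n, f n ∈ X) ∧ ∀ n, G.Adj (f n) (f (n + 1)) := by
  induction α using WellFoundedLT.induction with
  | _ α ih =>
  rintro X h ⟨f, hf, hX, hadj⟩
  rw [rankLE_iff] at h
  rcases h with h | ⟨S, hS, h⟩
  · exact (Set.infinite_range_of_injective hf) (h.subset (by rintro _ ⟨n, rfl⟩; exact hX n))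
  · have hfin : (f ⁻¹' S).Finite := hS.preimage hf.injOn
    obtain ⟨N, hN⟩ := hfin.bddAbove
    have hNS : ∀ n, f (N + 1 + n) ∈ X \ S := by
      intro n
      refine ⟨hX _, fun hmem => ?_⟩
      have : N + 1 + n ≤ N := hN hmem
      omega
    obtain ⟨β, hβ, h'⟩ := h _ (hNS 0)
    refine ih β hβ h' ⟨fun n => f (N + 1 + n), ?_, ?_, ?_⟩
    · intro a b hab
      have := hf hab
      omega
    · intro n
      induction n with
      | zero => exact mem_comp_self (hNS 0)
      | succ n ihn => exact comp_closed ihn (hNS (n + 1)) (hadj _)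
    · intro n
      exact hadj _

/-- A graph on a countable vertex set which has no countable rank contains a ray. -/
theorem exists_ray [Countable V] {G : SimpleGraph V} {X : Set V} (hX : Conn G X)
    (hne : X.Nonempty) (hbad : ¬ ∃ α < ω₁, RankLE G α X) :
    ∃ f : ℕ → V, Function.Injective f ∧ (∀ n, f n ∈ X) ∧ ∀ n, G.Adj (f n) (f (n + 1)) := by
  classical
  let σ := {p : V × Set V // p.1 ∈ p.2 ∧ Conn G p.2 ∧ ¬ ∃ α < ω₁, RankLE G α p.2}
  have hstep : ∀ p : σ, ∃ q : σ, q.1.2 ⊆ p.1.2 \ {p.1.1} ∧ G.Adj p.1.1 q.1.1 := by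
    rintro ⟨⟨v, Z⟩, hv, hZ, hb⟩
    simp only at hv hZ hb ⊢
    have : ¬ ∀ u ∈ Z \ {v}, ∃ β < ω₁, RankLE G β (comp G (Z \ {v}) u) := fun h =>
      hb (exists_rank_of_comps (finite_singleton v) h)
    push Not at this
    obtain ⟨u, hu, hub⟩ := this
    have hex : ∃ a ∈ comp G (Z \ {v}) u, G.Adj a v := by
      by_contra hcon
      push Not at hcon
      have h1 := hZ u hu.1 v hv
      have h2 : v ∈ comp G (Z \ {v}) u := by
        refine h1.closed (mem_comp_self hu) ?_
        intro a ha _ b hb hab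
        by_cases hbv : b = v
        · subst hbv
          exact absurd hab (hcon a ha)
        · exact comp_closed ha ⟨hb, hbv⟩ hab
      exact (comp_subset h2).2 rfl
    obtain ⟨a, ha, hav⟩ := hex
    refine ⟨⟨⟨a, comp G (Z \ {v}) u⟩, ha, comp_conn, ?_⟩, comp_subset, hav.symm⟩
    rintro ⟨β, hβ, h⟩
    exact hub β hβ h
  choose next hnext1 hnext2 using hstep
  let s : ℕ → σ := fun n => Nat.rec ⟨⟨hne.some, X⟩, hne.some_mem, hX, hbad⟩ (fun _ p => next p) n
  have hs : ∀ n, s (n + 1) = next (s n) := fun n => rfl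
  have hanti : ∀ m n, m < n → (s n).1.2 ⊆ (s m).1.2 \ {(s m).1.1} := by
    intro m n hmn
    induction n with
    | zero => omega
    | succ n ih =>
      rcases Nat.lt_succ_iff_lt_or_eq.1 hmn with h | h
      · have h1 := ih h
        have h2 := hnext1 (s n)
        rw [← hs] at h2
        exact h2.trans (sdiff_subset.trans h1)
      · subst h
        have h2 := hnext1 (s m)
        rwa [← hs] at h2
  refine ⟨fun n => (s n).1.1, ?_, ?_, ?_⟩
  · intro a b hab
    simp only at hab
    by_contra hne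
    rcases lt_or_gt_of_ne hne with h | h
    · have := hanti a b h (s b).2.1
      exact this.2 hab.symm
    · have := hanti b a h (s a).2.1
      exact this.2 hab
  · intro n
    rcases Nat.eq_zero_or_pos n with h | h
    · subst h
      exact hne.some_mem
    · exact (hanti 0 n h (s n).2.1).1
  · intro n
    have := hnext2 (s n)
    rwa [← hs] at this

/-- On a countable vertex set, a graph without rays has a countable rank. -/
theorem exists_rank_of_no_ray [Countable V] {G : SimpleGraph V} {X : Set V}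
    (h : ¬ ∃ f : ℕ → V, Function.Injective f ∧ (∀ n, f n ∈ X) ∧ ∀ n, G.Adj (f n) (f (n + 1))) :
    ∃ α < ω₁, RankLE G α X := by
  refine exists_rank_of_comps (S := ∅) finite_empty fun v hv => ?_
  by_contra hbad
  obtain ⟨f, h1, h2, h3⟩ := exists_ray comp_conn ⟨v, mem_comp_self hv⟩ hbad
  exact h ⟨f, h1, fun n => (comp_subset (h2 n)).1, h3⟩

end Run7.h891
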