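import Pool.Agent.Run7.h891.Defs
import Pool.Agent.Run7.h891.Rank

/-! Translation between the official definitions and the working ones. -/

set_option autoImplicit false

open Set Ordinal

namespace Run7.h891

universe u v w

variable {V : Type u} {W : Type v} {U : Type w}

theorem reach_image {T : SimpleGraph V} {K : SimpleGraph U} (f : T ↪g K) {A : Set V} {x y : V} :
    Reach K (f '' A) (f x) (f y) ↔ Reach T A x y := by
  constructor
  · intro h
    have hx : x ∈ A := by
      obtain ⟨x', hx', he⟩ := h.left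
      rwa [← f.injective he]
    have : f y ∈ {z | ∃ y', f y' = z ∧ Reach T A x y'} := by
      refine h.closed ⟨x, rfl, Reach.refl hx⟩ ?_
      rintro _ ⟨a, rfl, ha⟩ _ _ ⟨b, hb, rfl⟩ hab
      exact ⟨b, rfl, ha.step (f.map_adj_iff.1 hab) hb⟩
    obtain ⟨y', he, h'⟩ := this
    rwa [← f.injective he]
  · intro h
    refine h.induct (P := fun y => Reach K (f '' A) (f x) (f y))
      (Reach.refl (mem_image_of_mem f h.left)) ?_
    intro a b ha _ hb hab
    exact ha.step (f.map_adj_iff.2 hab) (mem_image_of_mem f hb)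

theorem conn_image {T : SimpleGraph V} {K : SimpleGraph U} (f : T ↪g K) {A : Set V} :
    Conn K (f '' A) ↔ Conn T A := by
  constructor
  · intro h x hx y hy
    exact (reach_image f).1 (h _ (mem_image_of_mem f hx) _ (mem_image_of_mem f hy))
  · rintro h _ ⟨x, hx, rfl⟩ _ ⟨y, hy, rfl⟩
    exact (reach_image f).2 (h x hx y hy)

theorem comp_image {T : SimpleGraph V} {K : SimpleGraph U} (f : T ↪g K) {A : Set V} {x : V} :
    comp K (f '' A) (f x) = f '' comp T A x := by
  ext z
  constructor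
  · intro hz
    obtain ⟨y, _, rfl⟩ := comp_subset hz
    exact ⟨y, (reach_image f).1 hz, rfl⟩
  · rintro ⟨y, hy, rfl⟩
    exact (reach_image f).2 hy

/-- Pull back a model along an embedding. -/
theorem IsModel.pull {T : SimpleGraph V} {K : SimpleGraph U} (f : T ↪g K) {H : SimpleGraph W}
    {Y : Set W} {Z : Set V} {B : W → Set U} (h : IsModel H Y K (f '' Z) B) :
    IsModel H Y T Z (fun w => f ⁻¹' B w) := by
  have himg : ∀ w ∈ Y, f '' (f ⁻¹' B w) = B w := by
    intro w hw
    rw [image_preimage_eq_inter_range]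
    refine inter_eq_left.2 ?_
    intro z hz
    obtain ⟨a, _, rfl⟩ := h.sub w hw hz
    exact ⟨a, rfl⟩
  refine ⟨?_, ?_, ?_, ?_, ?_⟩
  · intro w hw x hx
    obtain ⟨a, ha, he⟩ := h.sub w hw hx
    rwa [← f.injective he]
  · intro w hw
    obtain ⟨z, hz⟩ := h.ne w hw
    obtain ⟨a, _, rfl⟩ := h.sub w hw hz
    exact ⟨a, hz⟩
  · intro w hw
    rw [← conn_image f, himg w hw]
    exact h.conn w hw
  · intro a ha b hb hab
    exact (h.disj a ha b hb hab).preimage f
  · intro a ha b hb hab
    obtain ⟨x, hx, y, hy, hxy⟩ := h.adj a ha b hb hab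
    obtain ⟨x, _, rfl⟩ := h.sub a ha hx
    obtain ⟨y, _, rfl⟩ := h.sub b hb hy
    exact ⟨x, hx, y, hy, f.map_adj_iff.1 hxy⟩

theorem IsModel.push {T : SimpleGraph V} {K : SimpleGraph U} (f : T ↪g K) {H : SimpleGraph W}
    {Y : Set W} {Z : Set V} {B : W → Set V} (h : IsModel H Y T Z B) :
    IsModel H Y K (f '' Z) (fun w => f '' B w) := by
  refine ⟨?_, ?_, ?_, ?_, ?_⟩
  · intro w hw
    exact image_mono (h.sub w hw)
  · intro w hw
    exact (h.ne w hw).image f
  · intro w hw
    exact (conn_image f).2 (h.conn w hw)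
  · intro a ha b hb hab
    exact (disjoint_image_iff f.injective).2 (h.disj a ha b hb hab)
  · intro a ha b hb hab
    obtain ⟨x, hx, y, hy, hxy⟩ := h.adj a ha b hb hab
    exact ⟨f x, mem_image_of_mem f hx, f y, mem_image_of_mem f hy, f.map_adj_iff.2 hxy⟩

theorem minor_image_right {T : SimpleGraph V} {K : SimpleGraph U} (f : T ↪g K)
    {H : SimpleGraph W} {Y : Set W} {Z : Set V} : Minor H Y K (f '' Z) ↔ Minor H Y T Z := by
  constructor
  · rintro ⟨B, hB⟩
    exact ⟨_, hB.pull f⟩
  · rintro ⟨B, hB⟩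
    exact ⟨_, hB.push f⟩

theorem minor_image_left {T : SimpleGraph V} {K : SimpleGraph U} (f : T ↪g K)
    {H : SimpleGraph W} {Y : Set W} {Z : Set V} : Minor K (f '' Z) H Y ↔ Minor T Z H Y := by
  constructor
  · intro h
    exact ((minor_image_right f).2 (Minor.refl T Z)).trans h
  · intro h
    exact ((minor_image_right f).1 (Minor.refl K (f '' Z))).trans h

theorem rankLE_image {T : SimpleGraph V} {K : SimpleGraph U} (f : T ↪g K) {α : Ordinal.{0}}
    {Z : Set V} : RankLE K α (f '' Z) ↔ RankLE T α Z := by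
  constructor
  · intro h
    exact h.of_minor ((minor_image_right f).2 (Minor.refl T Z))
  · intro h
    exact h.of_minor ((minor_image_right f).1 (Minor.refl K (f '' Z)))

theorem reach_iff_reachable {G : SimpleGraph V} {A : Set V} {x y : V} :
    Reach G A x y ↔ ∃ (hx : x ∈ A) (hy : y ∈ A), (G.induce A).Reachable ⟨x, hx⟩ ⟨y, hy⟩ := by
  have h0 : ∀ x y : A, (G.induce A).Reachable x y ↔ Reach G A x y := by
    intro x y
    rw [SimpleGraph.reachable_iff_reflTransGen]
    constructor
    · intro h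
      induction h with
      | refl => exact Reach.refl x.2
      | @tail b c _ h2 ih => exact ih.step h2 c.2
    · intro h
      have key : ∀ z, Reach G A x z → ∀ hz : z ∈ A,
          Relation.ReflTransGen (G.induce A).Adj x ⟨z, hz⟩ := by
        intro z hz
        refine hz.induct (P := fun z => ∀ hz : z ∈ A,
          Relation.ReflTransGen (G.induce A).Adj x ⟨z, hz⟩) ?_ ?_
        · intro _
          exact Relation.ReflTransGen.refl
        · intro a b ha hxa _ hab hb
          refine (ha hxa.right).tail ?_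
          exact hab
      exact key y h y.2
  constructor
  · intro h
    exact ⟨h.left, h.right, (h0 ⟨x, h.left⟩ ⟨y, h.right⟩).2 h⟩
  · rintro ⟨hx, hy, h⟩
    exact (h0 ⟨x, hx⟩ ⟨y, hy⟩).1 h

theorem conn_iff {G : SimpleGraph V} {A : Set V} :
    (G.induce A).Connected ↔ A.Nonempty ∧ Conn G A := by
  rw [SimpleGraph.connected_iff]
  constructor
  · rintro ⟨h1, ⟨x⟩⟩
    exact ⟨⟨x.1, x.2⟩, fun x hx y hy => reach_iff_reachable.2 ⟨hx, hy, h1 _ _⟩⟩
  · rintro ⟨⟨x, hx⟩, h⟩
    refine ⟨fun a b => ?_, ⟨x, hx⟩⟩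
    obtain ⟨_, _, h'⟩ := reach_iff_reachable.1 (h a a.2 b b.2)
    exact h'

theorem isMinor_iff {H : SimpleGraph W} {G : SimpleGraph V} :
    IsMinor H G ↔ Minor H univ G univ := by
  constructor
  · rintro ⟨B, h1, h2, h3⟩
    exact ⟨B, fun w _ => subset_univ _, fun w _ => (conn_iff.1 (h1 w)).1,
      fun w _ => (conn_iff.1 (h1 w)).2, fun a _ b _ => h2 a b, fun a _ b _ => h3 a b⟩
  · rintro ⟨B, hB⟩
    exact ⟨B, fun w => conn_iff.2 ⟨hB.ne w (mem_univ w), hB.conn w (mem_univ w)⟩,
      fun a b => hB.disj a (mem_univ a) b (mem_univ b),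
      fun a b => hB.adj a (mem_univ a) b (mem_univ b)⟩

theorem isMinor_induce_iff {H : SimpleGraph W} {G : SimpleGraph V} {Y : Set W} {X : Set V} :
    IsMinor (H.induce Y) (G.induce X) ↔ Minor H Y G X := by
  rw [isMinor_iff]
  have h1 : (SimpleGraph.Embedding.induce (G := G) X) '' univ = X := by
    ext x
    simp
  have h2 : (SimpleGraph.Embedding.induce (G := H) Y) '' univ = Y := by
    ext x
    simp
  rw [← minor_image_right (SimpleGraph.Embedding.induce (G := G) X), h1,
    ← minor_image_left (SimpleGraph.Embedding.induce (G := H) Y), h2]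

theorem hasRankLE_iff_def {V : Type} (G : SimpleGraph V) (α : Ordinal.{0}) :
    HasRankLE α G ↔ Finite V ∨ ∃ S : Set V, S.Finite ∧
      ∀ c : (G.induce Sᶜ).ConnectedComponent, ∃ β < α, HasRankLE β c.toSimpleGraph := by
  rw [HasRankLE]
  simp only [exists_prop]

/-- The embedding of a component of `G - S` in `K`, for an embedding of `G` in `K`. -/
def compEmb {V : Type} {U : Type w} {G : SimpleGraph V} {K : SimpleGraph U} (f : G ↪g K)
    (S : Set V) (c : (G.induce Sᶜ).ConnectedComponent) : c.toSimpleGraph ↪g K :=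
  f.comp ((SimpleGraph.Embedding.induce (G := G) Sᶜ).comp
    (SimpleGraph.Embedding.induce (G := G.induce Sᶜ) c.supp))

theorem range_compEmb {V : Type} {U : Type w} {G : SimpleGraph V} {K : SimpleGraph U}
    (f : G ↪g K) (S : Set V) (v : V) (hv : v ∈ Sᶜ) :
    range (compEmb f S ((G.induce Sᶜ).connectedComponentMk ⟨v, hv⟩)) =
      comp K (range f \ f '' S) (f v) := by
  have h1 : range f \ f '' S = f '' Sᶜ := by
    rw [← image_univ, ← image_sdiff f.injective, compl_eq_univ_sdiff]
  rw [h1, comp_image]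
  ext z
  constructor
  · rintro ⟨⟨⟨u, hu⟩, hc⟩, rfl⟩
    refine ⟨u, ?_, rfl⟩
    have h2 : (G.induce Sᶜ).Reachable ⟨v, hv⟩ ⟨u, hu⟩ := by
      have := SimpleGraph.ConnectedComponent.exact hc
      exact this.symm
    exact reach_iff_reachable.2 ⟨hv, hu, h2⟩
  · rintro ⟨u, hu, rfl⟩
    obtain ⟨_, hu', h2⟩ := reach_iff_reachable.1 hu
    refine ⟨⟨⟨u, hu'⟩, ?_⟩, rfl⟩
    exact SimpleGraph.ConnectedComponent.sound h2.symm

theorem hasRankLE_iff_range {K : SimpleGraph U} {α : Ordinal.{0}} :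
    ∀ {V : Type} {G : SimpleGraph V} (f : G ↪g K), HasRankLE α G ↔ RankLE K α (range f) := by
  induction α using WellFoundedLT.induction with
  | _ α ih =>
  intro V G f
  rw [hasRankLE_iff_def, rankLE_iff]
  constructor
  · rintro (h | ⟨S, hS, h⟩)
    · exact Or.inl (finite_range f)
    · refine Or.inr ⟨f '' S, hS.image f, ?_⟩
      rintro _ ⟨⟨v, rfl⟩, hv⟩
      have hv' : v ∈ Sᶜ := fun h => hv (mem_image_of_mem f h)
      obtain ⟨β, hβ, h'⟩ := h ((G.induce Sᶜ).connectedComponentMk ⟨v, hv'⟩)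
      refine ⟨β, hβ, ?_⟩
      rw [← range_compEmb f S v hv']
      exact (ih β hβ _).1 h'
  · rintro (h | ⟨S, hS, h⟩)
    · left
      have := (Set.finite_range_iff f.injective).1 h
      exact this
    · refine Or.inr ⟨f ⁻¹' S, hS.preimage f.injective.injOn, ?_⟩
      intro c
      induction c using SimpleGraph.ConnectedComponent.ind with
      | _ v =>
      obtain ⟨v, hv⟩ := v
      have h1 : range f \ f '' (f ⁻¹' S) = range f \ S := by
        ext z
        constructor
        · rintro ⟨⟨a, rfl⟩, ha⟩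
          exact ⟨⟨a, rfl⟩, fun h => ha ⟨a, h, rfl⟩⟩
        · rintro ⟨⟨a, rfl⟩, ha⟩
          refine ⟨⟨a, rfl⟩, ?_⟩
          rintro ⟨b, hb, he⟩
          rw [← he] at ha
          exact ha hb
      obtain ⟨β, hβ, h'⟩ := h (f v) ⟨⟨v, rfl⟩, hv⟩
      refine ⟨β, hβ, ?_⟩
      rw [ih β hβ (compEmb f (f ⁻¹' S) _), range_compEmb f _ v hv, h1]
      exact h'

theorem hasRankLE_iff {V : Type} {G : SimpleGraph V} {α : Ordinal.{0}} :
    HasRankLE α G ↔ RankLE G α univ := by
  rw [hasRankLE_iff_range (SimpleGraph.Embedding.refl (G := G))]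
  have : range (SimpleGraph.Embedding.refl : G ↪g G) = Set.univ := by
    ext x
    exact ⟨fun _ => mem_univ _, fun _ => ⟨x, rfl⟩⟩
  rw [this]

theorem rayless_iff {V : Type} [Countable V] {G : SimpleGraph V} :
    Rayless G ↔ ∃ α < ω₁, RankLE G α univ := by
  constructor
  · intro h
    refine exists_rank_of_no_ray ?_
    rintro ⟨f, h1, _, h3⟩
    exact h ⟨f, h1, h3⟩
  · rintro ⟨α, _, h⟩ ⟨f, h1, h3⟩
    exact h.no_ray ⟨f, h1, fun _ => mem_univ _, h3⟩

end Run7.h891
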