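import Pool.Agent.Run7.h891.StarOne
import Pool.Agent.Run7.h891.BqoGraph

/-! Classes of graphs of any cardinality which are closed under minors and hub sums: if the
connected members are well-quasi-ordered, the two-connected members are better-quasi-ordered. -/

set_option autoImplicit false

open Set

namespace Run7.h891.Cls

open Run7.h891
open Pool.Agent.H557R3.Bqo (W LC Rep cons shift rep_of_lc cons_shift shift_strictMono)

/-- Connected graphs with a root. -/
structure RG : Type 1 where
  V : Type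
  G : SimpleGraph V
  X : Set V
  r : V
  mem : r ∈ X
  conn : Conn G X

/-- The minor relation between the underlying graphs. -/
def RG.le (a b : RG) : Prop := Minor a.G a.X b.G b.X

theorem RG.le_trans {a b c : RG} (h : a.le b) (h' : b.le c) : a.le c := Minor.trans h h'

/-- The disjoint union of the vertex types. -/
abbrev nW (A : ℕ → RG) : Type := Σ n, (A n).V

/-- The embedding of a vertex type. -/
def nE (A : ℕ → RG) (n : ℕ) : (A n).V ↪ nW A :=
  ⟨fun x => ⟨n, x⟩, fun x y h => by simpa using h⟩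

/-- The image of a graph. -/
def nT (A : ℕ → RG) (n : ℕ) : SimpleGraph (nW A) := (A n).G.map (nE A n)

/-- The embedding of graphs. -/
def nI (A : ℕ → RG) (n : ℕ) : (A n).G ↪g nT A n := SimpleGraph.Embedding.map (nE A n) (A n).G

/-- The carrier. -/
def nX (A : ℕ → RG) (n : ℕ) : Set (nW A) := nI A n '' (A n).X

/-- The root. -/
def nr (A : ℕ → RG) (n : ℕ) : nW A := nI A n (A n).r

/-- The rooted graph of a node. -/
def RG.node (A : ℕ → RG) : RG where
  V := Unit ⊕ (ℕ × ℕ) × nW A
  G := star1 (fun p : ℕ × ℕ => nT A p.1) (fun p => nr A p.1)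
  X := starSet Set.univ (fun p : ℕ × ℕ => nX A p.1)
  r := .inl ()
  mem := hub_mem_starSet
  conn := star1_conn (fun p => (conn_image (nI A p.1)).2 (A p.1).conn)
    (fun p => mem_image_of_mem _ (A p.1).mem)

theorem leaf_le_node {L : RG} (hL : TwoConn L.G L.X) {B : ℕ → RG} (h : L.le (RG.node B)) :
    ∃ m, L.le (B m) := by
  obtain ⟨j, hj⟩ := twoConn_star1 hL h
  exact ⟨j.1, (minor_image_right (nI B j.1)).1 hj⟩

theorem node_le_node {A B : ℕ → RG} (h : (RG.node A).le (RG.node B)) :
    (∀ n, ∃ m, (A n).le (B m)) ∨ ∃ m, (RG.node A).le (B m) := by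
  rcases star1_star1 (K := nT A) (X := nX A) (s := nr A)
    (fun n => (conn_image (nI A n)).2 (A n).conn)
    (fun n => mem_image_of_mem _ (A n).mem) h with h2 | ⟨j, hj⟩
  · left
    intro n
    obtain ⟨j, hj⟩ := h2 n
    exact ⟨j.1, (minor_image_left (nI A n)).1 ((minor_image_right (nI B j.1)).1 hj)⟩
  · right
    exact ⟨j.1, (minor_image_right (nI B j.1)).1 hj⟩

theorem le_node (A : ℕ → RG) (n : ℕ) : (A n).le (RG.node A) := by
  have h1 : Minor (A n).G (A n).X (star1 (fun p : ℕ × ℕ => nT A p.1) (fun p => nr A p.1))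
      (copySet Unit (n, 0) (nX A n)) :=
    (star1_copy_minor (T := fun p : ℕ × ℕ => nT A p.1) (i := (n, 0))).2
      ((minor_image_right (nI A n)).2 (Minor.refl _ _))
  exact h1.trans (Minor.of_subset _ (star_copySet_subset
    (Z := fun p : ℕ × ℕ => nX A p.1) (i := (n, 0)) (mem_univ _)))

/-- The rooted graph of a tree. -/
def gam (L : ℕ → RG) : W ℕ → RG
  | .elem p => L p
  | .set A => RG.node fun n => gam L (A n)

/-- The tree `T` represents the function `c` on sequences with entries at least `b`. -/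
def Tr : W ℕ → ℕ → ((ℕ → ℕ) → ℕ) → Prop
  | .elem q => fun _ c => ∀ X, c X = q
  | .set A => fun b c => ∀ n, Tr (A n) (b + n + 1) (fun X => c (cons (b + n) X))

theorem exists_tr {c : (ℕ → ℕ) → ℕ} (hc : Rep c) : ∀ b, ∃ T, Tr T b c := by
  induction hc with
  | const k => exact fun b => ⟨.elem k, fun _ => rfl⟩
  | step f _ ih =>
    intro b
    choose T hT using fun n => ih (b + n) (b + n + 1)
    exact ⟨.set T, hT⟩

theorem leaf_play {L : ℕ → RG} {q : ℕ} (S : W ℕ) : ∀ (b : ℕ) (c : (ℕ → ℕ) → ℕ), Tr S b c →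
    (gam L S).le (L q) → ∀ X, Inc b X → (L (c X)).le (L q) := by
  induction S with
  | elem p =>
    intro b c hc h X _
    rw [hc X]
    exact h
  | set A ih =>
    intro b c hc h X hX
    obtain ⟨n, hn⟩ : ∃ n, X 0 = b + n := ⟨X 0 - b, by have := hX.2; omega⟩
    have h1 : (gam L (A n)).le (L q) := RG.le_trans (le_node (fun n => gam L (A n)) n) h
    have h2 := ih n (b + n + 1) _ (hc n) h1 (shift X) (by
      have := hX.shift
      rwa [hn] at this)
    have h3 : cons (b + n) (shift X) = X := by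
      rw [← hn]
      exact cons_shift X
    rwa [h3] at h2

theorem play {L : ℕ → RG} (hL : ∀ p, TwoConn (L p).G (L p).X) (T : W ℕ) :
    ∀ (S : W ℕ) (b b' : ℕ) (c d : (ℕ → ℕ) → ℕ) (a : ℕ) (l : List ℕ),
    Tr S b c → Tr T b' d → (gam L S).le (gam L T) →
    (∀ Z, Inc b' Z → Inc b (app (a :: l) Z)) →
    ∃ Z, Inc b' Z ∧ (L (c (app (a :: l) Z))).le (L (d Z)) := by
  induction T with
  | elem q =>
    intro S b b' c d a l hc hd h hI
    have hZ : Inc b' (fun k => b' + k) := ⟨fun _ _ h => by simpa using h, le_refl _⟩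
    refine ⟨_, hZ, ?_⟩
    rw [hd]
    exact leaf_play S b c hc h _ (hI _ hZ)
  | set B ih =>
    intro S b b' c d a l hc hd h hI
    -- moving only on the right
    have hright : ∀ m, (gam L S).le (gam L (B m)) →
        ∃ Z, Inc b' Z ∧ (L (c (app (a :: l) Z))).le (L (d Z)) := by
      intro m hm
      obtain ⟨Z, hZ, hr⟩ := ih m S b (b' + m + 1) c _ a (l ++ [b' + m]) hc (hd m) hm (by
        intro Z hZ
        rw [← List.cons_append, app_append]
        exact hI _ (hZ.cons (Nat.le_add_right _ _)))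
      refine ⟨cons (b' + m) Z, hZ.cons (Nat.le_add_right _ _), ?_⟩
      rw [← List.cons_append, app_append] at hr
      exact hr
    cases S with
    | elem p =>
      obtain ⟨m, hm⟩ := leaf_le_node (hL p) h
      exact hright m hm
    | set A =>
      rcases node_le_node h with h1 | ⟨m, hm⟩
      swap
      · exact hright m hm
      -- moving on both sides
      have hba : b ≤ a := (hI (fun k => b' + k) ⟨fun _ _ h => by simpa using h, le_refl _⟩).2
      obtain ⟨n, rfl⟩ : ∃ n, a = b + n := ⟨a - b, by omega⟩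
      obtain ⟨m, hm⟩ := h1 n
      -- the new queue
      have hq : ∃ a' l', l ++ [b' + m] = a' :: l' := by
        cases l with
        | nil => exact ⟨_, _, rfl⟩
        | cons x l => exact ⟨_, _, rfl⟩
      obtain ⟨a', l', hal⟩ := hq
      obtain ⟨Z, hZ, hr⟩ := ih m (A n) (b + n + 1) (b' + m + 1) _ _ a' l' (hc n) (hd m) hm (by
        intro Z hZ
        rw [← hal, app_append]
        have := (hI _ (hZ.cons (Nat.le_add_right b' m))).shift
        exact this)
      refine ⟨cons (b' + m) Z, hZ.cons (Nat.le_add_right _ _), ?_⟩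
      rw [← hal, app_append] at hr
      exact hr

/-- Well-quasi-ordering implies better-quasi-ordering, abstract form. -/
theorem bqo_of_wqo {KK : RG → Prop} (hnode : ∀ A : ℕ → RG, (∀ n, KK (A n)) → KK (RG.node A))
    (hW : ∀ F : ℕ → RG, (∀ n, KK (F n)) → ∃ i j, i < j ∧ (F i).le (F j))
    {L : ℕ → RG} (hK : ∀ p, KK (L p)) (hL : ∀ p, TwoConn (L p).G (L p).X)
    (f : (ℕ → ℕ) → ℕ) (hf : LC f) :
    ∃ X : ℕ → ℕ, StrictMono X ∧ (L (f X)).le (L (f (shift X))) := by
  have hf' : ∀ n, LC (fun X => f (cons n X)) := by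
    intro n X
    obtain ⟨k, hk⟩ := hf (cons n X)
    refine ⟨k, fun Y hY => hk _ ?_⟩
    intro i hi
    cases i with
    | zero => rfl
    | succ i => exact hY i (by omega)
  have hgam : ∀ T : W ℕ, KK (gam L T) := by
    intro T
    induction T with
    | elem p => exact hK p
    | set A ih => exact hnode _ ih
  choose T hT using fun n => exists_tr (rep_of_lc (hf' n)) (n + 1)
  obtain ⟨m, n, hmn, hle⟩ := hW (fun n => gam L (T n)) (fun n => hgam (T n))
  obtain ⟨Z, hZ, hr⟩ := play hL (T n) (T m) (m + 1) (n + 1) _ _ n [] (hT m) (hT n) hle (by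
    intro Z hZ
    exact hZ.cons hmn)
  have h1 : Inc 0 (cons m (cons n Z)) := (hZ.cons (show m + 1 ≤ n from hmn)).cons (Nat.zero_le m)
  exact ⟨cons m (cons n Z), h1.1, hr⟩

end Run7.h891.Cls
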