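import Pool.Agent.Run7.h891.Ftw

/-! Countable rayless graphs without two-connected minors from a given set. -/

set_option autoImplicit false

open Set

namespace Run7.h891.Cls

open Run7.h891

section hub

variable {ι : Type} {V : ι → Type} (G : ∀ i, SimpleGraph (V i)) (r : ∀ i, V i)

/-- The embedding of a vertex set. -/
def gE (V : ι → Type) (i : ι) : V i ↪ (Σ i, V i) :=
  ⟨fun x => ⟨i, x⟩, fun x y h => by simpa using h⟩

/-- The copy of a graph on the disjoint union. -/
def gT (i : ι) : SimpleGraph (Σ i, V i) := (G i).map (gE V i)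

/-- The embedding. -/
def gI (i : ι) : G i ↪g gT G i := SimpleGraph.Embedding.map (gE V i) (G i)

theorem gT_adj (i : ι) (x y : V i) : (gT G i).Adj ⟨i, x⟩ ⟨i, y⟩ ↔ (G i).Adj x y :=
  (gI G i).map_rel_iff

/-- The embedding of the hub sum in a star. -/
def gEmb : hubGraph G r ↪g star1 (gT G) (fun i => (⟨i, r i⟩ : Σ i, V i)) where
  toFun
    | none => .inl ()
    | some q => .inr (q.1, q)
  inj' := by
    rintro (_ | p) (_ | q) h
    · rfl
    · simp at h
    · simp at h
    · have h1 := Sum.inr_injective h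
      have h2 : p = q := (Prod.ext_iff.1 h1).2
      rw [h2]
  map_rel_iff' := by
    rintro (_ | ⟨i, x⟩) (_ | ⟨j, y⟩)
    · constructor
      · intro h
        exact absurd h id
      · intro h
        exact absurd h (SimpleGraph.irrefl _)
    · rw [hub_none_some]
      constructor
      · intro h
        have h1 : (⟨j, y⟩ : Σ i, V i) = ⟨j, r j⟩ := h
        simpa using h1
      · rintro rfl
        exact rfl
    · rw [SimpleGraph.adj_comm (hubGraph G r), hub_none_some]
      constructor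
      · intro h
        have h1 : (⟨i, x⟩ : Σ i, V i) = ⟨i, r i⟩ := h
        simpa using h1
      · rintro rfl
        exact rfl
    · rw [hub_some_some]
      constructor
      · rintro ⟨h1, h2⟩
        have h1' : i = j := h1
        subst h1'
        exact ⟨rfl, (gT_adj G _ x y).1 h2⟩
      · rintro ⟨rfl, h2⟩
        exact ⟨rfl, (gT_adj G _ x y).2 h2⟩

/-- A two-connected minor of a hub sum is a minor of a summand. -/
theorem twoConn_hub {W : Type} {H : SimpleGraph W} (hH : TwoConnected H)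
    (h : IsMinor H (hubGraph G r)) : ∃ i, IsMinor H (G i) := by
  have h1 : Minor H univ (star1 (gT G) (fun i => (⟨i, r i⟩ : Σ i, V i))) (gEmb G r '' univ) :=
    (minor_image_right (gEmb G r)).2 (isMinor_iff.1 h)
  have h2 : gEmb G r '' univ ⊆ starSet Set.univ (fun i => gI G i '' univ) := by
    rintro _ ⟨(_ | ⟨i, x⟩), _, rfl⟩
    · exact hub_mem_starSet
    · exact inr_mem_starSet.2 ⟨mem_univ _, x, mem_univ _, rfl⟩
  obtain ⟨j, hj⟩ := twoConn_star1 (TwoConnected.twoConn hH) (h1.trans (Minor.of_subset _ h2))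
  exact ⟨j, isMinor_iff.2 ((minor_image_right (gI G j)).1 hj)⟩

theorem rayless_hub (h : ∀ i, Rayless (G i)) : Rayless (hubGraph G r) := by
  rintro ⟨f, hf, hadj⟩
  obtain ⟨N, hN⟩ : ∃ N, ∀ n, N ≤ n → f n ≠ none := by
    by_cases hex : ∃ m, f m = none
    · obtain ⟨m, hm⟩ := hex
      refine ⟨m + 1, fun n hn hn' => ?_⟩
      have := hf (hm.trans hn'.symm)
      omega
    · push Not at hex
      exact ⟨0, fun n _ => hex n⟩
  obtain ⟨q, hq⟩ := Option.ne_none_iff_exists'.1 (hN N le_rfl)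
  obtain ⟨i, x0⟩ := q
  have key : ∀ k, ∃ x : V i, f (N + k) = some ⟨i, x⟩ := by
    intro k
    induction k with
    | zero => exact ⟨x0, hq⟩
    | succ k ih =>
      obtain ⟨x, hx⟩ := ih
      obtain ⟨⟨j, y⟩, hy⟩ := Option.ne_none_iff_exists'.1 (hN (N + (k + 1)) (by omega))
      have h1 := hadj (N + k)
      rw [hx, show N + k + 1 = N + (k + 1) from rfl, hy] at h1
      obtain ⟨rfl, _⟩ := (hub_some_some G r).1 h1
      exact ⟨y, hy⟩
  choose x hx using key
  refine h i ⟨x, ?_, ?_⟩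
  · intro a b hab
    have h1 : f (N + a) = f (N + b) := by rw [hx, hx, hab]
    have := hf h1
    omega
  · intro k
    have h1 := hadj (N + k)
    rw [hx, show N + k + 1 = N + (k + 1) from rfl, hx] at h1
    obtain ⟨_, h2⟩ := (hub_some_some G r).1 h1
    exact h2

end hub

theorem rayless_minor {V W : Type} {G : SimpleGraph V} {H : SimpleGraph W} (hc : Countable V)
    (h : Rayless G) (hm : IsMinor H G) : Rayless H := by
  have := countable_minor hc hm
  obtain ⟨α, hα, h1⟩ := rayless_iff.1 h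
  exact rayless_iff.2 ⟨α, hα, h1.of_minor (isMinor_iff.1 hm)⟩

/-- The countable rayless graphs without a minor from `F`. -/
def Forb (F : Set Gph) : Set Gph :=
  {G | Countable G.1 ∧ Rayless G.2 ∧ ∀ H ∈ F, ¬ IsMinor H.2 G.2}

theorem forb_minor (F : Set Gph) : ClosedUnderMinors (Forb F) := by
  rintro G ⟨h1, h2, h3⟩ H hH
  refine ⟨countable_minor h1 hH, rayless_minor h1 h2 hH, fun A hA hm => h3 A hA ?_⟩
  exact isMinor_iff.2 ((isMinor_iff.1 hm).trans (isMinor_iff.1 hH))

theorem forb_hub {F : Set Gph} (hF : ∀ H ∈ F, TwoConnected H.2) : ClosedUnderHubSums (Forb F) := by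
  intro ι hι V G r _ h
  have h' : ∀ i, Countable (V i) := fun i => (h i).1
  refine ⟨?_, rayless_hub G r fun i => (h i).2.1, fun A hA hm => ?_⟩
  · show Countable (Option (Σ i, V i))
    infer_instance
  · obtain ⟨i, hi⟩ := twoConn_hub G r (hF A hA) hm
    exact (h i).2.2 A hA hi

theorem forb_bqo {F : Set Gph} (hF : ∀ H ∈ F, TwoConnected H.2)
    (h : WqoOn {G | G ∈ Forb F ∧ G.2.Connected}) : BqoOn {G | G ∈ Forb F ∧ TwoConnected G.2} :=
  two_bqo (forb_minor F) (forb_hub hF) h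

theorem connected_of_common {V : Type} {G : SimpleGraph V} (hne : Nonempty V)
    (h : ∀ x y, x ≠ y → G.Adj x y ∨ ∃ z, G.Adj x z ∧ G.Adj z y) : G.Connected := by
  refine ⟨fun x y => ?_⟩
  by_cases hxy : x = y
  · rw [hxy]
  · rcases h x y hxy with h1 | ⟨z, h1, h2⟩
    · exact h1.reachable
    · exact h1.reachable.trans h2.reachable

theorem twoConnected_K5 : TwoConnected (⊤ : SimpleGraph (Fin 5)) := by
  refine ⟨⟨0, 1, 2, by decide, by decide, by decide⟩, fun v => ?_⟩
  refine connected_of_common ?_ ?_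
  · by_cases h : v = 0
    · exact ⟨⟨1, by subst h; decide⟩⟩
    · exact ⟨⟨0, fun h' => h h'.symm⟩⟩
  · intro x y hxy
    left
    show (⊤ : SimpleGraph (Fin 5)).Adj x.1 y.1
    exact fun h => hxy (Subtype.ext h)

theorem twoConnected_K33 : TwoConnected (completeBipartiteGraph (Fin 3) (Fin 3)) := by
  refine ⟨⟨.inl 0, .inl 1, .inl 2, by decide, by decide, by decide⟩, fun v => ?_⟩
  have h1 : ∀ v : Fin 3 ⊕ Fin 3, ∃ z : Fin 3, Sum.inr z ≠ v := by decide
  have h2 : ∀ v : Fin 3 ⊕ Fin 3, ∃ z : Fin 3, Sum.inl z ≠ v := by decide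
  obtain ⟨z1, hz1⟩ := h1 v
  obtain ⟨z2, hz2⟩ := h2 v
  refine connected_of_common ⟨⟨.inr z1, hz1⟩⟩ ?_
  rintro ⟨x | x, hx⟩ ⟨y | y, hy⟩ hxy
  · right
    exact ⟨⟨.inr z1, hz1⟩, Or.inl ⟨rfl, rfl⟩, Or.inr ⟨rfl, rfl⟩⟩
  · left
    exact Or.inl ⟨rfl, rfl⟩
  · left
    exact Or.inr ⟨rfl, rfl⟩
  · right
    exact ⟨⟨.inl z2, hz2⟩, Or.inr ⟨rfl, rfl⟩, Or.inl ⟨rfl, rfl⟩⟩

end Run7.h891.Cls
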