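import Pool.Agent.Run7.h891.SharpCount

/-! Perfect antichains. -/

set_option autoImplicit false

open Set Ordinal MeasureTheory Cardinal

namespace Run7.h891

universe u

theorem continuous_toNat' {ι : Type} {P : Type u} (e : P ≃ ℕ) (F : (ι → Bool) → SimpleGraph P)
    (hF : ∀ x y, (∃ s : ι, ∀ t t', t s = t' s → ((F t).Adj x y ↔ (F t').Adj x y)) ∨
      ∀ t t', (F t).Adj x y ↔ (F t').Adj x y) :
    @Continuous _ _ _ graphTopology (fun t => toNat e (F t)) := by
  classical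
  refine continuous_induced_rng.2 ?_
  refine continuous_pi fun p => ?_
  show Continuous (fun t => edgeIndicator (toNat e (F t)) p)
  rcases hF (e.symm p.1) (e.symm p.2) with ⟨s, hs⟩ | hs
  · let g : Bool → Bool := fun b => edgeIndicator (toNat e (F (fun _ => b))) p
    have hg : ∀ t, edgeIndicator (toNat e (F t)) p = g (t s) := by
      intro t
      simp only [g, edgeIndicator, toNat_adj, decide_eq_decide]
      exact hs t (fun _ => t s) rfl
    have : (fun t => edgeIndicator (toNat e (F t)) p) = g ∘ (fun t => t s) := by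
      funext t
      exact hg t
    rw [this]
    exact (continuous_of_discreteTopology).comp (continuous_apply s)
  · have : (fun t => edgeIndicator (toNat e (F t)) p) =
        fun _ => edgeIndicator (toNat e (F fun _ => true)) p := by
      funext t
      simp only [edgeIndicator, toNat_adj, decide_eq_decide]
      exact hs t _
    rw [this]
    exact continuous_const

/-- A perfect antichain in the graphs of rank at most `β`. -/
theorem SF.exists_perfect {k : ℕ} {y : ℕ → Code (Fin k)} {β : Ordinal.{0}} (h : SF y β) :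
    ∃ Φ : (ℕ → Bool) → SimpleGraph ℕ, @Continuous _ _ _ graphTopology Φ ∧
      (∀ t, HasRankLE β (Φ t)) ∧ ∀ t t', t ≠ t' → ¬ IsMinor (Φ t) (Φ t') := by
  classical
  obtain ⟨e1⟩ : Nonempty (FV k ℕ ≃ ℕ) := nonempty_equiv_of_countable
  let D : (ℕ → Bool) → Set ℕ := fun t => {m | t (m / 2) = decide (m % 2 = 0)}
  have hD : ∀ t t', D t ⊆ D t' → t = t' := by
    intro t t' hsub
    funext n
    cases hn : t n with
    | false =>
      have h1 : 2 * n + 1 ∈ D t := by
        have h2 : (2 * n + 1) / 2 = n := by omega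
        have h3 : (2 * n + 1) % 2 = 1 := by omega
        simp [D, h2, h3, hn]
      have h4 := hsub h1
      have h2 : (2 * n + 1) / 2 = n := by omega
      have h3 : (2 * n + 1) % 2 = 1 := by omega
      simp only [D, mem_ofPred_eq, h2, h3] at h4
      simpa using h4.symm
    | true =>
      have h1 : 2 * n ∈ D t := by
        have h2 : (2 * n) / 2 = n := by omega
        have h3 : (2 * n) % 2 = 0 := by omega
        simp [D, h3, hn]
      have h4 := hsub h1
      have h2 : (2 * n) / 2 = n := by omega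
      have h3 : (2 * n) % 2 = 0 := by omega
      simp only [D, mem_ofPred_eq, h2, h3] at h4
      simpa using h4.symm
  let F : (ℕ → Bool) → SimpleGraph (FV k ℕ) := fun t => fG y (D t) fun q => {q}
  have hmem : ∀ q : ℕ, ∀ t t' : ℕ → Bool, t (q / 2) = t' (q / 2) → (q ∈ D t ↔ q ∈ D t') := by
    intro q t t' htt
    show t (q / 2) = _ ↔ t' (q / 2) = _
    rw [htt]
  refine ⟨fun t => toNat e1 (F t), ?_, fun t => ?_, fun t t' htt hm => ?_⟩
  · refine continuous_toNat' e1 F ?_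
    rintro (e | ⟨e, i, v⟩ | q | ⟨q, j, v⟩) (e' | ⟨e', i', v'⟩ | q' | ⟨q', j', v'⟩)
    · exact Or.inr fun t t' => Iff.rfl
    · exact Or.inr fun t t' => Iff.rfl
    · refine Or.inl ⟨q' / 2, fun t t' h => ?_⟩
      show (q' ∈ D t ∧ _) ↔ (q' ∈ D t' ∧ _)
      rw [hmem q' t t' h]
    · refine Or.inl ⟨q' / 2, fun t t' h => ?_⟩
      show (q' ∈ D t ∧ _) ↔ (q' ∈ D t' ∧ _)
      rw [hmem q' t t' h]
    · exact Or.inr fun t t' => Iff.rfl
    · exact Or.inr fun t t' => Iff.rfl
    · exact Or.inr fun t t' => Iff.rfl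
    · exact Or.inr fun t t' => Iff.rfl
    · refine Or.inl ⟨q / 2, fun t t' h => ?_⟩
      show (q ∈ D t ∧ _) ↔ (q ∈ D t' ∧ _)
      rw [hmem q t t' h]
    · exact Or.inr fun t t' => Iff.rfl
    · exact Or.inr fun t t' => Iff.rfl
    · refine Or.inl ⟨q' / 2, fun t t' h => ?_⟩
      show (_ ∧ q' ∈ D t ∧ _) ↔ (_ ∧ q' ∈ D t' ∧ _)
      rw [hmem q' t t' h]
    · refine Or.inl ⟨q / 2, fun t t' h => ?_⟩
      show (q ∈ D t ∧ _) ↔ (q ∈ D t' ∧ _)
      rw [hmem q t t' h]
    · exact Or.inr fun t t' => Iff.rfl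
    · refine Or.inl ⟨q / 2, fun t t' h => ?_⟩
      show (_ ∧ q ∈ D t ∧ _) ↔ (_ ∧ q ∈ D t' ∧ _)
      rw [hmem q t t' h]
    · refine Or.inl ⟨q / 2, fun t t' h => ?_⟩
      show (_ ∧ _ ∧ q ∈ D t ∧ _) ↔ (_ ∧ _ ∧ q ∈ D t' ∧ _)
      rw [hmem q t t' h]
  · exact hasRankLE_iff.2 ((toNat_rank e1 _).2 (fG_rank h.pos h.lt fun q _ => finite_singleton q))
  · have hm' : Minor (F t) Set.univ (F t') Set.univ :=
      (toNat_minor_left e1 _).1 ((toNat_minor_right e1 _).1 (isMinor_iff.1 hm))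
    obtain ⟨B, hB⟩ := hm'
    refine htt (hD t t' fun q hq => ?_)
    obtain ⟨s, hs, h1, _⟩ := f_model h.pos h.lt h.cof h.conn h.ne h.anti
      (fun s _ => finite_singleton s) (fun q _ => singleton_nonempty q) hB q hq
    rw [singleton_subset_singleton] at h1
    rwa [h1]

theorem twin_of_codeWqo {α : Ordinal.{0}} (hα : α < ω₁) (h : CodeWqo α) :
    CountablyManyTwinClasses α := by
  classical
  obtain ⟨f, hf⟩ := countable_types_local α hα h α le_rfl 0
  have hf' : ∀ G H : SimpleGraph ℕ, HasRankLE α G → HasRankLE α H →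
      f (code0 G) = f (code0 H) → IsMinor G H := by
    intro G H hG hH h
    obtain ⟨B, hB, _⟩ := hf (code0 G) (code0 H) (hasRankLE_iff.1 hG) (hasRankLE_iff.1 hH) h
    exact isMinor_iff.2 ⟨B, hB⟩
  let rep : ℕ → SimpleGraph ℕ := fun t =>
    if h : ∃ G : SimpleGraph ℕ, HasRankLE α G ∧ f (code0 G) = t then h.choose else ⊥
  have hrep : ∀ G : SimpleGraph ℕ, HasRankLE α G → HasRankLE α (rep (f (code0 G))) ∧
      f (code0 (rep (f (code0 G)))) = f (code0 G) := by
    intro G hG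
    have h : ∃ G' : SimpleGraph ℕ, HasRankLE α G' ∧ f (code0 G') = f (code0 G) := ⟨G, hG, rfl⟩
    simp only [rep, dif_pos h]
    exact h.choose_spec
  refine ⟨range rep, countable_range rep, fun G hG => ⟨_, ⟨f (code0 G), rfl⟩, ?_⟩⟩
  obtain ⟨h2, h3⟩ := hrep G hG
  exact ⟨hf' _ _ hG h2 h3.symm, hf' _ _ h2 hG h3⟩

theorem card_cantor : #(ℕ → Bool) = 𝔠 := by simp

theorem not_twin_of_antichain {α : Ordinal.{0}} {Φ : (ℕ → Bool) → SimpleGraph ℕ}
    (h1 : ∀ t, HasRankLE α (Φ t)) (h2 : ∀ t t', t ≠ t' → ¬ IsMinor (Φ t) (Φ t')) :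
    ¬ CountablyManyTwinClasses α := by
  classical
  rintro ⟨R, hR, hR'⟩
  choose g hg hg1 hg2 using fun t => hR' (Φ t) (h1 t)
  have hinj : Function.Injective g := by
    intro t t' htt
    by_contra hne
    have h3 := hg1 t
    rw [htt] at h3
    exact h2 t t' hne (isMinor_iff.2 ((isMinor_iff.1 h3).trans (isMinor_iff.1 (hg2 t'))))
  have h3 : (range g).Countable := hR.mono (by rintro _ ⟨t, rfl⟩; exact hg t)
  have h4 : Countable (ℕ → Bool) := by
    rw [← countable_univ_iff]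
    have h5 : (Set.univ : Set (ℕ → Bool)) ⊆ g ⁻¹' range g := fun t _ => ⟨t, rfl⟩
    exact (h3.preimage_of_injOn hinj.injOn).mono h5
  have h6 : #(ℕ → Bool) ≤ ℵ₀ := mk_le_aleph0_iff.2 h4
  rw [card_cantor] at h6
  exact absurd h6 (not_le.2 aleph0_lt_continuum)

/-- There is a subset of the Cantor space which is not Borel. -/
theorem exists_not_borel_cantor : ∃ A : Set (ℕ → Bool), ¬ MeasurableSet A := by
  by_contra hcon
  push Not at hcon
  have h1 := MeasurableSpace.generateFrom_countableGeneratingSet (α := ℕ → Bool)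
  have h2 : #(MeasurableSpace.countableGeneratingSet (ℕ → Bool)) ≤ 𝔠 :=
    (MeasurableSpace.countable_countableGeneratingSet.le_aleph0).trans aleph0_le_continuum
  have h3 := MeasurableSpace.cardinal_measurableSet_le_continuum h2
  rw [h1] at h3
  have h4 : {A : Set (ℕ → Bool) | MeasurableSet A} = Set.univ := by
    ext A
    exact ⟨fun _ => mem_univ _, fun _ => hcon A⟩
  have h5 : #{A : Set (ℕ → Bool) | MeasurableSet A} = 2 ^ 𝔠 := by
    rw [h4, mk_univ, mk_set, card_cantor]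
  rw [h5] at h3
  exact absurd h3 (not_le.2 (cantor _))

/-- S3'. -/
theorem perfect_tfae {α : Ordinal.{0}} (hα : α < ω₁) :
    [∃ C ∈ minorClosedFamilies α, ¬ BorelFamily C,
      ¬ CountablyManyTwinClasses α,
      ∃ Φ : (ℕ → Bool) → SimpleGraph ℕ, @Continuous _ _ _ graphTopology Φ ∧
        (∀ t, HasRankLE α (Φ t)) ∧ ∀ t t', t ≠ t' → ¬ IsMinor (Φ t) (Φ t'),
      #(minorClosedFamilies α) = 2 ^ 𝔠,
      ∀ A : Set (ℕ → Bool), ∃ C ∈ minorClosedFamilies α, ∃ Φ : (ℕ → Bool) → SimpleGraph ℕ,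
        @Continuous _ _ _ graphTopology Φ ∧ Φ ⁻¹' C = A].TFAE := by
  tfae_have 1 ↔ 4 := nonborel_iff_card hα
  tfae_have 1 → 3 := by
    rintro ⟨C, hC, hB⟩
    have hcon : ¬ CodeWqo α := fun h => hB (borel_of_codeWqo hα h hC.1 hC.2)
    obtain ⟨k, y, β, hβ, hy⟩ := sf_of_not_codeWqo hα hcon
    obtain ⟨Φ, h1, h2, h3⟩ := hy.exists_perfect
    exact ⟨Φ, h1, fun t => hasRankLE_iff.2 ((hasRankLE_iff.1 (h2 t)).mono_ord hβ), h3⟩
  tfae_have 3 → 2 := by
    rintro ⟨Φ, _, h2, h3⟩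
    exact not_twin_of_antichain h2 h3
  tfae_have 2 → 1 := by
    intro h
    by_contra hcon
    push Not at hcon
    refine h (twin_of_codeWqo hα ((borel_iff_rooted_wqo hα).1 fun C h1 h2 => hcon C ⟨h1, h2⟩))
  tfae_have 3 → 5 := by
    rintro ⟨Φ, h1, h2, h3⟩ A
    refine ⟨{H | ∃ t ∈ A, IsMinor H (Φ t)}, ⟨?_, ?_⟩, Φ, h1, ?_⟩
    · rintro G ⟨t, ht, hG⟩ H hH
      exact ⟨t, ht, isMinor_iff.2 ((isMinor_iff.1 hH).trans (isMinor_iff.1 hG))⟩
    · rintro G ⟨t, _, hG⟩
      exact hasRankLE_iff.2 ((hasRankLE_iff.1 (h2 t)).of_minor (isMinor_iff.1 hG))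
    · ext t
      constructor
      · rintro ⟨t', ht', h⟩
        by_contra ht
        exact h3 t t' (fun h' => ht (h' ▸ ht')) h
      · intro ht
        exact ⟨t, ht, isMinor_iff.2 (Minor.refl _ _)⟩
  tfae_have 5 → 1 := by
    intro h
    obtain ⟨A, hA⟩ := exists_not_borel_cantor
    obtain ⟨C, hC, Φ, hΦ, rfl⟩ := h A
    exact ⟨C, hC, fun hB => hA (hB.preimage hΦ)⟩
  tfae_finish

end Run7.h891
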