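import Pool.Agent.Run7.h891.Antichain
import Pool.Agent.Run7.h891.SharpPerfect
import Pool.Agent.Run7.h891.Forb

/-! Perfect antichains in classes of countable rayless graphs closed under minors and hub sums. -/

set_option autoImplicit false

open Set Ordinal

namespace Run7.h891.Cls

open Run7.h891

section hubc

variable {ι : Type} {V : ι → Type} {G : ∀ i, SimpleGraph (V i)} {r : ∀ i, V i}

theorem hub_comp {A : Set (Option (Σ i, V i))} (hA : Conn (hubGraph G r) A) (hne : A.Nonempty)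
    (hnone : none ∉ A) : ∃ i, A ⊆ hubCopy G r i '' univ := by
  obtain ⟨z, hz⟩ := hne
  rcases z with _ | ⟨i, x⟩
  · exact absurd hz hnone
  · refine ⟨i, fun w hw => ?_⟩
    refine (hA _ hz w hw).closed (P := hubCopy G r i '' univ) ⟨x, mem_univ _, rfl⟩ ?_
    rintro _ ⟨y, _, rfl⟩ _ (_ | ⟨j, b⟩) hb hab
    · exact absurd hb hnone
    · obtain ⟨rfl, _⟩ := (hub_some_some G r).1 hab
      exact ⟨b, mem_univ _, rfl⟩

theorem hub_model {U : Type} {H : SimpleGraph U} {Y P : Set U}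
    {B : U → Set (Option (Σ i, V i))} (hB : IsModel H Y (hubGraph G r) univ B) (hP : P ⊆ Y)
    (hPc : Conn H P) (hPne : P.Nonempty) (h : ∀ w ∈ P, none ∉ B w) :
    ∃ i, Minor H P (G i) univ := by
  have hconn := hB.conn_union hP hPc
  obtain ⟨p, hp⟩ := hPne
  obtain ⟨x, hx⟩ := hB.ne p (hP hp)
  obtain ⟨i, hsub⟩ := hub_comp hconn ⟨x, mem_biUnion hp hx⟩ (by
    simp only [mem_iUnion, not_exists]
    exact h)
  refine ⟨i, (minor_image_right (hubCopy G r i)).1 ⟨B, ?_⟩⟩
  exact (hB.restrict hP).shrink (fun t ht => (subset_biUnion_of_mem ht).trans hsub)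

end hubc

/-- Infinitely many copies of a graph at a hub. -/
abbrev nG (G : ℕ → SimpleGraph ℕ) (k : ℕ) : SimpleGraph (Option (Σ _ : ℕ, ℕ)) :=
  hubGraph (fun _ : ℕ => G k) (fun _ => 0)

/-- `2 k + 1` hubs at a centre. -/
abbrev cG (G : ℕ → SimpleGraph ℕ) (k : ℕ) :
    SimpleGraph (Option (Σ _ : Fin (2 * k + 1), Option (Σ _ : ℕ, ℕ))) :=
  hubGraph (fun _ : Fin (2 * k + 1) => nG G k) (fun _ => none)

/-- The centre and the hubs. -/
def cR (l : ℕ) : Option (Fin (2 * l + 1)) → Option (Σ _ : Fin (2 * l + 1), Option (Σ _ : ℕ, ℕ))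
  | none => none
  | some i => some ⟨i, none⟩

/-- The embedding of a copy. -/
def cE (G : ℕ → SimpleGraph ℕ) (k : ℕ) (i : Fin (2 * k + 1)) : nG G k ↪g cG G k :=
  hubCopy (fun _ : Fin (2 * k + 1) => nG G k) (fun _ => none) i

/-- The embedding of a copy. -/
def nEm (G : ℕ → SimpleGraph ℕ) (k : ℕ) (n : ℕ) : G k ↪g nG G k :=
  hubCopy (fun _ : ℕ => G k) (fun _ => 0) n

/-- A copy. -/
def cP (G : ℕ → SimpleGraph ℕ) (k : ℕ) (i : Fin (2 * k + 1)) (n : ℕ) :
    Set (Option (Σ _ : Fin (2 * k + 1), Option (Σ _ : ℕ, ℕ))) := cE G k i '' (nEm G k n '' univ)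

variable {G : ℕ → SimpleGraph ℕ}

theorem c_comp {l : ℕ} {A : Set (Option (Σ _ : Fin (2 * l + 1), Option (Σ _ : ℕ, ℕ)))}
    (hA : Conn (cG G l) A) (hne : A.Nonempty) (hd : ∀ z ∈ A, z ∉ range (cR l)) :
    ∃ i n, A ⊆ cP G l i n := by
  obtain ⟨i, h1⟩ := hub_comp hA hne (fun h => hd _ h ⟨none, rfl⟩)
  have h1' : A ⊆ cE G l i '' univ := h1
  have himg : cE G l i '' (cE G l i ⁻¹' A) = A := by
    rw [image_preimage_eq_inter_range]
    exact inter_eq_left.2 (h1'.trans (image_subset_range _ _))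
  have hA' : Conn (nG G l) (cE G l i ⁻¹' A) := by
    rw [← conn_image (cE G l i), himg]
    exact hA
  have hne' : (cE G l i ⁻¹' A).Nonempty := by
    rw [← image_nonempty (f := cE G l i), himg]
    exact hne
  obtain ⟨n, h2⟩ := hub_comp hA' hne' (fun h => hd _ h ⟨some i, rfl⟩)
  refine ⟨i, n, ?_⟩
  rw [← himg]
  exact image_mono h2

theorem c_model {l : ℕ} {U : Type} {H : SimpleGraph U} {Y P : Set U}
    {B : U → Set (Option (Σ _ : Fin (2 * l + 1), Option (Σ _ : ℕ, ℕ)))}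
    (hB : IsModel H Y (cG G l) univ B) (hP : P ⊆ Y) (hPc : Conn H P) (hPne : P.Nonempty)
    (h : ∀ w ∈ P, Disjoint (B w) (range (cR l))) : Minor H P (G l) univ := by
  have hconn := hB.conn_union hP hPc
  obtain ⟨p, hp⟩ := hPne
  obtain ⟨x, hx⟩ := hB.ne p (hP hp)
  obtain ⟨i, n, hsub⟩ := c_comp hconn ⟨x, mem_biUnion hp hx⟩ (by
    intro z hz
    simp only [mem_iUnion, exists_prop] at hz
    obtain ⟨w, hw, hz⟩ := hz
    exact Set.disjoint_left.1 (h w hw) hz)
  have h1 : Minor H P (cG G l) (cP G l i n) :=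
    ⟨B, (hB.restrict hP).shrink (fun t ht => (subset_biUnion_of_mem ht).trans hsub)⟩
  exact (minor_image_right (nEm G l n)).1 ((minor_image_right (cE G l i)).1 h1)

theorem cP_disjoint {k : ℕ} {i : Fin (2 * k + 1)} {n m : ℕ} (h : n ≠ m) :
    Disjoint (cP G k i n) (cP G k i m) := by
  rw [Set.disjoint_left]
  rintro _ ⟨_, ⟨x, _, rfl⟩, rfl⟩ ⟨_, ⟨y, _, rfl⟩, h1⟩
  have h2 := (cE G k i).injective h1
  have h3 := Option.some_injective _ h2
  exact h (Sigma.mk.inj_iff.1 h3).1.symm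

theorem cP_conn {k : ℕ} {i : Fin (2 * k + 1)} {n : ℕ} (h : Conn (G k) univ) :
    Conn (cG G k) (cP G k i n) := (conn_image (cE G k i)).2 ((conn_image (nEm G k n)).2 h)

theorem cP_nonempty {k : ℕ} {i : Fin (2 * k + 1)} {n : ℕ} : (cP G k i n).Nonempty :=
  (univ_nonempty.image _).image _

theorem cP_rank {k : ℕ} {i : Fin (2 * k + 1)} {n : ℕ} {α : Ordinal.{0}} :
    RankLE (cG G k) α (cP G k i n) ↔ RankLE (G k) α univ := by
  unfold cP
  rw [rankLE_image (cE G k i)]
  exact rankLE_image (nEm G k n)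

theorem cP_minor {k : ℕ} {i : Fin (2 * k + 1)} {n : ℕ} {U : Type} {H : SimpleGraph U}
    {Y : Set U} : Minor (cG G k) (cP G k i n) H Y ↔ Minor (G k) univ H Y := by
  unfold cP
  rw [minor_image_left (cE G k i)]
  exact minor_image_left (nEm G k n)

theorem c_antichain (hc : ∀ k, Conn (G k) univ) (hr : ∀ k, ∃ α < ω₁, RankLE (G k) α univ)
    (hnd : NonDec G (fun _ => univ))
    (hbad : ∀ i j, i < j → ¬ Minor (G i) univ (G j) univ) {k l : ℕ} (hkl : k ≠ l) :
    ¬ Minor (cG G k) univ (cG G l) univ := by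
  classical
  rintro ⟨B, hB⟩
  rcases lt_or_gt_of_ne hkl with h | h
  · -- `k < l`
    obtain ⟨n, _, hn⟩ := hB.avoid (I := (Set.univ : Set ℕ)) Set.infinite_univ
      (P := fun n => cP G k 0 n) (fun n _ => subset_univ _)
      (fun n _ m _ hnm => cP_disjoint hnm) (finite_range (cR l))
    have h1 := c_model hB (subset_univ _) (cP_conn (hc k)) cP_nonempty hn
    exact hbad k l h (cP_minor.1 h1)
  · -- `l < k`
    obtain ⟨β, _, hβ1, hβ2⟩ := exists_least_rank (hr k)
    have hK : ∀ z ∈ (univ : Set (Option (Σ _ : Fin (2 * l + 1), Option (Σ _ : ℕ, ℕ)))) \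
        range (cR l), RankLE (cG G l) β (comp (cG G l) (univ \ range (cR l)) z) := by
      intro z hz
      obtain ⟨i, n, hsub⟩ := c_comp (comp_conn (v := z)) ⟨z, mem_comp_self hz⟩
        (fun w hw => (comp_subset hw).2)
      refine RankLE.mono_set ?_ hsub
      exact cP_rank.2 (hnd l k h.le β hβ1)
    have key : ∀ i : Fin (2 * k + 1), ∃ o : Option (Fin (2 * l + 1)),
        cR l o ∈ B (some ⟨i, none⟩) := by
      intro i
      obtain ⟨x, hx, ⟨o, rfl⟩⟩ := hub (finite_range (cR l)) hK hB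
        (mem_univ (some (⟨i, none⟩ : Σ _ : Fin (2 * k + 1), Option (Σ _ : ℕ, ℕ))))
        (I := (Set.univ : Set ℕ)) Set.infinite_univ
        (P := fun n => cP G k i n) (fun n _ => subset_univ _)
        (fun n _ m _ hnm => cP_disjoint hnm) (fun n _ => cP_conn (hc k))
        (by
          intro n _
          refine ⟨some ⟨i, some ⟨n, 0⟩⟩, ⟨_, ⟨0, mem_univ _, rfl⟩, rfl⟩, ?_⟩
          exact (cE G k i).map_rel_iff.2 ((hub_none_some _ _).2 rfl))
        (fun n _ γ hγ h => hβ2 γ hγ (cP_rank.1 h))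
      exact ⟨o, hx⟩
    choose o ho using key
    have hinj : Function.Injective o := by
      intro i j hij
      have h1 := ho i
      have h2 := ho j
      rw [hij] at h1
      have h3 := hB.eq_of_mem (mem_univ _) (mem_univ _) h1 h2
      have h4 := Option.some_injective _ h3
      exact (Sigma.mk.inj_iff.1 h4).1
    have hcard := Fintype.card_le_of_injective o hinj
    simp only [Fintype.card_fin, Fintype.card_option] at hcard
    omega

theorem toNat_mem {K : Set Gph} (hmin : ClosedUnderMinors K) {P : Type} (e : P ≃ ℕ)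
    {F : SimpleGraph P} (h : (⟨P, F⟩ : Gph) ∈ K) : (⟨ℕ, toNat e F⟩ : Gph) ∈ K := by
  refine hmin _ h _ ?_
  exact isMinor_iff.2 ((toNat_minor_left e F).2 (Minor.refl _ _))

theorem toNat_connected {P : Type} (e : P ≃ ℕ) {F : SimpleGraph P} (h : F.Connected) :
    (toNat e F).Connected := h.map (toNatEmb e F).toHom e.surjective

theorem connected_iff_conn {V : Type} {F : SimpleGraph V} (h : F.Connected) : Conn F univ := by
  intro x _ y _
  have h2 := (SimpleGraph.reachable_iff_reflTransGen x y).1 (h.preconnected x y)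
  refine ⟨mem_univ _, ?_⟩
  induction h2 with
  | refl => exact Relation.ReflTransGen.refl
  | tail _ hab ih => exact (ih (mem_univ _)).tail ⟨hab, mem_univ _⟩

/-- An infinite antichain of graphs with vertex set `ℕ`. -/
theorem exists_anti {K : Set Gph} (hmin : ClosedUnderMinors K) (hhub : ClosedUnderHubSums K)
    (hK : ∀ G ∈ K, Countable G.1 ∧ Rayless G.2)
    (hW : ¬ WqoOn {G | G ∈ K ∧ G.2.Connected}) :
    ∃ D : ℕ → SimpleGraph ℕ, (∀ n, (⟨ℕ, D n⟩ : Gph) ∈ K) ∧ (∀ n, (D n).Connected) ∧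
      ∀ m n, m ≠ n → ¬ Minor (D m) univ (D n) univ := by
  classical
  unfold WqoOn at hW
  push Not at hW
  obtain ⟨f, hf, hbad⟩ := hW
  have hne : ∀ n, Nonempty (f n).1 := fun n => (hf n).2.nonempty
  have hcount : ∀ n, Countable (f n).1 := fun n => (hK _ (hf n).1).1
  let N : ∀ n, SimpleGraph (Option (Σ _ : ℕ, (f n).1)) := fun n =>
    hubGraph (fun _ : ℕ => (f n).2) (fun _ => (hne n).some)
  have hinf : ∀ n, Infinite (Option (Σ _ : ℕ, (f n).1)) := by
    intro n
    refine Infinite.of_injective (fun k : ℕ => some (⟨k, (hne n).some⟩ : Σ _ : ℕ, (f n).1)) ?_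
    intro a b hab
    exact (Sigma.mk.inj_iff.1 (Option.some_injective _ hab)).1
  have heq : ∀ n, Nonempty (Option (Σ _ : ℕ, (f n).1) ≃ ℕ) := fun n => by
    have := hinf n
    have := hcount n
    exact nonempty_equiv_of_countable
  let e : ∀ n, Option (Σ _ : ℕ, (f n).1) ≃ ℕ := fun n => (heq n).some
  let G0 : ℕ → SimpleGraph ℕ := fun n => toNat (e n) (N n)
  have hG0K : ∀ n, (⟨ℕ, G0 n⟩ : Gph) ∈ K := fun n =>
    toNat_mem hmin (e n) (hhub ℕ inferInstance _ _ _ (fun _ => (hf n).2) (fun _ => (hf n).1))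
  have hG0c : ∀ n, (G0 n).Connected := fun n =>
    toNat_connected (e n) (hub_conn _ _ fun _ => (hf n).2)
  have hG0bad : ∀ i j, i < j → ¬ Minor (G0 i) univ (G0 j) univ := by
    intro i j hij hm
    have hm' : Minor (N i) univ (N j) univ :=
      (toNat_minor_left (e i) _).1 ((toNat_minor_right (e j) _).1 hm)
    obtain ⟨B, hB⟩ := hm'
    obtain ⟨n, _, hn⟩ := hB.avoid (I := (Set.univ : Set ℕ)) Set.infinite_univ
      (P := fun n => hubCopy (fun _ : ℕ => (f i).2) (fun _ => (hne i).some) n '' univ)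
      (fun n _ => subset_univ _) (by
        intro n _ m _ hnm
        rw [Set.disjoint_left]
        rintro _ ⟨x, _, rfl⟩ ⟨y, _, h1⟩
        exact hnm (Sigma.mk.inj_iff.1 (Option.some_injective _ h1)).1.symm)
      (finite_singleton none)
    obtain ⟨m, hm⟩ := hub_model hB (subset_univ _)
      ((conn_image (hubCopy (fun _ : ℕ => (f i).2) (fun _ => (hne i).some) n)).2
        (connected_iff_conn (hf i).2))
      (by
        have := hne i
        exact univ_nonempty.image _)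
      (fun w hw h => Set.disjoint_left.1 (hn w hw) h rfl)
    exact hbad i j hij (isMinor_iff.2 ((minor_image_left
      (hubCopy (fun _ : ℕ => (f i).2) (fun _ => (hne i).some) n)).1 hm))
  have hr0 : ∀ n, ∃ α < ω₁, RankLE (G0 n) α univ := fun n => rayless_iff.1 (hK _ (hG0K n)).2
  obtain ⟨g, hg, hnd⟩ := exists_nonDec G0 (fun _ => univ) hr0
  let G1 : ℕ → SimpleGraph ℕ := fun n => G0 (g n)
  have hanti : ∀ k l, k ≠ l → ¬ Minor (cG G1 k) univ (cG G1 l) univ := fun k l hkl =>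
    c_antichain (G := G1) (fun k => connected_iff_conn (hG0c (g k))) (fun k => hr0 (g k)) hnd
      (fun i j hij => hG0bad _ _ (hg hij)) hkl
  have hinf2 : ∀ k, Infinite (Option (Σ _ : Fin (2 * k + 1), Option (Σ _ : ℕ, ℕ))) := by
    intro k
    refine Infinite.of_injective
      (fun n : ℕ => some (⟨0, some ⟨n, 0⟩⟩ : Σ _ : Fin (2 * k + 1), Option (Σ _ : ℕ, ℕ))) ?_
    intro a b hab
    have h1 := eq_of_heq (Sigma.mk.inj_iff.1 (Option.some_injective _ hab)).2
    exact (Sigma.mk.inj_iff.1 (Option.some_injective _ h1)).1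
  have heq2 : ∀ k, Nonempty (Option (Σ _ : Fin (2 * k + 1), Option (Σ _ : ℕ, ℕ)) ≃ ℕ) :=
    fun k => by
      have := hinf2 k
      exact nonempty_equiv_of_countable
  let e2 : ∀ k, Option (Σ _ : Fin (2 * k + 1), Option (Σ _ : ℕ, ℕ)) ≃ ℕ := fun k => (heq2 k).some
  refine ⟨fun k => toNat (e2 k) (cG G1 k), fun k => ?_, fun k => ?_, fun k l hkl hm => ?_⟩
  · refine toNat_mem hmin (e2 k) (hhub _ inferInstance _ _ _ (fun _ => ?_) (fun _ => ?_))
    · exact hub_conn _ _ fun _ => hG0c (g k)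
    · exact hhub _ inferInstance _ _ _ (fun _ => hG0c (g k)) (fun _ => hG0K (g k))
  · exact toNat_connected (e2 k) (hub_conn _ _ fun _ => hub_conn _ _ fun _ => hG0c (g k))
  · exact hanti k l hkl ((toNat_minor_left (e2 k) _).1 ((toNat_minor_right (e2 l) _).1 hm))

/-- A perfect antichain. -/
theorem exists_perfect_anti {K : Set Gph} (hmin : ClosedUnderMinors K)
    (hhub : ClosedUnderHubSums K) {D : ℕ → SimpleGraph ℕ} (hDK : ∀ n, (⟨ℕ, D n⟩ : Gph) ∈ K)
    (hDc : ∀ n, (D n).Connected) (hD : ∀ m n, m ≠ n → ¬ Minor (D m) univ (D n) univ) :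
    ∃ Φ : (ℕ → Bool) → SimpleGraph ℕ, @Continuous _ _ _ graphTopology Φ ∧
      (∀ t, (⟨ℕ, Φ t⟩ : Gph) ∈ K) ∧ (∀ t, (Φ t).Connected) ∧
      ∀ t t', t ≠ t' → ¬ IsMinor (Φ t) (Φ t') := by
  classical
  let ix : (ℕ → Bool) → ℕ → ℕ := fun t k => 2 * k + if t k then 1 else 0
  let F : (ℕ → Bool) → SimpleGraph (Option (Σ _ : ℕ × ℕ, ℕ)) := fun t =>
    hubGraph (fun p : ℕ × ℕ => D (ix t p.1)) (fun _ => 0)
  have hinf : Infinite (Option (Σ _ : ℕ × ℕ, ℕ)) := by
    refine Infinite.of_injective (fun k : ℕ => some (⟨(k, 0), 0⟩ : Σ _ : ℕ × ℕ, ℕ)) ?_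
    intro a b hab
    exact (Prod.ext_iff.1 (Sigma.mk.inj_iff.1 (Option.some_injective _ hab)).1).1
  obtain ⟨e⟩ : Nonempty (Option (Σ _ : ℕ × ℕ, ℕ) ≃ ℕ) := nonempty_equiv_of_countable
  refine ⟨fun t => toNat e (F t), continuous_toNat' e F ?_, fun t => ?_, fun t => ?_, ?_⟩
  · rintro (_ | ⟨p, x⟩) (_ | ⟨q, y⟩)
    · exact Or.inr fun t t' => ⟨fun h => absurd h (SimpleGraph.irrefl _),
        fun h => absurd h (SimpleGraph.irrefl _)⟩
    · refine Or.inr fun t t' => ?_
      show (hubGraph _ _).Adj _ _ ↔ (hubGraph _ _).Adj _ _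
      rw [hub_none_some, hub_none_some]
    · refine Or.inr fun t t' => ?_
      show (hubGraph _ _).Adj _ _ ↔ (hubGraph _ _).Adj _ _
      rw [SimpleGraph.adj_comm, hub_none_some, SimpleGraph.adj_comm (hubGraph _ _), hub_none_some]
    · refine Or.inl ⟨q.1, fun t t' h => ?_⟩
      have h1 : ix t q.1 = ix t' q.1 := by
        simp only [ix, h]
      show (hubGraph _ _).Adj _ _ ↔ (hubGraph _ _).Adj _ _
      rw [hub_some_some, hub_some_some]
      simp only [h1]
  · exact toNat_mem hmin e (hhub _ inferInstance _ _ _ (fun _ => hDc _) (fun _ => hDK _))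
  · exact toNat_connected e (hub_conn _ _ fun _ => hDc _)
  · intro t t' htt hm
    obtain ⟨k, hk⟩ : ∃ k, t k ≠ t' k := by
      by_contra hcon
      push Not at hcon
      exact htt (funext hcon)
    have hm' : Minor (F t) univ (F t') univ :=
      (toNat_minor_left e _).1 ((toNat_minor_right e _).1 (isMinor_iff.1 hm))
    obtain ⟨B, hB⟩ := hm'
    obtain ⟨n, _, hn⟩ := hB.avoid (I := (Set.univ : Set ℕ)) Set.infinite_univ
      (P := fun n => hubCopy (fun p : ℕ × ℕ => D (ix t p.1)) (fun _ => 0) (k, n) '' univ)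
      (fun n _ => subset_univ _) (by
        intro n _ m _ hnm
        rw [Set.disjoint_left]
        rintro _ ⟨x, _, rfl⟩ ⟨y, _, h1⟩
        have h2 := (Sigma.mk.inj_iff.1 (Option.some_injective _ h1)).1
        exact hnm (Prod.ext_iff.1 h2).2.symm)
      (finite_singleton none)
    obtain ⟨m, hm⟩ := hub_model hB (subset_univ _)
      ((conn_image (hubCopy (fun p : ℕ × ℕ => D (ix t p.1)) (fun _ => 0) (k, n))).2
        (connected_iff_conn (hDc _)))
      (univ_nonempty.image _)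
      (fun w hw h => Set.disjoint_left.1 (hn w hw) h rfl)
    have h3 := (minor_image_left
      (hubCopy (fun p : ℕ × ℕ => D (ix t p.1)) (fun _ => 0) (k, n))).1 hm
    have h4 : ix t k = ix t' m.1 := by
      by_contra hne
      exact hD _ _ hne h3
    have h5 : k = m.1 ∧ t k = t' m.1 := by
      simp only [ix] at h4
      rcases h6 : t k <;> rcases h7 : t' m.1 <;> simp [h6, h7] at h4 ⊢ <;> omega
    exact hk (h5.1 ▸ h5.2)

/-- The dichotomy: well-quasi-ordering of the connected members, or a perfect antichain. -/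
theorem wqo_or_perfect {K : Set Gph} (hmin : ClosedUnderMinors K) (hhub : ClosedUnderHubSums K)
    (hK : ∀ G ∈ K, Countable G.1 ∧ Rayless G.2)
    (hW : ¬ WqoOn {G | G ∈ K ∧ G.2.Connected}) :
    ∃ Φ : (ℕ → Bool) → SimpleGraph ℕ, @Continuous _ _ _ graphTopology Φ ∧
      (∀ t, (⟨ℕ, Φ t⟩ : Gph) ∈ K) ∧ (∀ t, (Φ t).Connected) ∧
      ∀ t t', t ≠ t' → ¬ IsMinor (Φ t) (Φ t') := by
  obtain ⟨D, h1, h2, h3⟩ := exists_anti hmin hhub hK hW
  exact exists_perfect_anti hmin hhub h1 h2 h3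

end Run7.h891.Cls
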