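import Pool.Agent.Run7.h891.Defs3

/-! Definitions for classes of graphs of any cardinality. -/

set_option autoImplicit false

open Set

namespace Run7.h891

/-- Graphs with an arbitrary vertex set. -/
abbrev Gph := Σ V : Type, SimpleGraph V

/-- `K` is well-quasi-ordered under minors: every infinite sequence of members has an earlier
member which is a minor of a later one. -/
def WqoOn (K : Set Gph) : Prop :=
  ∀ f : ℕ → Gph, (∀ n, f n ∈ K) → ∃ i j, i < j ∧ IsMinor (f i).2 (f j).2

/-- `K` is better-quasi-ordered under minors (Nash-Williams, in the form due to Simpson): for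
every locally constant map `f` from the Baire space to `K` there is a strictly increasing sequence
`X` such that `f X` is a minor of `f X⁻`, where `X⁻` is `X` without its first term. -/
def BqoOn (K : Set Gph) : Prop :=
  ∀ f : (ℕ → ℕ) → Gph, (∀ X, f X ∈ K) →
    (∀ X, ∃ n, ∀ Y : ℕ → ℕ, (∀ i < n, Y i = X i) → f Y = f X) →
    ∃ X : ℕ → ℕ, StrictMono X ∧ IsMinor (f X).2 (f fun k => X (k + 1)).2

/-- `K` is closed under minors. -/
def ClosedUnderMinors (K : Set Gph) : Prop := ∀ G ∈ K, ∀ H : Gph, IsMinor H.2 G.2 → H ∈ K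

/-- The hub sum: the disjoint union of the graphs `G i` and one new vertex `none`, which is joined
to the vertex `r i` of `G i` for every `i`. -/
def hubGraph {ι : Type} {V : ι → Type} (G : ∀ i, SimpleGraph (V i)) (r : ∀ i, V i) :
    SimpleGraph (Option (Σ i, V i)) where
  Adj a b := (∃ i, a = none ∧ b = some ⟨i, r i⟩) ∨ (∃ i, b = none ∧ a = some ⟨i, r i⟩) ∨
    ∃ i x y, a = some ⟨i, x⟩ ∧ b = some ⟨i, y⟩ ∧ (G i).Adj x y
  symm := ⟨by
    rintro a b (⟨i, h1, h2⟩ | ⟨i, h1, h2⟩ | ⟨i, x, y, h1, h2, h3⟩)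
    · exact Or.inr (Or.inl ⟨i, h1, h2⟩)
    · exact Or.inl ⟨i, h1, h2⟩
    · exact Or.inr (Or.inr ⟨i, y, x, h2, h1, h3.symm⟩)⟩
  loopless := ⟨by
    rintro a (⟨i, h1, h2⟩ | ⟨i, h1, h2⟩ | ⟨i, x, y, h1, h2, h3⟩)
    · rw [h1] at h2
      exact absurd h2 (by simp)
    · rw [h1] at h2
      exact absurd h2 (by simp)
    · rw [h1] at h2
      have h4 := Option.some_injective _ h2
      have h5 : x = y := by simpa using h4
      exact h3.ne h5⟩

/-- `K` is closed under hub sums of countably many connected graphs. -/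
def ClosedUnderHubSums (K : Set Gph) : Prop :=
  ∀ (ι : Type) (_ : Countable ι) (V : ι → Type) (G : ∀ i, SimpleGraph (V i)) (r : ∀ i, V i),
    (∀ i, (G i).Connected) → (∀ i, (⟨V i, G i⟩ : Gph) ∈ K) → (⟨_, hubGraph G r⟩ : Gph) ∈ K

/-- The cone: one new vertex `none`, joined to all vertices of `G`. -/
def coneGraph {V : Type} (G : SimpleGraph V) : SimpleGraph (Option V) where
  Adj a b := (a = none ∧ b ≠ none) ∨ (b = none ∧ a ≠ none) ∨
    ∃ x y, a = some x ∧ b = some y ∧ G.Adj x y
  symm := ⟨by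
    rintro a b (⟨h1, h2⟩ | ⟨h1, h2⟩ | ⟨x, y, h1, h2, h3⟩)
    · exact Or.inr (Or.inl ⟨h1, h2⟩)
    · exact Or.inl ⟨h1, h2⟩
    · exact Or.inr (Or.inr ⟨y, x, h2, h1, h3.symm⟩)⟩
  loopless := ⟨by
    rintro a (⟨h1, h2⟩ | ⟨h1, h2⟩ | ⟨x, y, h1, h2, h3⟩)
    · exact h2 h1
    · exact h2 h1
    · rw [h1] at h2
      exact h3.ne (Option.some_injective _ h2)⟩

/-- `K` is closed under cones. -/
def ClosedUnderCones (K : Set Gph) : Prop := ∀ G ∈ K, (⟨_, coneGraph G.2⟩ : Gph) ∈ K

/-- Two-connected: at least three vertices, and connected after deletion of any vertex. -/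
def TwoConnected {V : Type} (G : SimpleGraph V) : Prop :=
  (∃ a b c : V, a ≠ b ∧ a ≠ c ∧ b ≠ c) ∧ ∀ v : V, (G.induce {v}ᶜ).Connected

/-- `G` has finite tree-width: it has a tree-decomposition `(T, (P t))` into finite parts. Every
edge (the two end vertices) is contained in a part, and for every vertex `v` the nodes `t` with
`v ∈ P t` induce a connected (in particular nonempty) subgraph of the tree `T`. -/
def FiniteTreeWidth {V : Type} (G : SimpleGraph V) : Prop :=
  ∃ (τ : Type) (T : SimpleGraph τ) (P : τ → Set V), T.IsTree ∧ (∀ t, (P t).Finite) ∧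
    (∀ u v, G.Adj u v → ∃ t, u ∈ P t ∧ v ∈ P t) ∧ ∀ v, (T.induce {t | v ∈ P t}).Connected

end Run7.h891
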