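import Pool.Agent.Run7.h891.Cls
import Pool.Agent.Run7.h891.Defs4

/-! The official forms of the theorems on classes of graphs. -/

set_option autoImplicit false

open Set

namespace Run7.h891.Cls

open Run7.h891
open Pool.Agent.H557R3.Bqo (W LC Rep cons shift)

universe u v

theorem isMinor_induce_left {V : Type u} {W : Type v} {H : SimpleGraph W} {Y : Set W}
    {G : SimpleGraph V} : IsMinor (H.induce Y) G ↔ Minor H Y G univ := by
  rw [isMinor_iff]
  have h2 : (SimpleGraph.Embedding.induce (G := H) Y) '' univ = Y := by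
    ext x
    simp
  rw [← minor_image_left (SimpleGraph.Embedding.induce (G := H) Y), h2]

/-- The class of rooted graphs belonging to a class of graphs. -/
def KK (K : Set Gph) (a : RG) : Prop := (⟨a.X, a.G.induce a.X⟩ : Gph) ∈ K

theorem RG.conn' (a : RG) : (a.G.induce a.X).Connected := conn_iff.2 ⟨⟨a.r, a.mem⟩, a.conn⟩

/-- The vertex map from the hub sum. -/
def hubMap (A : ℕ → RG) : Option (Σ p : ℕ × ℕ, ↥(A p.1).X) → Unit ⊕ (ℕ × ℕ) × nW A
  | none => .inl ()
  | some q => .inr (q.1, nI A q.1.1 q.2.1)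

theorem nI_apply (A : ℕ → RG) (n : ℕ) (x : (A n).V) : nI A n x = ⟨n, x⟩ := rfl

theorem nT_adj (A : ℕ → RG) (n : ℕ) (x y : (A n).V) :
    (nT A n).Adj ⟨n, x⟩ ⟨n, y⟩ ↔ (A n).G.Adj x y := (nI A n).map_rel_iff

theorem hubMap_inj (A : ℕ → RG) : Function.Injective (hubMap A) := by
  rintro (_ | ⟨p, x, hx⟩) (_ | ⟨q, y, hy⟩) h
  · rfl
  · simp [hubMap] at h
  · simp [hubMap] at h
  · have h1 := Sum.inr_injective h
    obtain ⟨h2, h3⟩ := Prod.ext_iff.1 h1
    dsimp only at h2
    subst h2
    have h4 : x = y := (nI A p.1).injective h3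
    subst h4
    rfl

/-- The embedding of the hub sum. -/
def hubEmb (A : ℕ → RG) :
    hubGraph (fun p : ℕ × ℕ => (A p.1).G.induce (A p.1).X)
      (fun p : ℕ × ℕ => (⟨(A p.1).r, (A p.1).mem⟩ : ↥(A p.1).X)) ↪g (RG.node A).G where
  toFun := hubMap A
  inj' := hubMap_inj A
  map_rel_iff' := by
    rintro (_ | ⟨p, x, hx⟩) (_ | ⟨q, y, hy⟩)
    · constructor
      · intro h
        exact absurd h id
      · intro h
        exact absurd h (SimpleGraph.irrefl _)
    · constructor
      · intro h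
        have h1 : (nI A q.1 y : nW A) = nr A q.1 := h
        have h2 : y = (A q.1).r := (nI A q.1).injective h1
        subst h2
        exact Or.inl ⟨q, rfl, rfl⟩
      · rintro (⟨i, _, h2⟩ | ⟨i, h1, _⟩ | ⟨i, x, y', h1, _⟩)
        · have h3 := Option.some_injective _ h2
          obtain ⟨rfl, h4⟩ := Sigma.mk.inj_iff.1 h3
          have h5 := eq_of_heq h4
          have h6 : y = (A q.1).r := congrArg Subtype.val h5
          show (nI A q.1 y : nW A) = nr A q.1
          rw [h6]
          rfl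
        · exact absurd h1 (by simp)
        · exact absurd h1 (by simp)
    · constructor
      · intro h
        have h1 : (nI A p.1 x : nW A) = nr A p.1 := h
        have h2 : x = (A p.1).r := (nI A p.1).injective h1
        subst h2
        exact Or.inr (Or.inl ⟨p, rfl, rfl⟩)
      · rintro (⟨i, h1, _⟩ | ⟨i, _, h2⟩ | ⟨i, x', y', _, h1, _⟩)
        · exact absurd h1 (by simp)
        · have h3 := Option.some_injective _ h2
          obtain ⟨rfl, h4⟩ := Sigma.mk.inj_iff.1 h3
          have h5 := eq_of_heq h4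
          have h6 : x = (A p.1).r := congrArg Subtype.val h5
          show (nI A p.1 x : nW A) = nr A p.1
          rw [h6]
          rfl
        · exact absurd h1 (by simp)
    · constructor
      · intro h
        obtain ⟨h1, h2⟩ := h
        have h1' : p = q := h1
        subst h1'
        exact Or.inr (Or.inr ⟨_, ⟨x, hx⟩, ⟨y, hy⟩, rfl, rfl, (nT_adj A _ x y).1 h2⟩)
      · rintro (⟨i, h1, _⟩ | ⟨i, h1, _⟩ | ⟨i, x', y', h1, h2, h3⟩)
        · exact absurd h1 (by simp)
        · exact absurd h1 (by simp)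
        · have h4 := Option.some_injective _ h1
          have h5 := Option.some_injective _ h2
          obtain ⟨rfl, h6⟩ := Sigma.mk.inj_iff.1 h4
          obtain ⟨rfl, h7⟩ := Sigma.mk.inj_iff.1 h5
          have h8 := eq_of_heq h6
          have h9 := eq_of_heq h7
          subst h8 h9
          exact ⟨rfl, (nT_adj A _ _ _).2 h3⟩

theorem hubEmb_image (A : ℕ → RG) : hubEmb A '' univ = (RG.node A).X := by
  ext z
  constructor
  · rintro ⟨(_ | ⟨p, x, hx⟩), _, rfl⟩
    · exact hub_mem_starSet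
    · exact inr_mem_starSet.2 ⟨mem_univ _, x, hx, rfl⟩
  · rcases z with ⟨⟩ | ⟨p, x⟩
    · intro _
      exact ⟨none, mem_univ _, rfl⟩
    · intro h
      obtain ⟨_, y, hy, hyx⟩ := inr_mem_starSet.1 h
      refine ⟨some ⟨p, y, hy⟩, mem_univ _, ?_⟩
      show (Sum.inr (p, nI A p.1 y) : Unit ⊕ (ℕ × ℕ) × nW A) = _
      rw [hyx]

theorem kk_node {K : Set Gph} (hmin : ClosedUnderMinors K) (hhub : ClosedUnderHubSums K)
    (A : ℕ → RG) (h : ∀ n, KK K (A n)) : KK K (RG.node A) := by
  have h1 := hhub (ℕ × ℕ) inferInstance (fun p => ↥(A p.1).X)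
    (fun p => (A p.1).G.induce (A p.1).X) (fun p => ⟨(A p.1).r, (A p.1).mem⟩)
    (fun p => (A p.1).conn') (fun p => h p.1)
  refine hmin _ h1 _ ?_
  show IsMinor ((RG.node A).G.induce (RG.node A).X) _
  rw [isMinor_induce_left, ← hubEmb_image A]
  exact (minor_image_left (hubEmb A)).2 (Minor.refl _ _)

/-- Coding of a locally constant map. -/
theorem exists_coding {f : (ℕ → ℕ) → Gph}
    (hf : ∀ X, ∃ n, ∀ Y : ℕ → ℕ, (∀ i < n, Y i = X i) → f Y = f X) :
    ∃ (q : ℕ → Gph) (c : (ℕ → ℕ) → ℕ), (∀ X, f X = q (c X)) ∧ LC c ∧ ∀ k, ∃ X, q k = f X := by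
  classical
  let e : List ℕ → (ℕ → ℕ) := fun s k => s.getD k 0
  let q : ℕ → Gph := fun k => f (e (Denumerable.ofNat (List ℕ) k))
  have hq : ∀ X, ∃ k, q k = f X := by
    intro X
    obtain ⟨n, hn⟩ := hf X
    refine ⟨Encodable.encode ((List.range n).map X), ?_⟩
    show f (e (Denumerable.ofNat (List ℕ) (Encodable.encode ((List.range n).map X)))) = f X
    rw [Denumerable.ofNat_encode]
    refine hn _ fun i hi => ?_
    show ((List.range n).map X).getD i 0 = X i
    simp [List.getD, hi]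
  let F : Gph → ℕ := fun g => sInf {k | q k = g}
  refine ⟨q, fun X => F (f X), fun X => ?_, fun X => ?_, fun k => ⟨_, rfl⟩⟩
  · exact (Nat.sInf_mem (s := {k | q k = f X}) (hq X)).symm
  · obtain ⟨n, hn⟩ := hf X
    exact ⟨n, fun Y hY => congrArg F (hn Y hY)⟩

theorem nbr_of_conn {V : Type} {G : SimpleGraph V} {S : Set V} (h : Conn G S) {x w : V}
    (hx : x ∈ S) (hw : w ∈ S) (hxw : x ≠ w) : ∃ y ∈ S, G.Adj x y := by
  obtain ⟨_, h1⟩ := h x hx w hw
  rcases h1.cases_head with h2 | ⟨c, h2, _⟩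
  · exact absurd h2 hxw
  · exact ⟨c, h2.2, h2.1⟩

theorem TwoConnected.twoConn {V : Type} {G : SimpleGraph V} (h : TwoConnected G) :
    TwoConn G univ := by
  obtain ⟨⟨a, b, c, hab, hac, hbc⟩, h⟩ := h
  have hc : ∀ v, Conn G ({v}ᶜ) := fun v => (conn_iff.1 (h v)).2
  have hthird : ∀ x y : V, ∃ z, z ≠ x ∧ z ≠ y := by
    intro x y
    by_cases h1 : a = x ∨ a = y
    · by_cases h2 : b = x ∨ b = y
      · refine ⟨c, ?_, ?_⟩
        · rintro rfl
          rcases h1 with h1 | h1
          · exact hac h1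
          · rcases h2 with h2 | h2
            · exact hbc h2
            · exact hab (h1.trans h2.symm)
        · rintro rfl
          rcases h1 with h1 | h1
          · rcases h2 with h2 | h2
            · exact hab (h1.trans h2.symm)
            · exact hbc h2
          · exact hac h1
      · push Not at h2
        exact ⟨b, h2.1, h2.2⟩
    · push Not at h1
      exact ⟨a, h1.1, h1.2⟩
  refine ⟨⟨a, mem_univ _⟩, ?_, ?_, ?_⟩
  · intro x _ y _
    obtain ⟨z, hz1, hz2⟩ := hthird x y
    exact (hc z x (by simpa using hz1.symm) y (by simpa using hz2.symm)).mono (subset_univ _)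
  · intro x _
    have := hc x
    rwa [compl_eq_univ_sdiff] at this
  · intro x _
    obtain ⟨z, hz, _⟩ := hthird x x
    obtain ⟨w, hw1, hw2⟩ := hthird x z
    obtain ⟨y, hy, hxy⟩ := nbr_of_conn (hc z) (x := x) (w := w) (by simpa using hz.symm)
      (by simpa using hw2) hw1.symm
    obtain ⟨w', hw1', hw2'⟩ := hthird x y
    obtain ⟨y', hy', hxy'⟩ := nbr_of_conn (hc y) (x := x) (w := w')
      (by simpa using hxy.ne) (by simpa using hw2') hw1'.symm
    refine ⟨y, mem_univ _, y', mem_univ _, ?_, hxy, hxy'⟩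
    intro h3
    exact hy' h3.symm

theorem two_bqo {K : Set Gph} (hmin : ClosedUnderMinors K) (hhub : ClosedUnderHubSums K)
    (hW : WqoOn {G | G ∈ K ∧ G.2.Connected}) : BqoOn {G | G ∈ K ∧ TwoConnected G.2} := by
  intro f hf hlc
  obtain ⟨q, c, hqc, hc, hq⟩ := exists_coding hlc
  have hq' : ∀ k, q k ∈ K ∧ TwoConnected (q k).2 := by
    intro k
    obtain ⟨X, hX⟩ := hq k
    rw [hX]
    exact hf X
  have h2 : ∀ k, TwoConn (q k).2 univ := fun k => TwoConnected.twoConn (hq' k).2
  let L : ℕ → RG := fun k =>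
    { V := (q k).1, G := (q k).2, X := univ, r := (h2 k).ne.some, mem := mem_univ _,
      conn := (h2 k).conn }
  obtain ⟨X, hX, h⟩ := bqo_of_wqo (KK := KK K) (kk_node hmin hhub) (by
    intro F hF
    obtain ⟨i, j, hij, h⟩ := hW (fun n => ⟨(F n).X, (F n).G.induce (F n).X⟩)
      (fun n => ⟨hF n, (F n).conn'⟩)
    exact ⟨i, j, hij, isMinor_induce_iff.1 h⟩) (L := L) (by
    intro k
    refine hmin _ (hq' k).1 _ ?_
    exact isMinor_induce_left.2 (Minor.refl _ _)) (fun k => h2 k) c hc
  refine ⟨X, hX, ?_⟩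
  rw [hqc X, hqc fun k => X (k + 1)]
  exact isMinor_iff.2 h

/-- The cone of the library as an embedded copy of the cone. -/
def coneEmb {V : Type} (G : SimpleGraph V) : cone G ↪g coneGraph G where
  toFun
    | .inl _ => none
    | .inr p => some p.2
  inj' := by
    rintro (⟨⟩ | ⟨⟨⟩, x⟩) (⟨⟩ | ⟨⟨⟩, y⟩) h
    · rfl
    · simp at h
    · simp at h
    · have h1 : x = y := Option.some_injective _ h
      rw [h1]
  map_rel_iff' := by
    rintro (⟨⟩ | ⟨⟨⟩, x⟩) (⟨⟩ | ⟨⟨⟩, y⟩)
    · constructor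
      · intro h
        exact absurd h (SimpleGraph.irrefl _)
      · intro h
        exact absurd h (SimpleGraph.irrefl _)
    · exact ⟨fun _ => star_adj_hub (T := fun _ : Unit => G),
        fun _ => Or.inl ⟨rfl, by simp⟩⟩
    · exact ⟨fun _ => (star_adj_hub (T := fun _ : Unit => G)).symm,
        fun _ => Or.inr (Or.inl ⟨rfl, by simp⟩)⟩
    · constructor
      · rintro (⟨h1, _⟩ | ⟨h1, _⟩ | ⟨x', y', h1, h2, h3⟩)
        · exact absurd h1 (by simp)
        · exact absurd h1 (by simp)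
        · have h4 : x = x' := Option.some_injective _ h1
          have h5 : y = y' := Option.some_injective _ h2
          subst h4 h5
          exact ⟨rfl, h3⟩
      · rintro ⟨_, h⟩
        exact Or.inr (Or.inr ⟨x, y, rfl, rfl, h⟩)

theorem cone_mem {K : Set Gph} (hmin : ClosedUnderMinors K) (hcone : ClosedUnderCones K)
    {V : Type} {G : SimpleGraph V} (h : (⟨V, G⟩ : Gph) ∈ K) : (⟨_, cone G⟩ : Gph) ∈ K := by
  refine hmin _ (hcone _ h) _ ?_
  refine isMinor_iff.2 ?_
  exact Minor.trans ((minor_image_right (coneEmb G)).2 (Minor.refl _ univ))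
    (Minor.of_subset _ (subset_univ _))

theorem cone_bqo {K : Set Gph} (hmin : ClosedUnderMinors K) (hhub : ClosedUnderHubSums K)
    (hcone : ClosedUnderCones K) (hW : WqoOn {G | G ∈ K ∧ G.2.Connected}) : BqoOn K := by
  intro f hf hlc
  obtain ⟨q, c, hqc, hc, hq⟩ := exists_coding hlc
  have hq' : ∀ k, q k ∈ K := by
    intro k
    obtain ⟨X, hX⟩ := hq k
    rw [hX]
    exact hf X
  let L : ℕ → RG := fun k =>
    { V := _, G := cone3 (q k).2, X := cone3Set univ, r := .inl (), mem := hub_mem_starSet,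
      conn := cone_conn }
  obtain ⟨X, hX, h⟩ := bqo_of_wqo (KK := KK K) (kk_node hmin hhub) (by
    intro F hF
    obtain ⟨i, j, hij, h⟩ := hW (fun n => ⟨(F n).X, (F n).G.induce (F n).X⟩)
      (fun n => ⟨hF n, (F n).conn'⟩)
    exact ⟨i, j, hij, isMinor_induce_iff.1 h⟩) (L := L) (by
    intro k
    have h1 : (⟨_, cone3 (q k).2⟩ : Gph) ∈ K :=
      cone_mem hmin hcone (cone_mem hmin hcone (cone_mem hmin hcone (hq' k)))
    refine hmin _ h1 _ ?_
    exact isMinor_induce_left.2 (Minor.of_subset _ (subset_univ _))) (fun k => twoConn_cone3) c hc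
  refine ⟨X, hX, ?_⟩
  rw [hqc X, hqc fun k => X (k + 1)]
  exact isMinor_iff.2 (minor_of_cone3 h)

theorem wqo_of_bqo {K : Set Gph} (h : BqoOn K) : WqoOn K := by
  intro f hf
  obtain ⟨X, hX, hr⟩ := h (fun X => f (X 0)) (fun X => hf _) (by
    intro X
    exact ⟨1, fun Y hY => by simp only [hY 0 Nat.zero_lt_one]⟩)
  exact ⟨X 0, X 1, hX Nat.zero_lt_one, hr⟩

/-- Well-quasi-ordering of the connected members, of all members, and better-quasi-ordering. -/
theorem cone_tfae {K : Set Gph} (hmin : ClosedUnderMinors K) (hhub : ClosedUnderHubSums K)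
    (hcone : ClosedUnderCones K) :
    [WqoOn {G | G ∈ K ∧ G.2.Connected}, WqoOn K, BqoOn K].TFAE := by
  tfae_have 1 → 3 := cone_bqo hmin hhub hcone
  tfae_have 3 → 2 := wqo_of_bqo
  tfae_have 2 → 1 := fun h f hf => h f fun n => (hf n).1
  tfae_finish

end Run7.h891.Cls
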