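import Pool.Agent.Run7.h891.ForestBorel
import Pool.Agent.Run7.h891.BqoOfficial

/-! Minor-closed families of rayless graphs without a bound on the rank. -/

set_option autoImplicit false

open Set Ordinal MeasureTheory

namespace Run7.h891

theorem analytic_graph_iff {C : Set (SimpleGraph ℕ)} :
    @AnalyticSet (SimpleGraph ℕ) graphTopology C ↔ AnalyticSet {E : ℕ × ℕ → Bool | gr E ∈ C} := by
  constructor
  · intro h
    let _ := graphTopology
    have hT : T2Space (SimpleGraph ℕ) := by
      refine T2Space.of_injective_continuous (f := edgeIndicator) ?_ continuous_induced_dom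
      intro G H h
      rw [← gr_edgeIndicator G, h, gr_edgeIndicator]
    exact h.preimage continuous_gr
  · exact analytic_graph

theorem borel_of_analytic {C : Set (SimpleGraph ℕ)}
    (h1 : @AnalyticSet (SimpleGraph ℕ) graphTopology C)
    (h2 : @AnalyticSet (SimpleGraph ℕ) graphTopology Cᶜ) : BorelFamily C := by
  rw [analytic_graph_iff] at h1 h2
  have h3 : MeasurableSet {E : ℕ × ℕ → Bool | gr E ∈ C} := h1.measurableSet_of_compl h2
  rw [borelFamily_iff]
  refine ⟨_, h3, ?_⟩
  ext G
  show gr (edgeIndicator G) ∈ C ↔ G ∈ C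
  rw [gr_edgeIndicator]

theorem analytic_not_rayless :
    AnalyticSet {E : ℕ × ℕ → Bool | ¬ Rayless (gr E)} := by
  have h1 : MeasurableSet {p : (ℕ × ℕ → Bool) × (ℕ → ℕ) |
      Function.Injective p.2 ∧ ∀ n, (gr p.1).Adj (p.2 n) (p.2 (n + 1))} := by
    have h2 : {p : (ℕ × ℕ → Bool) × (ℕ → ℕ) |
        Function.Injective p.2 ∧ ∀ n, (gr p.1).Adj (p.2 n) (p.2 (n + 1))} =
        (⋂ a : ℕ, ⋂ b : ℕ, {p | p.2 a = p.2 b → a = b}) ∩
        ⋂ n : ℕ, ⋃ x : ℕ, ⋃ y : ℕ, ({p | p.2 n = x} ∩ ({p | p.2 (n + 1) = y} ∩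
          {p | (gr p.1).Adj x y})) := by
      ext p
      simp only [mem_ofPred_eq, mem_inter_iff, mem_iInter, mem_iUnion]
      refine and_congr ?_ ?_
      · exact ⟨fun h a b hab => h hab, fun h a b hab => h a b hab⟩
      · refine forall_congr' fun n => ?_
        constructor
        · intro h
          exact ⟨_, _, rfl, rfl, h⟩
        · rintro ⟨x, y, h1, h2, h3⟩
          rw [h1, h2]
          exact h3
    rw [h2]
    have hc : ∀ n x : ℕ, MeasurableSet {p : (ℕ × ℕ → Bool) × (ℕ → ℕ) | p.2 n = x} := fun n x =>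
      measurable_snd (meas_coord n x)
    refine MeasurableSet.inter ?_ ?_
    · refine MeasurableSet.iInter fun a => MeasurableSet.iInter fun b => ?_
      by_cases hab : a = b
      · have : {p : (ℕ × ℕ → Bool) × (ℕ → ℕ) | p.2 a = p.2 b → a = b} = Set.univ := by
          ext p
          simp [hab]
        rw [this]
        exact MeasurableSet.univ
      · have : {p : (ℕ × ℕ → Bool) × (ℕ → ℕ) | p.2 a = p.2 b → a = b} =
            (⋃ x : ℕ, ({p | p.2 a = x} ∩ {p | p.2 b = x}))ᶜ := by
          ext p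
          simp only [mem_ofPred_eq, mem_compl_iff, mem_iUnion, mem_inter_iff, not_exists, not_and]
          constructor
          · intro h x h1 h2
            exact hab (h (h1.trans h2.symm))
          · intro h h1
            exact absurd h1.symm (h _ rfl)
        rw [this]
        exact (MeasurableSet.iUnion fun x => (hc a x).inter (hc b x)).compl
    · refine MeasurableSet.iInter fun n => MeasurableSet.iUnion fun x => MeasurableSet.iUnion
        fun y => (hc n x).inter ((hc (n + 1) y).inter ?_)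
      exact measurable_fst (meas_gr x y)
  have h3 : {E : ℕ × ℕ → Bool | ¬ Rayless (gr E)} = Prod.fst ''
      {p : (ℕ × ℕ → Bool) × (ℕ → ℕ) |
        Function.Injective p.2 ∧ ∀ n, (gr p.1).Adj (p.2 n) (p.2 (n + 1))} := by
    ext E
    simp only [Rayless, not_not, mem_ofPred_eq, mem_image]
    constructor
    · rintro ⟨f, hf⟩
      exact ⟨(E, f), hf, rfl⟩
    · rintro ⟨⟨E', f⟩, hf, rfl⟩
      exact ⟨f, hf⟩
  rw [h3]
  exact h1.analyticSet_image measurable_fst

/-- A finite basis of an upward closed set. -/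
theorem exists_basis_of_wqo {α : Type*} {r : α → α → Prop} {U : Set α}
    (h : ∀ f : ℕ → α, (∀ n, f n ∈ U) → ∃ m n, m < n ∧ r (f m) (f n)) :
    ∃ R : Set α, R.Countable ∧ R ⊆ U ∧ ∀ x ∈ U, ∃ y ∈ R, r y x := by
  classical
  by_contra hcon
  push Not at hcon
  have hnext : ∀ L : List U, ∃ x : U, ∀ y ∈ L, ¬ r y.1 x.1 := by
    intro L
    obtain ⟨x, hx, hx'⟩ := hcon {a | ∃ y ∈ L, y.1 = a} (by
      have : {a | ∃ y ∈ L, y.1 = a} = (fun y : U => y.1) '' {y | y ∈ L} := by
        ext a
        simp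
      rw [this]
      exact (L.finite_toSet.image _).countable) (by
      rintro a ⟨y, _, rfl⟩
      exact y.2)
    exact ⟨⟨x, hx⟩, fun y hy => hx' y.1 ⟨y, hy, rfl⟩⟩
  choose next hnext using hnext
  let L : ℕ → List U := fun n => Nat.rec [] (fun _ l => next l :: l) n
  have hL : ∀ n, L (n + 1) = next (L n) :: L n := fun _ => rfl
  let s : ℕ → U := fun n => next (L n)
  have hmem : ∀ m n, m < n → s m ∈ L n := by
    intro m n hmn
    induction n with
    | zero => omega
    | succ n ih =>
      rw [hL]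
      rcases Nat.lt_succ_iff_lt_or_eq.1 hmn with h | h
      · exact List.mem_cons_of_mem _ (ih h)
      · subst h
        exact List.mem_cons_self
  obtain ⟨m, n, hmn, hr⟩ := h (fun n => (s n).1) (fun n => (s n).2)
  exact hnext (L n) (s m) (hmem m n hmn) hr

/-- Under well-quasi-ordering all minor-closed families of rayless graphs are co-analytic. -/
theorem coanalytic_of_wqo (hW : WQO) {C : Set (SimpleGraph ℕ)} (hC : ∀ G ∈ C, Rayless G)
    (hmc : MinorClosed C) : CoanalyticFamily C := by
  obtain ⟨R, hR, hRU, hbas⟩ := exists_basis_of_wqo (r := fun H G : SimpleGraph ℕ => IsMinor H G)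
    (U := {G | Rayless G ∧ G ∉ C}) (by
      intro f hf
      obtain ⟨i, j, hij, h⟩ := hW ℕ f (fun _ => Set.univ) (fun k => rayless_iff.1 (hf k).1)
      exact ⟨i, j, hij, isMinor_iff.2 h⟩)
  unfold CoanalyticFamily
  rw [analytic_graph_iff]
  have hcount : Countable (Option R) := by
    have := hR.to_subtype
    infer_instance
  have h1 : {E : ℕ × ℕ → Bool | gr E ∈ Cᶜ} = ⋃ o : Option R,
      (match o with
        | none => {E : ℕ × ℕ → Bool | ¬ Rayless (gr E)}
        | some H => {E : ℕ × ℕ → Bool | Minor H.1 Set.univ (gr E) Set.univ}) := by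
    ext E
    simp only [mem_ofPred_eq, mem_compl_iff, mem_iUnion]
    constructor
    · intro h
      by_cases hray : Rayless (gr E)
      · obtain ⟨H, hH, hm⟩ := hbas (gr E) ⟨hray, h⟩
        exact ⟨some ⟨H, hH⟩, isMinor_iff.1 hm⟩
      · exact ⟨none, hray⟩
    · rintro ⟨(_ | H), h⟩ hmem
      · exact h (hC _ hmem)
      · exact (hRU H.2).2 (hmc _ hmem _ (isMinor_iff.2 h))
  rw [h1]
  refine AnalyticSet.iUnion fun o => ?_
  rcases o with _ | H
  · exact analytic_not_rayless
  · exact analytic_up H.1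

theorem BorelFamily.coanalytic {C : Set (SimpleGraph ℕ)} (h : BorelFamily C) :
    CoanalyticFamily C := by
  unfold CoanalyticFamily
  rw [analytic_graph_iff]
  exact (h.compl.preimage continuous_gr).analyticSet

/-- A co-analytic family of rayless graphs containing all rayless forests is `Π¹₁`-complete. -/
theorem complete_of_forests {C : Set (SimpleGraph ℕ)} (hC : ∀ G ∈ C, Rayless G)
    (hF : ContainsRaylessForests C) (hco : CoanalyticFamily C) : Pi11Complete C := by
  refine ⟨hco, fun A hA => ?_⟩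
  obtain ⟨T, hT, hT'⟩ := exists_tree_reduction A hA
  obtain ⟨Ψ, hΨ, hΨ'⟩ := exists_forest_map
  refine ⟨Ψ ∘ T, @Continuous.comp (ℕ → ℕ) (List ℕ → Bool) (SimpleGraph ℕ) _ _ graphTopology T Ψ
    hΨ hT, ?_⟩
  ext z
  rw [hT']
  show Ψ (T z) ∉ C ↔ _
  constructor
  · intro h
    by_contra hcon
    exact h (hF _ (hΨ' (T z)).1 ((hΨ' (T z)).2.2 hcon))
  · intro h hmem
    exact (hΨ' (T z)).2.1 (hC _ hmem) h

/-- The list of equivalents. -/
theorem big_tfae :
    [¬ ∃ C : Set (SimpleGraph ℕ), (∀ G ∈ C, Rayless G) ∧ MinorClosed C ∧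
      (∃ α < ω₁, ∀ G ∈ C, HasRankLE α G) ∧ ¬ BorelFamily C,
      ∀ C : Set (SimpleGraph ℕ), (∀ G ∈ C, Rayless G) → MinorClosed C →
        (BorelFamily C ↔ ¬ ContainsRaylessForests C),
      ∀ C : Set (SimpleGraph ℕ), (∀ G ∈ C, Rayless G) → MinorClosed C →
        BorelFamily C ∨ Pi11Complete C,
      ∀ C : Set (SimpleGraph ℕ), (∀ G ∈ C, Rayless G) → MinorClosed C → CoanalyticFamily C,
      WellQuasiOrdered MinorLE, BetterQuasiOrdered MinorLE].TFAE := by
  have h45 := wqo_iff_bqo
  have h14 := q1_tfae.out 0 1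
  tfae_have 5 ↔ 6 := h45
  tfae_have 1 ↔ 5 := h14
  tfae_have 1 → 2 := by
    intro h C hC hmc
    constructor
    · intro hB hF
      exact not_borel_of_forests hC hF hB
    · intro hF
      by_contra hB
      exact h ⟨C, hC, hmc, (rank_bounded_iff hC hmc).2 hF, hB⟩
  tfae_have 2 → 1 := by
    rintro h ⟨C, hC, hmc, hrk, hB⟩
    exact hB ((h C hC hmc).2 ((rank_bounded_iff hC hmc).1 hrk))
  tfae_have 5 → 3 := by
    intro h C hC hmc
    by_cases hF : ContainsRaylessForests C
    · exact Or.inr (complete_of_forests hC hF (coanalytic_of_wqo (wqo_iff_official.2 h) hC hmc))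
    · left
      by_contra hB
      exact h14.2 h ⟨C, hC, hmc, (rank_bounded_iff hC hmc).2 hF, hB⟩
  tfae_have 3 → 4 := by
    intro h C hC hmc
    rcases h C hC hmc with h1 | h1
    · exact h1.coanalytic
    · exact h1.1
  tfae_have 4 → 5 := by
    intro h
    rw [← wqo_iff_official]
    by_contra hcon
    obtain ⟨Δ, ⟨α, hα, hΔ⟩, hB⟩ := not_wqo_host hcon
    have h1 : {H : SimpleGraph ℕ | Minor H Set.univ Δ Set.univ} = {H | IsMinor H Δ} := by
      ext H
      exact isMinor_iff.symm
    rw [h1] at hB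
    refine hB (borel_of_analytic (analytic_minors Δ) (h _ ?_ (minorClosed_down Δ)))
    intro G hG
    exact rayless_iff.2 ⟨α, hα, hΔ.of_minor (isMinor_iff.1 hG)⟩
  tfae_finish

end Run7.h891
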