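import Pool.Agent.Run7.h891.Glue

/-! Under well-quasi-ordering there are countably many types of graphs of bounded rank. -/

set_option autoImplicit false

open Set Ordinal

namespace Run7.h891

theorem countable_Iio_of_lt {α : Ordinal.{0}} (h : α < ω₁) : Countable (Set.Iio α) := by
  rw [← Cardinal.mk_le_aleph0_iff, Cardinal.mk_Iio_ordinal]
  have h1 : α.card < Cardinal.aleph 1 := Cardinal.lt_omega_iff_card_lt.1 h
  rw [← Cardinal.succ_aleph0, Order.lt_succ_iff] at h1
  have h2 : Cardinal.lift.{1} α.card ≤ Cardinal.lift.{1} Cardinal.aleph0.{0} :=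
    Cardinal.lift_le.2 h1
  simpa using h2

/-- Injective choice from infinitely many infinite sets. -/
theorem exists_injective_choice {β : Type*} (N : ℕ → Set β) (h : ∀ n, (N n).Infinite) :
    ∃ b : ℕ → β, Function.Injective b ∧ ∀ n, b n ∈ N n := by
  classical
  have h1 : ∀ n, ∃ t : Finset β, ↑t ⊆ N n ∧ t.card = n + 1 := fun n =>
    (h n).exists_subset_card_eq (n + 1)
  choose t ht1 ht2 using h1
  have h2 : ∀ s : Finset ℕ, s.card ≤ (s.biUnion t).card := by
    intro s
    rcases s.eq_empty_or_nonempty with rfl | hs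
    · simp
    · have h3 : s.card ≤ s.max' hs + 1 := by
        have : s ⊆ Finset.range (s.max' hs + 1) := fun a ha =>
          Finset.mem_range.2 (Nat.lt_succ_of_le (s.le_max' a ha))
        simpa using Finset.card_le_card this
      refine h3.trans ?_
      rw [← ht2 (s.max' hs)]
      exact Finset.card_le_card (Finset.subset_biUnion_of_mem t (s.max'_mem hs))
  obtain ⟨b, hb1, hb2⟩ := (Finset.all_card_le_biUnion_card_iff_exists_injective t).1 h2
  exact ⟨b, hb1, fun n => ht1 n (hb2 n)⟩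

theorem list_match {α β γ : Type*} [Inhabited β] (f : α → γ) (f' : β → γ) :
    ∀ (l : List α) (l' : List β), l.map f = l'.map f' → l'.Nodup →
      ∃ φ : α → β, (∀ a ∈ l, φ a ∈ l' ∧ f' (φ a) = f a) ∧ InjOn φ {a | a ∈ l} := by
  classical
  intro l
  induction l with
  | nil =>
    intro l' _ _
    exact ⟨fun _ => default, by simp, by simp [InjOn]⟩
  | cons a l ih =>
    intro l' h hnd
    cases l' with
    | nil => simp at h
    | cons b l' =>
      simp only [List.map_cons, List.cons.injEq] at h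
      obtain ⟨φ, hφ1, hφ2⟩ := ih l' h.2 hnd.of_cons
      have hb : b ∉ l' := (List.nodup_cons.1 hnd).1
      refine ⟨fun x => if x = a then b else φ x, ?_, ?_⟩
      · intro x hx
        by_cases hxa : x = a
        · subst hxa
          simp [h.1]
        · have hx' : x ∈ l := by
            rcases List.mem_cons.1 hx with h | h
            · exact absurd h hxa
            · exact h
          simp only [hxa, if_false]
          exact ⟨List.mem_cons_of_mem _ (hφ1 x hx').1, (hφ1 x hx').2⟩
      · intro x hx y hy hxy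
        simp only [mem_ofPred_eq, List.mem_cons] at hx hy
        by_cases hxa : x = a <;> by_cases hya : y = a
        · rw [hxa, hya]
        · simp only [hxa, if_true, hya, if_false] at hxy
          have hy' : y ∈ l := hy.resolve_left hya
          exact absurd (hxy ▸ (hφ1 y hy').1) hb
        · simp only [hxa, if_false, hya, if_true] at hxy
          have hx' : x ∈ l := hx.resolve_left hxa
          exact absurd (hxy ▸ (hφ1 x hx').1) hb
        · simp only [hxa, if_false, hya] at hxy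
          exact hφ2 (hx.resolve_left hxa) (hy.resolve_left hya) hxy

section kernel

variable {n : ℕ} {LT' : Code (Fin n) → Prop} {g : Code (Fin n) → ℕ}

/-- The kernel step. `LT' z` means that the rank of `z` is smaller than a given ordinal. -/
theorem kernel_step (hwqo : ∀ x : ℕ → Code (Fin n), (∀ k, LT' (x k)) →
      ∃ i j, i < j ∧ RLE (x i) (x j))
    (hg : ∀ x y, LT' x → LT' y → g x = g y → RLE x y) :
    ∃ h : Code (Fin n) → ℕ, ∀ x y : Code (Fin n),
      (∀ D ∈ x.comps, LT' (x.sub D)) → (∀ D ∈ y.comps, LT' (y.sub D)) → x.comps.Nonempty →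
      h x = h y → RLE x y := by
  classical
  let TT : Set ℕ := {t | ∃ z, LT' z ∧ g z = t}
  let le : ℕ → ℕ → Prop := fun t t' => ∃ z z', LT' z ∧ LT' z' ∧ g z = t ∧ g z' = t' ∧ RLE z z'
  have hle : ∀ z z', LT' z → LT' z' → le (g z) (g z') → RLE z z' := by
    rintro z z' hz hz' ⟨w, w', hw, hw', h1, h2, h3⟩
    exact (hg z w hz hw h1.symm).trans (h3.trans (hg w' z' hw' hz' h2))
  have hle_trans : ∀ a b c, le a b → le b c → le a c := by
    rintro a b c ⟨w, w', hw, hw', rfl, rfl, h3⟩ ⟨z, z', hz, hz', h4, rfl, h6⟩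
    exact ⟨w, z', hw, hz', rfl, rfl, h3.trans ((hg _ _ hw' hz h4.symm).trans h6)⟩
  let ty : Code (Fin n) → Set ℕ → ℕ := fun x D => g (x.sub D)
  let U : Code (Fin n) → Set ℕ := fun x => {t ∈ TT | {D ∈ x.comps | le t (ty x D)}.Finite}
  -- finite basis
  have hbasis : ∀ x, ∃ F : Finset ℕ, (∀ f ∈ F, f ∈ U x) ∧ ∀ u ∈ U x, ∃ f ∈ F, le f u := by
    intro x
    by_contra hcon
    push Not at hcon
    obtain ⟨s, hs1, hs2⟩ := exists_seq_of_forall_finset_exists (fun t => t ∈ U x)
      (fun a b => ¬ le a b) (fun F hF => hcon F hF)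
    have h1 : ∀ k, ∃ z, LT' z ∧ g z = s k := fun k => (hs1 k).1
    choose z hz1 hz2 using h1
    obtain ⟨i, j, hij, h⟩ := hwqo z hz1
    exact hs2 i j hij ⟨z i, z j, hz1 i, hz1 j, hz2 i, hz2 j, h⟩
  choose F hF1 hF2 using hbasis
  let E : Code (Fin n) → Set (Set ℕ) := fun x => {D ∈ x.comps | ty x D ∈ U x}
  have hE : ∀ x, (E x).Finite := by
    intro x
    have h1 : (⋃ f ∈ F x, {D ∈ x.comps | le f (ty x D)}).Finite :=
      (F x).finite_toSet.biUnion fun f hf => (hF1 x f hf).2
    refine h1.subset ?_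
    rintro D ⟨hD, hDU⟩
    obtain ⟨f, hf, h2⟩ := hF2 x _ hDU
    exact mem_biUnion (show f ∈ (F x : Set ℕ) from hf) ⟨hD, h2⟩
  let L : Code (Fin n) → List ℕ := fun x => (hE x).toFinset.toList.map (ty x)
  refine ⟨fun x => Encodable.encode (F x, L x), ?_⟩
  intro x y hx hy hne hxy
  have hxy' := Encodable.encode_injective hxy
  have hFF : F x = F y := (Prod.ext_iff.1 hxy').1
  have hLL : L x = L y := (Prod.ext_iff.1 hxy').2
  -- `U` is determined by `F`
  have hUF : ∀ x, ∀ t ∈ TT, t ∈ U x ↔ ∃ f ∈ F x, le f t := by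
    intro x t ht
    constructor
    · exact hF2 x t
    · rintro ⟨f, hf, h⟩
      refine ⟨ht, (hF1 x f hf).2.subset ?_⟩
      rintro D ⟨hD, hDt⟩
      exact ⟨hD, hle_trans _ _ _ h hDt⟩
  have hUU : ∀ t ∈ TT, t ∈ U x ↔ t ∈ U y := by
    intro t ht
    rw [hUF x t ht, hUF y t ht, hFF]
  -- matching of the exceptional components
  obtain ⟨φ1, hφ1, hφ1inj⟩ := list_match (ty x) (ty y) _ _ hLL (Finset.nodup_toList _)
  have hmemE : ∀ x D, D ∈ (hE x).toFinset.toList ↔ D ∈ E x := by
    intro x D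
    rw [Finset.mem_toList, Set.Finite.mem_toFinset]
  -- matching of the other components
  let N : ℕ → Set (Set ℕ) := fun k =>
    if comp x.G x.core k ∈ x.comps \ E x then
      {D' ∈ y.comps \ E y | le (ty x (comp x.G x.core k)) (ty y D')}
    else Set.univ
  have hN : ∀ k, (N k).Infinite := by
    intro k
    by_cases hk : comp x.G x.core k ∈ x.comps \ E x
    · simp only [N, if_pos hk]
      set D := comp x.G x.core k with hD
      have htT : ty x D ∈ TT := ⟨x.sub D, hx D hk.1, rfl⟩
      have h1 : ty x D ∉ U y := by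
        rw [← hUU _ htT]
        exact fun h => hk.2 ⟨hk.1, h⟩
      have h2 : {D' ∈ y.comps | le (ty x D) (ty y D')}.Infinite := fun h => h1 ⟨htT, h⟩
      have h3 := h2.sdiff (hE y)
      refine h3.mono ?_
      rintro D' ⟨⟨ha, hb⟩, hc⟩
      exact ⟨⟨ha, hc⟩, hb⟩
    · simp only [N, if_neg hk]
      exact Set.infinite_univ
  obtain ⟨b, hb1, hb2⟩ := exists_injective_choice N hN
  let φ : Set ℕ → Set ℕ := fun D => if D ∈ E x then φ1 D else b (sInf D)
  have hφE : ∀ D ∈ E x, φ D = φ1 D := fun D hD => if_pos hD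
  have hφN : ∀ D, D ∉ E x → φ D = b (sInf D) := fun D hD => if_neg hD
  have hsInf : ∀ D ∈ x.comps, comp x.G x.core (sInf D) = D := by
    intro D hD
    have hDne : D.Nonempty := by
      obtain ⟨v, hv, rfl⟩ := hD
      exact ⟨v, mem_comp_self hv⟩
    exact (Code.eq_comp hD (Nat.sInf_mem hDne)).symm
  have hbN : ∀ D ∈ x.comps, D ∉ E x → b (sInf D) ∈ y.comps \ E y ∧
      le (ty x D) (ty y (b (sInf D))) := by
    intro D hD hDE
    have h1 := hb2 (sInf D)
    have h2 : comp x.G x.core (sInf D) ∈ x.comps \ E x := by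
      rw [hsInf D hD]
      exact ⟨hD, hDE⟩
    simp only [N, if_pos h2, hsInf D hD] at h1
    exact h1
  refine glue hne φ ?_ ?_ ?_
  · intro D hD
    by_cases hDE : D ∈ E x
    · rw [hφE D hDE]
      exact ((hmemE y _).1 (hφ1 D ((hmemE x D).2 hDE)).1).1
    · rw [hφN D hDE]
      exact (hbN D hD hDE).1.1
  · intro D hD D' hD' h
    by_cases hDE : D ∈ E x <;> by_cases hDE' : D' ∈ E x
    · rw [hφE D hDE, hφE D' hDE'] at h
      exact hφ1inj ((hmemE x D).2 hDE) ((hmemE x D').2 hDE') h
    · rw [hφE D hDE, hφN D' hDE'] at h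
      have h1 := (hmemE y _).1 (hφ1 D ((hmemE x D).2 hDE)).1
      rw [h] at h1
      exact absurd h1 (hbN D' hD' hDE').1.2
    · rw [hφN D hDE, hφE D' hDE'] at h
      have h1 := (hmemE y _).1 (hφ1 D' ((hmemE x D').2 hDE')).1
      rw [← h] at h1
      exact absurd h1 (hbN D hD hDE).1.2
    · rw [hφN D hDE, hφN D' hDE'] at h
      have h1 := hb1 h
      rw [← hsInf D hD, ← hsInf D' hD', h1]
  · intro D hD
    by_cases hDE : D ∈ E x
    · rw [hφE D hDE]
      have h1 := hφ1 D ((hmemE x D).2 hDE)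
      have h2 := ((hmemE y _).1 h1.1).1
      exact hg _ _ (hx D hD) (hy _ h2) h1.2.symm
    · rw [hφN D hDE]
      have h1 := hbN D hD hDE
      exact hle _ _ (hx D hD) (hy _ h1.1.1) h1.2

end kernel

/-- `y` is an extension of `x` by further roots. -/
structure Ext {n : ℕ} (k : ℕ) (x : Code (Fin n)) (y : Code (Fin (n + k))) : Prop where
  G : y.G = x.G
  X : y.X = x.X
  r : ∀ i, y.r (Fin.castAdd k i) = x.r i

theorem Ext.rle {n k : ℕ} {x y : Code (Fin n)} {x' y' : Code (Fin (n + k))} (hx : Ext k x x')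
    (hy : Ext k y y') (h : RLE x' y') : RLE x y := by
  obtain ⟨B, hB, hr⟩ := h
  rw [hx.G, hx.X, hy.G, hy.X] at hB
  refine ⟨B, hB, fun q => ?_⟩
  have := hr (Fin.castAdd k q)
  rwa [hx.r, hy.r] at this

/-- Extending the roots by a finite set. -/
theorem exists_ext {n : ℕ} (x : Code (Fin n)) {S : Set ℕ} (hS : S.Finite) :
    ∃ k, ∃ y : Code (Fin (n + k)), Ext k x y ∧ range y.r = range x.r ∪ (S ∩ x.X) := by
  classical
  have hfin : ((S ∩ x.X) \ range x.r).Finite := (hS.inter_of_left _).sdiff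
  let F := hfin.toFinset
  let e : Fin F.card → ℕ := fun i => (F.equivFin.symm i).1
  have he : ∀ i, e i ∈ (S ∩ x.X) \ range x.r := fun i =>
    hfin.mem_toFinset.1 (F.equivFin.symm i).2
  have heinj : Function.Injective e := fun i j h =>
    F.equivFin.symm.injective (Subtype.ext h)
  refine ⟨F.card, ⟨x.G, x.X, Fin.append x.r e, ?_, ?_⟩, ⟨rfl, rfl, fun i => ?_⟩, ?_⟩
  · refine Fin.append_injective_iff.2 ⟨x.inj, heinj, ?_⟩
    intro i j h
    exact (he j).2 ⟨i, h⟩
  · intro q
    induction q using Fin.addCases with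
    | left i => simpa using x.mem i
    | right i => simpa using (he i).1.2
  · simp
  · ext z
    constructor
    · rintro ⟨q, rfl⟩
      induction q using Fin.addCases with
      | left i =>
        left
        exact ⟨i, by simp⟩
      | right i =>
        right
        simpa using (he i).1
    · rintro (⟨i, rfl⟩ | hz)
      · exact ⟨Fin.castAdd _ i, by simp⟩
      · by_cases h : z ∈ range x.r
        · obtain ⟨i, rfl⟩ := h
          exact ⟨Fin.castAdd _ i, by simp⟩
        · have hz' : z ∈ F := hfin.mem_toFinset.2 ⟨hz, h⟩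
          refine ⟨Fin.natAdd n (F.equivFin ⟨z, hz'⟩), ?_⟩
          simp [e]

/-- If the rooted graphs of rank smaller than `A` are well-quasi-ordered, then the rooted graphs
of rank at most `α ≤ A` fall into countably many types. -/
theorem countable_types_local (A : Ordinal.{0}) (hA : A < ω₁)
    (hR : ∀ n : ℕ, ∀ x : ℕ → Code (Fin n), (∀ k, ∃ β < A, (x k).RankLE β) →
      ∃ i j, i < j ∧ RLE (x i) (x j)) (α : Ordinal.{0}) (hαA : α ≤ A) :
    ∀ n : ℕ, ∃ f : Code (Fin n) → ℕ, ∀ x y : Code (Fin n), x.RankLE α → y.RankLE α →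
      f x = f y → RLE x y := by
  classical
  induction α using WellFoundedLT.induction with
  | _ α ih =>
  have hα : α < ω₁ := hαA.trans_lt hA
  have : Countable (Set.Iio α) := countable_Iio_of_lt hα
  obtain ⟨idx, hidx⟩ := exists_injective_nat (Set.Iio α)
  -- types for smaller ranks
  have hF : ∀ β : Set.Iio α, ∀ n : ℕ, ∃ f : Code (Fin n) → ℕ, ∀ x y : Code (Fin n),
      x.RankLE β → y.RankLE β → f x = f y → RLE x y := fun β n =>
    ih β.1 β.2 ((le_of_lt β.2).trans hαA) n
  choose F hF using hF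
  let lt : ∀ {n : ℕ}, Code (Fin n) → Prop := fun {n} x => ∃ β : Set.Iio α, x.RankLE β
  have hg : ∀ n : ℕ, ∃ g : Code (Fin n) → ℕ, ∀ x y, lt x → lt y → g x = g y → RLE x y := by
    intro n
    refine ⟨fun x => if h : lt x then Nat.pair (idx h.choose) (F h.choose n x) else 0, ?_⟩
    intro x y hx hy hxy
    simp only [dif_pos hx, dif_pos hy] at hxy
    obtain ⟨h1, h2⟩ := Nat.pair_eq_pair.1 hxy
    have h3 := hidx h1
    refine hF hx.choose n x y hx.choose_spec ?_ ?_
    · rw [h3]
      exact hy.choose_spec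
    · rw [h2, h3]
  choose g hg using hg
  have hwqo : ∀ n : ℕ, ∀ x : ℕ → Code (Fin n), (∀ k, lt (x k)) → ∃ i j, i < j ∧
      RLE (x i) (x j) := by
    intro n x hx
    refine hR n x fun k => ?_
    obtain ⟨β, hβ⟩ := hx k
    exact ⟨β.1, (show β.1 < α from β.2).trans_le hαA, hβ⟩
  choose h hh using fun n => kernel_step (hwqo n) (hg n)
  intro n
  -- extensions
  have hext : ∀ x : Code (Fin n), ∃ k, ∃ y : Code (Fin (n + k)), x.RankLE α → ¬ x.X.Finite →
      Ext k x y ∧ (∀ D ∈ y.comps, lt (y.sub D)) ∧ y.comps.Nonempty := by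
    intro x
    by_cases hx : x.RankLE α ∧ ¬ x.X.Finite
    swap
    · exact ⟨0, x, fun h1 h2 => absurd ⟨h1, h2⟩ hx⟩
    obtain ⟨hx1, hx2⟩ := hx
    have hx1' := (rankLE_iff _ _ _).1 hx1
    obtain ⟨S, hS, hS'⟩ := hx1'.resolve_left hx2
    obtain ⟨k, y, hy, hyr⟩ := exists_ext x hS
    refine ⟨k, y, fun _ _ => ⟨hy, ?_, ?_⟩⟩
    · rintro D ⟨v, hv, rfl⟩
      have hcore : y.core ⊆ x.X \ S := by
        rintro z ⟨hz1, hz2⟩
        rw [hy.X] at hz1
        refine ⟨hz1, fun hzS => hz2 ?_⟩
        rw [hyr]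
        exact Or.inr ⟨hzS, hz1⟩
      obtain ⟨β, hβ, h1⟩ := hS' v (hcore hv)
      refine ⟨⟨β, hβ⟩, ?_⟩
      have h2 : RankLE x.G β (comp y.G y.core v) := by
        rw [hy.G]
        exact h1.mono_set (comp_mono hcore)
      show RankLE y.G β (range y.r ∪ comp y.G y.core v)
      rw [union_comm]
      refine RankLE.union_finite ?_ (finite_range _)
      rw [hy.G] at h2 ⊢
      exact h2
    · have h1 : (x.X \ range y.r).Nonempty := by
        by_contra hcon
        rw [not_nonempty_iff_eq_empty] at hcon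
        refine hx2 ((finite_range y.r).subset ?_)
        intro z hz
        by_contra hz'
        have : z ∈ x.X \ range y.r := ⟨hz, hz'⟩
        rw [hcon] at this
        exact this
      obtain ⟨z, hz1, hz2⟩ := h1
      refine ⟨_, y.comp_mem (v := z) ⟨?_, hz2⟩⟩
      rw [hy.X]
      exact hz1
  choose kk yy hyy using hext
  -- finite codes
  let ff : Code (Fin n) → Option (Finset ℕ × Finset (ℕ × ℕ) × (Fin n → ℕ)) := fun x =>
    if hx : x.X.Finite then
      some (hx.toFinset, (hx.toFinset ×ˢ hx.toFinset).filter (fun p => x.G.Adj p.1 p.2), x.r)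
    else none
  refine ⟨fun x => Encodable.encode (ff x, kk x, h _ (yy x)), ?_⟩
  intro x y hx hy hxy
  have hxy' := Encodable.encode_injective hxy
  obtain ⟨h1, h2⟩ := Prod.ext_iff.1 hxy'
  obtain ⟨h2, h3⟩ := Prod.ext_iff.1 h2
  simp only at h1 h2 h3
  by_cases hfx : x.X.Finite
  · by_cases hfy : y.X.Finite
    swap
    · simp [ff, hfx, hfy] at h1
    simp only [ff, dif_pos hfx, dif_pos hfy, Option.some.injEq, Prod.mk.injEq] at h1
    obtain ⟨h4, h5, h6⟩ := h1
    have hXX : x.X = y.X := by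
      have := congrArg (fun s : Finset ℕ => (s : Set ℕ)) h4
      simpa using this
    refine ⟨fun v => {v}, ⟨?_, fun _ _ => singleton_nonempty _, fun _ _ => conn_singleton _ _,
      ?_, ?_⟩, ?_⟩
    · rintro w hw _ rfl
      rwa [← hXX]
    · intro a _ b _ hab
      simpa using hab
    · intro a ha b hb hab
      refine ⟨a, rfl, b, rfl, ?_⟩
      have h7 : (a, b) ∈ (hfx.toFinset ×ˢ hfx.toFinset).filter (fun p => x.G.Adj p.1 p.2) := by
        simp [ha, hb, hab]
      rw [h5] at h7
      exact (Finset.mem_filter.1 h7).2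
    · intro q
      rw [h6]
      rfl
  · by_cases hfy : y.X.Finite
    · simp [ff, hfx, hfy] at h1
    obtain ⟨hx1, hx2, hx3⟩ := hyy x hx hfx
    obtain ⟨hy1, hy2, hy3⟩ := hyy y hy hfy
    have gen : ∀ (k k' : ℕ) (x' : Code (Fin (n + k))) (y' : Code (Fin (n + k'))), k = k' →
        h (n + k) x' = h (n + k') y' → Ext k x x' → Ext k' y y' →
        (∀ D ∈ x'.comps, lt (x'.sub D)) → (∀ D ∈ y'.comps, lt (y'.sub D)) →
        x'.comps.Nonempty → RLE x y := by
      intro k k' x' y' hk hhh hex hey hxl hyl hxn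
      subst hk
      exact Ext.rle hex hey (hh (n + k) x' y' hxl hyl hxn hhh)
    exact gen (kk x) (kk y) (yy x) (yy y) h2 h3 hx1 hy1 hx2 hy2 hx3

/-- Under well-quasi-ordering, the rooted graphs of rank at most `α` fall into countably many
types. -/
theorem countable_types (hR : ∀ n : ℕ, RWQO (Fin n)) (α : Ordinal.{0}) (hα : α < ω₁) :
    ∀ n : ℕ, ∃ f : Code (Fin n) → ℕ, ∀ x y : Code (Fin n), x.RankLE α → y.RankLE α →
      f x = f y → RLE x y :=
  countable_types_local α hα (fun n x hx => hR n x fun k => by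
    obtain ⟨β, hβ, h⟩ := hx k
    exact ⟨β, hβ.trans hα, h⟩) α le_rfl

end Run7.h891
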