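import Mathlib

/-! Definitions used in the statements about minor-closed families of rayless graphs. -/

set_option autoImplicit false

open Set Ordinal

namespace Run7.h891

/-- `H` is a minor of `G`: there are pairwise disjoint vertex sets `B v ⊆ V(G)`, `v ∈ V(H)`,
each inducing a connected (in particular nonempty) subgraph of `G`, such that for every edge
`uw` of `H` some edge of `G` joins `B u` to `B w`. -/
def IsMinor {W V : Type*} (H : SimpleGraph W) (G : SimpleGraph V) : Prop :=
  ∃ B : W → Set V, (∀ w, (G.induce (B w)).Connected) ∧
    (∀ u w, u ≠ w → Disjoint (B u) (B w)) ∧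
    ∀ u w, H.Adj u w → ∃ x ∈ B u, ∃ y ∈ B w, G.Adj x y

/-- `G` contains no ray, i.e. no one-way infinite path. -/
def Rayless {V : Type*} (G : SimpleGraph V) : Prop :=
  ¬ ∃ f : ℕ → V, Function.Injective f ∧ ∀ n, G.Adj (f n) (f (n + 1))

/-- `HasRankLE α G`: the graph `G` has rank at most `α`, i.e. `G` is finite, or there is a finite
`S ⊆ V(G)` such that every component of `G - S` has rank at most `β` for some `β < α`. -/
def HasRankLE (α : Ordinal.{0}) {V : Type} (G : SimpleGraph V) : Prop :=
  Finite V ∨ ∃ S : Set V, S.Finite ∧
    ∀ c : (G.induce Sᶜ).ConnectedComponent, ∃ β : Ordinal.{0}, ∃ _ : β < α,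
      HasRankLE β c.toSimpleGraph
termination_by α

open Classical in
/-- The edge-indicator function `ℕ² → {0,1}` of a graph with vertex set `ℕ`. -/
noncomputable def edgeIndicator (G : SimpleGraph ℕ) : ℕ × ℕ → Bool :=
  fun p => decide (G.Adj p.1 p.2)

/-- The topology on the set of graphs with vertex set `ℕ` inherited from the product topology
of `{0,1}^(ℕ²)` by identifying a graph with its edge-indicator function. -/
@[reducible] noncomputable def graphTopology : TopologicalSpace (SimpleGraph ℕ) :=
  TopologicalSpace.induced edgeIndicator inferInstance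

/-- A family of graphs with vertex set `ℕ` is Borel if it lies in the σ-algebra generated by the
open sets of `graphTopology`. -/
def BorelFamily (C : Set (SimpleGraph ℕ)) : Prop :=
  @MeasurableSet (SimpleGraph ℕ) (@borel (SimpleGraph ℕ) graphTopology) C

/-- A family of graphs with vertex set `ℕ` is closed under minors (within the graphs with vertex
set `ℕ`). -/
def MinorClosed (C : Set (SimpleGraph ℕ)) : Prop :=
  ∀ G ∈ C, ∀ H : SimpleGraph ℕ, IsMinor H G → H ∈ C

end Run7.h891
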