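import Pool.Agent.Run7.h891.Defs

/-! Further definitions used in the statements: rooted minors, complete analytic families. -/

set_option autoImplicit false

open Set Ordinal

namespace Run7.h891

/-- Rooted minors. `H` with root vertices `s 0, …, s (n - 1)` is a rooted minor of `G` with root
vertices `r 0, …, r (n - 1)`: there is a minor model `B` of `H` in `G` (as in `IsMinor`) such that
`r i ∈ B (s i)` for every `i`. -/
def IsRootedMinor {n : ℕ} {W V : Type*} (H : SimpleGraph W) (s : Fin n → W) (G : SimpleGraph V)
    (r : Fin n → V) : Prop :=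
  ∃ B : W → Set V, (∀ w, (G.induce (B w)).Connected) ∧
    (∀ u w, u ≠ w → Disjoint (B u) (B w)) ∧
    (∀ u w, H.Adj u w → ∃ x ∈ B u, ∃ y ∈ B w, G.Adj x y) ∧ ∀ i, r i ∈ B (s i)

/-- A family of graphs with vertex set `ℕ` is `Σ¹₁`-complete: it is analytic, and every analytic
subset of the Baire space is its preimage under a continuous map. -/
def Sigma11Complete (C : Set (SimpleGraph ℕ)) : Prop :=
  @MeasureTheory.AnalyticSet (SimpleGraph ℕ) graphTopology C ∧
    ∀ A : Set (ℕ → ℕ), MeasureTheory.AnalyticSet A →
      ∃ Φ : (ℕ → ℕ) → SimpleGraph ℕ, @Continuous _ _ _ graphTopology Φ ∧ Φ ⁻¹' C = A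

/-- A family of graphs with vertex set `ℕ` is `Π¹₁`-complete: its complement is
`Σ¹₁`-complete. -/
def Pi11Complete (C : Set (SimpleGraph ℕ)) : Prop := Sigma11Complete Cᶜ

/-- The product topology on pairs of graphs with vertex set `ℕ`. -/
@[reducible] noncomputable def pairTopology : TopologicalSpace (SimpleGraph ℕ × SimpleGraph ℕ) :=
  @instTopologicalSpaceProd _ _ graphTopology graphTopology

/-- A relation between graphs with vertex set `ℕ` is Borel if it is a Borel subset of the
product. -/
def BorelRelation (R : Set (SimpleGraph ℕ × SimpleGraph ℕ)) : Prop :=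
  @MeasurableSet _ (@borel _ pairTopology) R

/-- The minor relation on the graphs of rank at most `α` with vertex set `ℕ`. -/
def minorRelation (α : Ordinal.{0}) : Set (SimpleGraph ℕ × SimpleGraph ℕ) :=
  {p | HasRankLE α p.1 ∧ HasRankLE α p.2 ∧ IsMinor p.1 p.2}

/-- The minor-closed families of graphs of rank at most `α` with vertex set `ℕ`. -/
def minorClosedFamilies (α : Ordinal.{0}) : Set (Set (SimpleGraph ℕ)) :=
  {C | MinorClosed C ∧ ∀ G ∈ C, HasRankLE α G}

/-- The graphs of rank at most `α` with vertex set `ℕ` fall into countably many classes of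
mutual minors. -/
def CountablyManyTwinClasses (α : Ordinal.{0}) : Prop :=
  ∃ R : Set (SimpleGraph ℕ), R.Countable ∧
    ∀ G : SimpleGraph ℕ, HasRankLE α G → ∃ H ∈ R, IsMinor G H ∧ IsMinor H G

end Run7.h891
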