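import Pool.Agent.Run7.h891.Defs2

/-! Definitions for the statement about better-quasi-orderings. -/

set_option autoImplicit false

open Set Ordinal

namespace Run7.h891

/-- A countable rayless graph. -/
structure CountableRaylessGraph where
  /-- the vertex set -/
  V : Type
  /-- the graph -/
  G : SimpleGraph V
  countable : Countable V
  rayless : Rayless G

/-- `H` is a minor of `G`. -/
def MinorLE (H G : CountableRaylessGraph) : Prop := IsMinor H.G G.G

/-- The relation `r` is a better-quasi-ordering (Nash-Williams, in the form due to Simpson): for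
every locally constant map `f` from the Baire space to `Q` there is a strictly increasing sequence
`X` with `r (f X) (f X⁻)`, where `X⁻` is `X` without its first term. -/
def BetterQuasiOrdered {Q : Type*} (r : Q → Q → Prop) : Prop :=
  ∀ f : (ℕ → ℕ) → Q, (∀ X, ∃ n, ∀ Y : ℕ → ℕ, (∀ i < n, Y i = X i) → f Y = f X) →
    ∃ X : ℕ → ℕ, StrictMono X ∧ r (f X) (f fun k => X (k + 1))

/-- The family contains all rayless forests with vertex set `ℕ`. -/
def ContainsRaylessForests (C : Set (SimpleGraph ℕ)) : Prop :=
  ∀ F : SimpleGraph ℕ, F.IsAcyclic → Rayless F → F ∈ C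

/-- A family of graphs with vertex set `ℕ` is co-analytic: its complement is analytic. -/
def CoanalyticFamily (C : Set (SimpleGraph ℕ)) : Prop :=
  @MeasureTheory.AnalyticSet (SimpleGraph ℕ) graphTopology Cᶜ

end Run7.h891
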