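import Pool.Agent.Run7.h891.Defs3

/-! Definitions: families closed under minor-twins, rank slices, twin classes. -/

set_option autoImplicit false

open Set Ordinal

namespace Run7.h891

/-- `C` is closed under minor-twins. -/
def TwinClosed (C : Set (SimpleGraph ℕ)) : Prop :=
  ∀ G ∈ C, ∀ H : SimpleGraph ℕ, IsMinor H G → IsMinor G H → H ∈ C

/-- The members of `C` of rank exactly `α`. -/
def RankSlice (C : Set (SimpleGraph ℕ)) (α : Ordinal.{0}) : Set (SimpleGraph ℕ) :=
  {G | G ∈ C ∧ HasRankLE α G ∧ ∀ β < α, ¬ HasRankLE β G}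

/-- Every infinite sequence in `C` has an earlier member which is a minor of a later one. -/
def WqoFamily (C : Set (SimpleGraph ℕ)) : Prop :=
  ∀ f : ℕ → SimpleGraph ℕ, (∀ n, f n ∈ C) → ∃ i j, i < j ∧ IsMinor (f i) (f j)

/-- The minor-twins of `G`. -/
def TwinClass (G : SimpleGraph ℕ) : Set (SimpleGraph ℕ) := {H | IsMinor H G ∧ IsMinor G H}

end Run7.h891
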