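import Pool.Agent.Run7.h891.Groups

/-! The sharp family graphs: no loss of rank. -/

set_option autoImplicit false

open Set Ordinal

namespace Run7.h891

universe u v w

/-- A connected set which meets a region and leaves it crosses its border. -/
theorem conn_exit {V : Type u} {G : SimpleGraph V} {A D : Set V} (hA : Conn G A) {x z : V}
    (hx : x ∈ A) (hxD : x ∈ D) (hz : z ∈ A) (hzD : z ∉ D) :
    ∃ a ∈ A, a ∈ D ∧ ∃ b ∈ A, b ∉ D ∧ G.Adj a b := by
  by_contra hcon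
  refine hzD ((hA x hx z hz).closed hxD ?_)
  intro a ha haA b hb hab
  by_contra hbD
  exact hcon ⟨a, haA, ha, b, hb, hbD, hab⟩

/-- The vertex type of the family graphs: roots, attached copies, apices, copies in pieces. -/
abbrev FV (k : ℕ) (Q : Type) := Fin (3 ^ (k + 1)) ⊕ (Fin (3 ^ (k + 1)) × ℕ × ℕ) ⊕ Q ⊕ (Q × ℕ × ℕ)

section defs

variable {k : ℕ} {Q : Type}

/-- Roots. -/
abbrev rt (e : Fin (3 ^ (k + 1))) : FV k Q := .inl e
/-- Vertices of the copies attached to the roots. -/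
abbrev av (e : Fin (3 ^ (k + 1))) (i v : ℕ) : FV k Q := .inr (.inl (e, i, v))
/-- Apices of the pieces. -/
abbrev ap (q : Q) : FV k Q := .inr (.inr (.inl q))
/-- The vertices of the copies in the pieces. -/
abbrev cp (q : Q) (j v : ℕ) : FV k Q := .inr (.inr (.inr (q, j, v)))

variable (y : ℕ → Code (Fin k)) (A : Set Q) (N : Q → Set ℕ)

/-- Adjacency in the family graph. -/
def fAdj : FV k Q → FV k Q → Prop
  | .inl _, .inl _ => False
  | .inl e, .inr (.inl p) => e = p.1 ∧ p.2.2 ∈ (y p.2.1).X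
  | .inl e, .inr (.inr (.inl q)) => q ∈ A ∧ grp e = k
  | .inl e, .inr (.inr (.inr p)) =>
      p.1 ∈ A ∧ p.2.1 ∈ N p.1 ∧ ∃ c : Fin k, grp e = c ∧ p.2.2 = (y p.2.1).r c
  | .inr (.inl p), .inl e => e = p.1 ∧ p.2.2 ∈ (y p.2.1).X
  | .inr (.inl p), .inr (.inl p') => p.1 = p'.1 ∧ p.2.1 = p'.2.1 ∧ p.2.2 ∈ (y p.2.1).X ∧
      p'.2.2 ∈ (y p.2.1).X ∧ (y p.2.1).G.Adj p.2.2 p'.2.2
  | .inr (.inl _), .inr (.inr (.inl _)) => False
  | .inr (.inl _), .inr (.inr (.inr _)) => False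
  | .inr (.inr (.inl q)), .inl e => q ∈ A ∧ grp e = k
  | .inr (.inr (.inl _)), .inr (.inl _) => False
  | .inr (.inr (.inl _)), .inr (.inr (.inl _)) => False
  | .inr (.inr (.inl q)), .inr (.inr (.inr p)) =>
      q = p.1 ∧ p.1 ∈ A ∧ p.2.1 ∈ N p.1 ∧ p.2.2 ∈ (y p.2.1).X
  | .inr (.inr (.inr p)), .inl e =>
      p.1 ∈ A ∧ p.2.1 ∈ N p.1 ∧ ∃ c : Fin k, grp e = c ∧ p.2.2 = (y p.2.1).r c
  | .inr (.inr (.inr _)), .inr (.inl _) => False
  | .inr (.inr (.inr p)), .inr (.inr (.inl q)) =>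
      q = p.1 ∧ p.1 ∈ A ∧ p.2.1 ∈ N p.1 ∧ p.2.2 ∈ (y p.2.1).X
  | .inr (.inr (.inr p)), .inr (.inr (.inr p')) =>
      p.1 = p'.1 ∧ p.2.1 = p'.2.1 ∧ p.1 ∈ A ∧ p.2.1 ∈ N p.1 ∧ p.2.2 ∈ (y p.2.1).X ∧
      p'.2.2 ∈ (y p.2.1).X ∧ (y p.2.1).G.Adj p.2.2 p'.2.2

/-- The family graph. -/
def fG : SimpleGraph (FV k Q) where
  Adj := fAdj y A N
  symm := ⟨by
    rintro (e | ⟨e, i, v⟩ | q | ⟨q, j, v⟩) (e' | ⟨e', i', v'⟩ | q' | ⟨q', j', v'⟩) h
    · exact h
    · exact h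
    · exact h
    · exact h
    · exact h
    · obtain ⟨h1, h2, h3, h4, h5⟩ := h
      simp only at h1 h2 h3 h4 h5
      subst h1 h2
      exact ⟨rfl, rfl, h4, h3, h5.symm⟩
    · exact h
    · exact h
    · exact h
    · exact h
    · exact h
    · exact h
    · exact h
    · exact h
    · exact h
    · obtain ⟨h1, h2, h3, h4, h5, h6, h7⟩ := h
      simp only at h1 h2 h3 h4 h5 h6 h7
      subst h1 h2
      exact ⟨rfl, rfl, h3, h4, h6, h5, h7.symm⟩⟩
  loopless := ⟨by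
    rintro (e | ⟨e, i, v⟩ | q | ⟨q, j, v⟩) h
    · exact h
    · exact (y i).G.loopless.irrefl _ h.2.2.2.2
    · exact h
    · exact (y j).G.loopless.irrefl _ h.2.2.2.2.2.2⟩

/-- The block of an attached copy. -/
def blkA (e : Fin (3 ^ (k + 1))) (i : ℕ) : Set (FV k Q) := (fun v => av e i v) '' (y i).X
/-- The block of a copy in a piece. -/
def blkC (q : Q) (j : ℕ) : Set (FV k Q) := (fun v => cp q j v) '' (y j).X
/-- The piece of `q`. -/
def pc (q : Q) : Set (FV k Q) := {ap q} ∪ ⋃ j ∈ N q, blkC y q j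

variable {y A N}

theorem av_mem_blkA {e e' : Fin (3 ^ (k + 1))} {i i' v : ℕ} :
    (av e i v : FV k Q) ∈ blkA y e' i' ↔ e = e' ∧ i = i' ∧ v ∈ (y i).X := by
  constructor
  · rintro ⟨w, hw, h⟩
    simp only [av, Sum.inr.injEq, Sum.inl.injEq, Prod.mk.injEq] at h
    obtain ⟨rfl, rfl, rfl⟩ := h
    exact ⟨rfl, rfl, hw⟩
  · rintro ⟨rfl, rfl, h⟩
    exact ⟨v, h, rfl⟩

theorem cp_mem_blkC {q q' : Q} {j j' v : ℕ} :
    (cp q j v : FV k Q) ∈ blkC y q' j' ↔ q = q' ∧ j = j' ∧ v ∈ (y j).X := by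
  constructor
  · rintro ⟨w, hw, h⟩
    simp only [cp, Sum.inr.injEq, Prod.mk.injEq] at h
    obtain ⟨rfl, rfl, rfl⟩ := h
    exact ⟨rfl, rfl, hw⟩
  · rintro ⟨rfl, rfl, h⟩
    exact ⟨v, h, rfl⟩

theorem ap_mem_pc (q : Q) : (ap q : FV k Q) ∈ pc y N q := Or.inl rfl

theorem blkC_subset_pc {q : Q} {j : ℕ} (hj : j ∈ N q) : (blkC y q j : Set (FV k Q)) ⊆ pc y N q :=
  (subset_biUnion_of_mem (u := fun j => blkC y q j) hj).trans subset_union_right

theorem cp_mem_pc {q q' : Q} {j v : ℕ} :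
    (cp q j v : FV k Q) ∈ pc y N q' ↔ q = q' ∧ j ∈ N q ∧ v ∈ (y j).X := by
  constructor
  · rintro (h | h)
    · simp [cp, ap] at h
    · simp only [mem_iUnion, exists_prop] at h
      obtain ⟨j', hj', h⟩ := h
      obtain ⟨rfl, rfl, hv⟩ := cp_mem_blkC.1 h
      exact ⟨rfl, hj', hv⟩
  · rintro ⟨rfl, h1, h2⟩
    exact blkC_subset_pc h1 (cp_mem_blkC.2 ⟨rfl, rfl, h2⟩)

theorem ap_mem_pc_iff {q q' : Q} : (ap q : FV k Q) ∈ pc y N q' ↔ q = q' := by
  constructor
  · rintro (h | h)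
    · simpa [ap] using h
    · simp only [mem_iUnion, exists_prop] at h
      obtain ⟨j', hj', v, _, h⟩ := h
      simp [cp, ap] at h
  · rintro rfl
    exact ap_mem_pc q

/-- The embedding of an attached copy, as far as adjacency is concerned. -/
theorem blkA_conn {e : Fin (3 ^ (k + 1))} {i : ℕ} (h : Conn (y i).G (y i).X) :
    Conn (fG y A N) (blkA y e i) :=
  conn_push (T := (y i).G) (K := fG y A N) (e := fun v => av e i v) (Z := (y i).X)
    (fun _ hx _ hy h => ⟨rfl, rfl, hx, hy, h⟩) subset_rfl h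

theorem blkC_conn {q : Q} {j : ℕ} (hq : q ∈ A) (hj : j ∈ N q) (h : Conn (y j).G (y j).X) :
    Conn (fG y A N) (blkC y q j) :=
  conn_push (T := (y j).G) (K := fG y A N) (e := fun v => cp q j v) (Z := (y j).X)
    (fun _ hx _ hy h => ⟨rfl, rfl, hq, hj, hx, hy, h⟩) subset_rfl h

theorem pc_conn {q : Q} (hq : q ∈ A) : Conn (fG y A N) (pc y N q) := by
  have h : ∀ z ∈ pc y N q, Reach (fG y A N) (pc y N q) (ap q) z := by
    rintro (e | ⟨e, i, v⟩ | q' | ⟨q', j, v⟩) hz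
    · rcases hz with h | h
      · simp [ap] at h
      · simp only [mem_iUnion, exists_prop] at h
        obtain ⟨j', hj', v, _, h⟩ := h
        simp [cp] at h
    · rcases hz with h | h
      · simp [ap] at h
      · simp only [mem_iUnion, exists_prop] at h
        obtain ⟨j', hj', v, _, h⟩ := h
        simp [cp] at h
    · obtain rfl := ap_mem_pc_iff.1 hz
      exact Reach.refl hz
    · have hz' := hz
      obtain ⟨rfl, hj, hv⟩ := cp_mem_pc.1 hz
      exact Reach.of_adj (ap_mem_pc _) hz' ⟨rfl, hq, hj, hv⟩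
  intro x hx z hz
  exact (h x hx).symm.trans (h z hz)

theorem blkA_rank {e : Fin (3 ^ (k + 1))} {i : ℕ} {δ : Ordinal.{0}} :
    RankLE (fG y A N) δ (blkA y e i) ↔ (y i).RankLE δ := by
  constructor
  · intro h
    refine h.of_minor ?_
    have h1 := IsModel.precomp (T := (y i).G) (K := fG y A N)
      (e := fun v => (av e i v : FV k Q)) (Z := (y i).X)
      (fun a _ b _ h => by simpa [av] using h)
      (fun _ hx _ hy h => ⟨rfl, rfl, hx, hy, h⟩)
      (IsModel.refl (fG y A N) (X := blkA y e i) subset_rfl)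
    exact ⟨_, h1⟩
  · intro h
    refine RankLE.of_minor h ?_
    exact minor_partial (T := (y i).G) (K := fG y A N) (e := fun v => (av e i v : FV k Q))
      (Z := (y i).X) (fun a _ b _ h => by simpa [av] using h) (fun _ _ _ _ h => h.2.2.2.2)

theorem blkC_rank {q : Q} {j : ℕ} {δ : Ordinal.{0}} (h : (y j).RankLE δ) :
    RankLE (fG y A N) δ (blkC y q j) := by
  refine RankLE.of_minor h ?_
  exact minor_partial (T := (y j).G) (K := fG y A N) (e := fun v => (cp q j v : FV k Q))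
    (Z := (y j).X) (fun a _ b _ h => by simpa [cp] using h) (fun _ _ _ _ h => h.2.2.2.2.2.2)

/-- The rank of a piece. -/
theorem pc_rank {β : Ordinal.{0}} (hβ : 0 < β) (hlt : ∀ i, ∃ δ < β, (y i).RankLE δ) {q : Q}
    (hN : (N q).Finite) : ∃ δ < β, RankLE (fG y A N) δ (pc y N q) := by
  classical
  choose d hd hd' using hlt
  let F := hN.toFinset
  refine ⟨F.sup d, ?_, ?_⟩
  · rw [Finset.sup_lt_iff (by simpa using hβ)]
    intro i _
    exact hd i
  · have h1 : RankLE (fG y A N) (F.sup d) (⋃ j ∈ F, blkC y q j) := by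
      refine RankLE.biUnion F ?_ ?_
      · intro i hi
        exact (blkC_rank (hd' i)).mono_ord (Finset.le_sup hi)
      · rintro i _ j _ hij _ ⟨a, _, rfl⟩ _ ⟨b, _, rfl⟩ hab
        exact hij hab.2.1
    have h2 := h1.union_finite (finite_singleton (ap q : FV k Q))
    refine h2.mono_set ?_
    rw [union_comm]
    refine union_subset_union_right _ ?_
    intro z hz
    simpa [F] using hz

/-- The roots. -/
def rts (k : ℕ) (Q : Type) : Set (FV k Q) := range fun e => rt e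

theorem rts_finite : (rts k Q).Finite := finite_range _

/-- A connected set without roots which contains a vertex of an attached copy. -/
theorem sub_blkA {D : Set (FV k Q)} (hD : Conn (fG y A N) D) {e : Fin (3 ^ (k + 1))} {i v : ℕ}
    (hroot : rt e ∉ D) (hv : av e i v ∈ D) (hvX : v ∈ (y i).X) : D ⊆ blkA y e i := by
  intro z hz
  refine (hD _ hv z hz).closed (av_mem_blkA.2 ⟨rfl, rfl, hvX⟩) ?_
  rintro _ ⟨x, hx, rfl⟩ _ (e' | ⟨e', i', v'⟩ | q' | ⟨q', j', v'⟩) hb hab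
  · obtain ⟨h1, _⟩ := hab
    simp only at h1
    subst h1
    exact absurd hb hroot
  · obtain ⟨h1, h2, h3, h4, h5⟩ := hab
    simp only at h1 h2 h4
    subst h1 h2
    exact ⟨v', h4, rfl⟩
  · exact hab.elim
  · exact hab.elim

theorem sub_pc {D : Set (FV k Q)} (hD : Conn (fG y A N) D) {q : Q}
    (hroot : ∀ e, rt e ∉ D) {z : FV k Q} (hz : z ∈ D) (hzP : z ∈ pc y N q) :
    D ⊆ pc y N q := by
  intro w hw
  refine (hD _ hz w hw).closed hzP ?_
  rintro (e | ⟨e, i, v⟩ | q | ⟨q, j, v⟩) ha haD (e' | ⟨e', i', v'⟩ | q' | ⟨q', j', v'⟩) hb hab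
  · exact absurd haD (hroot _)
  · exact absurd haD (hroot _)
  · exact absurd haD (hroot _)
  · exact absurd haD (hroot _)
  · exact absurd hb (hroot _)
  · rcases ha with h | h
    · simp [ap] at h
    · simp only [mem_iUnion, exists_prop] at h
      obtain ⟨j', hj', v, _, h⟩ := h
      simp [cp] at h
  · exact hab.elim
  · exact hab.elim
  · exact absurd hb (hroot _)
  · exact hab.elim
  · exact hab.elim
  · obtain ⟨h1, h2, h3, h4⟩ := hab
    simp only at h1 h2 h3 h4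
    subst h1
    obtain rfl := ap_mem_pc_iff.1 ha
    exact cp_mem_pc.2 ⟨rfl, h3, h4⟩
  · exact absurd hb (hroot _)
  · exact hab.elim
  · obtain ⟨h1, h2, h3, h4⟩ := hab
    simp only at h1 h2 h3 h4
    subst h1
    obtain ⟨rfl, _, _⟩ := cp_mem_pc.1 ha
    exact ap_mem_pc _
  · obtain ⟨h1, h2, h3, h4, h5, h6, h7⟩ := hab
    simp only at h1 h2 h3 h4 h5 h6 h7
    subst h1 h2
    obtain ⟨rfl, _, _⟩ := cp_mem_pc.1 ha
    exact cp_mem_pc.2 ⟨rfl, h4, h6⟩

/-- A vertex without neighbours. -/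
theorem sub_single {D : Set (FV k Q)} (hD : Conn (fG y A N) D) {z : FV k Q} (hz : z ∈ D)
    (hzz : ∀ w, ¬ (fG y A N).Adj z w) : D ⊆ {z} := by
  intro w hw
  refine (hD _ hz w hw).closed rfl ?_
  rintro _ rfl _ b _ hab
  exact absurd hab (hzz b)

/-- Where a connected set without roots can be. -/
theorem loc {D : Set (FV k Q)} (hD : Conn (fG y A N) D) (hroot : ∀ e, rt e ∉ D) {z : FV k Q}
    (hz : z ∈ D) : (∃ e i, D ⊆ blkA y e i) ∨ (∃ q ∈ A, D ⊆ pc y N q) ∨
      (D ⊆ {z} ∧ ∀ w, ¬ (fG y A N).Adj z w) := by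
  classical
  rcases z with e | ⟨e, i, v⟩ | q | ⟨q, j, v⟩
  · exact absurd hz (hroot e)
  · by_cases hv : v ∈ (y i).X
    · exact Or.inl ⟨e, i, sub_blkA hD (hroot e) hz hv⟩
    · have h : ∀ w, ¬ (fG y A N).Adj (av e i v) w := by
        rintro (e' | ⟨e', i', v'⟩ | q' | ⟨q', j', v'⟩) h
        · exact hv h.2
        · exact hv h.2.2.1
        · exact h
        · exact h
      exact Or.inr (Or.inr ⟨sub_single hD hz h, h⟩)
  · by_cases hq : q ∈ A
    · exact Or.inr (Or.inl ⟨q, hq, sub_pc hD hroot hz (ap_mem_pc q)⟩)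
    · have h : ∀ w, ¬ (fG y A N).Adj (ap q) w := by
        rintro (e' | ⟨e', i', v'⟩ | q' | ⟨q', j', v'⟩) h
        · exact hq h.1
        · exact h
        · exact h
        · obtain ⟨h1, h2, _⟩ := h
          simp only at h1 h2
          subst h1
          exact hq h2
      exact Or.inr (Or.inr ⟨sub_single hD hz h, h⟩)
  · by_cases hq : q ∈ A ∧ j ∈ N q ∧ v ∈ (y j).X
    · exact Or.inr (Or.inl ⟨q, hq.1, sub_pc hD hroot hz (cp_mem_pc.2 ⟨rfl, hq.2.1, hq.2.2⟩)⟩)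
    · have h : ∀ w, ¬ (fG y A N).Adj (cp q j v) w := by
        rintro (e' | ⟨e', i', v'⟩ | q' | ⟨q', j', v'⟩) h
        · obtain ⟨h1, h2, c, _, h3⟩ := h
          simp only at h1 h2 h3
          subst h3
          exact hq ⟨h1, h2, (y j).mem c⟩
        · exact h
        · exact hq ⟨h.2.1, h.2.2.1, h.2.2.2⟩
        · exact hq ⟨h.2.2.1, h.2.2.2.1, h.2.2.2.2.1⟩
      exact Or.inr (Or.inr ⟨sub_single hD hz h, h⟩)

/-- The components outside the roots have small rank. -/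
theorem f_comp_rank {β : Ordinal.{0}} (hβ : 0 < β) (hlt : ∀ i, ∃ δ < β, (y i).RankLE δ)
    (hN : ∀ q ∈ A, (N q).Finite) (z : FV k Q) (hz : z ∈ Set.univ \ rts k Q) :
    ∃ δ < β, RankLE (fG y A N) δ (comp (fG y A N) (Set.univ \ rts k Q) z) := by
  rcases loc (y := y) (A := A) (N := N) (comp_conn (X := Set.univ \ rts k Q) (v := z))
    (fun e h => (comp_subset h).2 ⟨e, rfl⟩) (mem_comp_self hz) with
    ⟨e, i, h⟩ | ⟨q, hq, h⟩ | ⟨h, _⟩
  · obtain ⟨δ, hδ, h1⟩ := hlt i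
    exact ⟨δ, hδ, (blkA_rank.2 h1).mono_set h⟩
  · obtain ⟨δ, hδ, h1⟩ := pc_rank (A := A) hβ hlt (hN q hq)
    exact ⟨δ, hδ, h1.mono_set h⟩
  · exact ⟨0, hβ, RankLE.of_finite ((finite_singleton z).subset h)⟩

/-- The rank of the family graph. -/
theorem fG_rank {β : Ordinal.{0}} (hβ : 0 < β) (hlt : ∀ i, ∃ δ < β, (y i).RankLE δ)
    (hN : ∀ q ∈ A, (N q).Finite) : RankLE (fG y A N) β Set.univ := by
  rw [rankLE_iff]
  exact Or.inr ⟨rts k Q, rts_finite, f_comp_rank hβ hlt hN⟩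

end defs

end Run7.h891
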