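import Pool.Agent.Run7.h891.Family

/-! Minors between sharp family graphs are given by matchings. -/

set_option autoImplicit false

open Set Ordinal

namespace Run7.h891

universe u v w

variable {k : ℕ} {Q S : Type} {y : ℕ → Code (Fin k)} {A : Set Q} {N : Q → Set ℕ} {A' : Set S}
  {M : S → Set ℕ}

/-- The gate of a piece. -/
theorem gate1 {D : Set (FV k S)} (hD : Conn (fG y A' M) D) (hr : ∀ e, rt e ∈ D → grp e = k)
    {s : S} {z w : FV k S} (hz : z ∈ D) (hzs : z ∈ pc y M s) (hw : w ∈ D) (hws : w ∉ pc y M s) :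
    ap s ∈ D := by
  by_contra hcon
  have hz' : z ∈ pc y M s \ {ap s} := ⟨hzs, fun h => hcon (by rw [← h]; exact hz)⟩
  obtain ⟨a, haD, ha, b, hbD, hb, hab⟩ := conn_exit hD hz hz' hw (fun h => hws h.1)
  rcases a with e | ⟨e, i, v⟩ | q | ⟨q, j, v⟩
  · rcases ha.1 with h | h
    · simp [ap] at h
    · simp only [mem_iUnion, exists_prop] at h
      obtain ⟨j', hj', v, _, h⟩ := h
      simp [cp] at h
  · rcases ha.1 with h | h
    · simp [ap] at h
    · simp only [mem_iUnion, exists_prop] at h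
      obtain ⟨j', hj', v, _, h⟩ := h
      simp [cp] at h
  · obtain rfl := ap_mem_pc_iff.1 ha.1
    exact ha.2 rfl
  · obtain ⟨rfl, hj, hv⟩ := cp_mem_pc.1 ha.1
    rcases b with e | ⟨e, i, v⟩ | q' | ⟨q', j', v'⟩
    · obtain ⟨_, _, c, hc, _⟩ := hab
      have h1 := hr e hbD
      have h2 := c.2
      omega
    · exact hab
    · obtain ⟨h1, _⟩ := hab
      simp only at h1
      subst h1
      exact hcon hbD
    · obtain ⟨h1, h2, h3, h4, h5, h6, h7⟩ := hab
      simp only at h1 h2 h3 h4 h5 h6 h7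
      subst h1 h2
      refine hb ⟨cp_mem_pc.2 ⟨rfl, hj, h6⟩, ?_⟩
      simp [cp, ap]

/-- The gate of a copy. -/
theorem gate2 {D : Set (FV k S)} (hD : Conn (fG y A' M) D) {c : Fin k}
    (hr : ∀ e, rt e ∈ D → grp e = c) {s : S} (hs : ap s ∉ D) {j : ℕ}
    {z w : FV k S} (hz : z ∈ D) (hzs : z ∈ blkC y s j) (hw : w ∈ D) (hws : w ∉ blkC y s j) :
    cp s j ((y j).r c) ∈ D := by
  obtain ⟨a, haD, ha, b, hbD, hb, hab⟩ := conn_exit hD hz hzs hw hws
  obtain ⟨v, hv, rfl⟩ := ha
  rcases b with e | ⟨e, i, v⟩ | q' | ⟨q', j', v'⟩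
  · obtain ⟨_, _, c', hc', h⟩ := hab
    simp only at h
    have h1 := hr e hbD
    have h2 : c' = c := Fin.ext (by omega)
    subst h2
    rw [← h]
    exact haD
  · exact hab.elim
  · obtain ⟨h1, _⟩ := hab
    simp only at h1
    subst h1
    exact absurd hbD hs
  · obtain ⟨h1, h2, h3, h4, h5, h6, h7⟩ := hab
    simp only at h1 h2 h3 h4 h5 h6 h7
    subst h1 h2
    exact absurd (cp_mem_blkC.2 ⟨rfl, rfl, h6⟩) hb

/-- A connected set without roots and apices is inside a copy. -/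
theorem sub_blkC {D : Set (FV k S)} (hD : Conn (fG y A' M) D) (hroot : ∀ e, rt e ∉ D) {s : S}
    (hs : ap s ∉ D) {j v : ℕ} (hv : cp s j v ∈ D) (hvX : v ∈ (y j).X) : D ⊆ blkC y s j := by
  intro w hw
  by_contra hcon
  obtain ⟨a, haD, ha, b, hbD, hb, hab⟩ := conn_exit hD hv (cp_mem_blkC.2 ⟨rfl, rfl, hvX⟩) hw hcon
  obtain ⟨v, hv, rfl⟩ := ha
  rcases b with e | ⟨e, i, v⟩ | q' | ⟨q', j', v'⟩
  · exact hroot e hbD
  · exact hab
  · obtain ⟨h1, _⟩ := hab
    simp only at h1
    subst h1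
    exact hs hbD
  · obtain ⟨h1, h2, h3, h4, h5, h6, h7⟩ := hab
    simp only at h1 h2 h3 h4 h5 h6 h7
    subst h1 h2
    exact hb (cp_mem_blkC.2 ⟨rfl, rfl, h6⟩)

theorem rt_not_mem_pc {s : S} {e : Fin (3 ^ (k + 1))} : (rt e : FV k S) ∉ pc y M s := by
  rintro (h | h)
  · simp [ap] at h
  · simp only [mem_iUnion, exists_prop] at h
    obtain ⟨j', hj', v, _, h⟩ := h
    simp [cp] at h

theorem rt_not_mem_blkC {s : S} {j : ℕ} {e : Fin (3 ^ (k + 1))} :
    (rt e : FV k S) ∉ blkC y s j := by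
  rintro ⟨v, _, h⟩
  simp [cp] at h

/-- The forward direction: a model gives a matching, realised at the apices. -/
theorem f_model {β : Ordinal.{0}} (hβ : 0 < β) (hlt : ∀ i, ∃ δ < β, (y i).RankLE δ)
    (hcof : ∀ δ < β, {i | ∀ γ < δ, ¬ (y i).RankLE γ}.Infinite)
    (hc : ∀ i, Conn (y i).G (y i).X) (hne : ∀ i, (y i).X.Nonempty)
    (hanti : ∀ i j, RLE (y i) (y j) → i = j) (hM : ∀ s ∈ A', (M s).Finite)
    (hN : ∀ q ∈ A, (N q).Nonempty) {B : FV k Q → Set (FV k S)}
    (hB : IsModel (fG y A N) Set.univ (fG y A' M) Set.univ B) :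
    ∀ q ∈ A, ∃ s ∈ A', N q ⊆ M s ∧ ap s ∈ B (ap q) := by
  classical
  -- the permutation of the roots
  have hroot : ∀ e, ∃ e', (rt e' : FV k S) ∈ B (rt e) := by
    intro e
    obtain ⟨z, hz, ⟨e', rfl⟩⟩ := hub2 (rts_finite (k := k) (Q := S)) (f_comp_rank hβ hlt hM) hB
      (mem_univ (rt e)) (I := Set.univ) (P := fun i => (blkA y e i : Set (FV k Q)))
      (by
        intro δ hδ
        refine (hcof δ hδ).mono ?_
        intro i hi
        exact ⟨mem_univ i, fun γ hγ h => hi γ hγ (blkA_rank.1 h)⟩)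
      (fun _ _ => subset_univ _)
      (by
        intro i _ j _ hij
        rw [Set.disjoint_left]
        rintro _ ⟨a, _, rfl⟩ hb
        exact hij (av_mem_blkA.1 hb).2.1)
      (fun i _ => blkA_conn (hc i))
      (by
        intro i _
        obtain ⟨v, hv⟩ := hne i
        exact ⟨av e i v, ⟨v, hv, rfl⟩, rfl, hv⟩)
    exact ⟨e', hz⟩
  choose π hπ using hroot
  have hinj : Function.Injective π := by
    intro e e' h
    have h1 := hπ e
    rw [h] at h1
    have h2 := hB.eq_of_mem (mem_univ _) (mem_univ _) h1 (hπ e')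
    exact Sum.inl_injective h2
  have hbij : Function.Bijective π := Finite.injective_iff_bijective.1 hinj
  have hnr : ∀ w, (∀ e, w ≠ rt e) → ∀ e', rt e' ∉ B w := by
    intro w hw e' hmem
    obtain ⟨e, rfl⟩ := hbij.2 e'
    exact hw e (hB.eq_of_mem (mem_univ _) (mem_univ _) hmem (hπ e))
  have hru : ∀ e e', rt e' ∈ B (rt e) → e' = π e := by
    intro e e' hmem
    obtain ⟨e0, rfl⟩ := hbij.2 e'
    have := hB.eq_of_mem (mem_univ _) (mem_univ _) hmem (hπ e0)
    rw [Sum.inl_injective this]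
  -- all piece vertices avoid the roots
  have hpr : ∀ q, ∀ w ∈ pc y N q, ∀ e', rt e' ∉ B w := by
    intro q w hw
    refine hnr w ?_
    rintro e rfl
    exact rt_not_mem_pc hw
  -- location of the pieces
  have hloc : ∀ q ∈ A, ∃ s ∈ A', (⋃ w ∈ pc y N q, B w) ⊆ pc y M s := by
    intro q hq
    have hconn := hB.conn_union (T := pc y N q) (subset_univ _) (pc_conn hq)
    obtain ⟨z, hz⟩ := hB.ne (ap q) (mem_univ _)
    have hzD : z ∈ ⋃ w ∈ pc y N q, B w := mem_biUnion (ap_mem_pc q) hz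
    have hadj : ∀ e, grp e = k → ∃ x ∈ B (ap q), ∃ y' ∈ B (rt e), (fG y A' M).Adj x y' :=
      fun e he => hB.adj _ (mem_univ _) _ (mem_univ _) ⟨hq, he⟩
    rcases loc hconn (by
      intro e h
      simp only [mem_iUnion, exists_prop] at h
      obtain ⟨w, hw, h⟩ := h
      exact hpr q w hw e h) hzD with ⟨e, i, h⟩ | ⟨s, hs, h⟩ | ⟨h, hiso⟩
    · exfalso
      obtain ⟨e1, e2, hne12, he1, he2⟩ := exists_grp (k := k) le_rfl
      have claim : ∀ e', grp e' = k → e = π e' := by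
        intro e' he'
        obtain ⟨x, hx, y', hy', hxy⟩ := hadj e' he'
        obtain ⟨v, hv, rfl⟩ := h (mem_biUnion (ap_mem_pc q) hx)
        refine hru e' e ?_
        rcases y' with e'' | ⟨e'', i'', v''⟩ | q'' | ⟨q'', j'', v''⟩
        · obtain ⟨h1, _⟩ := hxy
          simp only at h1
          rw [← h1]
          exact hy'
        · obtain ⟨h1, h2, h3, h4, h5⟩ := hxy
          simp only at h1 h2 h3 h4 h5
          subst h1 h2
          by_contra hcon
          have h6 := sub_blkA (hB.conn _ (mem_univ (rt e'))) hcon hy' h4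
          obtain ⟨v', _, h7⟩ := h6 (hπ e')
          simp [av] at h7
        · exact hxy.elim
        · exact hxy.elim
      exact hne12 (hinj ((claim e1 he1).symm.trans (claim e2 he2)))
    · exact ⟨s, hs, h⟩
    · exfalso
      obtain ⟨e1, e2, hne12, he1, he2⟩ := exists_grp (k := k) le_rfl
      obtain ⟨x, hx, y', hy', hxy⟩ := hadj e1 he1
      have h1 := h (mem_biUnion (ap_mem_pc q) hx)
      rw [mem_singleton_iff] at h1
      rw [h1] at hxy
      exact hiso _ hxy
  have hloc' : ∀ q : Q, ∃ s : Option S, q ∈ A → ∃ s' ∈ A', s = some s' ∧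
      (⋃ w ∈ pc y N q, B w) ⊆ pc y M s' := by
    intro q
    by_cases hq : q ∈ A
    · obtain ⟨s, hs, h⟩ := hloc q hq
      exact ⟨some s, fun _ => ⟨s, hs, rfl, h⟩⟩
    · exact ⟨none, fun h => absurd h hq⟩
  -- a generic step: an edge from a piece vertex to a root
  have hedge : ∀ q ∈ A, ∀ s, (⋃ w ∈ pc y N q, B w) ⊆ pc y M s → ∀ w ∈ pc y N q,
      ∀ e, (fG y A N).Adj w (rt e) → (∃ x ∈ B w, x ∈ pc y M s ∧
        (fG y A' M).Adj x (rt (π e))) ∨ ∃ x ∈ B w, ∃ y' ∈ B (rt e), y' ∈ pc y M s ∧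
          (fG y A' M).Adj x y' := by
    intro q hq s hs w hw e hwe
    obtain ⟨x, hx, y', hy', hxy⟩ := hB.adj _ (mem_univ _) _ (mem_univ _) hwe
    have hxs := hs (mem_biUnion hw hx)
    rcases y' with e'' | ⟨e'', i'', v''⟩ | q'' | ⟨q'', j'', v''⟩
    · left
      have := hru e e'' hy'
      subst this
      exact ⟨x, hx, hxs, hxy⟩
    · exfalso
      rcases x with e1 | ⟨e1, i1, v1⟩ | q1 | ⟨q1, j1, v1⟩
      · exact rt_not_mem_pc hxs
      · rcases hxs with h | h
        · simp [ap] at h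
        · simp only [mem_iUnion, exists_prop] at h
          obtain ⟨j', hj', v, _, h⟩ := h
          simp [cp] at h
      · exact hxy
      · exact hxy
    · right
      refine ⟨x, hx, _, hy', ?_, hxy⟩
      rcases x with e1 | ⟨e1, i1, v1⟩ | q1 | ⟨q1, j1, v1⟩
      · exact absurd hxs rt_not_mem_pc
      · exact hxy.elim
      · exact hxy.elim
      · obtain ⟨h1, _⟩ := hxy
        simp only at h1
        subst h1
        obtain ⟨rfl, _, _⟩ := cp_mem_pc.1 hxs
        exact ap_mem_pc _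
    · right
      refine ⟨x, hx, _, hy', ?_, hxy⟩
      rcases x with e1 | ⟨e1, i1, v1⟩ | q1 | ⟨q1, j1, v1⟩
      · exact absurd hxs rt_not_mem_pc
      · exact hxy.elim
      · obtain ⟨h1, h2, h3, h4⟩ := hxy
        simp only at h1 h2 h3 h4
        subst h1
        obtain rfl := ap_mem_pc_iff.1 hxs
        exact cp_mem_pc.2 ⟨rfl, h3, h4⟩
      · obtain ⟨h1, h2, h3, h4, h5, h6, h7⟩ := hxy
        simp only at h1 h2 h3 h4 h5 h6 h7
        subst h1 h2
        obtain ⟨rfl, _, _⟩ := cp_mem_pc.1 hxs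
        exact cp_mem_pc.2 ⟨rfl, h4, h6⟩
  -- the apices
  have hap : ∀ q ∈ A, ∀ s, (⋃ w ∈ pc y N q, B w) ⊆ pc y M s → ap s ∈ B (ap q) := by
    intro q hq s hs
    obtain ⟨e1, e2, hne12, he1, he2, hpe1, hpe2⟩ := two_in_group (le_refl k) hinj
      (fun e _ => grp_le (π e))
    have claim : ∀ e, grp e = k → grp (π e) = k → ap s ∈ B (ap q) ∨ ap s ∈ B (rt e) := by
      intro e he hpe
      rcases hedge q hq s hs (ap q) (ap_mem_pc q) e ⟨hq, he⟩ with ⟨x, hx, hxs, hxy⟩ |
        ⟨x, hx, y', hy', hys, hxy⟩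
      · left
        rcases x with e1 | ⟨e1, i1, v1⟩ | q1 | ⟨q1, j1, v1⟩
        · exact absurd hxs rt_not_mem_pc
        · obtain ⟨h1, h2⟩ := hxy
          rcases hxs with h | h
          · simp [ap] at h
          · simp only [mem_iUnion, exists_prop] at h
            obtain ⟨j', hj', v, _, h⟩ := h
            simp [cp] at h
        · obtain rfl := ap_mem_pc_iff.1 hxs
          exact hx
        · obtain ⟨_, _, c, hc, _⟩ := hxy
          have := c.2
          omega
      · right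
        refine gate1 (hB.conn _ (mem_univ (rt e))) ?_ hy' hys (hπ e) rt_not_mem_pc
        intro e' he'
        rw [hru e e' he', hpe]
    rcases claim e1 he1 hpe1 with h | h1
    · exact h
    · rcases claim e2 he2 hpe2 with h | h2
      · exact h
      · have := hB.eq_of_mem (mem_univ _) (mem_univ _) h1 h2
        exact absurd (Sum.inl_injective this) hne12
  -- the copies
  have hcpl : ∀ q ∈ A, ∀ s, (⋃ w ∈ pc y N q, B w) ⊆ pc y M s → ∀ j ∈ N q, ∃ j' ∈ M s,
      (⋃ w ∈ blkC y q j, B w) ⊆ blkC y s j' := by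
    intro q hq s hs j hj
    have hconn := hB.conn_union (T := blkC y q j) (subset_univ _) (blkC_conn hq hj (hc j))
    have hsub : (⋃ w ∈ blkC y q j, B w) ⊆ pc y M s :=
      (biUnion_mono (blkC_subset_pc hj) (fun _ _ => subset_rfl)).trans hs
    have hrt : ∀ e, rt e ∉ ⋃ w ∈ blkC y q j, B w := fun e h => rt_not_mem_pc (hsub h)
    have hnap : ap s ∉ ⋃ w ∈ blkC y q j, B w := by
      intro h
      simp only [mem_iUnion, exists_prop] at h
      obtain ⟨w, hw, h⟩ := h
      have := hB.eq_of_mem (mem_univ _) (mem_univ _) h (hap q hq s hs)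
      obtain ⟨v, _, rfl⟩ := hw
      simp [cp] at this
    obtain ⟨v, hv⟩ := hne j
    obtain ⟨z, hz⟩ := hB.ne (cp q j v) (mem_univ _)
    have hzD : z ∈ ⋃ w ∈ blkC y q j, B w := mem_biUnion (cp_mem_blkC.2 ⟨rfl, rfl, hv⟩) hz
    have hzs := hsub hzD
    rcases z with e1 | ⟨e1, i1, v1⟩ | q1 | ⟨q1, j1, v1⟩
    · exact absurd hzs rt_not_mem_pc
    · rcases hzs with h | h
      · simp [ap] at h
      · simp only [mem_iUnion, exists_prop] at h
        obtain ⟨j', hj', v, _, h⟩ := h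
        simp [cp] at h
    · obtain rfl := ap_mem_pc_iff.1 hzs
      exact absurd hzD hnap
    · obtain ⟨rfl, hj1, hv1⟩ := cp_mem_pc.1 hzs
      exact ⟨j1, hj1, sub_blkC hconn hrt hnap hzD hv1⟩
  -- an edge from a copy vertex to a root
  have hedge2 : ∀ q ∈ A, ∀ s, (⋃ w ∈ pc y N q, B w) ⊆ pc y M s → ∀ j ∈ N q, ∀ j',
      (⋃ w ∈ blkC y q j, B w) ⊆ blkC y s j' → ∀ c : Fin k, ∀ e, grp e = c →
      (∃ v, cp s j' v ∈ B (cp q j ((y j).r c)) ∧ (fG y A' M).Adj (cp s j' v) (rt (π e))) ∨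
      ∃ y' ∈ B (rt e), y' ∈ blkC y s j' := by
    intro q hq s hs j hj j' hj' c e he
    have hw : (cp q j ((y j).r c) : FV k Q) ∈ blkC y q j :=
      cp_mem_blkC.2 ⟨rfl, rfl, (y j).mem c⟩
    rcases hedge q hq s hs _ (blkC_subset_pc hj hw) e ⟨hq, hj, c, he, rfl⟩ with
      ⟨x, hx, hxs, hxy⟩ | ⟨x, hx, y', hy', hys, hxy⟩
    · left
      obtain ⟨v, hv, rfl⟩ := hj' (mem_biUnion hw hx)
      exact ⟨v, hx, hxy⟩
    · right
      refine ⟨y', hy', ?_⟩
      obtain ⟨v, hv, rfl⟩ := hj' (mem_biUnion hw hx)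
      rcases y' with e1 | ⟨e1, i1, v1⟩ | q1 | ⟨q1, j1, v1⟩
      · exact absurd hys rt_not_mem_pc
      · exact hxy.elim
      · obtain rfl := ap_mem_pc_iff.1 hys
        have := hB.eq_of_mem (mem_univ _) (mem_univ _) hy' (hap q hq _ hs)
        simp at this
      · obtain ⟨h1, h2, h3, h4, h5, h6, h7⟩ := hxy
        simp only at h1 h2 h3 h4 h5 h6 h7
        subst h1 h2
        exact cp_mem_blkC.2 ⟨rfl, rfl, h6⟩
  -- the groups
  have hOK : ∀ c, c ≤ k → ∀ hck : c < k, ∀ q ∈ A, ∀ s,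
      (⋃ w ∈ pc y N q, B w) ⊆ pc y M s → ∀ j ∈ N q, ∀ j',
      (⋃ w ∈ blkC y q j, B w) ⊆ blkC y s j' →
      cp s j' ((y j').r ⟨c, hck⟩) ∈ B (cp q j ((y j).r ⟨c, hck⟩)) := by
    by_cases hA : A.Nonempty
    swap
    · intro c _ hck q hq
      exact absurd ⟨q, hq⟩ hA
    obtain ⟨q0, hq0⟩ := hA
    obtain ⟨j0, hj0⟩ := hN q0 hq0
    obtain ⟨s0, hs0A, hs0⟩ := hloc q0 hq0
    obtain ⟨j0', hj0', hj0s⟩ := hcpl q0 hq0 s0 hs0 j0 hj0
    refine groups_ok hinj (OK := fun c => ∀ hck : c < k, ∀ q ∈ A, ∀ s,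
      (⋃ w ∈ pc y N q, B w) ⊆ pc y M s → ∀ j ∈ N q, ∀ j',
      (⋃ w ∈ blkC y q j, B w) ⊆ blkC y s j' →
      cp s j' ((y j').r ⟨c, hck⟩) ∈ B (cp q j ((y j).r ⟨c, hck⟩))) ?_ ?_
    · intro c _ e1 e2 hne12 he1 he2 hpe1 hpe2 hck q hq s hs j hj j' hj'
      have hsap := hap q hq s hs
      have claim : ∀ e, grp e = c → grp (π e) = c →
          cp s j' ((y j').r ⟨c, hck⟩) ∈ B (cp q j ((y j).r ⟨c, hck⟩)) ∨
          cp s j' ((y j').r ⟨c, hck⟩) ∈ B (rt e) := by
        intro e he hpe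
        rcases hedge2 q hq s hs j hj j' hj' ⟨c, hck⟩ e he with ⟨v, hv, hadj⟩ | ⟨y', hy', hys⟩
        · left
          obtain ⟨_, _, c', hc', h⟩ := hadj
          simp only at h
          have h2 : c' = ⟨c, hck⟩ := Fin.ext (by rw [← hc', hpe])
          subst h2
          rw [← h]
          exact hv
        · right
          refine gate2 (hB.conn _ (mem_univ (rt e))) (c := ⟨c, hck⟩) ?_ ?_ hy' hys (hπ e)
            rt_not_mem_blkC
          · intro e' he'
            rw [hru e e' he', hpe]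
          · intro h
            have := hB.eq_of_mem (mem_univ _) (mem_univ _) h hsap
            simp at this
      rcases claim e1 he1 hpe1 with h | h1
      · exact h
      · rcases claim e2 he2 hpe2 with h | h2
        · exact h
        · have := hB.eq_of_mem (mem_univ _) (mem_univ _) h1 h2
          exact absurd (Sum.inl_injective this) hne12
    · intro c hck hOKc e hec hpe
      have hek : grp e < k := lt_of_lt_of_le hec hck
      have hsap := hap q0 hq0 s0 hs0
      rcases hedge2 q0 hq0 s0 hs0 j0 hj0 j0' hj0s ⟨grp e, hek⟩ e rfl with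
        ⟨v, hv, hadj⟩ | ⟨y', hy', hys⟩
      · obtain ⟨_, _, c', hc', h⟩ := hadj
        simp only at h
        have hcc : c < k := by
          have := c'.2
          omega
        have h2 : c' = ⟨c, hcc⟩ := Fin.ext (by rw [← hc', hpe])
        subst h2
        have h3 := hOKc hcc q0 hq0 s0 hs0 j0 hj0 j0' hj0s
        rw [← h] at h3
        have h4 := hB.eq_of_mem (mem_univ _) (mem_univ _) h3 hv
        simp only [cp, Sum.inr.injEq, Prod.mk.injEq, true_and] at h4
        have h5 := (y j0).inj h4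
        have h6 := congrArg Fin.val h5
        simp only at h6
        omega
      · rcases lt_or_eq_of_le hck with hcc | hcc
        · have h3 := hOKc hcc q0 hq0 s0 hs0 j0 hj0 j0' hj0s
          have h7 : cp s0 j0' ((y j0').r ⟨c, hcc⟩) ∈ B (rt e) := by
            refine gate2 (hB.conn _ (mem_univ (rt e))) (c := ⟨c, hcc⟩) ?_ ?_ hy' hys (hπ e)
              rt_not_mem_blkC
            · intro e' he'
              rw [hru e e' he', hpe]
            · intro h
              have := hB.eq_of_mem (mem_univ _) (mem_univ _) h hsap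
              simp at this
          have h4 := hB.eq_of_mem (mem_univ _) (mem_univ _) h3 h7
          simp at h4
        · have h7 : ap s0 ∈ B (rt e) := by
            refine gate1 (hB.conn _ (mem_univ (rt e))) ?_ hy' (blkC_subset_pc hj0' hys) (hπ e)
              rt_not_mem_pc
            intro e' he'
            rw [hru e e' he', hpe, hcc]
          have h4 := hB.eq_of_mem (mem_univ _) (mem_univ _) h7 hsap
          simp at h4
  -- conclusion
  intro q hq
  obtain ⟨s, hsA, hs⟩ := hloc q hq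
  refine ⟨s, hsA, ?_, hap q hq s hs⟩
  intro j hj
  obtain ⟨j', hj', hjs⟩ := hcpl q hq s hs j hj
  have hrle : RLE (y j) (y j') := by
    have h1 : IsModel (y j).G (y j).X (fG y A' M) Set.univ (fun v => B (cp q j v)) :=
      IsModel.precomp (T := (y j).G) (K := fG y A N) (e := fun v => (cp q j v : FV k Q))
        (Z := (y j).X) (fun a _ b _ h => by simpa [cp] using h)
        (fun _ hx _ hy h => ⟨rfl, rfl, hq, hj, hx, hy, h⟩) (hB.restrict (subset_univ _))
    have h2 : IsModel (y j).G (y j).X (fG y A' M) ((fun v => (cp s j' v : FV k S)) '' (y j').X)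
        (fun v => B (cp q j v)) :=
      h1.shrink fun v hv => (subset_biUnion_of_mem (u := fun w => B w)
        (cp_mem_blkC.2 ⟨rfl, rfl, hv⟩ : (cp q j v : FV k Q) ∈ blkC y q j)).trans hjs
    have h3 := IsModel.pull' (T := (y j').G) (K := fG y A' M)
      (e := fun v => (cp s j' v : FV k S)) (Z := (y j').X)
      (fun a _ b _ h => by simpa [cp] using h) (fun _ _ _ _ h => h.2.2.2.2.2.2) h2
    refine ⟨_, h3, fun c => ⟨(y j').mem c, ?_⟩⟩
    exact hOK c.1 (le_of_lt c.2) c.2 q hq s hs j hj j' hjs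
  rw [hanti j j' hrle]
  exact hj'

/-- Minors between sharp family graphs are given by matchings. -/
theorem f_minor_iff {β : Ordinal.{0}} (hβ : 0 < β) (hlt : ∀ i, ∃ δ < β, (y i).RankLE δ)
    (hcof : ∀ δ < β, {i | ∀ γ < δ, ¬ (y i).RankLE γ}.Infinite)
    (hc : ∀ i, Conn (y i).G (y i).X) (hne : ∀ i, (y i).X.Nonempty)
    (hanti : ∀ i j, RLE (y i) (y j) → i = j) (hM : ∀ s ∈ A', (M s).Finite)
    (hN : ∀ q ∈ A, (N q).Nonempty) [Nonempty S] :
    Minor (fG y A N) Set.univ
      (fG y (Sum.inl '' A' : Set (S ⊕ Q)) (Sum.elim M fun _ => ∅)) Set.univ ↔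
    ∃ σ : Q → S, InjOn σ A ∧ ∀ q ∈ A, σ q ∈ A' ∧ N q ⊆ M (σ q) := by
  classical
  constructor
  · rintro ⟨B, hB⟩
    have h := f_model hβ hlt hcof hc hne hanti (by
      rintro _ ⟨s, hs, rfl⟩
      exact hM s hs) hN hB
    have key : ∀ q : Q, ∃ s : S, q ∈ A → s ∈ A' ∧ N q ⊆ M s ∧ ap (Sum.inl s) ∈ B (ap q) := by
      intro q
      by_cases hq : q ∈ A
      swap
      · exact ⟨Classical.arbitrary S, fun h => absurd h hq⟩
      obtain ⟨_, ⟨s, hs, rfl⟩, h1, h2⟩ := h q hq
      exact ⟨s, fun _ => ⟨hs, h1, h2⟩⟩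
    choose σ hσ using key
    refine ⟨σ, ?_, fun q hq => ⟨(hσ q hq).1, (hσ q hq).2.1⟩⟩
    intro q hq q' hq' hqq
    have h1 := (hσ q hq).2.2
    have h2 := (hσ q' hq').2.2
    rw [← hqq] at h2
    have := hB.eq_of_mem (mem_univ _) (mem_univ _) h1 h2
    simpa [ap] using this
  · rintro ⟨σ, hinj, hσ⟩
    let g : Q → S ⊕ Q := fun q => if q ∈ A then .inl (σ q) else .inr q
    have hg1 : ∀ q ∈ A, g q = .inl (σ q) := fun q hq => if_pos hq
    have hg2 : ∀ q, q ∉ A → g q = .inr q := fun q hq => if_neg hq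
    have hginj : Function.Injective g := by
      intro q q' h
      by_cases hq : q ∈ A <;> by_cases hq' : q' ∈ A
      · rw [hg1 q hq, hg1 q' hq'] at h
        exact hinj hq hq' (Sum.inl_injective h)
      · rw [hg1 q hq, hg2 q' hq'] at h
        simp at h
      · rw [hg2 q hq, hg1 q' hq'] at h
        simp at h
      · rw [hg2 q hq, hg2 q' hq'] at h
        exact Sum.inr_injective h
    let f : FV k Q → FV k (S ⊕ Q) := Sum.map id (Sum.map id (Sum.map g (Prod.map g id)))
    have hfinj : Function.Injective f :=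
      Function.injective_id.sumMap (Function.injective_id.sumMap
        (hginj.sumMap (hginj.prodMap Function.injective_id)))
    have hmem : ∀ q ∈ A, g q ∈ (Sum.inl '' A' : Set (S ⊕ Q)) := by
      intro q hq
      rw [hg1 q hq]
      exact ⟨_, (hσ q hq).1, rfl⟩
    have hlab : ∀ q ∈ A, ∀ j ∈ N q, j ∈ (Sum.elim M fun _ => ∅ : S ⊕ Q → Set ℕ) (g q) := by
      intro q hq j hj
      rw [hg1 q hq]
      exact (hσ q hq).2 hj
    refine ⟨fun p => {f p}, fun _ _ => subset_univ _, fun _ _ => singleton_nonempty _,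
      fun _ _ => conn_singleton _ _, ?_, ?_⟩
    · intro a _ b _ hab
      simpa using fun h => hab (hfinj h)
    · intro a _ b _ hab
      refine ⟨_, rfl, _, rfl, ?_⟩
      rcases a with e | ⟨e, i, v⟩ | q | ⟨q, j, v⟩ <;>
        rcases b with e' | ⟨e', i', v'⟩ | q' | ⟨q', j', v'⟩
      · exact hab
      · exact hab
      · exact ⟨hmem _ hab.1, hab.2⟩
      · exact ⟨hmem _ hab.1, hlab _ hab.1 _ hab.2.1, hab.2.2⟩
      · exact hab
      · exact hab
      · exact hab
      · exact hab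
      · exact ⟨hmem _ hab.1, hab.2⟩
      · exact hab
      · exact hab
      · obtain ⟨h1, h2, h3, h4⟩ := hab
        exact ⟨congrArg g h1, hmem _ h2, hlab _ h2 _ h3, h4⟩
      · exact ⟨hmem _ hab.1, hlab _ hab.1 _ hab.2.1, hab.2.2⟩
      · exact hab
      · obtain ⟨h1, h2, h3, h4⟩ := hab
        exact ⟨congrArg g h1, hmem _ h2, hlab _ h2 _ h3, h4⟩
      · obtain ⟨h1, h2, h3, h4, h5, h6, h7⟩ := hab
        exact ⟨congrArg g h1, h2, hmem _ h3, hlab _ h3 _ h4, h5, h6, h7⟩

end Run7.h891
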