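import Pool.Agent.Run7.h891.FamilyMatch
import Pool.Agent.Run7.h891.Bridge

/-! Graphs of large rank contain a given rayless forest as a minor. -/

set_option autoImplicit false

open Set Ordinal

namespace Run7.h891

universe u v w

variable {V : Type u} {W : Type v}

/-- The components of large rank. -/
def bigComps (G : SimpleGraph V) (X S : Set V) (δ : Ordinal.{0}) : Set (Set V) :=
  {D | ∃ w ∈ X \ S, D = comp G (X \ S) w ∧ ∀ γ < δ, ¬ RankLE G γ D}

/-- A component of a component. -/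
theorem comp_comp {G : SimpleGraph V} {X S S' : Set V} {w z : V}
    (hz : z ∈ comp G (X \ S) w \ S') :
    comp G (X \ (S ∪ S')) z = comp G (comp G (X \ S) w \ S') z := by
  ext y
  constructor
  · intro hy
    refine Reach.closed hy (P := comp G (comp G (X \ S) w \ S') z) (mem_comp_self hz) ?_
    intro a ha _ b hb hab
    have ha' := comp_subset ha
    refine comp_closed ha ⟨?_, fun h => hb.2 (Or.inr h)⟩ hab
    exact comp_closed ha'.1 ⟨hb.1, fun h => hb.2 (Or.inl h)⟩ hab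
  · intro hy
    refine Reach.mono hy ?_
    rintro a ⟨ha1, ha2⟩
    have := comp_subset ha1
    exact ⟨this.1, fun h => h.elim this.2 ha2⟩

/-- A graph of rank larger than `δ` has, after the deletion of a suitable finite set, infinitely
many components of rank at least `δ`. -/
theorem exists_bigComps {G : SimpleGraph V} {δ : Ordinal.{0}} {ρ : Ordinal.{0}} :
    ∀ {X : Set V}, RankLE G ρ X → ¬ RankLE G δ X → ∃ S : Set V, S.Finite ∧
      (bigComps G X S δ).Infinite := by
  classical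
  induction ρ using WellFoundedLT.induction with
  | _ ρ ih =>
  intro X hρ hδ
  have hρ' := hρ
  rw [rankLE_iff] at hρ'
  rcases hρ' with hfin | ⟨S, hS, hcomp⟩
  · exact absurd (RankLE.of_finite hfin) hδ
  by_cases hinf : (bigComps G X S δ).Infinite
  · exact ⟨S, hS, hinf⟩
  rw [Set.not_infinite] at hinf
  by_cases hbig : ∃ D ∈ bigComps G X S δ, ¬ RankLE G δ D
  · obtain ⟨D, ⟨w, hw, rfl, _⟩, hD⟩ := hbig
    obtain ⟨σ, hσ, hrk⟩ := hcomp w hw
    obtain ⟨S', hS', hinf'⟩ := ih σ hσ hrk hD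
    refine ⟨S ∪ S', hS.union hS', hinf'.mono ?_⟩
    rintro D' ⟨z, hz, rfl, hz'⟩
    have h1 := comp_comp hz
    refine ⟨z, ?_, h1.symm, hz'⟩
    have := comp_subset hz.1
    exact ⟨this.1, fun h => h.elim this.2 hz.2⟩
  · exfalso
    push Not at hbig
    -- a finite set for every big component
    have hT : ∀ D : Set V, ∃ T : Set V, D ∈ bigComps G X S δ → T.Finite ∧
        ∀ z ∈ D \ T, ∃ β < δ, RankLE G β (comp G (D \ T) z) := by
      intro D
      by_cases hD : D ∈ bigComps G X S δ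
      · obtain ⟨T, hT1, hT2⟩ := (hbig D hD).exists_set
        exact ⟨T, fun _ => ⟨hT1, hT2⟩⟩
      · exact ⟨∅, fun h => absurd h hD⟩
    choose T hT using hT
    apply hδ
    have hfin : (S ∪ ⋃ D ∈ bigComps G X S δ, T D).Finite :=
      hS.union (hinf.biUnion fun D hD => (hT D hD).1)
    refine RankLE.of_comps hfin fun z hz => ?_
    have hz' : z ∈ X \ S := ⟨hz.1, fun h => hz.2 (Or.inl h)⟩
    by_cases hD : comp G (X \ S) z ∈ bigComps G X S δ
    · have hzT : z ∉ T (comp G (X \ S) z) := fun h =>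
        hz.2 (Or.inr (mem_biUnion hD h))
      obtain ⟨β, hβ, h1⟩ := (hT _ hD).2 z ⟨mem_comp_self hz', hzT⟩
      refine ⟨β, hβ, _, ?_, h1⟩
      rw [← comp_comp (S' := T (comp G (X \ S) z)) ⟨mem_comp_self hz', hzT⟩]
      refine comp_mono ?_
      rintro a ⟨ha1, ha2⟩
      exact ⟨ha1, fun h => h.elim (fun h => ha2 (Or.inl h)) (fun h => ha2 (Or.inr (mem_biUnion hD h)))⟩
    · have : ∃ γ < δ, RankLE G γ (comp G (X \ S) z) := by
        by_contra hcon
        push Not at hcon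
        exact hD ⟨z, hz', rfl, hcon⟩
      obtain ⟨γ, hγ, h1⟩ := this
      refine ⟨γ, hγ, _, comp_mono ?_, h1⟩
      rintro a ⟨ha1, ha2⟩
      exact ⟨ha1, fun h => ha2 (Or.inl h)⟩

theorem bigComps_disjoint {G : SimpleGraph V} {X S : Set V} {δ : Ordinal.{0}} {D D' : Set V}
    (hD : D ∈ bigComps G X S δ) (hD' : D' ∈ bigComps G X S δ) (hne : D ≠ D') :
    Disjoint D D' := by
  obtain ⟨w, _, rfl, _⟩ := hD
  obtain ⟨w', _, rfl, _⟩ := hD'
  rw [Set.disjoint_left]
  intro z hz hz'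
  exact hne ((comp_eq_of_mem hz).symm.trans (comp_eq_of_mem hz'))

/-- A finite connected set containing the two ends. -/
theorem exists_finite_conn {G : SimpleGraph V} {X : Set V} {x y : V} (h : Reach G X x y) :
    ∃ P : Set V, P.Finite ∧ P ⊆ X ∧ Conn G P ∧ x ∈ P ∧ y ∈ P := by
  refine h.induct (P := fun y => ∃ P : Set V, P.Finite ∧ P ⊆ X ∧ Conn G P ∧ x ∈ P ∧ y ∈ P)
    ⟨{x}, finite_singleton x, by simpa using h.left, conn_singleton G x, rfl, rfl⟩ ?_
  rintro a b ⟨P, h1, h2, h3, h4, h5⟩ _ hb hab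
  refine ⟨insert b P, h1.insert b, insert_subset hb h2, ?_, Or.inr h4, Or.inl rfl⟩
  have hr : ∀ z ∈ insert b P, Reach G (insert b P) a z := by
    rintro z (rfl | hz)
    · exact Reach.of_adj (Or.inr h5) (Or.inl rfl) hab
    · exact (h3 a h5 z hz).mono (subset_insert b P)
  intro z hz z' hz'
  exact (hr z hz).symm.trans (hr z' hz')

/-- A connected graph of rank larger than `δ`, seen from a given vertex. -/
theorem exists_fan {G : SimpleGraph V} {X : Set V} {v : V} (hc : Conn G X) (hv : v ∈ X)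
    {ρ δ : Ordinal.{0}} (hρ : RankLE G ρ X) (hδ : ¬ RankLE G δ X) :
    ∃ (P : Set V) (D : ℕ → Set V), v ∈ P ∧ P ⊆ X ∧ Conn G P ∧ (∀ i, Conn G (D i)) ∧
      (∀ i, D i ⊆ X \ P) ∧ (∀ i j, i ≠ j → Disjoint (D i) (D j)) ∧
      (∀ i, ∃ u ∈ D i, ∃ b ∈ P, G.Adj b u) ∧ ∀ i, ∀ γ < δ, ¬ RankLE G γ (D i) := by
  classical
  obtain ⟨S, hS, hinf⟩ := exists_bigComps hρ hδ
  -- every big component is adjacent to `S`
  have hadj : ∀ D ∈ bigComps G X S δ, ∃ s ∈ S ∩ X, ∃ u ∈ D, G.Adj s u := by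
    intro D hD
    obtain ⟨D', hD', hne⟩ := hinf.exists_notMem_finite (finite_singleton D)
    have hne' : D' ≠ D := fun h => hne h
    have hdis := bigComps_disjoint hD hD' hne'.symm
    obtain ⟨w, hw, rfl, _⟩ := hD
    obtain ⟨w', hw', rfl, _⟩ := hD'
    obtain ⟨a, haX, ha, b, hbX, hb, hab⟩ := conn_exit hc hw.1 (mem_comp_self hw) hw'.1
      (fun h => Set.disjoint_left.1 hdis h (mem_comp_self hw'))
    refine ⟨b, ⟨?_, hbX⟩, a, ha, hab.symm⟩
    by_contra hbS
    exact hb (comp_closed ha ⟨hbX, hbS⟩ hab)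
  -- one vertex of `S` adjacent to infinitely many
  obtain ⟨s, hs, hsinf⟩ : ∃ s ∈ S ∩ X, {D ∈ bigComps G X S δ | ∃ u ∈ D, G.Adj s u}.Infinite := by
    by_contra hcon
    push Not at hcon
    refine hinf ((((hS.inter_of_left X)).biUnion hcon).subset ?_)
    intro D hD
    obtain ⟨s, hs, h⟩ := hadj D hD
    exact mem_biUnion hs ⟨hD, h⟩
  obtain ⟨P, hP1, hP2, hP3, hP4, hP5⟩ := exists_finite_conn (hc v hv s hs.2)
  -- discard the components meeting `P`
  have hinf2 : ({D ∈ bigComps G X S δ | ∃ u ∈ D, G.Adj s u} \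
      {D ∈ bigComps G X S δ | (D ∩ P).Nonempty}).Infinite := by
    refine hsinf.sdiff ?_
    exact finite_hit (B := fun D : Set V => D) (fun a ha b hb hab => bigComps_disjoint ha hb hab)
      hP1
  obtain ⟨e⟩ : Nonempty (ℕ ↪ ({D ∈ bigComps G X S δ | ∃ u ∈ D, G.Adj s u} \
      {D ∈ bigComps G X S δ | (D ∩ P).Nonempty} : Set (Set V))) := by
    have := hinf2.to_subtype
    exact ⟨Infinite.natEmbedding _⟩
  have he : ∀ i, (e i).1 ∈ bigComps G X S δ := fun i => (e i).2.1.1
  refine ⟨P, fun i => (e i).1, hP4, hP2, hP3, ?_, ?_, ?_, ?_, ?_⟩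
  · intro i
    obtain ⟨w, _, h, _⟩ := he i
    simp only
    rw [h]
    exact comp_conn
  · intro i z hz
    refine ⟨?_, fun hzP => (e i).2.2 ⟨he i, ⟨z, hz, hzP⟩⟩⟩
    obtain ⟨w, _, h, _⟩ := he i
    simp only at hz
    rw [h] at hz
    exact (comp_subset hz).1
  · intro i j hij
    exact bigComps_disjoint (he i) (he j) fun h => hij (e.injective (Subtype.ext h))
  · intro i
    obtain ⟨u, hu, hsu⟩ := (e i).2.1.2
    exact ⟨u, hu, s, hP5, hsu⟩
  · intro i γ hγ
    obtain ⟨w, _, _, h⟩ := he i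
    exact h γ hγ

/-- The rooted tree `(Y, x)` is contained in all connected graphs of large rank. -/
def GoodTree (F : SimpleGraph W) (Y : Set W) (x : W) : Prop :=
  ∃ α < ω₁, ∀ (G : SimpleGraph ℕ) (X : Set ℕ) (v : ℕ), Conn G X → v ∈ X →
    (∃ ρ < ω₁, RankLE G ρ X) → (∀ γ < α, ¬ RankLE G γ X) → ∃ B, IsModel F Y G X B ∧ v ∈ B x

/-- Two neighbours of a vertex of a forest are in different components of the rest. -/
theorem acyclic_nbr {F : SimpleGraph W} (hF : F.IsAcyclic) {x a b : W} {Y : Set W}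
    (ha : F.Adj x a) (hb : F.Adj x b) (h : Reach F (Y \ {x}) a b) : a = b := by
  classical
  by_contra hne
  -- a walk from `a` to `b` which avoids `x`
  obtain ⟨p, hp⟩ : ∃ p : F.Walk a b, x ∉ p.support := by
    refine h.induct (P := fun b => ∃ p : F.Walk a b, x ∉ p.support) ?_ ?_
    · refine ⟨SimpleGraph.Walk.nil, ?_⟩
      simp only [SimpleGraph.Walk.support_nil, List.mem_singleton]
      exact fun h => F.loopless.irrefl _ (h ▸ ha)
    · rintro c d ⟨p, hp⟩ _ hd hcd
      refine ⟨p.concat hcd, ?_⟩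
      rw [SimpleGraph.Walk.support_concat]
      simp only [List.concat_eq_append, List.mem_append, List.mem_singleton, not_or]
      exact ⟨hp, fun h => hd.2 h.symm⟩
  let q : F.Walk a b := SimpleGraph.Walk.cons ha.symm (SimpleGraph.Walk.cons hb
    SimpleGraph.Walk.nil)
  have hq : q.IsPath := by
    simp only [q, SimpleGraph.Walk.cons_isPath_iff, SimpleGraph.Walk.IsPath.nil,
      SimpleGraph.Walk.support_nil, SimpleGraph.Walk.support_cons,
      List.mem_cons, List.not_mem_nil, or_false, true_and]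
    refine ⟨fun h => F.loopless.irrefl _ (h ▸ hb), ?_⟩
    rintro (h | h)
    · exact F.loopless.irrefl _ (h ▸ ha)
    · exact hne h
  have h1 := (hF.subsingleton_path a b).elim ⟨p.bypass, p.bypass_isPath⟩ ⟨q, hq⟩
  have h2 : p.bypass = q := congrArg Subtype.val h1
  have h3 : x ∈ p.bypass.support := by
    rw [h2]
    simp [q]
  exact hp (p.support_bypass_subset_support h3)

theorem goodTree_step [Countable W] {F : SimpleGraph W} (hF : F.IsAcyclic) {Y : Set W} {x : W}
    (hY : Conn F Y) (hx : x ∈ Y)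
    (hch : ∀ a ∈ Y, F.Adj x a → GoodTree F (comp F (Y \ {x}) a) a) : GoodTree F Y x := by
  classical
  have h' : ∀ a : W, ∃ α < ω₁, a ∈ Y → F.Adj x a → ∀ (G : SimpleGraph ℕ) (X : Set ℕ) (v : ℕ),
      Conn G X → v ∈ X → (∃ ρ < ω₁, RankLE G ρ X) → (∀ γ < α, ¬ RankLE G γ X) →
      ∃ B, IsModel F (comp F (Y \ {x}) a) G X B ∧ v ∈ B a := by
    intro a
    by_cases ha : a ∈ Y ∧ F.Adj x a
    · obtain ⟨α, hα, h⟩ := hch a ha.1 ha.2
      exact ⟨α, hα, fun _ _ => h⟩
    · exact ⟨0, zero_lt_omega_one, fun h1 h2 => absurd ⟨h1, h2⟩ ha⟩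
  choose α hα hα' using h'
  let δ := ⨆ a, α a
  have hδ : δ < ω₁ := Ordinal.iSup_lt_omega_one hα
  refine ⟨Order.succ δ, succ_lt_omega_one hδ, ?_⟩
  rintro G X v hc hv ⟨ρ, hρ, hrk⟩ hbig
  obtain ⟨P, D, hvP, hPX, hPc, hDc, hDX, hDd, hDa, hDr⟩ := exists_fan hc hv hrk
    (hbig δ (Order.lt_succ δ))
  choose u hu b hb hbu using hDa
  obtain ⟨e, he⟩ := exists_injective_nat W
  have hrkD : ∀ i, ∃ ρ < ω₁, RankLE G ρ (D i) := fun i =>
    ⟨ρ, hρ, hrk.mono_set ((hDX i).trans sdiff_subset)⟩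
  have hmod : ∀ a : W, ∃ B, a ∈ Y → F.Adj x a → IsModel F (comp F (Y \ {x}) a) G (D (e a)) B ∧
      u (e a) ∈ B a := by
    intro a
    by_cases ha : a ∈ Y ∧ F.Adj x a
    · obtain ⟨B, hB⟩ := hα' a ha.1 ha.2 G (D (e a)) (u (e a)) (hDc _) (hu _) (hrkD _)
        (fun γ hγ => hDr _ γ (hγ.trans_le (Ordinal.le_iSup α a)))
      exact ⟨B, fun _ _ => hB⟩
    · exact ⟨fun _ => ∅, fun h1 h2 => absurd ⟨h1, h2⟩ ha⟩
  choose B hB using hmod
  -- the child above a vertex
  have hcase : ∀ y : W, ∃ a : W, y ∈ Y → y ≠ x → a ∈ Y ∧ F.Adj x a ∧ y ∈ comp F (Y \ {x}) a := by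
    intro y
    by_cases hy : y ∈ Y ∧ y ≠ x
    · have hy' : y ∈ Y \ {x} := ⟨hy.1, hy.2⟩
      obtain ⟨a, haY, ha, c, hcY, hc', hac⟩ := conn_exit hY hy.1 (mem_comp_self hy') hx
        (fun h => (comp_subset h).2 rfl)
      have hcx : c = x := by
        by_contra hcx
        exact hc' (comp_closed ha ⟨hcY, hcx⟩ hac)
      subst hcx
      refine ⟨a, fun _ _ => ⟨haY, hac.symm, ?_⟩⟩
      exact Reach.symm ha
    · exact ⟨x, fun h1 h2 => absurd ⟨h1, h2⟩ hy⟩
  choose ch hch' using hcase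
  have hchu : ∀ y ∈ Y, y ≠ x → ∀ a ∈ Y, F.Adj x a → y ∈ comp F (Y \ {x}) a → a = ch y := by
    intro y hy hyx a ha hxa hya
    obtain ⟨_, h2, h3⟩ := hch' y hy hyx
    have h4 : Reach F (Y \ {x}) a y := hya
    have h5 : Reach F (Y \ {x}) (ch y) y := h3
    exact acyclic_nbr hF hxa h2 (h4.trans h5.symm)
  let M : W → Set ℕ := fun y => if y = x then P else B (ch y) y
  have hMx : M x = P := if_pos rfl
  have hMy : ∀ y, y ≠ x → M y = B (ch y) y := fun y hy => if_neg hy
  have hmodel : ∀ y ∈ Y, y ≠ x → IsModel F (comp F (Y \ {x}) (ch y)) G (D (e (ch y))) (B (ch y)) ∧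
      y ∈ comp F (Y \ {x}) (ch y) := by
    intro y hy hyx
    obtain ⟨h1, h2, h3⟩ := hch' y hy hyx
    exact ⟨(hB _ h1 h2).1, h3⟩
  have hMD : ∀ y ∈ Y, y ≠ x → M y ⊆ D (e (ch y)) := by
    intro y hy hyx
    rw [hMy y hyx]
    obtain ⟨h1, h2⟩ := hmodel y hy hyx
    exact h1.sub y h2
  have hedge : ∀ y ∈ Y, F.Adj x y → ∃ p ∈ P, ∃ q ∈ M y, G.Adj p q := by
    intro y hy hxy
    have hyx : y ≠ x := fun h => F.loopless.irrefl _ (h ▸ hxy)
    have h1 : y = ch y := hchu y hy hyx y hy hxy (mem_comp_self ⟨hy, hyx⟩)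
    have h2 := (hB y hy hxy).2
    refine ⟨b (e y), hb _, u (e y), ?_, hbu _⟩
    rw [hMy y hyx, ← h1]
    exact h2
  refine ⟨M, ⟨?_, ?_, ?_, ?_, ?_⟩, ?_⟩
  · intro y hy
    by_cases hyx : y = x
    · rw [hyx, hMx]
      exact hPX
    · exact (hMD y hy hyx).trans ((hDX _).trans sdiff_subset)
  · intro y hy
    by_cases hyx : y = x
    · rw [hyx, hMx]
      exact ⟨v, hvP⟩
    · rw [hMy y hyx]
      obtain ⟨h1, h2⟩ := hmodel y hy hyx
      exact h1.ne y h2
  · intro y hy
    by_cases hyx : y = x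
    · rw [hyx, hMx]
      exact hPc
    · rw [hMy y hyx]
      obtain ⟨h1, h2⟩ := hmodel y hy hyx
      exact h1.conn y h2
  · intro y hy z hz hyz
    have hPD : ∀ y ∈ Y, y ≠ x → Disjoint P (M y) := by
      intro y hy hyx
      rw [Set.disjoint_left]
      intro t htP htM
      exact (hDX _ (hMD y hy hyx htM)).2 htP
    by_cases hyx : y = x
    · have hzx : z ≠ x := fun h => hyz (hyx.trans h.symm)
      rw [hyx, hMx]
      exact hPD z hz hzx
    · by_cases hzx : z = x
      · rw [hzx, hMx]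
        exact (hPD y hy hyx).symm
      · by_cases hcc : ch y = ch z
        · rw [hMy y hyx, hMy z hzx, hcc]
          obtain ⟨h1, h2⟩ := hmodel y hy hyx
          obtain ⟨h3, h4⟩ := hmodel z hz hzx
          rw [hcc] at h2
          exact h3.disj y h2 z h4 hyz
        · exact (hDd _ _ (fun h => hcc (he h))).mono (hMD y hy hyx) (hMD z hz hzx)
  · intro y hy z hz hyz
    by_cases hyx : y = x
    · subst hyx
      rw [hMx]
      exact hedge z hz hyz
    · by_cases hzx : z = x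
      · subst hzx
        rw [hMx]
        obtain ⟨p, hp, q, hq, hpq⟩ := hedge y hy hyz.symm
        exact ⟨q, hq, p, hp, hpq.symm⟩
      · obtain ⟨h1, h2, h3⟩ := hch' y hy hyx
        have h4 : z ∈ comp F (Y \ {x}) (ch y) := comp_closed h3 ⟨hz, hzx⟩ hyz
        have h5 : ch y = ch z := hchu z hz hzx (ch y) h1 h2 h4
        rw [hMy y hyx, hMy z hzx, ← h5]
        exact (hB _ h1 h2).1.adj y h3 z h4 hyz
  · rw [hMx]
    exact hvP

/-- Rayless trees are contained in all graphs of large rank. -/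
theorem goodTree [Countable W] {F : SimpleGraph W} (hF : F.IsAcyclic)
    (hray : ¬ ∃ f : ℕ → W, Function.Injective f ∧ ∀ n, F.Adj (f n) (f (n + 1))) {Y : Set W} {x : W}
    (hY : Conn F Y) (hx : x ∈ Y) : GoodTree F Y x := by
  classical
  by_contra hbad
  let σ := {p : W × Set W // p.1 ∈ p.2 ∧ Conn F p.2 ∧ ¬ GoodTree F p.2 p.1}
  have hstep : ∀ p : σ, ∃ q : σ, q.1.2 ⊆ p.1.2 \ {p.1.1} ∧ F.Adj p.1.1 q.1.1 := by
    rintro ⟨⟨v, Z⟩, hv, hZ, hb⟩
    simp only at hv hZ hb ⊢
    have : ¬ ∀ a ∈ Z, F.Adj v a → GoodTree F (comp F (Z \ {v}) a) a := fun h =>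
      hb (goodTree_step hF hZ hv h)
    push Not at this
    obtain ⟨a, ha, hva, hab⟩ := this
    have hav : a ≠ v := fun h => F.loopless.irrefl _ (h ▸ hva)
    exact ⟨⟨⟨a, comp F (Z \ {v}) a⟩, mem_comp_self ⟨ha, hav⟩, comp_conn, hab⟩, comp_subset, hva⟩
  choose next hnext1 hnext2 using hstep
  let s : ℕ → σ := fun n => Nat.rec ⟨⟨x, Y⟩, hx, hY, hbad⟩ (fun _ p => next p) n
  have hs : ∀ n, s (n + 1) = next (s n) := fun n => rfl
  have hanti : ∀ m n, m < n → (s n).1.2 ⊆ (s m).1.2 \ {(s m).1.1} := by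
    intro m n hmn
    induction n with
    | zero => omega
    | succ n ih =>
      rcases Nat.lt_succ_iff_lt_or_eq.1 hmn with h | h
      · have h1 := ih h
        have h2 := hnext1 (s n)
        rw [← hs] at h2
        exact h2.trans (sdiff_subset.trans h1)
      · subst h
        have h2 := hnext1 (s m)
        rwa [← hs] at h2
  apply hray
  refine ⟨fun n => (s n).1.1, ?_, ?_⟩
  · intro a b hab
    simp only at hab
    by_contra hne
    rcases lt_or_gt_of_ne hne with h | h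
    · have := hanti a b h (s b).2.1
      exact this.2 hab.symm
    · have := hanti b a h (s a).2.1
      exact this.2 hab
  · intro n
    have := hnext2 (s n)
    rwa [← hs] at this

/-- Every rayless forest on `ℕ` is a minor of all graphs on `ℕ` of sufficiently large rank. -/
theorem forest_minor {F : SimpleGraph ℕ} (hF : F.IsAcyclic) (hray : Rayless F) :
    ∃ α < ω₁, ∀ G : SimpleGraph ℕ, Rayless G → ¬ RankLE G α Set.univ →
      Minor F Set.univ G Set.univ := by
  classical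
  have hg : ∀ a : ℕ, GoodTree F (comp F Set.univ a) a := fun a =>
    goodTree hF hray comp_conn (mem_comp_self (mem_univ a))
  choose α hα hα' using hg
  let δ := ⨆ a, α a
  have hδ : δ < ω₁ := Ordinal.iSup_lt_omega_one hα
  refine ⟨δ, hδ, fun G hG hbig => ?_⟩
  obtain ⟨ρ, hρ, hrk⟩ := rayless_iff.1 hG
  obtain ⟨S, hS, hinf⟩ := exists_bigComps hrk hbig
  obtain ⟨e⟩ : Nonempty (ℕ ↪ bigComps G Set.univ S δ) := by
    have := hinf.to_subtype
    exact ⟨Infinite.natEmbedding _⟩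
  have hmod : ∀ a : ℕ, ∃ B, IsModel F (comp F Set.univ a) G (e a).1 B := by
    intro a
    obtain ⟨w, hw, h1, h2⟩ := (e a).2
    have hwm : w ∈ (e a).1 := by
      rw [h1]
      exact mem_comp_self hw
    have hcm : Conn G (e a).1 := by
      rw [h1]
      exact comp_conn
    obtain ⟨B, hB, _⟩ := hα' a G (e a).1 w hcm hwm ⟨ρ, hρ, hrk.mono_set (subset_univ _)⟩
      (fun γ hγ => h2 γ (hγ.trans_le (Ordinal.le_iSup α a)))
    exact ⟨B, hB⟩
  choose B hB using hmod
  -- representatives of the components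
  let rep : ℕ → ℕ := fun y => sInf (comp F Set.univ y)
  have hrep : ∀ y, rep y ∈ comp F Set.univ y := fun y =>
    Nat.sInf_mem ⟨y, mem_comp_self (mem_univ y)⟩
  have hrepc : ∀ y, comp F Set.univ (rep y) = comp F Set.univ y := fun y =>
    comp_eq_of_mem (hrep y)
  have hmem : ∀ y, y ∈ comp F Set.univ (rep y) := fun y => by
    rw [hrepc]
    exact mem_comp_self (mem_univ y)
  have hadj : ∀ y z, F.Adj y z → rep y = rep z := by
    intro y z hyz
    have : z ∈ comp F Set.univ y := comp_closed (mem_comp_self (mem_univ y)) (mem_univ z) hyz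
    show sInf _ = sInf _
    rw [comp_eq_of_mem this]
  refine ⟨fun y => B (rep y) y, ⟨fun _ _ => subset_univ _, ?_, ?_, ?_, ?_⟩⟩
  · intro y _
    exact (hB (rep y)).ne y (hmem y)
  · intro y _
    exact (hB (rep y)).conn y (hmem y)
  · intro y _ z _ hyz
    by_cases h : rep y = rep z
    · simp only [h]
      have h1 := hmem y
      rw [h] at h1
      exact (hB (rep z)).disj y h1 z (hmem z) hyz
    · refine (bigComps_disjoint (e (rep y)).2 (e (rep z)).2
        (fun h' => h (e.injective (Subtype.ext h')))).mono ?_ ?_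
      · exact (hB (rep y)).sub y (hmem y)
      · exact (hB (rep z)).sub z (hmem z)
  · intro y _ z _ hyz
    have h := hadj y z hyz
    simp only [h]
    have h1 := hmem y
    rw [h] at h1
    exact (hB (rep z)).adj y h1 z (hmem z) hyz

end Run7.h891
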