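import Pool.Agent.Run7.h891.SharpOfficial

/-! The minor relation on the graphs of rank at most `α`. -/

set_option autoImplicit false

open Set Ordinal MeasureTheory

namespace Run7.h891

theorem BorelFamily.rect {C D : Set (SimpleGraph ℕ)} (hC : BorelFamily C) (hD : BorelFamily D) :
    BorelRelation (C ×ˢ D) := by
  have h1 : @Measurable _ _ (@borel _ pairTopology) (@borel _ graphTopology)
      (Prod.fst : SimpleGraph ℕ × SimpleGraph ℕ → SimpleGraph ℕ) :=
    @Continuous.borel_measurable _ _ pairTopology graphTopology _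
      (@continuous_fst _ _ graphTopology graphTopology)
  have h2 : @Measurable _ _ (@borel _ pairTopology) (@borel _ graphTopology)
      (Prod.snd : SimpleGraph ℕ × SimpleGraph ℕ → SimpleGraph ℕ) :=
    @Continuous.borel_measurable _ _ pairTopology graphTopology _
      (@continuous_snd _ _ graphTopology graphTopology)
  exact @MeasurableSet.inter _ (@borel _ pairTopology) _ _ (h1 hC) (h2 hD)

theorem borelFamily_rank {α : Ordinal.{0}} (hα : α < ω₁) :
    BorelFamily {G : SimpleGraph ℕ | HasRankLE α G} := by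
  rw [borelFamily_iff]
  refine ⟨{E : ℕ × ℕ → Bool | RankLE (gr E) α Set.univ}, meas_rankLE hα, ?_⟩
  ext G
  show RankLE (gr (edgeIndicator G)) α Set.univ ↔ HasRankLE α G
  rw [gr_edgeIndicator, hasRankLE_iff]

/-- Sections of Borel relations are Borel. -/
theorem BorelRelation.left {R : Set (SimpleGraph ℕ × SimpleGraph ℕ)} (h : BorelRelation R)
    (G : SimpleGraph ℕ) : BorelFamily {H | (H, G) ∈ R} := by
  let _ := graphTopology
  have h1 : @Continuous _ _ graphTopology pairTopology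
      (fun H : SimpleGraph ℕ => (H, G)) := by
    exact Continuous.prodMk continuous_id continuous_const
  exact @Continuous.borel_measurable _ _ graphTopology pairTopology _ h1 _ h

theorem borelRelation_of_codeWqo {α : Ordinal.{0}} (hα : α < ω₁) (h : CodeWqo α) :
    BorelRelation (minorRelation α) := by
  classical
  obtain ⟨f, hf⟩ := countable_types_local α hα h α le_rfl 0
  have hf' : ∀ G H : SimpleGraph ℕ, HasRankLE α G → HasRankLE α H →
      f (code0 G) = f (code0 H) → IsMinor G H := by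
    intro G H hG hH h
    obtain ⟨B, hB, _⟩ := hf (code0 G) (code0 H) (hasRankLE_iff.1 hG) (hasRankLE_iff.1 hH) h
    exact isMinor_iff.2 ⟨B, hB⟩
  let rep : ℕ → SimpleGraph ℕ := fun t =>
    if h : ∃ G : SimpleGraph ℕ, HasRankLE α G ∧ f (code0 G) = t then h.choose else ⊥
  have hrep : ∀ G : SimpleGraph ℕ, HasRankLE α G → HasRankLE α (rep (f (code0 G))) ∧
      f (code0 (rep (f (code0 G)))) = f (code0 G) := by
    intro G hG
    have h : ∃ G' : SimpleGraph ℕ, HasRankLE α G' ∧ f (code0 G') = f (code0 G) := ⟨G, hG, rfl⟩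
    simp only [rep, dif_pos h]
    exact h.choose_spec
  have h1 : minorRelation α = ⋃ t : {t : ℕ // HasRankLE α (rep t)},
      {H | HasRankLE α H ∧ IsMinor H (rep t)} ×ˢ
        {H | HasRankLE α H ∧ IsMinor (rep t) H} := by
    ext ⟨H, G⟩
    simp only [mem_iUnion, mem_prod, mem_ofPred_eq, minorRelation]
    constructor
    · rintro ⟨hH, hG, hHG⟩
      obtain ⟨h2, h3⟩ := hrep H hH
      refine ⟨⟨_, h2⟩, ⟨hH, hf' _ _ hH h2 h3.symm⟩, hG, ?_⟩
      have h4 := hf' _ _ h2 hH h3
      exact isMinor_iff.2 ((isMinor_iff.1 h4).trans (isMinor_iff.1 hHG))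
    · rintro ⟨t, ⟨hH, h2⟩, hG, h3⟩
      exact ⟨hH, hG, isMinor_iff.2 ((isMinor_iff.1 h2).trans (isMinor_iff.1 h3))⟩
  rw [h1]
  refine @MeasurableSet.iUnion _ _ (@borel _ pairTopology) _ _ fun t => ?_
  refine BorelFamily.rect ?_ ?_
  · refine borel_of_codeWqo hα h ?_ (fun G hG => hG.1)
    intro G hG H hH
    have h1 := isMinor_iff.1 hH
    exact ⟨hasRankLE_iff.2 ((hasRankLE_iff.1 hG.1).of_minor h1),
      isMinor_iff.2 (h1.trans (isMinor_iff.1 hG.2))⟩
  · have h2 : {H : SimpleGraph ℕ | HasRankLE α H ∧ IsMinor (rep t) H} =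
        {H | HasRankLE α H} ∩ {H | HasRankLE α H ∧ ¬ IsMinor (rep t) H}ᶜ := by
      ext H
      simp only [mem_ofPred_eq, mem_inter_iff, mem_compl_iff]
      tauto
    rw [h2]
    refine @MeasurableSet.inter _ (@borel _ graphTopology) _ _ (borelFamily_rank hα)
      (BorelFamily.compl ?_)
    refine borel_of_codeWqo hα h ?_ (fun G hG => hG.1)
    intro G hG H hH
    have h1 := isMinor_iff.1 hH
    refine ⟨hasRankLE_iff.2 ((hasRankLE_iff.1 hG.1).of_minor h1), fun h => hG.2 ?_⟩
    exact isMinor_iff.2 ((isMinor_iff.1 h).trans h1)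

theorem analytic_above {α : Ordinal.{0}} (hα : α < ω₁) (Γ : SimpleGraph ℕ) :
    @AnalyticSet (SimpleGraph ℕ) graphTopology {H | HasRankLE α H ∧ IsMinor Γ H} := by
  refine analytic_graph ?_
  have h5 : AnalyticSet (⋂ c : Bool, (bif c then {E : ℕ × ℕ → Bool | RankLE (gr E) α Set.univ}
      else {E : ℕ × ℕ → Bool | Minor Γ Set.univ (gr E) Set.univ})) := by
    refine AnalyticSet.iInter fun c => ?_
    cases c
    · exact analytic_up Γ
    · exact (meas_rankLE hα).analyticSet
  convert h5 using 1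
  ext E
  simp only [mem_ofPred_eq, mem_iInter, Bool.forall_bool, cond_true, cond_false,
    hasRankLE_iff, isMinor_iff]
  tauto

/-- S5. -/
theorem relation_tfae {α : Ordinal.{0}} (hα : α < ω₁) :
    [∃ C : Set (SimpleGraph ℕ), MinorClosed C ∧ (∀ G ∈ C, HasRankLE α G) ∧ ¬ BorelFamily C,
      ¬ BorelRelation (minorRelation α),
      ∃ G : SimpleGraph ℕ, HasRankLE α G ∧ Sigma11Complete {H | IsMinor H G},
      ∃ G : SimpleGraph ℕ, HasRankLE α G ∧
        Sigma11Complete {H | HasRankLE α H ∧ IsMinor G H}].TFAE := by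
  tfae_have 1 → 2 := by
    rintro ⟨C, h1, h2, h3⟩ hR
    obtain ⟨G, hG, hc⟩ := (nonborel_iff_principal hα).1 ⟨C, h1, h2, h3⟩
    refine hc.not_borel ?_
    have h4 := hR.left G
    have h5 : {H | (H, G) ∈ minorRelation α} = {H | IsMinor H G} := by
      ext H
      exact ⟨fun h => h.2.2, fun h => ⟨hasRankLE_down hG H h, hG, h⟩⟩
    rwa [h5] at h4
  tfae_have 2 → 1 := by
    intro h
    by_contra hcon
    push Not at hcon
    exact h (borelRelation_of_codeWqo hα ((borel_iff_rooted_wqo hα).1 hcon))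
  tfae_have 1 → 3 := (nonborel_iff_principal hα).1
  tfae_have 3 → 1 := (nonborel_iff_principal hα).2
  tfae_have 1 → 4 := by
    rintro ⟨C, h1, h2, h3⟩
    have hcon : ¬ CodeWqo α := fun h => h3 (borel_of_codeWqo hα h h1 h2)
    obtain ⟨k, y, β, hβ, hy⟩ := sf_of_not_codeWqo hα hcon
    obtain ⟨Γ, hΓ, Φ, hΦ, hrk, hΦ'⟩ := hy.exists_guest
    refine ⟨Γ, hasRankLE_iff.2 (hΓ.mono_ord hβ), analytic_above hα Γ, fun A hA => ?_⟩
    obtain ⟨T, hT, hT'⟩ := exists_tree_reduction A hA
    refine ⟨Φ ∘ T, @Continuous.comp _ _ _ _ _ graphTopology _ _ hΦ hT, ?_⟩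
    ext z
    rw [hT', ← hΦ']
    show (HasRankLE α (Φ (T z)) ∧ IsMinor Γ (Φ (T z))) ↔ _
    rw [← isMinor_iff]
    exact ⟨fun h => h.2, fun h => ⟨hasRankLE_iff.2 ((hrk (T z)).mono_ord hβ), h⟩⟩
  tfae_have 4 → 1 := by
    rintro ⟨Γ, hΓ, hc⟩
    refine ⟨{H | HasRankLE α H ∧ ¬ IsMinor Γ H}, ?_, fun G hG => hG.1, fun hB => ?_⟩
    · intro G hG H hH
      have h1 := isMinor_iff.1 hH
      refine ⟨hasRankLE_iff.2 ((hasRankLE_iff.1 hG.1).of_minor h1), fun h => hG.2 ?_⟩
      exact isMinor_iff.2 ((isMinor_iff.1 h).trans h1)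
    · refine hc.not_borel ?_
      have h2 : {H : SimpleGraph ℕ | HasRankLE α H ∧ IsMinor Γ H} =
          {H | HasRankLE α H} ∩ {H | HasRankLE α H ∧ ¬ IsMinor Γ H}ᶜ := by
        ext H
        simp only [mem_ofPred_eq, mem_inter_iff, mem_compl_iff]
        tauto
      rw [h2]
      exact @MeasurableSet.inter _ (@borel _ graphTopology) _ _ (borelFamily_rank hα) hB.compl
  tfae_finish

end Run7.h891
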