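import Pool.Agent.Run7.h891.Forest
import Pool.Agent.Run7.h891.Defs3
import Pool.Agent.Run7.h891.SharpPerfect
import Pool.Agent.Run7.h891.SharpRel

/-! Families containing all rayless forests are not Borel. -/

set_option autoImplicit false

open Set Ordinal MeasureTheory

namespace Run7.h891

open Pool.Agent.H534R3.NonBorel (br)

/-- The forest given by a set of nodes of the tree of (reversed) finite sequences. -/
def TG (u : List ℕ → Bool) : SimpleGraph (List ℕ) where
  Adj a b := (∃ n, a = n :: b ∧ u a = true) ∨ ∃ n, b = n :: a ∧ u b = true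
  symm := ⟨fun _ _ h => h.symm⟩
  loopless := ⟨by
    rintro a (⟨n, h, _⟩ | ⟨n, h, _⟩)
    · exact absurd (congrArg List.length h) (by simp)
    · exact absurd (congrArg List.length h) (by simp)⟩

theorem TG_acyclic (u : List ℕ → Bool) : (TG u).IsAcyclic := by
  have key : ∀ (n : ℕ) (b : List ℕ), ¬ ((TG u).deleteEdges {s(n :: b, b)}).Reachable (n :: b) b := by
    intro n b h
    rw [SimpleGraph.reachable_iff_reflTransGen] at h
    have : (n :: b) <:+ b := by
      refine Relation.ReflTransGen.head_induction_on (motive := fun x _ => (n :: b) <:+ x → (n :: b) <:+ b)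
        h id ?_ (List.suffix_refl _)
      intro x y hxy _ ih hx
      apply ih
      rw [SimpleGraph.deleteEdges_adj] at hxy
      obtain ⟨h1, h2⟩ := hxy
      rcases h1 with ⟨m, h3, _⟩ | ⟨m, h3, _⟩
      · rw [h3] at hx
        rcases List.suffix_cons_iff.1 hx with h4 | h4
        · exfalso
          apply h2
          rw [h3, ← h4]
          have h5 : b = y := (List.cons.inj h4).2
          rw [← h5]
          exact rfl
        · exact h4
      · rw [h3]
        exact hx.trans (List.suffix_cons m x)
    have h6 := this.length_le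
    simp at h6
  rw [SimpleGraph.isAcyclic_iff_forall_adj_isBridge]
  rintro a b (⟨n, rfl, _⟩ | ⟨n, rfl, _⟩)
  · rw [SimpleGraph.isBridge_iff]
    exact key n b
  · rw [SimpleGraph.isBridge_iff, Sym2.eq_swap]
    exact fun h => key n a h.symm

/-- Closing a set of nodes under suffixes. -/
def cl (t : List ℕ → Bool) : List ℕ → Bool := fun s => s.tails.all fun r => t r.reverse

theorem cl_iff {t : List ℕ → Bool} {s : List ℕ} :
    cl t s = true ↔ ∀ r, r <:+ s → r ∈ treeOf t := by
  simp only [cl, List.all_eq_true, List.mem_tails]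
  exact Iff.rfl

theorem continuous_cl : Continuous cl := by
  refine continuous_pi fun s => ?_
  show Continuous fun t : List ℕ → Bool => s.tails.all fun r => t r.reverse
  generalize s.tails = l
  induction l with
  | nil =>
    simp only [List.all_nil]
    exact continuous_const
  | cons a l ih =>
    have h1 : (fun t : List ℕ → Bool => (a :: l).all fun r => t r.reverse) =
        (fun p : Bool × Bool => p.1 && p.2) ∘
          (fun t : List ℕ → Bool => (t a.reverse, l.all fun r => t r.reverse)) := by
      funext t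
      simp [List.all_cons]
    rw [h1]
    exact continuous_of_discreteTopology.comp ((continuous_apply _).prodMk ih)

theorem suffix_pre {f : ℕ → ℕ} {s : List ℕ} : ∀ k, s <:+ pre f k → ∃ j, s = pre f j := by
  intro k
  induction k with
  | zero =>
    intro h
    refine ⟨0, ?_⟩
    simpa [pre] using h
  | succ k ih =>
    intro h
    rcases List.suffix_cons_iff.1 h with h | h
    · exact ⟨k + 1, h⟩
    · exact ih h

theorem TG_ray_iff (t : List ℕ → Bool) :
    (∃ a : ℕ → List ℕ, Function.Injective a ∧ ∀ n, (TG (cl t)).Adj (a n) (a (n + 1))) ↔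
      ∃ f : ℕ → ℕ, ∀ k, pre f k ∈ treeOf t := by
  constructor
  · rintro ⟨a, hinj, hadj⟩
    -- a first downward step
    obtain ⟨n0, hn0⟩ : ∃ n, ∃ m, a (n + 1) = m :: a n ∧ cl t (a (n + 1)) = true := by
      by_contra hcon
      have hup : ∀ n, (a (n + 1)).length + 1 = (a n).length := by
        intro n
        rcases hadj n with ⟨m, h1, _⟩ | h
        · rw [h1]
          rfl
        · exact absurd ⟨n, h⟩ hcon
      have hlen : ∀ n, (a n).length + n = (a 0).length := by
        intro n
        induction n with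
        | zero => rfl
        | succ n ih =>
          have := hup n
          omega
      have := hlen ((a 0).length + 1)
      omega
    have hdown : ∀ k, ∃ m, a (n0 + k + 1) = m :: a (n0 + k) ∧ cl t (a (n0 + k + 1)) = true := by
      intro k
      induction k with
      | zero => exact hn0
      | succ k ih =>
        obtain ⟨m, h1, _⟩ := ih
        rcases hadj (n0 + (k + 1)) with ⟨m', h2, _⟩ | h
        · exfalso
          have h3 : n0 + (k + 1) = n0 + k + 1 := by omega
          rw [h3] at h2
          rw [h1] at h2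
          have h4 := (List.cons.inj h2).2
          have h5 := hinj h4
          omega
        · exact h
    let b : ℕ → List ℕ := fun k => a (n0 + k)
    have hb : ∀ k, ∃ m, b (k + 1) = m :: b k := fun k => by
      obtain ⟨m, h, _⟩ := hdown k
      exact ⟨m, h⟩
    have hbt : ∀ k s, s <:+ b k → s ∈ treeOf t := by
      intro k s hs
      obtain ⟨m, h1, h2⟩ := hdown k
      refine cl_iff.1 h2 s ?_
      rw [h1]
      exact hs.trans (List.suffix_cons m _)
    obtain ⟨f, hf⟩ := exists_branch (P := fun s => ∃ k, s <:+ b k) ⟨0, List.nil_suffix⟩ (by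
      rintro s ⟨k, hs⟩
      obtain ⟨l, hl⟩ := hs
      rcases List.eq_nil_or_concat l with rfl | ⟨l', n, rfl⟩
      · obtain ⟨m, hm⟩ := hb k
        refine ⟨m, k + 1, ?_⟩
        rw [hm, ← hl]
        exact List.suffix_refl _
      · refine ⟨n, k, ⟨l', ?_⟩⟩
        rw [← hl]
        simp)
    refine ⟨f, fun k => ?_⟩
    obtain ⟨j, hj⟩ := hf k
    exact hbt j _ hj
  · rintro ⟨f, hf⟩
    refine ⟨pre f, ?_, ?_⟩
    · intro i j hij
      have := congrArg List.length hij
      simpa [length_pre] using this
    · intro n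
      refine Or.inr ⟨f n, rfl, cl_iff.2 ?_⟩
      intro r hr
      obtain ⟨j, rfl⟩ := suffix_pre _ hr
      exact hf j

theorem rayless_toNat {P : Type} (e : P ≃ ℕ) (F : SimpleGraph P) :
    Rayless (toNat e F) ↔ ¬ ∃ f : ℕ → P, Function.Injective f ∧ ∀ n, F.Adj (f n) (f (n + 1)) := by
  refine not_congr ⟨?_, ?_⟩
  · rintro ⟨f, h1, h2⟩
    exact ⟨fun n => e.symm (f n), e.symm.injective.comp h1, fun n => h2 n⟩
  · rintro ⟨f, h1, h2⟩
    refine ⟨fun n => e (f n), e.injective.comp h1, fun n => ?_⟩
    rw [toNat_adj]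
    simpa using h2 n

theorem acyclic_toNat {P : Type} (e : P ≃ ℕ) (F : SimpleGraph P) (hF : F.IsAcyclic) :
    (toNat e F).IsAcyclic := by
  have f : toNat e F ↪g F := SimpleGraph.Embedding.comap e.symm.toEmbedding F
  exact hF.comap f.toHom f.injective

/-- Trees of finite sequences as forests. -/
theorem exists_forest_map : ∃ Ψ : (List ℕ → Bool) → SimpleGraph ℕ,
    @Continuous _ _ _ graphTopology Ψ ∧ ∀ t, (Ψ t).IsAcyclic ∧
      (Rayless (Ψ t) ↔ ¬ ∃ f : ℕ → ℕ, ∀ n, t (br f n) = true) := by
  classical
  obtain ⟨e⟩ : Nonempty (List ℕ ≃ ℕ) := nonempty_equiv_of_countable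
  have hcont : @Continuous _ _ _ graphTopology (fun u => toNat e (TG u)) := by
    refine continuous_toNat' e TG ?_
    intro a b
    by_cases h1 : ∃ n, a = n :: b
    · refine Or.inl ⟨a, fun t t' h => ?_⟩
      have h2 : ¬ ∃ n, b = n :: a := by
        rintro ⟨m, hm⟩
        obtain ⟨n, hn⟩ := h1
        have h3 := congrArg List.length hm
        have h4 := congrArg List.length hn
        simp only [List.length_cons] at h3 h4
        omega
      constructor
      · rintro (⟨n, h3, h4⟩ | ⟨n, h3, _⟩)
        · exact Or.inl ⟨n, h3, by rw [← h]; exact h4⟩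
        · exact absurd ⟨n, h3⟩ h2
      · rintro (⟨n, h3, h4⟩ | ⟨n, h3, _⟩)
        · exact Or.inl ⟨n, h3, by rw [h]; exact h4⟩
        · exact absurd ⟨n, h3⟩ h2
    · refine Or.inl ⟨b, fun t t' h => ?_⟩
      constructor
      · rintro (⟨n, h3, h4⟩ | ⟨n, h3, h4⟩)
        · exact absurd ⟨n, h3⟩ h1
        · exact Or.inr ⟨n, h3, by rw [← h]; exact h4⟩
      · rintro (⟨n, h3, h4⟩ | ⟨n, h3, h4⟩)
        · exact absurd ⟨n, h3⟩ h1
        · exact Or.inr ⟨n, h3, by rw [h]; exact h4⟩
  refine ⟨fun t => toNat e (TG (cl t)),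
    @Continuous.comp (List ℕ → Bool) (List ℕ → Bool) (SimpleGraph ℕ) _ _ graphTopology cl
      (fun u => toNat e (TG u)) hcont continuous_cl, fun t => ⟨acyclic_toNat e _ (TG_acyclic _), ?_⟩⟩
  rw [rayless_toNat, TG_ray_iff, exists_pre_iff]

/-- A family of rayless graphs containing all rayless forests is not Borel. -/
theorem not_borel_of_forests {C : Set (SimpleGraph ℕ)} (hC : ∀ G ∈ C, Rayless G)
    (hF : ContainsRaylessForests C) : ¬ BorelFamily C := by
  intro hB
  obtain ⟨Ψ, hΨ, hΨ'⟩ := exists_forest_map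
  have hpre := hB.preimage hΨ
  apply Pool.Agent.H534R3.NonBorel.illFounded_not_measurable
  have h1 : {t : List ℕ → Bool | ∃ f : ℕ → ℕ, ∀ n, t (br f n) = true} = (Ψ ⁻¹' C)ᶜ := by
    ext t
    simp only [mem_ofPred_eq, mem_compl_iff, mem_preimage]
    constructor
    · intro h hmem
      exact (hΨ' t).2.1 (hC _ hmem) h
    · intro h
      by_contra hcon
      exact h (hF _ (hΨ' t).1 ((hΨ' t).2.2 hcon))
  rw [h1]
  exact hpre.compl

/-- A minor-closed family of rayless graphs has bounded rank if and only if it does not contain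
all rayless forests. -/
theorem rank_bounded_iff {C : Set (SimpleGraph ℕ)} (hC : ∀ G ∈ C, Rayless G)
    (hmc : MinorClosed C) : (∃ α < ω₁, ∀ G ∈ C, HasRankLE α G) ↔ ¬ ContainsRaylessForests C := by
  constructor
  · rintro ⟨α, hα, h⟩ hF
    have h1 : ContainsRaylessForests {G : SimpleGraph ℕ | HasRankLE α G} := fun F h1 h2 =>
      h F (hF F h1 h2)
    refine not_borel_of_forests ?_ h1 (borelFamily_rank hα)
    intro G hG
    exact rayless_iff.2 ⟨α, hα, hasRankLE_iff.1 hG⟩
  · intro h
    unfold ContainsRaylessForests at h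
    push Not at h
    obtain ⟨F, h1, h2, h3⟩ := h
    obtain ⟨α, hα, h4⟩ := forest_minor h1 h2
    refine ⟨α, hα, fun G hG => ?_⟩
    by_contra hcon
    exact h3 (hmc G hG F (isMinor_iff.2 (h4 G (hC G hG) fun h => hcon (hasRankLE_iff.2 h))))

end Run7.h891
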