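import Pool.Agent.Run7.h891.ClsOfficial

/-! The class of graphs of finite tree-width is closed under minors, cones and hub sums. -/

set_option autoImplicit false

open Set

namespace Run7.h891.Cls

open Run7.h891

theorem ftw_minor {V W : Type} {G : SimpleGraph V} {H : SimpleGraph W} (h : FiniteTreeWidth G)
    (hm : IsMinor H G) : FiniteTreeWidth H := by
  obtain ⟨τ, T, P, hT, hfin, hedge, hconn⟩ := h
  obtain ⟨B, h1, h2, h3⟩ := hm
  refine ⟨τ, T, fun t => {w | (B w ∩ P t).Nonempty}, hT, ?_, ?_, ?_⟩
  · intro t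
    have := finite_hit (Y := (univ : Set W)) (B := B) (fun a _ b _ hab => h2 a b hab) (hfin t)
    refine this.subset ?_
    intro w hw
    exact ⟨mem_univ _, hw⟩
  · intro u w huw
    obtain ⟨x, hx, y, hy, hxy⟩ := h3 u w huw
    obtain ⟨t, ht1, ht2⟩ := hedge x y hxy
    exact ⟨t, ⟨x, hx, ht1⟩, ⟨y, hy, ht2⟩⟩
  · intro w
    rw [conn_iff]
    have hB := conn_iff.1 (h1 w)
    constructor
    · obtain ⟨x, hx⟩ := hB.1
      obtain ⟨t, ht⟩ := (conn_iff.1 (hconn x)).1
      exact ⟨t, x, hx, ht⟩
    · rintro t ⟨x, hx, hxt⟩ t' ⟨y, hy, hyt'⟩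
      have key : ∀ y, Reach G (B w) x y → ∀ t', y ∈ P t' →
          Reach T {t | w ∈ {w | (B w ∩ P t).Nonempty}} t t' := by
        intro y hxy
        refine hxy.induct (P := fun y => ∀ t', y ∈ P t' →
          Reach T {t | w ∈ {w | (B w ∩ P t).Nonempty}} t t') ?_ ?_
        · intro t' ht'
          exact ((conn_iff.1 (hconn x)).2 t hxt t' ht').mono (fun s hs => ⟨x, hx, hs⟩)
        · intro a b ha _ hb hab t' ht'
          obtain ⟨s, hs1, hs2⟩ := hedge a b hab
          refine (ha s hs1).trans ?_
          exact ((conn_iff.1 (hconn b)).2 s hs2 t' ht').mono (fun s hs => ⟨b, hb, hs⟩)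
      exact key y (hB.2 x hx y hy) t' hyt'

theorem ftw_cone {V : Type} {G : SimpleGraph V} (h : FiniteTreeWidth G) :
    FiniteTreeWidth (coneGraph G) := by
  obtain ⟨τ, T, P, hT, hfin, hedge, hconn⟩ := h
  have hc : Conn T univ := by
    have h1 := hT.connected
    intro x _ y _
    have h2 := (SimpleGraph.reachable_iff_reflTransGen x y).1 (h1.preconnected x y)
    refine ⟨mem_univ _, ?_⟩
    induction h2 with
    | refl => exact Relation.ReflTransGen.refl
    | tail _ hab ih => exact (ih (mem_univ _)).tail ⟨hab, mem_univ _⟩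
  have hne : Nonempty τ := hT.connected.nonempty
  refine ⟨τ, T, fun t => insert none (some '' P t), hT, ?_, ?_, ?_⟩
  · intro t
    exact ((hfin t).image _).insert _
  · rintro u v (⟨h1, h2⟩ | ⟨h1, h2⟩ | ⟨x, y, h1, h2, h3⟩)
    · obtain ⟨v', rfl⟩ := Option.ne_none_iff_exists'.1 h2
      obtain ⟨t, ht⟩ := (conn_iff.1 (hconn v')).1
      exact ⟨t, Or.inl h1, Or.inr ⟨v', ht, rfl⟩⟩
    · obtain ⟨u', rfl⟩ := Option.ne_none_iff_exists'.1 h2
      obtain ⟨t, ht⟩ := (conn_iff.1 (hconn u')).1
      exact ⟨t, Or.inr ⟨u', ht, rfl⟩, Or.inl h1⟩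
    · obtain ⟨t, ht1, ht2⟩ := hedge x y h3
      exact ⟨t, Or.inr ⟨x, ht1, h1.symm⟩, Or.inr ⟨y, ht2, h2.symm⟩⟩
  · rintro (_ | v)
    · have h1 : {t | none ∈ (insert none (some '' P t) : Set (Option V))} = univ := by
        ext t
        simp
      rw [h1, conn_iff]
      exact ⟨⟨hne.some, mem_univ _⟩, hc⟩
    · have h1 : {t | some v ∈ (insert none (some '' P t) : Set (Option V))} = {t | v ∈ P t} := by
        ext t
        simp
      rw [h1]
      exact hconn v

section hub

variable {ι : Type} {V : ι → Type} (G : ∀ i, SimpleGraph (V i)) (r : ∀ i, V i)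

theorem hub_none_some {i : ι} {x : V i} : (hubGraph G r).Adj none (some ⟨i, x⟩) ↔ x = r i := by
  constructor
  · rintro (⟨j, _, h2⟩ | ⟨j, h1, _⟩ | ⟨j, y, z, h1, _⟩)
    · have h3 := Option.some_injective _ h2
      obtain ⟨rfl, h4⟩ := Sigma.mk.inj_iff.1 h3
      exact eq_of_heq h4
    · exact absurd h1 (by simp)
    · exact absurd h1 (by simp)
  · rintro rfl
    exact Or.inl ⟨i, rfl, rfl⟩

theorem hub_some_some {i j : ι} {x : V i} {y : V j} :
    (hubGraph G r).Adj (some ⟨i, x⟩) (some ⟨j, y⟩) ↔ ∃ h : i = j, (G j).Adj (h ▸ x) y := by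
  constructor
  · rintro (⟨k, h1, _⟩ | ⟨k, h1, _⟩ | ⟨k, a, b, h1, h2, h3⟩)
    · exact absurd h1 (by simp)
    · exact absurd h1 (by simp)
    · have h4 := Option.some_injective _ h1
      have h5 := Option.some_injective _ h2
      obtain ⟨rfl, h6⟩ := Sigma.mk.inj_iff.1 h4
      obtain ⟨rfl, h7⟩ := Sigma.mk.inj_iff.1 h5
      have h8 := eq_of_heq h6
      have h9 := eq_of_heq h7
      subst h8 h9
      exact ⟨rfl, h3⟩
  · rintro ⟨rfl, h⟩
    exact Or.inr (Or.inr ⟨_, _, _, rfl, rfl, h⟩)

/-- The copy of `G i` in the hub sum. -/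
def hubCopy (i : ι) : G i ↪g hubGraph G r where
  toFun x := some ⟨i, x⟩
  inj' := fun x y h => by
    have h1 := Option.some_injective _ h
    simpa using h1
  map_rel_iff' := by
    intro x y
    show (hubGraph G r).Adj (some ⟨i, x⟩) (some ⟨i, y⟩) ↔ _
    rw [hub_some_some]
    exact ⟨fun ⟨_, h⟩ => h, fun h => ⟨rfl, h⟩⟩

theorem hub_conn (h : ∀ i, (G i).Connected) : (hubGraph G r).Connected := by
  have h1 : ∀ z, (hubGraph G r).Reachable none z := by
    rintro (_ | ⟨i, x⟩)
    · exact SimpleGraph.Reachable.refl _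
    · have h2 : (hubGraph G r).Reachable none (some ⟨i, r i⟩) :=
        SimpleGraph.Adj.reachable ((hub_none_some G r).2 rfl)
      obtain ⟨p⟩ := (h i).preconnected (r i) x
      exact h2.trans (p.map (hubCopy G r i).toHom).reachable
  have : Nonempty (Option (Σ i, V i)) := ⟨none⟩
  exact ⟨fun a b => (h1 a).symm.trans (h1 b)⟩

open Classical in
/-- The retraction onto a copy. -/
noncomputable def retr (i : ι) : Option (Σ i, V i) → V i
  | none => r i
  | some q => if h : q.1 = i then h ▸ q.2 else r i

theorem retr_self (i : ι) (x : V i) : retr r i (some ⟨i, x⟩) = x := by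
  simp [retr]

theorem retr_ne {i j : ι} (h : j ≠ i) (x : V j) : retr r i (some ⟨j, x⟩) = r i := by
  simp [retr, h]

theorem hub_acyclic (h : ∀ i, (G i).IsAcyclic) : (hubGraph G r).IsAcyclic := by
  classical
  rw [SimpleGraph.isAcyclic_iff_forall_adj_isBridge]
  -- edges at the hub
  have hhub : ∀ i, ¬ ((hubGraph G r).deleteEdges {s(none, some ⟨i, r i⟩)}).Reachable
      (some ⟨i, r i⟩) none := by
    intro i hreach
    rw [SimpleGraph.reachable_iff_reflTransGen] at hreach
    have key : ∀ z, Relation.ReflTransGen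
        ((hubGraph G r).deleteEdges {s(none, some ⟨i, r i⟩)}).Adj (some ⟨i, r i⟩) z →
        ∃ x : V i, z = some ⟨i, x⟩ := by
      intro z hz
      induction hz with
      | refl => exact ⟨_, rfl⟩
      | @tail b c _ h2 ih =>
        obtain ⟨x, rfl⟩ := ih
        rw [SimpleGraph.deleteEdges_adj] at h2
        obtain ⟨h2, h3⟩ := h2
        rcases c with _ | ⟨j, y⟩
        · have h4 : x = r i := (hub_none_some G r).1 h2.symm
          subst h4
          exact absurd (Sym2.eq_swap) h3
        · obtain ⟨rfl, _⟩ := (hub_some_some G r).1 h2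
          exact ⟨y, rfl⟩
    obtain ⟨x, hx⟩ := key _ hreach
    exact absurd hx (by simp)
  have hcopy : ∀ (i : ι) (x y : V i), (G i).Adj x y →
      ¬ ((hubGraph G r).deleteEdges {s(some ⟨i, x⟩, some ⟨i, y⟩)}).Reachable
      (some ⟨i, x⟩) (some ⟨i, y⟩) := by
    intro i x y hxy hreach
    have hbr := (SimpleGraph.isAcyclic_iff_forall_adj_isBridge.1 (h i)) hxy
    rw [SimpleGraph.isBridge_iff] at hbr
    apply hbr
    rw [SimpleGraph.reachable_iff_reflTransGen] at hreach
    have key : ∀ z, Relation.ReflTransGen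
        ((hubGraph G r).deleteEdges {s(some ⟨i, x⟩, some ⟨i, y⟩)}).Adj (some ⟨i, x⟩) z →
        ((G i).deleteEdges {s(x, y)}).Reachable x (retr r i z) := by
      intro z hz
      induction hz with
      | refl =>
        rw [retr_self]
      | @tail b c _ h2 ih =>
        refine ih.trans ?_
        rw [SimpleGraph.deleteEdges_adj] at h2
        obtain ⟨h2, h3⟩ := h2
        rcases b with _ | ⟨j, b⟩
        · rcases c with _ | ⟨k, c⟩
          · exact absurd h2 (SimpleGraph.irrefl _)
          · have h4 : c = r k := (hub_none_some G r).1 h2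
            subst h4
            by_cases hk : k = i
            · subst hk
              rw [retr_self]
              exact SimpleGraph.Reachable.refl _
            · rw [retr_ne r hk]
              exact SimpleGraph.Reachable.refl _
        · rcases c with _ | ⟨k, c⟩
          · have h4 : b = r j := (hub_none_some G r).1 h2.symm
            subst h4
            by_cases hk : j = i
            · subst hk
              rw [retr_self]
              exact SimpleGraph.Reachable.refl _
            · rw [retr_ne r hk]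
              exact SimpleGraph.Reachable.refl _
          · obtain ⟨rfl, h5⟩ := (hub_some_some G r).1 h2
            by_cases hk : j = i
            · subst hk
              rw [retr_self, retr_self]
              refine SimpleGraph.Adj.reachable ?_
              rw [SimpleGraph.deleteEdges_adj]
              refine ⟨h5, fun h6 => h3 ?_⟩
              have h7 : s(b, c) = s(x, y) := h6
              show s(some (⟨j, b⟩ : Σ i, V i), some ⟨j, c⟩) = s(some ⟨j, x⟩, some ⟨j, y⟩)
              rcases Sym2.eq_iff.1 h7 with ⟨h8, h9⟩ | ⟨h8, h9⟩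
              · rw [h8, h9]
              · rw [h8, h9, Sym2.eq_swap]
            · rw [retr_ne r hk, retr_ne r hk]
    have := key _ hreach
    rwa [retr_self] at this
  intro v w hvw
  rw [SimpleGraph.isBridge_iff]
  rcases v with _ | ⟨i, x⟩
  · rcases w with _ | ⟨j, y⟩
    · exact absurd hvw (SimpleGraph.irrefl _)
    · have h4 : y = r j := (hub_none_some G r).1 hvw
      subst h4
      intro h5
      exact hhub j h5.symm
  · rcases w with _ | ⟨j, y⟩
    · have h4 : x = r i := (hub_none_some G r).1 hvw.symm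
      subst h4
      intro h5
      rw [Sym2.eq_swap] at h5
      exact hhub i h5
    · obtain ⟨rfl, h5⟩ := (hub_some_some G r).1 hvw
      exact hcopy i x y h5

theorem hub_tree (h : ∀ i, (G i).IsTree) : (hubGraph G r).IsTree :=
  ⟨hub_conn G r fun i => (h i).connected, hub_acyclic G r fun i => (h i).isAcyclic⟩

end hub

theorem ftw_hub {ι : Type} {V : ι → Type} (G : ∀ i, SimpleGraph (V i)) (r : ∀ i, V i)
    (h : ∀ i, FiniteTreeWidth (G i)) : FiniteTreeWidth (hubGraph G r) := by
  classical
  choose τ T P hT hfin hedge hconn using h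
  have hroot : ∀ i, ∃ t, r i ∈ P i t := fun i => (conn_iff.1 (hconn i (r i))).1
  choose s hs using hroot
  let Q : Option (Σ i, τ i) → Set (Option (Σ i, V i)) := fun t =>
    match t with
    | none => {none}
    | some q => {z | (z = none ∧ q.2 = s q.1) ∨ ∃ x ∈ P q.1 q.2, z = some ⟨q.1, x⟩}
  have hQ0 : Q none = {none} := rfl
  have hQ1 : ∀ i t, Q (some ⟨i, t⟩) = {z | (z = none ∧ t = s i) ∨ ∃ x ∈ P i t, z = some ⟨i, x⟩} :=
    fun i t => rfl
  refine ⟨Option (Σ i, τ i), hubGraph T s, Q, hub_tree T s hT, ?_, ?_, ?_⟩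
  · rintro (_ | ⟨i, t⟩)
    · rw [hQ0]
      exact finite_singleton _
    · rw [hQ1]
      refine (((hfin i t).image fun x => some (⟨i, x⟩ : Σ i, V i)).insert none).subset ?_
      rintro z (⟨rfl, _⟩ | ⟨x, hx, rfl⟩)
      · exact Or.inl rfl
      · exact Or.inr ⟨x, hx, rfl⟩
  · rintro (_ | ⟨i, x⟩) (_ | ⟨j, y⟩) h
    · exact absurd h (SimpleGraph.irrefl _)
    · have h4 : y = r j := (hub_none_some G r).1 h
      subst h4
      exact ⟨some ⟨j, s j⟩, Or.inl ⟨rfl, rfl⟩, Or.inr ⟨_, hs j, rfl⟩⟩
    · have h4 : x = r i := (hub_none_some G r).1 h.symm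
      subst h4
      exact ⟨some ⟨i, s i⟩, Or.inr ⟨_, hs i, rfl⟩, Or.inl ⟨rfl, rfl⟩⟩
    · obtain ⟨rfl, h5⟩ := (hub_some_some G r).1 h
      obtain ⟨t, ht1, ht2⟩ := hedge i x y h5
      exact ⟨some ⟨i, t⟩, Or.inr ⟨x, ht1, rfl⟩, Or.inr ⟨y, ht2, rfl⟩⟩
  · rintro (_ | ⟨i, x⟩)
    · rw [conn_iff]
      have hmem : (none : Option (Σ i, τ i)) ∈ {t | none ∈ Q t} := by
        show none ∈ Q none
        rw [hQ0]
        rfl
      refine ⟨⟨none, hmem⟩, ?_⟩
      have key : ∀ t ∈ {t | none ∈ Q t}, Reach (hubGraph T s) {t | none ∈ Q t} none t := by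
        rintro (_ | ⟨i, t⟩) ht
        · exact Reach.refl hmem
        · have h1 : t = s i := by
            rcases ht with ⟨_, h1⟩ | ⟨x, _, h1⟩
            · exact h1
            · exact absurd h1 (by simp)
          exact Reach.of_adj hmem ht ((hub_none_some T s).2 h1)
      intro t ht t' ht'
      exact (key t ht).symm.trans (key t' ht')
    · have h1 : {t | some (⟨i, x⟩ : Σ i, V i) ∈ Q t} = hubCopy T s i '' {t | x ∈ P i t} := by
        ext t
        rcases t with _ | ⟨j, t⟩
        · simp only [mem_ofPred_eq, hQ0, mem_singleton_iff, mem_image]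
          constructor
          · intro h
            exact absurd h (by simp)
          · rintro ⟨t, _, h⟩
            exact absurd h (by simp [hubCopy])
        · constructor
          · rintro (⟨h, _⟩ | ⟨y, hy, h⟩)
            · exact absurd h (by simp)
            · have h3 := Option.some_injective _ h
              obtain ⟨rfl, h4⟩ := Sigma.mk.inj_iff.1 h3
              have h5 := eq_of_heq h4
              subst h5
              exact ⟨t, hy, rfl⟩
          · rintro ⟨t', ht', h⟩
            have h3 := Option.some_injective _ h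
            obtain ⟨rfl, h4⟩ := Sigma.mk.inj_iff.1 h3
            have h5 := eq_of_heq h4
            subst h5
            exact Or.inr ⟨x, ht', rfl⟩
      rw [h1, conn_iff]
      obtain ⟨h2, h3⟩ := conn_iff.1 (hconn i x)
      exact ⟨h2.image _, (conn_image (hubCopy T s i)).2 h3⟩

/-- The main theorem for graphs of finite tree-width. -/
theorem ftw_tfae :
    [WqoOn {G | FiniteTreeWidth G.2 ∧ G.2.Connected}, WqoOn {G | FiniteTreeWidth G.2},
      BqoOn {G | FiniteTreeWidth G.2}].TFAE :=
  cone_tfae (K := {G | FiniteTreeWidth G.2}) (fun _ hG _ hH => ftw_minor hG hH)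
    (fun _ _ _ G r _ h => ftw_hub G r h) (fun _ hG => ftw_cone hG)

theorem countable_minor {V W : Type} {G : SimpleGraph V} {H : SimpleGraph W} (h : Countable V)
    (hm : IsMinor H G) : Countable W := by
  obtain ⟨B, h1, h2, _⟩ := hm
  choose x hx using fun w => (conn_iff.1 (h1 w)).1
  refine Function.Injective.countable (f := x) ?_
  intro a b hab
  by_contra hne
  exact Set.disjoint_left.1 (h2 a b hne) (hx a) (hab ▸ hx b)

/-- The main theorem for countable graphs. -/
theorem countable_tfae :
    [WqoOn {G | Countable G.1 ∧ G.2.Connected}, WqoOn {G | Countable G.1},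
      BqoOn {G | Countable G.1}].TFAE := by
  refine cone_tfae (K := {G | Countable G.1}) (fun _ hG _ hH => countable_minor hG hH) ?_ ?_
  · intro ι hι V G r _ h
    have h' : ∀ i, Countable (V i) := h
    show Countable (Option (Σ i, V i))
    infer_instance
  · intro G hG
    have h' : Countable G.1 := hG
    show Countable (Option G.1)
    infer_instance

end Run7.h891.Cls
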