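import Pool.Agent.Run7.h891.Antichain

/-! Guests and hosts. -/

set_option autoImplicit false

open Set Ordinal

namespace Run7.h891

universe u v w

variable {V : Type u} {W : Type v} {U : Type w}

section partialEmb

variable {T : SimpleGraph V} {K : SimpleGraph U} {e : V → U} {Z : Set V}

theorem reach_pull (hinj : InjOn e Z) (hadj : ∀ x ∈ Z, ∀ y ∈ Z, K.Adj (e x) (e y) → T.Adj x y)
    {A : Set U} (hA : A ⊆ e '' Z) {x y : V} (hx : x ∈ Z) (hy : y ∈ Z)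
    (h : Reach K A (e x) (e y)) : Reach T {x ∈ Z | e x ∈ A} x y := by
  have : e y ∈ {z | ∃ y' ∈ Z, e y' = z ∧ Reach T {x ∈ Z | e x ∈ A} x y'} := by
    refine h.closed ⟨x, hx, rfl, Reach.refl ⟨hx, h.left⟩⟩ ?_
    rintro _ ⟨a, ha, rfl, hxa⟩ _ b hb hab
    obtain ⟨b, hbZ, rfl⟩ := hA hb
    exact ⟨b, hbZ, rfl, hxa.step (hadj a ha b hbZ hab) ⟨hbZ, hb⟩⟩
  obtain ⟨y', hy', he, h'⟩ := this
  rwa [← hinj hy' hy he]

theorem conn_push (hadj : ∀ x ∈ Z, ∀ y ∈ Z, T.Adj x y → K.Adj (e x) (e y)) {A : Set V}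
    (hA : A ⊆ Z) (h : Conn T A) : Conn K (e '' A) := by
  rintro _ ⟨x, hx, rfl⟩ _ ⟨y, hy, rfl⟩
  have hxy := h x hx y hy
  refine hxy.induct (P := fun y => Reach K (e '' A) (e x) (e y))
    (Reach.refl (mem_image_of_mem e hx)) ?_
  intro a b ha hxa hb hab
  exact ha.step (hadj a (hA hxa.right) b (hA hb) hab) (mem_image_of_mem e hb)

/-- Pull back a model along a map which is an embedding on `Z`. -/
theorem IsModel.pull' (hinj : InjOn e Z)
    (hadj : ∀ x ∈ Z, ∀ y ∈ Z, K.Adj (e x) (e y) → T.Adj x y) {H : SimpleGraph W}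
    {Y : Set W} {B : W → Set U} (h : IsModel H Y K (e '' Z) B) :
    IsModel H Y T Z (fun w => {x ∈ Z | e x ∈ B w}) := by
  refine ⟨?_, ?_, ?_, ?_, ?_⟩
  · intro w _ x hx
    exact hx.1
  · intro w hw
    obtain ⟨z, hz⟩ := h.ne w hw
    obtain ⟨a, ha, rfl⟩ := h.sub w hw hz
    exact ⟨a, ha, hz⟩
  · intro w hw x hx y hy
    exact reach_pull hinj hadj (h.sub w hw) hx.1 hy.1 (h.conn w hw _ hx.2 _ hy.2)
  · intro a ha b hb hab
    rw [Set.disjoint_left]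
    intro x hxa hxb
    exact Set.disjoint_left.1 (h.disj a ha b hb hab) hxa.2 hxb.2
  · intro a ha b hb hab
    obtain ⟨x, hx, y, hy, hxy⟩ := h.adj a ha b hb hab
    obtain ⟨x, hxZ, rfl⟩ := h.sub a ha hx
    obtain ⟨y, hyZ, rfl⟩ := h.sub b hb hy
    exact ⟨x, ⟨hxZ, hx⟩, y, ⟨hyZ, hy⟩, hadj x hxZ y hyZ hxy⟩

/-- Precompose a model with a map which is an embedding on `Z`. -/
theorem IsModel.precomp (hinj : InjOn e Z)
    (hadj : ∀ x ∈ Z, ∀ y ∈ Z, T.Adj x y → K.Adj (e x) (e y)) {G : SimpleGraph W}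
    {X : Set W} {B : U → Set W} (h : IsModel K (e '' Z) G X B) :
    IsModel T Z G X (fun z => B (e z)) where
  sub _ hz := h.sub _ (mem_image_of_mem e hz)
  ne _ hz := h.ne _ (mem_image_of_mem e hz)
  conn _ hz := h.conn _ (mem_image_of_mem e hz)
  disj _ ha _ hb hab := h.disj _ (mem_image_of_mem e ha) _ (mem_image_of_mem e hb)
    (fun h => hab (hinj ha hb h))
  adj a ha b hb hab := h.adj _ (mem_image_of_mem e ha) _ (mem_image_of_mem e hb)
    (hadj a ha b hb hab)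

theorem minor_partial (hinj : InjOn e Z)
    (hadj : ∀ x ∈ Z, ∀ y ∈ Z, K.Adj (e x) (e y) → T.Adj x y) : Minor K (e '' Z) T Z :=
  ⟨_, (IsModel.refl K (X := e '' Z) subset_rfl).pull' hinj hadj⟩

end partialEmb

section gadget

variable (K : ℕ → SimpleGraph W) (Z : ℕ → Set W)

/-- The graphs attached to a hub: infinitely many copies of `K 0`, and `K (n + 1)`. -/
def famG : ℕ ⊕ ℕ → SimpleGraph W
  | .inl _ => K 0
  | .inr n => K (n + 1)

/-- Their carriers. -/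
def famZ : ℕ ⊕ ℕ → Set W
  | .inl _ => Z 0
  | .inr n => Z (n + 1)

/-- The graph carrying all gadgets. -/
def gadG : SimpleGraph (Unit ⊕ (ℕ ⊕ ℕ) × W) := star (famG K)

/-- The indices used by the gadget with labels `N`. -/
def gadI (N : Set ℕ) : Set (ℕ ⊕ ℕ) := {i | ∀ n, i = .inr n → n ∈ N}

/-- The gadget with label set `N`. -/
def gadZ (N : Set ℕ) : Set (Unit ⊕ (ℕ ⊕ ℕ) × W) := starSet (gadI N) (famZ Z)

theorem gadZ_conn (N : Set ℕ) : Conn (gadG K) (gadZ Z N) := star_conn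

theorem hub_mem_gadZ (N : Set ℕ) : (Sum.inl () : Unit ⊕ (ℕ ⊕ ℕ) × W) ∈ gadZ Z N :=
  hub_mem_starSet

theorem gadZ_mono {N M : Set ℕ} (h : N ⊆ M) : gadZ Z N ⊆ gadZ Z M := by
  rintro (⟨⟩ | ⟨i, x⟩) hz
  · exact hub_mem_starSet
  · simp only [gadZ, inr_mem_starSet] at hz ⊢
    exact ⟨fun n hn => h (hz.1 n hn), hz.2⟩

variable {K Z}

theorem famG_rank {ρ : Ordinal.{0}} (h : ∀ n, RankLE (K n) ρ (Z n)) (i : ℕ ⊕ ℕ) :
    RankLE (famG K i) ρ (famZ Z i) := by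
  rcases i with i | i
  · exact h 0
  · exact h (i + 1)

theorem gadZ_rank {ρ : Ordinal.{0}} (h : ∀ n, RankLE (K n) ρ (Z n)) (N : Set ℕ) :
    RankLE (gadG K) (Order.succ ρ) (gadZ Z N) :=
  star_rank_le fun i _ => ⟨ρ, Order.lt_succ ρ, famG_rank h i⟩

/-- A model of the gadget with labels `N` in the gadget with labels `M` uses the hub for the
hub, and `N ⊆ M`. -/
theorem gad_model {ρ : Ordinal.{0}} (hc : ∀ n, Conn (K n) (Z n)) (hne : ∀ n, (Z n).Nonempty)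
    (hr : ∀ n, RankLE (K n) ρ (Z n)) (hr' : ∀ n, ∀ γ < ρ, ¬ RankLE (K n) γ (Z n))
    (ha : ∀ i j, i ≠ j → ¬ Minor (K i) (Z i) (K j) (Z j)) {N M : Set ℕ}
    {B : Unit ⊕ (ℕ ⊕ ℕ) × W → Set (Unit ⊕ (ℕ ⊕ ℕ) × W)}
    (hB : IsModel (gadG K) (gadZ Z N) (gadG K) (gadZ Z M) B) :
    Sum.inl () ∈ B (.inl ()) ∧ N ⊆ M := by
  have hfc : ∀ i, Conn (famG K i) (famZ Z i) := by
    rintro (i | i)
    · exact hc 0
    · exact hc (i + 1)
  have hfne : ∀ i, (famZ Z i).Nonempty := by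
    rintro (i | i)
    · exact hne 0
    · exact hne (i + 1)
  have hhub : Sum.inl () ∈ B (.inl ()) := by
    obtain ⟨x, hx, hx'⟩ := hub (R := {Sum.inl ()}) (β := ρ) (finite_singleton _) (by
        intro z hz
        obtain ⟨i, _, hsub⟩ := star_comp (T := famG K) (I := gadI M) (Z := famZ Z) comp_conn
          ⟨z, mem_comp_self hz⟩ (comp_subset.trans sdiff_subset) (fun h => (comp_subset h).2 rfl)
        exact (copy_rank.2 (famG_rank hr i)).mono_set hsub) hB (hub_mem_gadZ Z N)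
      (I := (Set.univ : Set ℕ)) Set.infinite_univ
      (P := fun n => copySet Unit (Sum.inl n) (Z 0))
      (fun n _ => star_copySet_subset (I := gadI N) (Z := famZ Z) (i := Sum.inl n)
        (by intro m hm; simp at hm))
      (fun i _ j _ hij => copySet_disjoint (by simpa using hij) _ _)
      (fun n _ => (copy_conn (T := famG K) (i := Sum.inl n)).2 (hc 0))
      (fun n _ => by
        obtain ⟨x, hx⟩ := hne 0
        exact ⟨_, ⟨x, hx, rfl⟩, star_adj_hub⟩)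
      (fun n _ γ hγ h => hr' 0 γ hγ ((copy_rank (T := famG K) (i := Sum.inl n)).1 h))
    rw [mem_singleton_iff] at hx'
    rwa [hx'] at hx
  refine ⟨hhub, fun n hn => ?_⟩
  have hmem : (Sum.inr n : ℕ ⊕ ℕ) ∈ gadI N := by
    intro m hm
    rw [← Sum.inr_injective hm]
    exact hn
  have hsubP : copySet Unit (Sum.inr n) (famZ Z (Sum.inr n)) ⊆ gadZ Z N :=
    star_copySet_subset (I := gadI N) (Z := famZ Z) hmem
  obtain ⟨i, hi, h⟩ := star_model_in_copy (T := famG K) (I := gadI M) (Z := famZ Z) hB hsubP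
    ((copy_conn (T := famG K) (i := Sum.inr n)).2 (hfc _)) ((hfne _).image _) (by
      intro w hw h
      have h1 := hB.eq_of_mem (hsubP hw) (hub_mem_gadZ Z N) h hhub
      rw [h1] at hw
      exact inl_not_mem_copySet hw)
  have h' := (minor_copy_left (T := famG K) (i := Sum.inr n)).1 h
  rcases i with i | i
  · exact absurd h' (ha _ _ (by omega))
  · have hni : n = i := by
      by_contra hne
      exact ha (n + 1) (i + 1) (by omega) h'
    rw [hni]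
    exact hi i rfl

end gadget

section family

variable (K : ℕ → SimpleGraph W) (Z : ℕ → Set W) {Q : Type*} {S : Type*}

/-- The disjoint union of the gadgets with labels `N q`, `q ∈ A`, together with isolated
vertices. -/
def famGraph (A : Set Q) (N : Q → Set ℕ) : SimpleGraph (Q × (Unit ⊕ (ℕ ⊕ ℕ) × W)) where
  Adj x y := x.1 = y.1 ∧ x.1 ∈ A ∧ x.2 ∈ gadZ Z (N x.1) ∧ y.2 ∈ gadZ Z (N x.1) ∧
    (gadG K).Adj x.2 y.2
  symm := ⟨by
    rintro ⟨q, x⟩ ⟨q', y⟩ ⟨h1, h2, h3, h4, h5⟩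
    simp only at h1 h2 h3 h4 h5
    subst h1
    exact ⟨rfl, h2, h4, h3, h5.symm⟩⟩
  loopless := ⟨by
    rintro ⟨q, x⟩ ⟨h1, h2, h3, h4, h5⟩
    exact (gadG K).loopless.irrefl _ h5⟩

/-- The vertices of the gadget `q`. -/
def gadAt (N : Q → Set ℕ) (q : Q) : Set (Q × (Unit ⊕ (ℕ ⊕ ℕ) × W)) :=
  (fun x => (q, x)) '' gadZ Z (N q)

variable {K Z}

theorem mem_gadAt {N : Q → Set ℕ} {q q' : Q} {x : Unit ⊕ (ℕ ⊕ ℕ) × W} :
    (q', x) ∈ gadAt Z N q ↔ q' = q ∧ x ∈ gadZ Z (N q) := by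
  constructor
  · rintro ⟨y, hy, h⟩
    obtain ⟨rfl, rfl⟩ := Prod.ext_iff.1 h
    exact ⟨rfl, hy⟩
  · rintro ⟨rfl, h⟩
    exact ⟨x, h, rfl⟩

theorem gadAt_conn {A : Set Q} {N : Q → Set ℕ} {q : Q} (hq : q ∈ A) :
    Conn (famGraph K Z A N) (gadAt Z N q) :=
  conn_push (T := gadG K) (K := famGraph K Z A N) (e := fun x => (q, x)) (Z := gadZ Z (N q))
    (fun _ hx _ hy h => ⟨rfl, hq, hx, hy, h⟩) subset_rfl (gadZ_conn K Z (N q))

theorem famGraph_rank {ρ : Ordinal.{0}} (hr : ∀ n, RankLE (K n) ρ (Z n)) (A : Set Q)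
    (N : Q → Set ℕ) : RankLE (famGraph K Z A N) (Order.succ (Order.succ ρ)) Set.univ := by
  refine RankLE.of_comps (S := ∅) finite_empty fun v _ => ?_
  refine ⟨Order.succ ρ, Order.lt_succ _, comp (famGraph K Z A N) (Set.univ \ ∅) v, subset_rfl, ?_⟩
  by_cases hv : v.1 ∈ A ∧ v.2 ∈ gadZ Z (N v.1)
  · have h1 : RankLE (famGraph K Z A N) (Order.succ ρ) (gadAt Z N v.1) := by
      refine (gadZ_rank hr (N v.1)).of_minor ?_
      refine minor_partial (fun x _ y _ h => (Prod.ext_iff.1 h).2) ?_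
      intro x _ y _ h
      exact h.2.2.2.2
    refine h1.mono_set ?_
    intro z hz
    refine Reach.closed hz ?_ ?_
    · exact mem_gadAt.2 ⟨rfl, hv.2⟩
    · rintro ⟨q, x⟩ ha _ ⟨q', y⟩ _ ⟨h1, h2, h3, h4, _⟩
      rw [mem_gadAt] at ha ⊢
      simp only at h1 h4
      subst h1
      obtain ⟨rfl, _⟩ := ha
      exact ⟨rfl, h4⟩
  · refine RankLE.of_finite ((finite_singleton v).subset ?_)
    intro z hz
    refine Reach.closed hz rfl ?_
    rintro a rfl _ b _ ⟨_, h2, h3, _, _⟩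
    exact absurd ⟨h2, h3⟩ hv

/-- Minors between families of gadgets are given by matchings. -/
theorem fam_minor_iff {ρ : Ordinal.{0}} (hc : ∀ n, Conn (K n) (Z n)) (hne : ∀ n, (Z n).Nonempty)
    (hr : ∀ n, RankLE (K n) ρ (Z n)) (hr' : ∀ n, ∀ γ < ρ, ¬ RankLE (K n) γ (Z n))
    (ha : ∀ i j, i ≠ j → ¬ Minor (K i) (Z i) (K j) (Z j)) [Nonempty S] (A : Set Q)
    (N : Q → Set ℕ) (A' : Set S) (M : S → Set ℕ) :
    Minor (famGraph K Z A N) Set.univ
      (famGraph K Z (Sum.inl '' A' : Set (S ⊕ Q)) (Sum.elim M fun _ => ∅)) Set.univ ↔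
    ∃ σ : Q → S, InjOn σ A ∧ ∀ q ∈ A, σ q ∈ A' ∧ N q ⊆ M (σ q) := by
  classical
  constructor
  · rintro ⟨B, hB⟩
    have key : ∀ q : Q, ∃ s : S, q ∈ A → s ∈ A' ∧ N q ⊆ M s ∧
        ((Sum.inl s, Sum.inl ()) : (S ⊕ Q) × (Unit ⊕ (ℕ ⊕ ℕ) × W)) ∈ B (q, .inl ()) := by
      intro q
      by_cases hq : q ∈ A
      swap
      · exact ⟨Classical.arbitrary S, fun h => absurd h hq⟩
      -- an edge at the hub
      obtain ⟨x0, hx0⟩ := hne 0
      have hx0' : (Sum.inr (Sum.inl 0, x0) : Unit ⊕ (ℕ ⊕ ℕ) × W) ∈ gadZ Z (N q) := by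
        simp only [gadZ, inr_mem_starSet]
        exact ⟨by intro m hm; simp at hm, hx0⟩
      have hedge : (famGraph K Z A N).Adj (q, .inl ()) (q, .inr (.inl 0, x0)) :=
        ⟨rfl, hq, hub_mem_gadZ Z _, hx0', star_adj_hub⟩
      obtain ⟨⟨t, u⟩, htu, ⟨t', u'⟩, _, hadj⟩ := hB.adj _ (mem_univ _) _ (mem_univ _) hedge
      obtain ⟨h1, ⟨s, hs, h2⟩, h3, h4, _⟩ := hadj
      simp only at h1 h2 h3 h4
      subst h1
      subst h2
      -- everything is inside the host `s`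
      have hconn := hB.conn_union (T := gadAt Z N q) (subset_univ _) (gadAt_conn hq)
      have hsub : (⋃ t ∈ gadAt Z N q, B t) ⊆
          (fun x => ((Sum.inl s : S ⊕ Q), x)) '' gadZ Z (M s) := by
        intro z hz
        refine (hconn (Sum.inl s, u) ?_ z hz).closed ?_ ?_
        · exact mem_biUnion (mem_gadAt.2 ⟨rfl, hub_mem_gadZ Z _⟩) htu
        · exact ⟨u, h3, rfl⟩
        · rintro _ ⟨y, hy, rfl⟩ _ ⟨r, b⟩ _ ⟨k1, _, _, k4, _⟩
          simp only at k1 k4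
          subst k1
          exact ⟨b, k4, rfl⟩
      have hB1 : IsModel (famGraph K Z A N) (gadAt Z N q)
          (famGraph K Z (Sum.inl '' A' : Set (S ⊕ Q)) (Sum.elim M fun _ => ∅))
          ((fun x => ((Sum.inl s : S ⊕ Q), x)) '' gadZ Z (M s)) B :=
        (hB.restrict (subset_univ _)).shrink
          (fun t ht => (subset_biUnion_of_mem ht).trans hsub)
      have hB2 := IsModel.precomp (T := gadG K) (K := famGraph K Z A N) (e := fun x => (q, x))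
        (Z := gadZ Z (N q)) (fun x _ y _ h => (Prod.ext_iff.1 h).2)
        (fun _ hx _ hy h => ⟨rfl, hq, hx, hy, h⟩) hB1
      have hB3 := IsModel.pull' (T := gadG K)
        (K := famGraph K Z (Sum.inl '' A' : Set (S ⊕ Q)) (Sum.elim M fun _ => ∅))
        (e := fun x => ((Sum.inl s : S ⊕ Q), x))
        (Z := gadZ Z (M s)) (fun x _ y _ h => (Prod.ext_iff.1 h).2)
        (fun _ _ _ _ h => h.2.2.2.2) hB2
      obtain ⟨h5, h6⟩ := gad_model hc hne hr hr' ha hB3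
      exact ⟨s, fun _ => ⟨hs, h6, h5.2⟩⟩
    choose σ hσ using key
    refine ⟨σ, ?_, fun q hq => ⟨(hσ q hq).1, (hσ q hq).2.1⟩⟩
    intro q hq q' hq' hqq
    have h1 := (hσ q hq).2.2
    have h2 := (hσ q' hq').2.2
    rw [← hqq] at h2
    have := hB.eq_of_mem (mem_univ _) (mem_univ _) h1 h2
    exact (Prod.ext_iff.1 this).1
  · rintro ⟨σ, hinj, hσ⟩
    let f : Q × (Unit ⊕ (ℕ ⊕ ℕ) × W) → (S ⊕ Q) × (Unit ⊕ (ℕ ⊕ ℕ) × W) := fun p =>
      if p.1 ∈ A ∧ p.2 ∈ gadZ Z (N p.1) then (.inl (σ p.1), p.2) else (.inr p.1, p.2)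
    have hf1 : ∀ p, p.1 ∈ A ∧ p.2 ∈ gadZ Z (N p.1) → f p = (.inl (σ p.1), p.2) := fun p hp =>
      if_pos hp
    have hf2 : ∀ p, ¬ (p.1 ∈ A ∧ p.2 ∈ gadZ Z (N p.1)) → f p = (.inr p.1, p.2) := fun p hp =>
      if_neg hp
    have hfinj : Function.Injective f := by
      intro p p' hpp
      by_cases h : p.1 ∈ A ∧ p.2 ∈ gadZ Z (N p.1)
      · by_cases h' : p'.1 ∈ A ∧ p'.2 ∈ gadZ Z (N p'.1)
        · rw [hf1 p h, hf1 p' h'] at hpp
          obtain ⟨h1, h2⟩ := Prod.ext_iff.1 hpp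
          exact Prod.ext (hinj h.1 h'.1 (Sum.inl_injective h1)) h2
        · rw [hf1 p h, hf2 p' h'] at hpp
          exact absurd (Prod.ext_iff.1 hpp).1 (by simp)
      · by_cases h' : p'.1 ∈ A ∧ p'.2 ∈ gadZ Z (N p'.1)
        · rw [hf2 p h, hf1 p' h'] at hpp
          exact absurd (Prod.ext_iff.1 hpp).1 (by simp)
        · rw [hf2 p h, hf2 p' h'] at hpp
          obtain ⟨h1, h2⟩ := Prod.ext_iff.1 hpp
          exact Prod.ext (Sum.inr_injective h1) h2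
    refine ⟨fun p => {f p}, fun _ _ => subset_univ _, fun _ _ => singleton_nonempty _,
      fun _ _ => conn_singleton _ _, ?_, ?_⟩
    · intro a _ b _ hab
      simpa using fun h => hab (hfinj h)
    · rintro ⟨q, x⟩ _ ⟨q', y⟩ _ ⟨h1, h2, h3, h4, h5⟩
      simp only at h1 h2 h3 h4 h5
      subst h1
      refine ⟨_, rfl, _, rfl, ?_⟩
      rw [hf1 (q, x) ⟨h2, h3⟩, hf1 (q, y) ⟨h2, h4⟩]
      refine ⟨rfl, mem_image_of_mem _ (hσ q h2).1, ?_, ?_, h5⟩
      · exact gadZ_mono Z (hσ q h2).2 h3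
      · exact gadZ_mono Z (hσ q h2).2 h4

end family

end Run7.h891
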