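import Pool.Agent.Run7.h891.Rooted

/-! Glueing rooted minors of the components. -/

set_option autoImplicit false

open Set Ordinal

namespace Run7.h891

variable {Q : Type}

/-- The non-root part. -/
def Code.core (x : Code Q) : Set ℕ := x.X \ range x.r

/-- The components of the non-root part. -/
def Code.comps (x : Code Q) : Set (Set ℕ) := {D | ∃ v ∈ x.core, D = comp x.G x.core v}

/-- The subgraph formed by the roots and `D`. -/
def Code.sub (x : Code Q) (D : Set ℕ) : Code Q where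
  G := x.G
  X := range x.r ∪ D
  r := x.r
  inj := x.inj
  mem q := Or.inl ⟨q, rfl⟩

theorem Code.comps_subset {x : Code Q} {D : Set ℕ} (h : D ∈ x.comps) : D ⊆ x.core := by
  obtain ⟨v, hv, rfl⟩ := h
  exact comp_subset

theorem Code.sub_subset {x : Code Q} {D : Set ℕ} (h : D ∈ x.comps) : (x.sub D).X ⊆ x.X := by
  rintro z (⟨q, rfl⟩ | hz)
  · exact x.mem q
  · exact (x.comps_subset h hz).1

theorem Code.comp_mem {x : Code Q} {v : ℕ} (hv : v ∈ x.core) : comp x.G x.core v ∈ x.comps :=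
  ⟨v, hv, rfl⟩

theorem Code.eq_comp {x : Code Q} {D : Set ℕ} (h : D ∈ x.comps) {v : ℕ} (hv : v ∈ D) :
    D = comp x.G x.core v := by
  obtain ⟨w, hw, rfl⟩ := h
  exact (comp_eq_of_mem hv).symm

theorem Code.comps_eq {x : Code Q} {D D' : Set ℕ} (h : D ∈ x.comps) (h' : D' ∈ x.comps) {v : ℕ}
    (hv : v ∈ D) (hv' : v ∈ D') : D = D' := by
  rw [Code.eq_comp h hv, Code.eq_comp h' hv']

theorem conn_iUnion_common {V : Type*} {G : SimpleGraph V} {ι : Type*} {I : Set ι}
    {A : ι → Set V} {p : V} (hA : ∀ i ∈ I, Conn G (A i)) (hp : ∀ i ∈ I, p ∈ A i) :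
    Conn G (⋃ i ∈ I, A i) := by
  have key : ∀ z ∈ ⋃ i ∈ I, A i, Reach G (⋃ i ∈ I, A i) p z := by
    intro z hz
    simp only [mem_iUnion, exists_prop] at hz
    obtain ⟨i, hi, hz⟩ := hz
    exact (hA i hi p (hp i hi) z hz).mono (subset_biUnion_of_mem hi)
  intro x hx y hy
  exact (key x hx).symm.trans (key y hy)

/-- Glueing. -/
theorem glue {x y : Code Q} (hne : x.comps.Nonempty) (φ : Set ℕ → Set ℕ)
    (hφ : ∀ D ∈ x.comps, φ D ∈ y.comps) (hinj : InjOn φ x.comps)
    (h : ∀ D ∈ x.comps, RLE (x.sub D) (y.sub (φ D))) : RLE x y := by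
  classical
  have h' : ∀ D : Set ℕ, ∃ B : ℕ → Set ℕ, D ∈ x.comps →
      IsModel x.G (x.sub D).X y.G (y.sub (φ D)).X B ∧ ∀ q, y.r q ∈ B (x.r q) := by
    intro D
    by_cases hD : D ∈ x.comps
    · obtain ⟨B, hB⟩ := h D hD
      exact ⟨B, fun _ => hB⟩
    · exact ⟨fun _ => ∅, fun h => absurd h hD⟩
  choose B hB using h'
  have hroot : ∀ D, D ∈ x.comps → ∀ q, x.r q ∈ (x.sub D).X := fun D _ q => Or.inl ⟨q, rfl⟩
  have hcore : ∀ v ∈ x.core, ∀ q, v ≠ x.r q := fun v hv q h => hv.2 ⟨q, h.symm⟩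
  have hycore : ∀ D ∈ y.comps, ∀ z ∈ D, ∀ q, z ≠ y.r q := fun D hD z hz q h =>
    (y.comps_subset hD hz).2 ⟨q, h.symm⟩
  -- branch sets of nonroots stay in the component
  have hin : ∀ D ∈ x.comps, ∀ v ∈ D, B D v ⊆ φ D := by
    intro D hD v hv z hz
    have hvX : v ∈ (x.sub D).X := Or.inr hv
    rcases (hB D hD).1.sub v hvX hz with ⟨q, rfl⟩ | h
    · exfalso
      have := (hB D hD).1.eq_of_mem hvX (hroot D hD q) hz ((hB D hD).2 q)
      exact hcore v (x.comps_subset hD hv) q this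
    · exact h
  -- branch sets of roots meet the roots only in their own root
  have hrr : ∀ D ∈ x.comps, ∀ q p, y.r p ∈ B D (x.r q) → p = q := by
    intro D hD q p hz
    have := (hB D hD).1.eq_of_mem (hroot D hD q) (hroot D hD p) hz ((hB D hD).2 p)
    exact (x.inj this).symm
  have hφD : ∀ D ∈ x.comps, ∀ D' ∈ x.comps, ∀ z, z ∈ φ D → z ∈ φ D' → D = D' := by
    intro D hD D' hD' z hz hz'
    exact hinj hD hD' (Code.comps_eq (hφ D hD) (hφ D' hD') hz hz')
  let BB : ℕ → Set ℕ := fun v =>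
    if v ∈ range x.r then ⋃ D ∈ x.comps, B D v else B (comp x.G x.core v) v
  have hBBr : ∀ q, BB (x.r q) = ⋃ D ∈ x.comps, B D (x.r q) := fun q => if_pos ⟨q, rfl⟩
  have hBBn : ∀ v ∈ x.core, BB v = B (comp x.G x.core v) v := fun v hv => if_neg hv.2
  have hcase : ∀ v ∈ x.X, (∃ q, v = x.r q) ∨ v ∈ x.core := by
    intro v hv
    by_cases h : v ∈ range x.r
    · obtain ⟨q, rfl⟩ := h
      exact Or.inl ⟨q, rfl⟩
    · exact Or.inr ⟨hv, h⟩
  have hrn : ∀ q, ∀ v ∈ x.core, Disjoint (BB (x.r q)) (BB v) := by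
    intro q v hv
    rw [hBBr, hBBn v hv, Set.disjoint_left]
    intro z hz hz'
    simp only [mem_iUnion, exists_prop] at hz
    obtain ⟨D, hD, hz⟩ := hz
    have hDv := x.comp_mem hv
    have h1 := hin _ hDv v (mem_comp_self hv) hz'
    have h2 : z ∈ φ D := by
      rcases (hB D hD).1.sub _ (hroot D hD q) hz with ⟨p, rfl⟩ | h
      · exact absurd rfl (hycore _ (hφ _ hDv) _ h1 p)
      · exact h
    have h3 := hφD D hD _ hDv z h2 h1
    rw [← h3] at hz'
    have hvD : v ∈ D := by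
      rw [h3]
      exact mem_comp_self hv
    have := (hB D hD).1.eq_of_mem (hroot D hD q) (Or.inr hvD : v ∈ (x.sub D).X) hz hz'
    exact hcore v hv q this.symm
  refine ⟨BB, ⟨?_, ?_, ?_, ?_, ?_⟩, ?_⟩
  · -- sub
    intro v hv
    rcases hcase v hv with ⟨q, rfl⟩ | hv
    · rw [hBBr]
      refine iUnion₂_subset fun D hD => ?_
      exact ((hB D hD).1.sub _ (hroot D hD q)).trans (y.sub_subset (hφ D hD))
    · rw [hBBn v hv]
      have hDv := x.comp_mem hv
      exact (hin _ hDv v (mem_comp_self hv)).trans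
        ((y.comps_subset (hφ _ hDv)).trans sdiff_subset)
  · -- ne
    intro v hv
    rcases hcase v hv with ⟨q, rfl⟩ | hv
    · rw [hBBr]
      obtain ⟨D, hD⟩ := hne
      exact ⟨y.r q, mem_biUnion hD ((hB D hD).2 q)⟩
    · rw [hBBn v hv]
      have hDv := x.comp_mem hv
      exact (hB _ hDv).1.ne v (Or.inr (mem_comp_self hv))
  · -- conn
    intro v hv
    rcases hcase v hv with ⟨q, rfl⟩ | hv
    · rw [hBBr]
      exact conn_iUnion_common (p := y.r q)
        (fun D hD => (hB D hD).1.conn _ (hroot D hD q)) (fun D hD => (hB D hD).2 q)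
    · rw [hBBn v hv]
      have hDv := x.comp_mem hv
      exact (hB _ hDv).1.conn v (Or.inr (mem_comp_self hv))
  · -- disj
    intro a ha b hb hab
    rcases hcase a ha with ⟨q, rfl⟩ | ha <;> rcases hcase b hb with ⟨q', rfl⟩ | hb
    · rw [hBBr, hBBr, Set.disjoint_left]
      intro z hz hz'
      simp only [mem_iUnion, exists_prop] at hz hz'
      obtain ⟨D, hD, hz⟩ := hz
      obtain ⟨D', hD', hz'⟩ := hz'
      rcases (hB D hD).1.sub _ (hroot D hD q) hz with ⟨p, rfl⟩ | h1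
      · have h2 := hrr D hD q p hz
        have h3 := hrr D' hD' q' p hz'
        rw [h2] at h3
        exact hab (by rw [h3])
      · rcases (hB D' hD').1.sub _ (hroot D' hD' q') hz' with ⟨p, rfl⟩ | h2
        · exact hycore _ (hφ D hD) _ h1 p rfl
        · have h3 := hφD D hD D' hD' z h1 h2
          subst h3
          exact hab ((hB D hD).1.eq_of_mem (hroot D hD q) (hroot D hD q') hz hz')
    · exact hrn q b hb
    · exact (hrn q' a ha).symm
    · rw [hBBn a ha, hBBn b hb, Set.disjoint_left]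
      intro z hz hz'
      have hDa := x.comp_mem ha
      have hDb := x.comp_mem hb
      have h1 := hin _ hDa a (mem_comp_self ha) hz
      have h2 := hin _ hDb b (mem_comp_self hb) hz'
      have h3 := hφD _ hDa _ hDb z h1 h2
      rw [← h3] at hz'
      have hb' : b ∈ comp x.G x.core a := by
        rw [h3]
        exact mem_comp_self hb
      exact hab ((hB _ hDa).1.eq_of_mem (Or.inr (mem_comp_self ha) : a ∈ (x.sub _).X)
        (Or.inr hb' : b ∈ (x.sub _).X) hz hz')
  · -- adj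
    have hadj1 : ∀ q, ∀ v ∈ x.core, x.G.Adj (x.r q) v →
        ∃ x1 ∈ BB (x.r q), ∃ y1 ∈ BB v, y.G.Adj x1 y1 := by
      intro q v hv hqv
      have hDv := x.comp_mem hv
      obtain ⟨x1, hx1, y1, hy1, h1⟩ := (hB _ hDv).1.adj _ (hroot _ hDv q) v
        (Or.inr (mem_comp_self hv)) hqv
      refine ⟨x1, ?_, y1, ?_, h1⟩
      · rw [hBBr]
        exact mem_biUnion hDv hx1
      · rw [hBBn v hv]
        exact hy1
    intro a ha b hb hab
    rcases hcase a ha with ⟨q, rfl⟩ | ha <;> rcases hcase b hb with ⟨q', rfl⟩ | hb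
    · obtain ⟨D, hD⟩ := hne
      obtain ⟨x1, hx1, y1, hy1, h1⟩ := (hB D hD).1.adj _ (hroot D hD q) _ (hroot D hD q') hab
      refine ⟨x1, ?_, y1, ?_, h1⟩
      · rw [hBBr]
        exact mem_biUnion hD hx1
      · rw [hBBr]
        exact mem_biUnion hD hy1
    · exact hadj1 q b hb hab
    · obtain ⟨x1, hx1, y1, hy1, h1⟩ := hadj1 q' a ha hab.symm
      exact ⟨y1, hy1, x1, hx1, h1.symm⟩
    · have hDa := x.comp_mem ha
      have hb' : b ∈ comp x.G x.core a := comp_closed (mem_comp_self ha) hb hab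
      obtain ⟨x1, hx1, y1, hy1, h1⟩ := (hB _ hDa).1.adj a (Or.inr (mem_comp_self ha)) b
        (Or.inr hb') hab
      refine ⟨x1, ?_, y1, ?_, h1⟩
      · rw [hBBn a ha]
        exact hx1
      · rw [hBBn b hb, comp_eq_of_mem hb']
        exact hy1
  · intro q
    rw [hBBr]
    obtain ⟨D, hD⟩ := hne
    exact mem_biUnion hD ((hB D hD).2 q)

end Run7.h891
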