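import Pool.Agent.Run7.h891.Rooted

/-! Private root groups: a counting lemma, a second hub lemma, ranks of unions. -/

set_option autoImplicit false

open Set Ordinal

namespace Run7.h891

universe u v w

variable {V : Type u} {W : Type v} {U : Type w}

/-- The group of a root. -/
def grp {k : ℕ} (e : Fin (3 ^ (k + 1))) : ℕ := Nat.log 3 e.1

theorem grp_le {k : ℕ} (e : Fin (3 ^ (k + 1))) : grp e ≤ k := by
  unfold grp
  by_cases h : e.1 = 0
  · rw [h]
    simp
  · exact Nat.lt_succ_iff.1 (Nat.log_lt_of_lt_pow h e.2)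

/-- The elements of group `c`: at least three. -/
theorem exists_grp {k c : ℕ} (hc : c ≤ k) :
    ∃ e1 e2 : Fin (3 ^ (k + 1)), e1 ≠ e2 ∧ grp e1 = c ∧ grp e2 = c := by
  have h1 : 3 ^ c < 3 ^ (c + 1) := Nat.pow_lt_pow_right (by norm_num) (Nat.lt_succ_self c)
  have h2 : 3 ^ (c + 1) ≤ 3 ^ (k + 1) := Nat.pow_le_pow_right (by norm_num) (by omega)
  have h3 : 3 ^ c + 1 < 3 ^ (c + 1) := by
    have : 3 ^ (c + 1) = 3 * 3 ^ c := by ring
    have h4 : 1 ≤ 3 ^ c := Nat.one_le_pow _ _ (by norm_num)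
    omega
  refine ⟨⟨3 ^ c, by omega⟩, ⟨3 ^ c + 1, by omega⟩, ?_, ?_, ?_⟩
  · intro h
    have := congrArg Fin.val h
    simp at this
  · exact Nat.log_pow (by norm_num) c
  · exact Nat.log_eq_of_pow_le_of_lt_pow (Nat.le_succ _) h3

/-- The counting step. -/
theorem two_in_group {k c : ℕ} (hc : c ≤ k) {π : Fin (3 ^ (k + 1)) → Fin (3 ^ (k + 1))}
    (hπ : Function.Injective π) (h : ∀ e, grp e = c → grp (π e) ≤ c) :
    ∃ e1 e2 : Fin (3 ^ (k + 1)), e1 ≠ e2 ∧ grp e1 = c ∧ grp e2 = c ∧ grp (π e1) = c ∧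
      grp (π e2) = c := by
  classical
  by_contra hcon
  push Not at hcon
  have huniq : ∀ e1 e2, grp e1 = c → grp e2 = c → grp (π e1) = c → grp (π e2) = c → e1 = e2 := by
    intro e1 e2 h1 h2 h3 h4
    by_contra hne
    exact hcon e1 e2 hne h1 h2 h3 h4
  have h2 : 3 ^ (c + 1) ≤ 3 ^ (k + 1) := Nat.pow_le_pow_right (by norm_num) (by omega)
  rcases Nat.eq_zero_or_pos c with rfl | hcpos
  · obtain ⟨e1, e2, hne, he1, he2⟩ := exists_grp (k := k) (Nat.zero_le k)
    exact hne (huniq e1 e2 he1 he2 (Nat.le_zero.1 (h e1 he1)) (Nat.le_zero.1 (h e2 he2)))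
  · -- the elements `3 ^ c + i` with `i < 2 * 3 ^ c`
    have h3 : 3 ^ (c + 1) = 3 * 3 ^ c := by ring
    have h4 : 3 ≤ 3 ^ c := by
      calc 3 = 3 ^ 1 := by norm_num
        _ ≤ 3 ^ c := Nat.pow_le_pow_right (by norm_num) hcpos
    let el : Fin (2 * 3 ^ c) → Fin (3 ^ (k + 1)) := fun i => ⟨3 ^ c + i.1, by
      have := i.2
      omega⟩
    have hel : ∀ i, grp (el i) = c := by
      intro i
      have := i.2
      have h5 : 3 ^ c + i.1 < 3 ^ (c + 1) := by omega
      exact Nat.log_eq_of_pow_le_of_lt_pow (Nat.le_add_right _ _) h5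
    have helinj : Function.Injective el := by
      intro i j hij
      have := congrArg Fin.val hij
      simp only [el] at this
      exact Fin.ext (by omega)
    have hlt : ∀ e : Fin (3 ^ (k + 1)), grp e < c → e.1 < 3 ^ c := by
      intro e he
      exact Nat.lt_pow_of_log_lt (by norm_num) he
    let f : Fin (2 * 3 ^ c) → Option (Fin (3 ^ c)) := fun i =>
      if hi : grp (π (el i)) = c then none
      else some ⟨(π (el i)).1, hlt _ (lt_of_le_of_ne (h _ (hel i)) hi)⟩
    have hf : Function.Injective f := by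
      intro i j hij
      by_cases hi : grp (π (el i)) = c <;> by_cases hj : grp (π (el j)) = c
      · exact helinj (huniq _ _ (hel i) (hel j) hi hj)
      · simp [f, hi, hj] at hij
      · simp [f, hi, hj] at hij
      · simp only [f, dif_neg hi, dif_neg hj, Option.some.injEq, Fin.mk.injEq] at hij
        exact helinj (hπ (Fin.ext hij))
    have := Fintype.card_le_of_injective f hf
    simp only [Fintype.card_fin, Fintype.card_option] at this
    omega

/-- The abstract group argument. -/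
theorem groups_ok {k : ℕ} {π : Fin (3 ^ (k + 1)) → Fin (3 ^ (k + 1))}
    (hπ : Function.Injective π) {OK : ℕ → Prop}
    (h1 : ∀ c, c ≤ k → ∀ e1 e2, e1 ≠ e2 → grp e1 = c → grp e2 = c → grp (π e1) = c →
      grp (π e2) = c → OK c)
    (h2 : ∀ c, c ≤ k → OK c → ∀ e, grp e < c → grp (π e) ≠ c) :
    ∀ c, c ≤ k → OK c := by
  have key : ∀ d, d ≤ k → OK (k - d) := by
    intro d
    induction d using Nat.strong_induction_on with
    | _ d ih =>
      intro hd
      have hle : ∀ e, grp e = k - d → grp (π e) ≤ k - d := by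
        intro e he
        by_contra hcon
        push Not at hcon
        have h3 := grp_le (π e)
        have h4 : OK (grp (π e)) := by
          have := ih (k - grp (π e)) (by omega) (by omega)
          rwa [Nat.sub_sub_self h3] at this
        exact h2 _ h3 h4 e (by omega) rfl
      obtain ⟨e1, e2, hne, a1, a2, a3, a4⟩ := two_in_group (Nat.sub_le k d) hπ hle
      exact h1 _ (Nat.sub_le k d) e1 e2 hne a1 a2 a3 a4
  intro c hc
  have := key (k - c) (Nat.sub_le k c)
  rwa [Nat.sub_sub_self hc] at this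

/-- The second hub lemma: ranks cofinal in `β`. -/
theorem hub2 {K : SimpleGraph U} {Z R : Set U} {β : Ordinal.{0}} (hR : R.Finite)
    (hK : ∀ z ∈ Z \ R, ∃ δ < β, RankLE K δ (comp K (Z \ R) z)) {H : SimpleGraph W} {Y : Set W}
    {B : W → Set U} (hB : IsModel H Y K Z B) {s : W} (hs : s ∈ Y) {ι : Type*} {I : Set ι}
    {P : ι → Set W} (hI : ∀ δ < β, {i ∈ I | ∀ γ < δ, ¬ RankLE H γ (P i)}.Infinite)
    (hP : ∀ i ∈ I, P i ⊆ Y)
    (hPd : ∀ i ∈ I, ∀ j ∈ I, i ≠ j → Disjoint (P i) (P j)) (hPc : ∀ i ∈ I, Conn H (P i))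
    (hPs : ∀ i ∈ I, ∃ p ∈ P i, H.Adj s p) :
    (B s ∩ R).Nonempty := by
  by_contra hcon
  rw [← Set.not_disjoint_iff_nonempty_inter, not_not] at hcon
  obtain ⟨z0, hz0⟩ := hB.ne s hs
  have hz0' : z0 ∈ Z \ R := ⟨hB.sub s hs hz0, fun h => Set.disjoint_left.1 hcon hz0 h⟩
  obtain ⟨δ, hδ, hrk⟩ := hK z0 hz0'
  set X := comp K (Z \ R) z0 with hX
  have key : ∀ i ∈ I, (∀ w ∈ P i, Disjoint (B w) R) → ∀ w ∈ P i, B w ⊆ X := by
    intro i hi hiR w hw
    have hsub : ∀ w ∈ P i, B w ⊆ Z \ R := fun w hw x hx =>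
      ⟨hB.sub w (hP i hi hw) hx, fun h => Set.disjoint_left.1 (hiR w hw) hx h⟩
    have hsubs : B s ⊆ Z \ R := fun x hx =>
      ⟨hB.sub s hs hx, fun h => Set.disjoint_left.1 hcon hx h⟩
    have hsX : B s ⊆ X := conn_subset_comp_self (hB.conn s hs) hsubs hz0
    obtain ⟨p, hp, hsp⟩ := hPs i hi
    obtain ⟨x, hx, y, hy, hxy⟩ := hB.adj s hs p (hP i hi hp) hsp
    have hyX : y ∈ X := comp_closed (hsX hx) (hsub p hp hy) hxy
    have hconn := hB.conn_union (hP i hi) (hPc i hi)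
    have hall : (⋃ t ∈ P i, B t) ⊆ X :=
      conn_subset_comp hconn (iUnion₂_subset hsub) (mem_biUnion hp hy) hyX
    exact (subset_biUnion_of_mem hw).trans hall
  let I' : Set ι := {i ∈ I | ∀ γ < δ, ¬ RankLE H γ (P i)}
  have hI' : I'.Infinite := hI δ hδ
  have hav : ∀ F : Set U, F.Finite → ∃ i ∈ I', ∀ w ∈ P i, Disjoint (B w) F := fun F hF =>
    hB.avoid hI' (fun i hi => hP i hi.1) (fun i hi j hj => hPd i hi.1 j hj.1) hF
  rw [rankLE_iff] at hrk
  rcases hrk with hfin | ⟨S, hS, hrk⟩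
  · obtain ⟨i, hi, h⟩ := hav _ (hR.union hfin)
    obtain ⟨p, hp, _⟩ := hPs i hi.1
    obtain ⟨x, hx⟩ := hB.ne p (hP i hi.1 hp)
    have h1 := key i hi.1 (fun w hw => (h w hw).mono_right subset_union_left) p hp hx
    exact Set.disjoint_left.1 (h p hp) hx (Or.inr h1)
  · obtain ⟨i, hi, h⟩ := hav _ (hR.union hS)
    obtain ⟨p, hp, _⟩ := hPs i hi.1
    obtain ⟨x, hx⟩ := hB.ne p (hP i hi.1 hp)
    have h1 := key i hi.1 (fun w hw => (h w hw).mono_right subset_union_left)
    have hsub : ∀ w ∈ P i, B w ⊆ X \ S := fun w hw y hy =>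
      ⟨h1 w hw hy, fun hyS => Set.disjoint_left.1 (h w hw) hy (Or.inr hyS)⟩
    obtain ⟨γ, hγ, h'⟩ := hrk x (hsub p hp hx)
    have hconn := hB.conn_union (hP i hi.1) (hPc i hi.1)
    have hall : (⋃ t ∈ P i, B t) ⊆ comp K (X \ S) x :=
      conn_subset_comp_self hconn (iUnion₂_subset hsub) (mem_biUnion hp hx)
    refine hi.2 γ hγ (h'.of_model (B := B) ?_)
    exact (hB.restrict (hP i hi.1)).shrink (fun t ht => (subset_biUnion_of_mem ht).trans hall)

theorem RankLE.exists_set {G : SimpleGraph V} {α : Ordinal.{0}} {X : Set V}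
    (h : RankLE G α X) : ∃ S : Set V, S.Finite ∧
      ∀ v ∈ X \ S, ∃ β < α, RankLE G β (comp G (X \ S) v) := by
  rw [rankLE_iff] at h
  rcases h with h | h
  · exact ⟨X, h, fun v hv => absurd hv.1 hv.2⟩
  · exact h

/-- The rank of a union without edges between the two parts. -/
theorem RankLE.union {G : SimpleGraph V} {α : Ordinal.{0}} {X Y : Set V}
    (hX : RankLE G α X) (hY : RankLE G α Y) (h : ∀ x ∈ X, ∀ y ∈ Y, ¬ G.Adj x y) :
    RankLE G α (X ∪ Y) := by
  obtain ⟨S, hS, h1⟩ := hX.exists_set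
  obtain ⟨S', hS', h2⟩ := hY.exists_set
  refine RankLE.of_comps (hS.union hS') fun v hv => ?_
  rcases hv.1 with hvX | hvY
  · obtain ⟨β, hβ, h3⟩ := h1 v ⟨hvX, fun h => hv.2 (Or.inl h)⟩
    refine ⟨β, hβ, _, ?_, h3⟩
    intro z hz
    refine Reach.closed hz (P := comp G (X \ S) v)
      (mem_comp_self ⟨hvX, fun h => hv.2 (Or.inl h)⟩) ?_
    intro a ha _ b hb hab
    have haX := (comp_subset ha).1
    rcases hb.1 with hbX | hbY
    · exact comp_closed ha ⟨hbX, fun h => hb.2 (Or.inl h)⟩ hab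
    · exact absurd hab (h a haX b hbY)
  · obtain ⟨β, hβ, h3⟩ := h2 v ⟨hvY, fun h => hv.2 (Or.inr h)⟩
    refine ⟨β, hβ, _, ?_, h3⟩
    intro z hz
    refine Reach.closed hz (P := comp G (Y \ S') v)
      (mem_comp_self ⟨hvY, fun h => hv.2 (Or.inr h)⟩) ?_
    intro a ha _ b hb hab
    have haY := (comp_subset ha).1
    rcases hb.1 with hbX | hbY
    · exact absurd hab.symm (h b hbX a haY)
    · exact comp_closed ha ⟨hbY, fun h => hb.2 (Or.inr h)⟩ hab

theorem RankLE.biUnion {ι : Type*} {G : SimpleGraph V} {α : Ordinal.{0}} {X : ι → Set V}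
    (s : Finset ι) (hX : ∀ i ∈ s, RankLE G α (X i))
    (h : ∀ i ∈ s, ∀ j ∈ s, i ≠ j → ∀ x ∈ X i, ∀ y ∈ X j, ¬ G.Adj x y) :
    RankLE G α (⋃ i ∈ s, X i) := by
  classical
  induction s using Finset.induction_on with
  | empty =>
    refine RankLE.of_finite ?_
    simp
  | insert a s ha ih =>
    rw [Finset.set_biUnion_insert]
    refine RankLE.union (hX a (Finset.mem_insert_self a s)) (ih
      (fun i hi => hX i (Finset.mem_insert_of_mem hi))
      (fun i hi j hj => h i (Finset.mem_insert_of_mem hi) j (Finset.mem_insert_of_mem hj))) ?_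
    intro x hx y hy
    simp only [mem_iUnion, exists_prop] at hy
    obtain ⟨i, hi, hy⟩ := hy
    refine h a (Finset.mem_insert_self a s) i (Finset.mem_insert_of_mem hi) ?_ x hx y hy
    rintro rfl
    exact ha hi

end Run7.h891
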