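import Pool.Agent.Run7.h891.Forb
import Pool.Agent.Run7.h891.Forest

/-! Rayless graphs of any cardinality. -/

set_option autoImplicit false

open Set

namespace Run7.h891.Cls

open Run7.h891

/-- The ray. -/
def rayGraph : SimpleGraph ℕ where
  Adj a b := b = a + 1 ∨ a = b + 1
  symm := ⟨by
    rintro a b (h | h)
    · exact Or.inr h
    · exact Or.inl h⟩
  loopless := ⟨by
    rintro a (h | h) <;> omega⟩

theorem rayless_minor_all {V W : Type} {G : SimpleGraph V} {H : SimpleGraph W}
    (h : Rayless G) (hm : IsMinor H G) : Rayless H := by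
  classical
  rintro ⟨f, hf, hadj⟩
  obtain ⟨B, h1, h2, h3⟩ := hm
  choose x hx y hy hxy using fun n => h3 _ _ (hadj n)
  have hreach : ∀ n, Reach G (B (f (n + 1))) (y n) (x (n + 1)) := fun n =>
    (conn_iff.1 (h1 (f (n + 1)))).2 _ (hy n) _ (hx (n + 1))
  choose P hPf hPs hPc hPy hPx using fun n => exists_finite_conn (hreach n)
  let C : ℕ → Set V := fun n => match n with
    | 0 => {x 0}
    | n + 1 => P n
  have hCB : ∀ n, C n ⊆ B (f n) := by
    rintro (_ | n)
    · rintro _ rfl
      exact hx 0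
    · exact hPs n
  have hCx : ∀ n, x n ∈ C n := by
    rintro (_ | n)
    · exact rfl
    · exact hPx n
  have hCy : ∀ n, y n ∈ C (n + 1) := fun n => hPy n
  have hCc : ∀ n, Conn G (C n) := by
    rintro (_ | n)
    · exact conn_singleton G _
    · exact hPc n
  have hCf : ∀ n, (C n).Finite := by
    rintro (_ | n)
    · exact finite_singleton _
    · exact hPf n
  let X : Set V := ⋃ n, C n
  have hX : X.Countable := countable_iUnion fun n => (hCf n).countable
  have hXc : Countable X := hX.to_subtype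
  have hmodel : Minor rayGraph univ G X := by
    refine ⟨C, ?_⟩
    refine ⟨fun n _ => subset_iUnion C n, fun n _ => ⟨_, hCx n⟩, fun n _ => hCc n, ?_, ?_⟩
    · intro a _ b _ hab
      exact (h2 _ _ (fun h => hab (hf h))).mono (hCB a) (hCB b)
    · rintro a _ b _ (rfl | rfl)
      · exact ⟨x a, hCx a, y a, hCy a, hxy a⟩
      · exact ⟨y b, hCy b, x b, hCx b, (hxy b).symm⟩
  have h4 : (SimpleGraph.Embedding.induce (G := G) X) '' univ = X := by
    ext z
    simp
  have hmin : IsMinor rayGraph (G.induce X) := by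
    rw [isMinor_iff, ← minor_image_right (SimpleGraph.Embedding.induce (G := G) X), h4]
    exact hmodel
  have hray : Rayless (G.induce X) := by
    rintro ⟨g, hg, hgadj⟩
    exact h ⟨fun n => (g n).1, fun a b hab => hg (Subtype.ext hab), fun n => hgadj n⟩
  exact rayless_minor hXc hray hmin ⟨id, Function.injective_id, fun n => Or.inl rfl⟩

theorem rayless_cone {V : Type} {G : SimpleGraph V} (h : Rayless G) : Rayless (coneGraph G) := by
  rintro ⟨f, hf, hadj⟩
  obtain ⟨N, hN⟩ : ∃ N, ∀ n, N ≤ n → f n ≠ none := by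
    by_cases hex : ∃ m, f m = none
    · obtain ⟨m, hm⟩ := hex
      refine ⟨m + 1, fun n hn hn' => ?_⟩
      have := hf (hm.trans hn'.symm)
      omega
    · push Not at hex
      exact ⟨0, fun n _ => hex n⟩
  have key : ∀ k, ∃ x : V, f (N + k) = some x := fun k =>
    Option.ne_none_iff_exists'.1 (hN (N + k) (by omega))
  choose x hx using key
  refine h ⟨x, ?_, ?_⟩
  · intro a b hab
    have h1 : f (N + a) = f (N + b) := by rw [hx, hx, hab]
    have := hf h1
    omega
  · intro k
    have h1 := hadj (N + k)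
    rw [hx, show N + k + 1 = N + (k + 1) from rfl, hx] at h1
    rcases h1 with ⟨h2, _⟩ | ⟨h2, _⟩ | ⟨a, b, h2, h3, h4⟩
    · exact absurd h2 (by simp)
    · exact absurd h2 (by simp)
    · rw [Option.some_injective _ h2, Option.some_injective _ h3]
      exact h4

/-- The theorem for rayless graphs of any cardinality. -/
theorem rayless_tfae :
    [WqoOn {G | Rayless G.2 ∧ G.2.Connected}, WqoOn {G | Rayless G.2},
      BqoOn {G | Rayless G.2}].TFAE :=
  cone_tfae (K := {G | Rayless G.2}) (fun _ hG _ hH => rayless_minor_all hG hH)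
    (fun _ _ _ G r _ h => rayless_hub G r h) (fun _ hG => rayless_cone hG)

open Cardinal

/-- The theorem for rayless graphs with at most `κ` vertices. -/
theorem rayless_card_tfae {κ : Cardinal.{0}} (hκ : ℵ₀ ≤ κ) :
    [WqoOn {G | (Rayless G.2 ∧ #G.1 ≤ κ) ∧ G.2.Connected}, WqoOn {G | Rayless G.2 ∧ #G.1 ≤ κ},
      BqoOn {G | Rayless G.2 ∧ #G.1 ≤ κ}].TFAE := by
  refine cone_tfae (K := {G | Rayless G.2 ∧ #G.1 ≤ κ}) ?_ ?_ ?_
  · rintro G ⟨h1, h2⟩ H hH
    refine ⟨rayless_minor_all h1 hH, ?_⟩
    obtain ⟨B, h3, h4, _⟩ := hH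
    choose x hx using fun w => (conn_iff.1 (h3 w)).1
    refine le_trans (mk_le_of_injective (f := x) ?_) h2
    intro a b hab
    by_contra hne
    exact Set.disjoint_left.1 (h4 a b hne) (hx a) (hab ▸ hx b)
  · intro ι hι V G r _ h
    refine ⟨rayless_hub G r fun i => (h i).1, ?_⟩
    show #(Option (Σ i, V i)) ≤ κ
    rw [mk_option, mk_sigma]
    have h1 : Cardinal.sum (fun i => #(V i)) ≤ κ := by
      refine le_trans (Cardinal.sum_le_sum _ (fun _ => κ) fun i => (h i).2) ?_
      rw [Cardinal.sum_const']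
      refine le_trans (mul_le_mul' (mk_le_aleph0_iff.2 hι) le_rfl) ?_
      exact (Cardinal.mul_eq_right hκ hκ aleph0_ne_zero).le
    exact add_le_of_le hκ h1 (le_trans one_le_aleph0 hκ)
  · rintro G ⟨h1, h2⟩
    refine ⟨rayless_cone h1, ?_⟩
    show #(Option G.1) ≤ κ
    rw [mk_option]
    exact add_le_of_le hκ h2 (le_trans one_le_aleph0 hκ)

end Run7.h891.Cls
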