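import Pool.Agent.Run7.h891.SharpAnti
import Pool.Agent.Run7.h891.Reduce

/-! Complete analytic sets of graphs at the sharp level. -/

set_option autoImplicit false

open Set Ordinal

namespace Run7.h891

open Pool.Agent.H534R3.NonBorel (br)

universe u v w

/-- An antichain of connected rooted graphs whose ranks are cofinal in `β`. -/
structure SF {k : ℕ} (y : ℕ → Code (Fin k)) (β : Ordinal.{0}) : Prop where
  pos : 0 < β
  lt : ∀ i, ∃ δ < β, (y i).RankLE δ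
  cof : ∀ δ < β, {i | ∀ γ < δ, ¬ (y i).RankLE γ}.Infinite
  conn : ∀ i, Conn (y i).G (y i).X
  ne : ∀ i, (y i).X.Nonempty
  anti : ∀ i j, RLE (y i) (y j) → i = j

theorem exists_sf {n : ℕ} {α : Ordinal.{0}} (hα : α < ω₁) (x : ℕ → Code (Fin n))
    (hx : ∀ k, ∃ δ < α, (x k).RankLE δ) (hbad : ∀ i j, i < j → ¬ RLE (x i) (x j)) :
    ∃ (k : ℕ) (y : ℕ → Code (Fin k)) (β : Ordinal.{0}), β ≤ α ∧ SF y β := by
  obtain ⟨k, y, β, h0, h1, h2, h3, h4, h5, h6⟩ := exists_sharp_antichain hα x hx hbad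
  exact ⟨k, y, β, h0, ⟨h1, h2, h3, h4, h5, h6⟩⟩

variable {k : ℕ} {y : ℕ → Code (Fin k)} {β : Ordinal.{0}}

theorem fin_pos : Nonempty (Fin (3 ^ (k + 1))) := ⟨⟨0, by positivity⟩⟩

instance fv_infinite {Q : Type} : Infinite (FV k Q) := by
  have : Nonempty (Fin (3 ^ (k + 1))) := fin_pos
  have : Infinite (Fin (3 ^ (k + 1)) × ℕ × ℕ) := Prod.infinite_of_right
  infer_instance

/-- Monotonicity of the family graph. -/
theorem f_mono {Q : Type} {A A' : Set Q} {N M : Q → Set ℕ} (hA : A ⊆ A')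
    (hN : ∀ q ∈ A, N q ⊆ M q) : Minor (fG y A N) Set.univ (fG y A' M) Set.univ := by
  refine ⟨fun p => {p}, fun _ _ => subset_univ _, fun _ _ => singleton_nonempty _,
    fun _ _ => conn_singleton _ _, fun a _ b _ hab => by simpa using hab, ?_⟩
  intro a _ b _ hab
  refine ⟨_, rfl, _, rfl, ?_⟩
  rcases a with e | ⟨e, i, v⟩ | q | ⟨q, j, v⟩ <;>
    rcases b with e' | ⟨e', i', v'⟩ | q' | ⟨q', j', v'⟩
  · exact hab
  · exact hab
  · exact ⟨hA hab.1, hab.2⟩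
  · exact ⟨hA hab.1, hN _ hab.1 hab.2.1, hab.2.2⟩
  · exact hab
  · exact hab
  · exact hab
  · exact hab
  · exact ⟨hA hab.1, hab.2⟩
  · exact hab
  · exact hab
  · obtain ⟨h1, h2, h3, h4⟩ := hab
    exact ⟨h1, hA h2, hN _ h2 h3, h4⟩
  · exact ⟨hA hab.1, hN _ hab.1 hab.2.1, hab.2.2⟩
  · exact hab
  · obtain ⟨h1, h2, h3, h4⟩ := hab
    exact ⟨h1, hA h2, hN _ h2 h3, h4⟩
  · obtain ⟨h1, h2, h3, h4, h5, h6, h7⟩ := hab
    exact ⟨h1, h2, hA h3, hN _ h3 h4, h5, h6, h7⟩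

theorem hostM_finite (s : List ℕ) : (hostM s).Finite := by
  unfold hostM
  exact Set.toFinite _

theorem hostM'_finite (t : Set (List ℕ)) (s : List ℕ) : (hostM' t s).Finite := by
  refine (Set.toFinite ({lab' (some s), lab' (par s)} : Set ℕ)).subset ?_
  rintro x (rfl | ⟨_, rfl⟩)
  · exact Or.inl rfl
  · exact Or.inr rfl

theorem SF.exists_host (h : SF y β) :
    ∃ Δ : SimpleGraph ℕ, RankLE Δ β Set.univ ∧
      ∃ Φ : (List ℕ → Bool) → SimpleGraph ℕ, @Continuous _ _ _ graphTopology Φ ∧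
        ∀ t, Minor (Φ t) Set.univ Δ Set.univ ↔ ∃ f : ℕ → ℕ, ∀ n, t (br f n) = true := by
  classical
  obtain ⟨e1⟩ : Nonempty (FV k GQ ≃ ℕ) := nonempty_equiv_of_countable
  obtain ⟨e2⟩ : Nonempty (FV k (List ℕ ⊕ GQ) ≃ ℕ) := nonempty_equiv_of_countable
  let host := fG y (Sum.inl '' (Set.univ : Set (List ℕ)) : Set (List ℕ ⊕ GQ))
    (Sum.elim hostM fun _ => ∅)
  refine ⟨toNat e2 host, (toNat_rank e2 host).2 (fG_rank h.pos h.lt ?_),
    fun t => toNat e1 (fG y (act (treeOf t)) guestN), ?_, ?_⟩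
  · rintro _ ⟨s, _, rfl⟩
    exact hostM_finite s
  · refine continuous_toNat e1 (fun t => fG y (act (treeOf t)) guestN) ?_
    have key : ∀ q : GQ, ∃ s : List ℕ, ∀ t t' : List ℕ → Bool, t s = t' s →
        (q ∈ act (treeOf t) ↔ q ∈ act (treeOf t')) := by
      rintro ((_ | s) | s)
      · exact ⟨[], fun t t' _ => Iff.rfl⟩
      · refine ⟨s.reverse, fun t t' h => ?_⟩
        show t s.reverse = true ↔ t' s.reverse = true
        rw [h]
      · refine ⟨s.reverse, fun t t' h => ?_⟩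
        show ¬ t s.reverse = true ↔ ¬ t' s.reverse = true
        rw [h]
    rintro (e | ⟨e, i, v⟩ | q | ⟨q, j, v⟩) (e' | ⟨e', i', v'⟩ | q' | ⟨q', j', v'⟩)
    · exact ⟨[], fun t t' _ => Iff.rfl⟩
    · exact ⟨[], fun t t' _ => Iff.rfl⟩
    · obtain ⟨s, hs⟩ := key q'
      refine ⟨s, fun t t' h => ?_⟩
      show (q' ∈ act (treeOf t) ∧ _) ↔ (q' ∈ act (treeOf t') ∧ _)
      rw [hs t t' h]
    · obtain ⟨s, hs⟩ := key q'
      refine ⟨s, fun t t' h => ?_⟩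
      show (q' ∈ act (treeOf t) ∧ _) ↔ (q' ∈ act (treeOf t') ∧ _)
      rw [hs t t' h]
    · exact ⟨[], fun t t' _ => Iff.rfl⟩
    · exact ⟨[], fun t t' _ => Iff.rfl⟩
    · exact ⟨[], fun t t' _ => Iff.rfl⟩
    · exact ⟨[], fun t t' _ => Iff.rfl⟩
    · obtain ⟨s, hs⟩ := key q
      refine ⟨s, fun t t' h => ?_⟩
      show (q ∈ act (treeOf t) ∧ _) ↔ (q ∈ act (treeOf t') ∧ _)
      rw [hs t t' h]
    · exact ⟨[], fun t t' _ => Iff.rfl⟩
    · exact ⟨[], fun t t' _ => Iff.rfl⟩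
    · obtain ⟨s, hs⟩ := key q'
      refine ⟨s, fun t t' h => ?_⟩
      show (_ ∧ q' ∈ act (treeOf t) ∧ _) ↔ (_ ∧ q' ∈ act (treeOf t') ∧ _)
      rw [hs t t' h]
    · obtain ⟨s, hs⟩ := key q
      refine ⟨s, fun t t' h => ?_⟩
      show (q ∈ act (treeOf t) ∧ _) ↔ (q ∈ act (treeOf t') ∧ _)
      rw [hs t t' h]
    · exact ⟨[], fun t t' _ => Iff.rfl⟩
    · obtain ⟨s, hs⟩ := key q
      refine ⟨s, fun t t' h => ?_⟩
      show (_ ∧ q ∈ act (treeOf t) ∧ _) ↔ (_ ∧ q ∈ act (treeOf t') ∧ _)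
      rw [hs t t' h]
    · obtain ⟨s, hs⟩ := key q
      refine ⟨s, fun t t' h => ?_⟩
      show (_ ∧ _ ∧ q ∈ act (treeOf t) ∧ _) ↔ (_ ∧ _ ∧ q ∈ act (treeOf t') ∧ _)
      rw [hs t t' h]
  · intro t
    rw [toNat_minor_left, toNat_minor_right,
      f_minor_iff (A := act (treeOf t)) (N := guestN) (A' := Set.univ) (M := hostM)
        h.pos h.lt h.cof h.conn h.ne h.anti (fun s _ => hostM_finite s)
        (fun q _ => singleton_nonempty _), match_iff, exists_pre_iff]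

theorem SF.exists_guest (h : SF y β) :
    ∃ Γ : SimpleGraph ℕ, RankLE Γ β Set.univ ∧
      ∃ Φ : (List ℕ → Bool) → SimpleGraph ℕ, @Continuous _ _ _ graphTopology Φ ∧
        (∀ t, RankLE (Φ t) β Set.univ) ∧
        ∀ t, Minor Γ Set.univ (Φ t) Set.univ ↔ ∃ f : ℕ → ℕ, ∀ n, t (br f n) = true := by
  classical
  obtain ⟨e1⟩ : Nonempty (FV k (Option (List ℕ)) ≃ ℕ) := nonempty_equiv_of_countable
  obtain ⟨e2⟩ : Nonempty (FV k (List ℕ ⊕ Option (List ℕ)) ≃ ℕ) := nonempty_equiv_of_countable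
  let guest := fG y (Set.univ : Set (Option (List ℕ))) (fun q => {lab' q})
  let host : (List ℕ → Bool) → SimpleGraph (FV k (List ℕ ⊕ Option (List ℕ))) := fun t =>
    fG y (Sum.inl '' (Set.univ : Set (List ℕ)) : Set (List ℕ ⊕ Option (List ℕ)))
    (Sum.elim (hostM' (treeOf t)) fun _ => ∅)
  refine ⟨toNat e1 guest, (toNat_rank e1 guest).2 (fG_rank h.pos h.lt
    (fun q _ => finite_singleton _)), fun t => toNat e2 (host t), ?_, ?_, ?_⟩
  · refine continuous_toNat e2 host ?_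
    have key : ∀ q : List ℕ ⊕ Option (List ℕ), ∃ s : List ℕ, ∀ t t' : List ℕ → Bool,
        t s = t' s → (Sum.elim (hostM' (treeOf t)) fun _ => ∅ : _ → Set ℕ) q =
          (Sum.elim (hostM' (treeOf t')) fun _ => ∅ : _ → Set ℕ) q := by
      rintro (s | q)
      · refine ⟨s.reverse, fun t t' h => ?_⟩
        show hostM' (treeOf t) s = hostM' (treeOf t') s
        ext z
        show (z = _ ∨ (t s.reverse = true ∧ _)) ↔ (z = _ ∨ (t' s.reverse = true ∧ _))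
        rw [h]
      · exact ⟨[], fun t t' _ => rfl⟩
    rintro (e | ⟨e, i, v⟩ | q | ⟨q, j, v⟩) (e' | ⟨e', i', v'⟩ | q' | ⟨q', j', v'⟩)
    · exact ⟨[], fun t t' _ => Iff.rfl⟩
    · exact ⟨[], fun t t' _ => Iff.rfl⟩
    · exact ⟨[], fun t t' _ => Iff.rfl⟩
    · obtain ⟨s, hs⟩ := key q'
      refine ⟨s, fun t t' h => ?_⟩
      show (_ ∧ j' ∈ (Sum.elim (hostM' (treeOf t)) fun _ => ∅ : _ → Set ℕ) q' ∧ _) ↔
        (_ ∧ j' ∈ (Sum.elim (hostM' (treeOf t')) fun _ => ∅ : _ → Set ℕ) q' ∧ _)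
      rw [hs t t' h]
    · exact ⟨[], fun t t' _ => Iff.rfl⟩
    · exact ⟨[], fun t t' _ => Iff.rfl⟩
    · exact ⟨[], fun t t' _ => Iff.rfl⟩
    · exact ⟨[], fun t t' _ => Iff.rfl⟩
    · exact ⟨[], fun t t' _ => Iff.rfl⟩
    · exact ⟨[], fun t t' _ => Iff.rfl⟩
    · exact ⟨[], fun t t' _ => Iff.rfl⟩
    · obtain ⟨s, hs⟩ := key q'
      refine ⟨s, fun t t' h => ?_⟩
      show (_ ∧ _ ∧ j' ∈ (Sum.elim (hostM' (treeOf t)) fun _ => ∅ : _ → Set ℕ) q' ∧ _) ↔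
        (_ ∧ _ ∧ j' ∈ (Sum.elim (hostM' (treeOf t')) fun _ => ∅ : _ → Set ℕ) q' ∧ _)
      rw [hs t t' h]
    · obtain ⟨s, hs⟩ := key q
      refine ⟨s, fun t t' h => ?_⟩
      show (_ ∧ j ∈ (Sum.elim (hostM' (treeOf t)) fun _ => ∅ : _ → Set ℕ) q ∧ _) ↔
        (_ ∧ j ∈ (Sum.elim (hostM' (treeOf t')) fun _ => ∅ : _ → Set ℕ) q ∧ _)
      rw [hs t t' h]
    · exact ⟨[], fun t t' _ => Iff.rfl⟩
    · obtain ⟨s, hs⟩ := key q
      refine ⟨s, fun t t' h => ?_⟩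
      show (_ ∧ _ ∧ j ∈ (Sum.elim (hostM' (treeOf t)) fun _ => ∅ : _ → Set ℕ) q ∧ _) ↔
        (_ ∧ _ ∧ j ∈ (Sum.elim (hostM' (treeOf t')) fun _ => ∅ : _ → Set ℕ) q ∧ _)
      rw [hs t t' h]
    · obtain ⟨s, hs⟩ := key q
      refine ⟨s, fun t t' h => ?_⟩
      show (_ ∧ _ ∧ _ ∧ j ∈ (Sum.elim (hostM' (treeOf t)) fun _ => ∅ : _ → Set ℕ) q ∧ _) ↔
        (_ ∧ _ ∧ _ ∧ j ∈ (Sum.elim (hostM' (treeOf t')) fun _ => ∅ : _ → Set ℕ) q ∧ _)
      rw [hs t t' h]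
  · intro t
    refine (toNat_rank e2 _).2 (fG_rank h.pos h.lt ?_)
    rintro _ ⟨s, _, rfl⟩
    exact hostM'_finite _ s
  · intro t
    rw [toNat_minor_left, toNat_minor_right,
      f_minor_iff (A := Set.univ) (N := fun q => {lab' q}) (A' := Set.univ)
        (M := hostM' (treeOf t)) h.pos h.lt h.cof h.conn h.ne h.anti
        (fun s _ => hostM'_finite _ s)
        (fun q _ => singleton_nonempty _), match_iff', exists_pre_iff]

/-- An order embedding of the power set of `ℕ`. -/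
theorem SF.exists_many (h : SF y β) :
    ∃ Γ : Set ℕ → SimpleGraph ℕ, (∀ X, RankLE (Γ X) β Set.univ) ∧
      ∀ X Y, Minor (Γ X) Set.univ (Γ Y) Set.univ ↔ X ⊆ Y := by
  classical
  obtain ⟨e1⟩ : Nonempty (FV k ℕ ≃ ℕ) := nonempty_equiv_of_countable
  refine ⟨fun X => toNat e1 (fG y X fun q => {q}), fun X => (toNat_rank e1 _).2
    (fG_rank h.pos h.lt fun q _ => finite_singleton q), fun X Y => ?_⟩
  rw [toNat_minor_left, toNat_minor_right]
  constructor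
  · rintro ⟨B, hB⟩ q hq
    obtain ⟨s, hs, h1, _⟩ := f_model h.pos h.lt h.cof h.conn h.ne h.anti
      (fun s _ => finite_singleton s) (fun q _ => singleton_nonempty q) hB q hq
    rw [singleton_subset_singleton] at h1
    rwa [h1]
  · intro hXY
    exact f_mono hXY (fun q _ => subset_rfl)

end Run7.h891
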