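import Pool.Agent.Run7.h891.FamilyMatch

/-! From a bad sequence of rooted graphs to an antichain of connected rooted graphs, without
changing the ranks. -/

set_option autoImplicit false

open Set Ordinal

namespace Run7.h891

universe u v w

variable {V : Type u} {W : Type v} {U : Type w} {Q : Type}

/-- Rooted minors, relative to vertex sets. -/
def RMinor (H : SimpleGraph W) (Y : Set W) (s : Q → W) (G : SimpleGraph V) (X : Set V)
    (r : Q → V) : Prop := ∃ B : W → Set V, IsModel H Y G X B ∧ ∀ q, r q ∈ B (s q)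

theorem RMinor.trans {H : SimpleGraph W} {Y : Set W} {s : Q → W} {G : SimpleGraph V} {X : Set V}
    {r : Q → V} {K : SimpleGraph U} {Z : Set U} {t : Q → U} (h : RMinor H Y s G X r)
    (h' : RMinor G X r K Z t) : RMinor H Y s K Z t := by
  obtain ⟨B, hB, hB'⟩ := h
  obtain ⟨C, hC, hC'⟩ := h'
  exact ⟨_, hB.comp hC, fun q => mem_biUnion (hB' q) (hC' q)⟩

theorem rminor_image_right {T : SimpleGraph V} {K : SimpleGraph U} (f : T ↪g K)
    {H : SimpleGraph W} {Y : Set W} {Z : Set V} {s : Q → W} {r : Q → V} :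
    RMinor H Y s K (f '' Z) (fun q => f (r q)) ↔ RMinor H Y s T Z r := by
  constructor
  · rintro ⟨B, hB, hr⟩
    exact ⟨_, hB.pull f, hr⟩
  · rintro ⟨B, hB, hr⟩
    refine ⟨_, hB.push f, fun q => mem_image_of_mem f (hr q)⟩

theorem rminor_embed {T : SimpleGraph V} {K : SimpleGraph U} (f : T ↪g K) {Z : Set V}
    {r : Q → V} : RMinor T Z r K (f '' Z) (fun q => f (r q)) :=
  (rminor_image_right f).2 ⟨_, IsModel.refl T subset_rfl, fun _ => rfl⟩

theorem rminor_embed' {T : SimpleGraph V} {K : SimpleGraph U} (f : T ↪g K) {Z : Set V}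
    {r : Q → V} : RMinor K (f '' Z) (fun q => f (r q)) T Z r :=
  (rminor_image_right f).1 ⟨_, IsModel.refl K subset_rfl, fun _ => rfl⟩

theorem rminor_image_left {T : SimpleGraph V} {K : SimpleGraph U} (f : T ↪g K)
    {H : SimpleGraph W} {Y : Set W} {Z : Set V} {s : Q → W} {r : Q → V} :
    RMinor K (f '' Z) (fun q => f (r q)) H Y s ↔ RMinor T Z r H Y s :=
  ⟨fun h => (rminor_embed f).trans h, fun h => (rminor_embed' f).trans h⟩

/-- The code of a rooted graph embedded in `ℕ`. -/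
def Code.mk' (e : V ↪ ℕ) (G : SimpleGraph V) (X : Set V) (r : Q → V)
    (hr : Function.Injective r) (hX : ∀ q, r q ∈ X) : Code Q where
  G := G.map e
  X := SimpleGraph.Embedding.map e G '' X
  r := fun q => SimpleGraph.Embedding.map e G (r q)
  inj := fun a b h => hr ((SimpleGraph.Embedding.map e G).injective h)
  mem := fun q => mem_image_of_mem _ (hX q)

theorem rle_mk' {e : V ↪ ℕ} {G : SimpleGraph V} {X : Set V} {r : Q → V}
    {hr : Function.Injective r} {hX : ∀ q, r q ∈ X} {e' : W ↪ ℕ} {H : SimpleGraph W} {Y : Set W}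
    {s : Q → W} {hs : Function.Injective s} {hY : ∀ q, s q ∈ Y} :
    RLE (Code.mk' e G X r hr hX) (Code.mk' e' H Y s hs hY) ↔ RMinor G X r H Y s := by
  show RMinor (G.map e) (SimpleGraph.Embedding.map e G '' X)
    (fun q => SimpleGraph.Embedding.map e G (r q)) (H.map e')
    (SimpleGraph.Embedding.map e' H '' Y) (fun q => SimpleGraph.Embedding.map e' H (s q)) ↔ _
  rw [rminor_image_right, rminor_image_left]

theorem rank_mk' {e : V ↪ ℕ} {G : SimpleGraph V} {X : Set V} {r : Q → V}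
    {hr : Function.Injective r} {hX : ∀ q, r q ∈ X} {γ : Ordinal.{0}} :
    (Code.mk' e G X r hr hX).RankLE γ ↔ RankLE G γ X :=
  rankLE_image (SimpleGraph.Embedding.map e G)

theorem conn_mk' {e : V ↪ ℕ} {G : SimpleGraph V} {X : Set V} {r : Q → V}
    {hr : Function.Injective r} {hX : ∀ q, r q ∈ X} :
    Conn (Code.mk' e G X r hr hX).G (Code.mk' e G X r hr hX).X ↔ Conn G X :=
  conn_image (SimpleGraph.Embedding.map e G)

/-- Adjacency in the graph of step two. -/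
def y2Adj (G : SimpleGraph ℕ) : ℕ ⊕ ℕ ⊕ Fin 3 → ℕ ⊕ ℕ ⊕ Fin 3 → Prop
  | .inl u, .inl v => G.Adj u v
  | .inl _, .inr (.inl _) => False
  | .inl _, .inr (.inr t) => t ≠ 1
  | .inr (.inl _), .inl _ => False
  | .inr (.inl a), .inr (.inl b) => a ≠ b
  | .inr (.inl _), .inr (.inr t) => t ≠ 0
  | .inr (.inr t), .inl _ => t ≠ 1
  | .inr (.inr t), .inr (.inl _) => t ≠ 0
  | .inr (.inr t), .inr (.inr t') => t ≠ t' ∧ (t = 2 ∨ t' = 2)

/-- The graph of step two: the old graph, a clique, and three vertices, the first joined to the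
old graph, the second to the clique, and the third to everything. -/
def y2 (G : SimpleGraph ℕ) : SimpleGraph (ℕ ⊕ ℕ ⊕ Fin 3) where
  Adj := y2Adj G
  symm := ⟨by
    rintro (u | a | t) (v | b | t') h
    · exact G.symm.symm _ _ h
    · exact h
    · exact h
    · exact h
    · exact Ne.symm h
    · exact h
    · exact h
    · exact h
    · exact ⟨h.1.symm, h.2.symm⟩⟩
  loopless := ⟨by
    rintro (u | a | t) h
    · exact G.loopless.irrefl _ h
    · exact h rfl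
    · exact h.1 rfl⟩

/-- The carrier. -/
def y2X (X : Set ℕ) (m : ℕ) : Set (ℕ ⊕ ℕ ⊕ Fin 3) :=
  {z | (∀ u, z = .inl u → u ∈ X) ∧ ∀ a, z = .inr (.inl a) → a ≤ m}

@[simp] theorem inl_mem_y2X {X : Set ℕ} {m u : ℕ} : (.inl u : ℕ ⊕ ℕ ⊕ Fin 3) ∈ y2X X m ↔ u ∈ X := by
  constructor
  · intro h
    exact h.1 u rfl
  · intro h
    refine ⟨fun v hv => ?_, fun a ha => ?_⟩
    · rwa [← Sum.inl_injective hv]
    · simp at ha

@[simp] theorem inrl_mem_y2X {X : Set ℕ} {m a : ℕ} :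
    (.inr (.inl a) : ℕ ⊕ ℕ ⊕ Fin 3) ∈ y2X X m ↔ a ≤ m := by
  constructor
  · intro h
    exact h.2 a rfl
  · intro h
    refine ⟨fun v hv => by simp at hv, fun b hb => ?_⟩
    have := Sum.inl_injective (Sum.inr_injective hb)
    omega

@[simp] theorem inrr_mem_y2X {X : Set ℕ} {m : ℕ} {t : Fin 3} :
    (.inr (.inr t) : ℕ ⊕ ℕ ⊕ Fin 3) ∈ y2X X m := by
  refine ⟨fun v hv => by simp at hv, fun b hb => by simp at hb⟩

/-- The embedding of the old graph. -/
def y2Emb (G : SimpleGraph ℕ) : G ↪g y2 G where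
  toFun := .inl
  inj' := Sum.inl_injective
  map_rel_iff' := Iff.rfl

theorem y2_conn {G : SimpleGraph ℕ} {X : Set ℕ} {m : ℕ} : Conn (y2 G) (y2X X m) := by
  have h : ∀ z ∈ y2X X m, Reach (y2 G) (y2X X m) (.inr (.inr 2)) z := by
    rintro (u | a | t) hz
    · exact Reach.of_adj inrr_mem_y2X hz (show (2 : Fin 3) ≠ 1 by decide)
    · exact Reach.of_adj inrr_mem_y2X hz (show (2 : Fin 3) ≠ 0 by decide)
    · by_cases ht : t = 2
      · rw [ht]
        exact Reach.refl inrr_mem_y2X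
      · exact Reach.of_adj inrr_mem_y2X hz ⟨Ne.symm ht, Or.inl rfl⟩
  intro x hx y hy
  exact (h x hx).symm.trans (h y hy)

theorem y2_rank {G : SimpleGraph ℕ} {X : Set ℕ} {m : ℕ} {γ : Ordinal.{0}} :
    RankLE (y2 G) γ (y2X X m) ↔ RankLE G γ X := by
  constructor
  · intro h
    rw [← rankLE_image (y2Emb G)]
    refine h.mono_set ?_
    rintro _ ⟨u, hu, rfl⟩
    exact inl_mem_y2X.2 hu
  · intro h
    have h1 := ((rankLE_image (y2Emb G)).2 h).union_finite
      (F := (Sum.inr '' (Sum.inl '' {a | a ≤ m} ∪ range Sum.inr)))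
      (((((finite_le_nat m).image _).union (finite_range _)).image _))
    refine h1.mono_set ?_
    rintro (u | a | t) hz
    · exact Or.inl ⟨u, inl_mem_y2X.1 hz, rfl⟩
    · exact Or.inr ⟨_, Or.inl ⟨a, inrl_mem_y2X.1 hz, rfl⟩, rfl⟩
    · exact Or.inr ⟨_, Or.inr ⟨t, rfl⟩, rfl⟩

/-- The root map. -/
def y2r (r : Q → ℕ) : Q ⊕ Fin 3 → ℕ ⊕ ℕ ⊕ Fin 3
  | .inl q => .inl (r q)
  | .inr t => .inr (.inr t)

theorem y2r_inj {r : Q → ℕ} (hr : Function.Injective r) : Function.Injective (y2r r) := by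
  rintro (q | t) (q' | t') h
  · exact congrArg _ (hr (Sum.inl_injective h))
  · simp [y2r] at h
  · simp [y2r] at h
  · exact congrArg _ (Sum.inr_injective (Sum.inr_injective h))

theorem y2r_mem {r : Q → ℕ} {X : Set ℕ} {m : ℕ} (hr : ∀ q, r q ∈ X) (q : Q ⊕ Fin 3) :
    y2r r q ∈ y2X X m := by
  rcases q with q | t
  · exact inl_mem_y2X.2 (hr q)
  · exact inrr_mem_y2X

/-- The main property of step two. -/
theorem y2_minor {G H : SimpleGraph ℕ} {X Y : Set ℕ} {m n : ℕ} {s r : Q → ℕ}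
    (h : RMinor (y2 H) (y2X Y m) (y2r s) (y2 G) (y2X X n) (y2r r)) :
    m ≤ n ∧ RMinor H Y s G X r := by
  classical
  obtain ⟨B, hB, hr⟩ := h
  have hmemt : ∀ t : Fin 3, (.inr (.inr t) : ℕ ⊕ ℕ ⊕ Fin 3) ∈ y2X Y m := fun t => inrr_mem_y2X
  have ht : ∀ t : Fin 3, (.inr (.inr t) : ℕ ⊕ ℕ ⊕ Fin 3) ∈ B (.inr (.inr t)) := fun t =>
    hr (.inr t)
  have hav : ∀ z ∈ y2X Y m, (∀ t : Fin 3, z ≠ .inr (.inr t)) → ∀ t : Fin 3,
      (.inr (.inr t) : ℕ ⊕ ℕ ⊕ Fin 3) ∉ B z := by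
    intro z hz hzt t hmem
    exact hzt t (hB.eq_of_mem hz (hmemt t) hmem (ht t))
  have hav' : ∀ t t' : Fin 3, t ≠ t' →
      (.inr (.inr t') : ℕ ⊕ ℕ ⊕ Fin 3) ∉ B (.inr (.inr t)) := by
    intro t t' htt hmem
    have := hB.eq_of_mem (hmemt t) (hmemt t') hmem (ht t')
    exact htt (Sum.inr_injective (Sum.inr_injective this))
  -- the first special branch set is in the graph part
  have h0 : ∀ a : ℕ, (.inr (.inl a) : ℕ ⊕ ℕ ⊕ Fin 3) ∉ B (.inr (.inr 0)) := by
    intro a ha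
    obtain ⟨x, hx, hxD, y, hy, hyD, hxy⟩ := conn_exit (hB.conn _ (hmemt 0)) (D := {z | ∃ a : ℕ,
      z = .inr (.inl a)}) ha ⟨a, rfl⟩ (ht 0) (by simp)
    obtain ⟨b, rfl⟩ := hxD
    rcases y with u | c | t
    · exact hxy
    · exact hyD ⟨c, rfl⟩
    · by_cases ht0 : t = 0
      · exact hxy ht0
      · exact hav' 0 t (Ne.symm ht0) hy
  have h1 : ∀ u : ℕ, (.inl u : ℕ ⊕ ℕ ⊕ Fin 3) ∉ B (.inr (.inr 1)) := by
    intro a ha
    obtain ⟨x, hx, hxD, y, hy, hyD, hxy⟩ := conn_exit (hB.conn _ (hmemt 1)) (D := {z | ∃ a : ℕ,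
      z = .inl a}) ha ⟨a, rfl⟩ (ht 1) (by simp)
    obtain ⟨b, rfl⟩ := hxD
    rcases y with u | c | t
    · exact hyD ⟨u, rfl⟩
    · exact hxy
    · by_cases ht1 : t = 1
      · exact hxy ht1
      · exact hav' 1 t (Ne.symm ht1) hy
  -- the graph vertices are in the graph part
  have hg : ∀ u ∈ Y, ∀ z ∈ B (.inl u), ∃ w : ℕ, z = .inl w := by
    intro u hu
    have hum : (.inl u : ℕ ⊕ ℕ ⊕ Fin 3) ∈ y2X Y m := inl_mem_y2X.2 hu
    have hnr := hav _ hum (by simp)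
    obtain ⟨x, hx, y, hy, hxy⟩ := hB.adj _ hum _ (hmemt 0) (show (0 : Fin 3) ≠ 1 by decide)
    have hxin : ∃ w : ℕ, x = .inl w := by
      rcases x with w | a | t
      · exact ⟨w, rfl⟩
      · exfalso
        rcases y with w | b | t
        · exact hxy
        · exact h0 b hy
        · by_cases ht0 : t = 0
          · exact hxy ht0
          · exact hav' 0 t (Ne.symm ht0) hy
      · exact absurd hx (hnr t)
    intro z hz
    by_contra hcon
    obtain ⟨x', hx', hxD, y', hy', hyD, hxy'⟩ := conn_exit (hB.conn _ hum)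
      (D := {z : ℕ ⊕ ℕ ⊕ Fin 3 | ∃ a : ℕ, z = .inl a}) hx hxin hz hcon
    obtain ⟨b, rfl⟩ := hxD
    rcases y' with w | c | t
    · exact hyD ⟨w, rfl⟩
    · exact hxy'
    · exact hnr t hy'
  -- the clique vertices are in the clique part
  have hk : ∀ a ≤ m, ∃ b, b ≤ n ∧ (.inr (.inl b) : ℕ ⊕ ℕ ⊕ Fin 3) ∈ B (.inr (.inl a)) := by
    intro a ha
    have hum : (.inr (.inl a) : ℕ ⊕ ℕ ⊕ Fin 3) ∈ y2X Y m := inrl_mem_y2X.2 ha
    have hnr := hav _ hum (by simp)
    obtain ⟨x, hx, y, hy, hxy⟩ := hB.adj _ hum _ (hmemt 1) (show (1 : Fin 3) ≠ 0 by decide)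
    rcases x with w | b | t
    · exfalso
      rcases y with w | b | t
      · exact h1 w hy
      · exact hxy
      · by_cases ht1 : t = 1
        · exact hxy ht1
        · exact hav' 1 t (Ne.symm ht1) hy
    · exact ⟨b, inrl_mem_y2X.1 (hB.sub _ hum hx), hx⟩
    · exact absurd hx (hnr t)
  constructor
  · choose! b hb hb' using hk
    let f : Fin (m + 1) → Fin (n + 1) := fun i => ⟨b i.1, Nat.lt_succ_of_le
      (hb i.1 (Nat.lt_succ_iff.1 i.2))⟩
    have hf : Function.Injective f := by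
      intro i j hij
      have h2 : b i.1 = b j.1 := congrArg Fin.val hij
      have hi := Nat.lt_succ_iff.1 i.2
      have hj := Nat.lt_succ_iff.1 j.2
      have h3 := hb' i.1 hi
      rw [h2] at h3
      have h4 := hB.eq_of_mem (inrl_mem_y2X.2 hi) (inrl_mem_y2X.2 hj) h3 (hb' j.1 hj)
      exact Fin.ext (Sum.inl_injective (Sum.inr_injective h4))
    have := Fintype.card_le_of_injective f hf
    simp only [Fintype.card_fin] at this
    omega
  · have h2 : IsModel H Y (y2 G) (y2X X n) (fun v => B (.inl v)) := by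
      refine IsModel.precomp (K := y2 H) (Z := Y) (e := Sum.inl)
        (Sum.inl_injective.injOn) (fun _ _ _ _ h => h) (hB.restrict ?_)
      rintro _ ⟨v, hv, rfl⟩
      exact inl_mem_y2X.2 hv
    have h3 : IsModel H Y (y2 G) (y2Emb G '' X) (fun v => B (.inl v)) := by
      refine h2.shrink ?_
      intro v hv z hz
      obtain ⟨w, rfl⟩ := hg v hv z hz
      exact ⟨w, inl_mem_y2X.1 (h2.sub v hv hz), rfl⟩
    exact ⟨_, h3.pull (y2Emb G), fun q => hr (.inl q)⟩

/-- From a bad sequence of rooted graphs of rank smaller than `α` to an antichain of connected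
rooted graphs whose ranks are cofinal in some `β ≤ α`. -/
theorem exists_sharp_antichain {n : ℕ} {α : Ordinal.{0}} (hα : α < ω₁) (x : ℕ → Code (Fin n))
    (hx : ∀ k, ∃ δ < α, (x k).RankLE δ) (hbad : ∀ i j, i < j → ¬ RLE (x i) (x j)) :
    ∃ (k : ℕ) (y : ℕ → Code (Fin k)) (β : Ordinal.{0}), β ≤ α ∧ 0 < β ∧
      (∀ i, ∃ δ < β, (y i).RankLE δ) ∧
      (∀ δ < β, {i | ∀ γ < δ, ¬ (y i).RankLE γ}.Infinite) ∧
      (∀ i, Conn (y i).G (y i).X) ∧ (∀ i, (y i).X.Nonempty) ∧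
      ∀ i j, RLE (y i) (y j) → i = j := by
  classical
  obtain ⟨g, hg, hnd⟩ := exists_nonDec (fun i => (x i).G) (fun i => (x i).X) (fun i => by
    obtain ⟨δ, hδ, h⟩ := hx i
    exact ⟨δ, hδ.trans hα, h⟩)
  let x' : ℕ → Code (Fin n) := fun i => x (g i)
  have hnd' : ∀ i j, i ≤ j → ∀ γ : Ordinal.{0}, (x' j).RankLE γ → (x' i).RankLE γ := hnd
  let E : Set Ordinal.{0} := {β | ∀ i, ∃ δ < β, (x' i).RankLE δ}
  have hαE : α ∈ E := fun i => hx (g i)
  have hβE : sInf E ∈ E := csInf_mem ⟨α, hαE⟩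
  have hcof : ∀ δ < sInf E, ∃ i0, ∀ i ≥ i0, ∀ γ < δ, ¬ (x' i).RankLE γ := by
    intro δ hδ
    have : δ ∉ E := fun h => absurd (csInf_le' h) (not_le.2 hδ)
    simp only [E, mem_ofPred_eq, not_forall, not_exists, not_and] at this
    obtain ⟨i0, hi0⟩ := this
    exact ⟨i0, fun i hi γ hγ h => hi0 γ hγ (hnd' i0 i hi γ h)⟩
  obtain ⟨e⟩ : Nonempty ((ℕ ⊕ ℕ ⊕ Fin 3) ↪ ℕ) := nonempty_embedding_nat _
  let φ : Fin (n + 3) ≃ Fin n ⊕ Fin 3 := finSumFinEquiv.symm
  let y : ℕ → Code (Fin (n + 3)) := fun i => Code.mk' e (y2 (x' i).G) (y2X (x' i).X i)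
    (fun q => y2r (x' i).r (φ q)) (fun a b h => φ.injective (y2r_inj (x' i).inj h))
    (fun q => y2r_mem (x' i).mem (φ q))
  have hyr : ∀ i γ, (y i).RankLE γ ↔ (x' i).RankLE γ := fun i γ => rank_mk'.trans y2_rank
  refine ⟨n + 3, y, sInf E, csInf_le' hαE, ?_, ?_, ?_, ?_, ?_, ?_⟩
  · obtain ⟨δ, hδ, _⟩ := hβE 0
    exact lt_of_le_of_lt (zero_le) hδ
  · intro i
    obtain ⟨δ, hδ, h⟩ := hβE i
    exact ⟨δ, hδ, (hyr i δ).2 h⟩
  · intro δ hδ
    obtain ⟨i0, hi0⟩ := hcof δ hδ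
    refine (Set.Ici_infinite i0).mono ?_
    intro i hi γ hγ h
    exact hi0 i hi γ hγ ((hyr i γ).1 h)
  · intro i
    exact conn_mk'.2 y2_conn
  · intro i
    exact Set.Nonempty.image _ ⟨.inr (.inr 0), inrr_mem_y2X⟩
  · intro i j h
    have h1 : RMinor (y2 (x' i).G) (y2X (x' i).X i) (fun q => y2r (x' i).r (φ q))
        (y2 (x' j).G) (y2X (x' j).X j) (fun q => y2r (x' j).r (φ q)) := rle_mk'.1 h
    have h2 : RMinor (y2 (x' i).G) (y2X (x' i).X i) (y2r (x' i).r)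
        (y2 (x' j).G) (y2X (x' j).X j) (y2r (x' j).r) := by
      obtain ⟨B, hB, hr⟩ := h1
      refine ⟨B, hB, fun q => ?_⟩
      have := hr (φ.symm q)
      simpa using this
    obtain ⟨h3, h4⟩ := y2_minor h2
    by_contra hne
    exact hbad (g i) (g j) (hg (lt_of_le_of_ne h3 hne)) h4

end Run7.h891
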