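import Pool.Agent.Run7.h891.SharpOfficial

/-! The number of minor-closed families. -/

set_option autoImplicit false

open Set Ordinal MeasureTheory Cardinal

namespace Run7.h891

theorem card_borel : #{B : Set (ℕ × ℕ → Bool) | MeasurableSet B} ≤ 𝔠 := by
  have h1 := MeasurableSpace.generateFrom_countableGeneratingSet (α := ℕ × ℕ → Bool)
  have h2 : #(MeasurableSpace.countableGeneratingSet (ℕ × ℕ → Bool)) ≤ 𝔠 :=
    (MeasurableSpace.countable_countableGeneratingSet.le_aleph0).trans aleph0_le_continuum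
  have h3 := MeasurableSpace.cardinal_measurableSet_le_continuum h2
  rw [h1] at h3
  exact h3

theorem card_borelFamily : #{C : Set (SimpleGraph ℕ) | BorelFamily C} ≤ 𝔠 := by
  refine le_trans ?_ card_borel
  let f : {B : Set (ℕ × ℕ → Bool) | MeasurableSet B} → {C : Set (SimpleGraph ℕ) | BorelFamily C} :=
    fun B => ⟨edgeIndicator ⁻¹' B.1, borelFamily_iff.2 ⟨B.1, B.2, rfl⟩⟩
  refine mk_le_of_surjective (f := f) ?_
  rintro ⟨C, hC⟩
  obtain ⟨B, hB, h⟩ := borelFamily_iff.1 hC
  exact ⟨⟨B, hB⟩, Subtype.ext h⟩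

/-- An antichain in the power set of `ℕ`. -/
def dbl (Z : Set ℕ) : Set ℕ := {m | (∃ n ∈ Z, m = 2 * n) ∨ ∃ n, n ∉ Z ∧ m = 2 * n + 1}

theorem dbl_subset {Z Z' : Set ℕ} (h : dbl Z ⊆ dbl Z') : Z = Z' := by
  ext n
  constructor
  · intro hn
    rcases h (Or.inl ⟨n, hn, rfl⟩) with ⟨m, hm, he⟩ | ⟨m, hm, he⟩
    · have : n = m := by omega
      rwa [this]
    · omega
  · intro hn
    by_contra hcon
    rcases h (Or.inr ⟨n, hcon, rfl⟩) with ⟨m, hm, he⟩ | ⟨m, hm, he⟩
    · omega
    · have : n = m := by omega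
      rw [this] at hn
      exact hm hn

theorem card_graph : #(SimpleGraph ℕ) ≤ 𝔠 := by
  have h1 : #(SimpleGraph ℕ) ≤ #(ℕ × ℕ → Bool) := by
    refine mk_le_of_injective (f := edgeIndicator) ?_
    intro G H h
    rw [← gr_edgeIndicator G, h, gr_edgeIndicator]
  refine h1.trans ?_
  simp

/-- S3. -/
theorem nonborel_iff_card {α : Ordinal.{0}} (hα : α < ω₁) :
    (∃ C ∈ minorClosedFamilies α, ¬ BorelFamily C) ↔ #(minorClosedFamilies α) = 2 ^ 𝔠 := by
  constructor
  · rintro ⟨C, hC, hB⟩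
    refine le_antisymm ?_ ?_
    · refine (mk_set_le _).trans ?_
      rw [mk_set]
      exact power_le_power_left two_ne_zero card_graph
    · have hcon : ¬ CodeWqo α := fun h => hB (borel_of_codeWqo hα h hC.1 hC.2)
      obtain ⟨k, y, β, hβ, hy⟩ := sf_of_not_codeWqo hα hcon
      obtain ⟨Γ, hΓ, hΓ'⟩ := hy.exists_many
      have h0 : (2 : Cardinal.{0}) ^ 𝔠 = #(Set (Set ℕ)) := by
        rw [mk_set, mk_set, mk_nat, two_power_aleph0]
      rw [h0]
      let f : Set (Set ℕ) → minorClosedFamilies α := fun Z =>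
        ⟨{H | ∃ X ∈ Z, IsMinor H (Γ (dbl X))}, by
          constructor
          · rintro G ⟨X, hX, hG⟩ H hH
            exact ⟨X, hX, isMinor_iff.2 ((isMinor_iff.1 hH).trans (isMinor_iff.1 hG))⟩
          · rintro G ⟨X, _, hG⟩
            exact hasRankLE_iff.2 (((hΓ _).mono_ord hβ).of_minor (isMinor_iff.1 hG))⟩
      refine mk_le_of_injective (f := f) ?_
      intro Z Z' h
      have h1 : {H | ∃ X ∈ Z, IsMinor H (Γ (dbl X))} =
          {H | ∃ X ∈ Z', IsMinor H (Γ (dbl X))} := congrArg Subtype.val h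
      have key : ∀ (Y : Set (Set ℕ)) (X : Set ℕ),
          Γ (dbl X) ∈ {H | ∃ X ∈ Y, IsMinor H (Γ (dbl X))} ↔ X ∈ Y := by
        intro Y X
        constructor
        · rintro ⟨X', hX', h⟩
          have := (hΓ' _ _).1 (isMinor_iff.1 h)
          rwa [dbl_subset this]
        · intro hX
          exact ⟨X, hX, isMinor_iff.2 (Minor.refl _ _)⟩
      ext X
      rw [← key Z X, h1, key]
  · intro hcard
    by_contra hcon
    push Not at hcon
    have h1 : #(minorClosedFamilies α) ≤ 𝔠 := by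
      refine le_trans (mk_le_mk_of_subset ?_) card_borelFamily
      intro C hC
      exact hcon C hC
    rw [hcard] at h1
    exact absurd h1 (not_le.2 (cantor _))

end Run7.h891
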