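import Pool.Agent.Run7.h891.Defs2
import Pool.Agent.Run7.h891.Sharp
import Pool.Agent.Run7.h891.Official

/-! The official forms of the sharp results. -/

set_option autoImplicit false

open Set Ordinal MeasureTheory

namespace Run7.h891

open Pool.Agent.H534R3.NonBorel (br proj exists_code)

theorem isRootedMinor_iff {n : ℕ} {W V : Type*} {H : SimpleGraph W} {s : Fin n → W}
    {G : SimpleGraph V} {r : Fin n → V} :
    IsRootedMinor H s G r ↔ RMinor H Set.univ s G Set.univ r := by
  constructor
  · rintro ⟨B, h1, h2, h3, h4⟩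
    exact ⟨B, ⟨fun w _ => subset_univ _, fun w _ => (conn_iff.1 (h1 w)).1,
      fun w _ => (conn_iff.1 (h1 w)).2, fun a _ b _ => h2 a b, fun a _ b _ => h3 a b⟩, h4⟩
  · rintro ⟨B, hB, h4⟩
    exact ⟨B, fun w => conn_iff.2 ⟨hB.ne w (mem_univ w), hB.conn w (mem_univ w)⟩,
      fun a b => hB.disj a (mem_univ a) b (mem_univ b),
      fun a b => hB.adj a (mem_univ a) b (mem_univ b), h4⟩

/-- Well-quasi-ordering of the rooted graphs of rank smaller than `α`, in terms of codes. -/
def CodeWqo (α : Ordinal.{0}) : Prop := ∀ n : ℕ, ∀ x : ℕ → Code (Fin n),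
  (∀ k, ∃ β < α, (x k).RankLE β) → ∃ i j, i < j ∧ RLE (x i) (x j)

theorem codeWqo_iff {α : Ordinal.{0}} : CodeWqo α ↔
    ∀ (n : ℕ) (V : ℕ → Type) (_ : ∀ i, Countable (V i)) (G : ∀ i, SimpleGraph (V i))
      (r : ∀ i, Fin n ↪ V i), (∀ i, ∃ β < α, HasRankLE β (G i)) →
      ∃ i j, i < j ∧ IsRootedMinor (G i) (r i) (G j) (r j) := by
  classical
  constructor
  · intro h n V hV G r hG
    have hemb : ∀ i, ∃ f : V i → ℕ, Function.Injective f := fun i => exists_injective_nat (V i)
    choose f hf using hemb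
    let e : ∀ i, V i ↪ ℕ := fun i => ⟨f i, hf i⟩
    obtain ⟨i, j, hij, hm⟩ := h n (fun i => Code.mk' (e i) (G i) Set.univ (r i) (r i).injective
      (fun _ => mem_univ _)) (by
        intro i
        obtain ⟨β, hβ, h1⟩ := hG i
        exact ⟨β, hβ, rank_mk'.2 (hasRankLE_iff.1 h1)⟩)
    exact ⟨i, j, hij, isRootedMinor_iff.2 (rle_mk'.1 hm)⟩
  · intro h n x hx
    obtain ⟨i, j, hij, hm⟩ := h n (fun i => (x i).X) (fun i => inferInstance)
      (fun i => (x i).G.induce (x i).X)
      (fun i => ⟨fun q => ⟨(x i).r q, (x i).mem q⟩, fun a b hab => (x i).inj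
        (congrArg Subtype.val hab)⟩) (by
        intro i
        obtain ⟨β, hβ, h1⟩ := hx i
        refine ⟨β, hβ, hasRankLE_iff.2 ?_⟩
        rw [← rankLE_image (SimpleGraph.Embedding.induce (G := (x i).G) (x i).X)]
        have h2 : (SimpleGraph.Embedding.induce (G := (x i).G) (x i).X) '' Set.univ =
            (x i).X := by
          ext z
          simp
        rw [h2]
        exact h1)
    refine ⟨i, j, hij, ?_⟩
    rw [isRootedMinor_iff] at hm
    have h2 : ∀ i, (SimpleGraph.Embedding.induce (G := (x i).G) (x i).X) '' Set.univ =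
        (x i).X := by
      intro i
      ext z
      simp
    have h3 := (rminor_image_left (SimpleGraph.Embedding.induce (G := (x i).G) (x i).X)).2
      ((rminor_image_right (SimpleGraph.Embedding.induce (G := (x j).G) (x j).X)).2 hm)
    rw [h2 i, h2 j] at h3
    exact h3

/-- The easy direction: countably many types. -/
theorem borel_of_codeWqo {α : Ordinal.{0}} (hα : α < ω₁) (h : CodeWqo α)
    {C : Set (SimpleGraph ℕ)} (hmc : MinorClosed C) (hC : ∀ G ∈ C, HasRankLE α G) :
    BorelFamily C :=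
  borel_of_types hα (countable_types_local α hα h α le_rfl 0)
    (fun G hG => hasRankLE_iff.1 (hC G hG))
    (fun G hG H hH => hmc G hG H (isMinor_iff.2 hH))

theorem sf_of_not_codeWqo {α : Ordinal.{0}} (hα : α < ω₁) (h : ¬ CodeWqo α) :
    ∃ (k : ℕ) (y : ℕ → Code (Fin k)) (β : Ordinal.{0}), β ≤ α ∧ SF y β := by
  unfold CodeWqo at h
  push Not at h
  obtain ⟨n, x, hx, hbad⟩ := h
  exact exists_sf hα x hx hbad

/-- The minors of a graph form a minor-closed family. -/
theorem minorClosed_down (Δ : SimpleGraph ℕ) : MinorClosed {H | IsMinor H Δ} := by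
  intro G hG H hH
  exact isMinor_iff.2 ((isMinor_iff.1 hH).trans (isMinor_iff.1 hG))

theorem hasRankLE_down {Δ : SimpleGraph ℕ} {α : Ordinal.{0}} (h : HasRankLE α Δ) :
    ∀ G ∈ {H : SimpleGraph ℕ | IsMinor H Δ}, HasRankLE α G := by
  intro G hG
  exact hasRankLE_iff.2 ((hasRankLE_iff.1 h).of_minor (isMinor_iff.1 hG))

/-- The reduction of an analytic subset of the Baire space to ill-foundedness. -/
theorem exists_tree_reduction (A : Set (ℕ → ℕ)) (hA : AnalyticSet A) :
    ∃ T : (ℕ → ℕ) → List ℕ → Bool, Continuous T ∧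
      ∀ z, z ∈ A ↔ ∃ f : ℕ → ℕ, ∀ n, T z (br f n) = true := by
  classical
  obtain ⟨c, rfl⟩ := exists_code A hA
  refine ⟨fun z s => decide (c (br z s.length) s), ?_, ?_⟩
  · refine continuous_pi fun s => ?_
    have h1 : Continuous (fun z : ℕ → ℕ => br z s.length) := by
      have h2 : ∀ n : ℕ, Continuous (fun z : ℕ → ℕ => (List.range n).map z) := by
        intro n
        rw [continuous_discrete_rng]
        intro l
        by_cases hl : ∃ z0 : ℕ → ℕ, (List.range n).map z0 = l
        · obtain ⟨z0, rfl⟩ := hl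
          have : (fun z : ℕ → ℕ => (List.range n).map z) ⁻¹' {(List.range n).map z0} =
              ⋂ i ∈ Finset.range n, {z : ℕ → ℕ | z i = z0 i} := by
            ext z
            simp only [mem_preimage, mem_singleton_iff, List.map_inj_left, List.mem_range,
              Finset.mem_range, mem_iInter, mem_ofPred_eq]
          rw [this]
          refine isOpen_biInter_finset fun i _ => ?_
          exact (isOpen_discrete ({z0 i} : Set ℕ)).preimage
            (continuous_apply (A := fun _ : ℕ => ℕ) i)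
        · have : (fun z : ℕ → ℕ => (List.range n).map z) ⁻¹' {l} = ∅ := by
            ext z
            simp only [mem_preimage, mem_singleton_iff, mem_empty_iff_false, iff_false]
            exact fun h => hl ⟨z, h⟩
          rw [this]
          exact isOpen_empty
      exact h2 s.length
    exact (continuous_of_discreteTopology (f := fun l : List ℕ => decide (c l s))).comp h1
  · intro z
    simp only [proj, mem_ofPred_eq, decide_eq_true_eq,
      Pool.Agent.H534R3.NonBorel.length_br]

/-- The graph coded by a function depends continuously on it. -/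
theorem continuous_gr : @Continuous _ _ _ graphTopology gr := by
  classical
  refine continuous_induced_rng.2 (continuous_pi fun p => ?_)
  have h1 : Continuous (fun E : ℕ × ℕ → Bool => (E (p.1, p.2), E (p.2, p.1))) :=
    (continuous_apply _).prodMk (continuous_apply _)
  let g : Bool × Bool → Bool := fun b => decide (b.1 = true ∧ b.2 = true ∧ p.1 ≠ p.2)
  have h2 : (fun E : ℕ × ℕ → Bool => (edgeIndicator ∘ gr) E p) =
      g ∘ (fun E : ℕ × ℕ → Bool => (E (p.1, p.2), E (p.2, p.1))) := by
    funext E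
    simp only [edgeIndicator, Function.comp, g, decide_eq_decide]
    exact Iff.rfl
  rw [h2]
  exact continuous_of_discreteTopology.comp h1

theorem analytic_graph {C : Set (SimpleGraph ℕ)}
    (h : AnalyticSet {E : ℕ × ℕ → Bool | gr E ∈ C}) :
    @AnalyticSet (SimpleGraph ℕ) graphTopology C := by
  let _ := graphTopology
  have h1 := h.image_of_continuous continuous_gr
  have h2 : gr '' {E : ℕ × ℕ → Bool | gr E ∈ C} = C := by
    ext G
    constructor
    · rintro ⟨E, hE, rfl⟩
      exact hE
    · intro hG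
      refine ⟨edgeIndicator G, ?_, gr_edgeIndicator G⟩
      show gr (edgeIndicator G) ∈ C
      rwa [gr_edgeIndicator]
  rwa [h2] at h1

/-- There is an analytic subset of the Baire space which is not Borel. -/
theorem exists_analytic_not_borel : ∃ A : Set (ℕ → ℕ), AnalyticSet A ∧ ¬ MeasurableSet A := by
  classical
  let I : Set (List ℕ → Bool) := {t | ∃ f : ℕ → ℕ, ∀ n, t (br f n) = true}
  let Ψ : (ℕ → ℕ) → (List ℕ → Bool) := fun z s => decide (z (Encodable.encode s) = 0)
  let θ : (List ℕ → Bool) → (ℕ → ℕ) := fun t n =>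
    match (Encodable.decode n : Option (List ℕ)) with
    | none => 0
    | some s => if t s = true then 0 else 1
  have hΨ : Continuous Ψ := continuous_pi fun s =>
    (continuous_of_discreteTopology (f := fun m : ℕ => decide (m = 0))).comp (continuous_apply _)
  have hθ : Continuous θ := by
    refine continuous_pi fun n => ?_
    rcases hd : (Encodable.decode n : Option (List ℕ)) with _ | s
    · have : (fun t => θ t n) = fun _ => 0 := by
        funext t
        simp only [θ, hd]
      show Continuous (fun t => θ t n)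
      rw [this]
      exact continuous_const
    · have : (fun t => θ t n) = (fun b : Bool => if b = true then 0 else 1) ∘ (fun t => t s) := by
        funext t
        simp only [θ, hd, Function.comp]
      show Continuous (fun t => θ t n)
      rw [this]
      exact continuous_of_discreteTopology.comp (continuous_apply s)
  have hθΨ : ∀ t, Ψ (θ t) = t := by
    intro t
    funext s
    simp only [Ψ, θ, Encodable.encodek]
    cases t s <;> simp
  have hI : AnalyticSet I := by
    -- the set of pairs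
    have h1 : MeasurableSet {p : (List ℕ → Bool) × (ℕ → ℕ) | ∀ n, p.1 (br p.2 n) = true} := by
      have h2 : {p : (List ℕ → Bool) × (ℕ → ℕ) | ∀ n, p.1 (br p.2 n) = true} =
          ⋂ n : ℕ, ⋃ s : List ℕ, ({p | p.1 s = true} ∩ {p | br p.2 n = s}) := by
        ext p
        simp only [mem_ofPred_eq, mem_iInter, mem_iUnion, mem_inter_iff]
        constructor
        · intro h n
          exact ⟨_, h n, rfl⟩
        · intro h n
          obtain ⟨s, hs1, hs2⟩ := h n
          rw [hs2]
          exact hs1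
      rw [h2]
      refine MeasurableSet.iInter fun n => MeasurableSet.iUnion fun s => MeasurableSet.inter ?_ ?_
      · exact measurable_fst (meas_coord s true)
      · by_cases hs : ∃ f0 : ℕ → ℕ, br f0 n = s
        · obtain ⟨f0, rfl⟩ := hs
          have : {p : (List ℕ → Bool) × (ℕ → ℕ) | br p.2 n = br f0 n} =
              ⋂ i : ℕ, {p | i < n → p.2 i = f0 i} := by
            ext p
            simp only [mem_ofPred_eq, mem_iInter]
            exact Pool.Agent.H534R3.NonBorel.br_eq_iff _ _ _
          rw [this]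
          refine MeasurableSet.iInter fun i => ?_
          by_cases hi : i < n
          · have : {p : (List ℕ → Bool) × (ℕ → ℕ) | i < n → p.2 i = f0 i} =
                Prod.snd ⁻¹' {f : ℕ → ℕ | f i = f0 i} := by
              ext p
              simp [hi]
            rw [this]
            exact measurable_snd (meas_coord i (f0 i))
          · have : {p : (List ℕ → Bool) × (ℕ → ℕ) | i < n → p.2 i = f0 i} = Set.univ := by
              ext p
              simp [hi]
            rw [this]
            exact MeasurableSet.univ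
        · have : {p : (List ℕ → Bool) × (ℕ → ℕ) | br p.2 n = s} = ∅ := by
            ext p
            simp only [mem_ofPred_eq, mem_empty_iff_false, iff_false]
            exact fun h => hs ⟨p.2, h⟩
          rw [this]
          exact MeasurableSet.empty
    have h3 : I = Prod.fst '' {p : (List ℕ → Bool) × (ℕ → ℕ) | ∀ n, p.1 (br p.2 n) = true} := by
      ext t
      constructor
      · rintro ⟨f, hf⟩
        exact ⟨(t, f), hf, rfl⟩
      · rintro ⟨⟨t', f⟩, hf, rfl⟩
        exact ⟨f, hf⟩
    rw [h3]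
    exact h1.analyticSet_image measurable_fst
  refine ⟨Ψ ⁻¹' I, hI.preimage hΨ, fun hM => ?_⟩
  apply Pool.Agent.H534R3.NonBorel.illFounded_not_measurable
  have h4 : θ ⁻¹' (Ψ ⁻¹' I) = I := by
    ext t
    show Ψ (θ t) ∈ I ↔ t ∈ I
    rw [hθΨ]
  have h5 : MeasurableSet (θ ⁻¹' (Ψ ⁻¹' I)) := hθ.measurable hM
  rwa [h4] at h5

theorem Sigma11Complete.not_borel {C : Set (SimpleGraph ℕ)} (h : Sigma11Complete C) :
    ¬ BorelFamily C := by
  intro hB
  obtain ⟨A, hA, hA'⟩ := exists_analytic_not_borel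
  obtain ⟨Φ, hΦ, rfl⟩ := h.2 A hA
  exact hA' (hB.preimage hΦ)

theorem BorelFamily.compl {C : Set (SimpleGraph ℕ)} (h : BorelFamily C) : BorelFamily Cᶜ :=
  MeasurableSet.compl h

theorem Pi11Complete.not_borel {C : Set (SimpleGraph ℕ)} (h : Pi11Complete C) :
    ¬ BorelFamily C := fun hB => Sigma11Complete.not_borel h hB.compl

/-- The minors of a fixed graph form an analytic family. -/
theorem analytic_minors (Δ : SimpleGraph ℕ) :
    @AnalyticSet (SimpleGraph ℕ) graphTopology {H | IsMinor H Δ} := by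
  refine analytic_graph ?_
  have : {E : ℕ × ℕ → Bool | gr E ∈ {H | IsMinor H Δ}} =
      {E : ℕ × ℕ → Bool | Minor (gr E) Set.univ Δ Set.univ} := by
    ext E
    exact isMinor_iff
  rw [this]
  exact analytic_down Δ

theorem SF.host_complete {k : ℕ} {y : ℕ → Code (Fin k)} {β : Ordinal.{0}} (h : SF y β) :
    ∃ Δ : SimpleGraph ℕ, HasRankLE β Δ ∧ Sigma11Complete {H | IsMinor H Δ} := by
  obtain ⟨Δ, hΔ, Φ, hΦ, hΦ'⟩ := h.exists_host
  refine ⟨Δ, hasRankLE_iff.2 hΔ, analytic_minors Δ, fun A hA => ?_⟩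
  obtain ⟨T, hT, hT'⟩ := exists_tree_reduction A hA
  refine ⟨Φ ∘ T, @Continuous.comp _ _ _ _ _ graphTopology _ _ hΦ hT, ?_⟩
  ext z
  rw [hT', ← hΦ']
  exact isMinor_iff

theorem SF.guest_complete {k : ℕ} {y : ℕ → Code (Fin k)} {β α : Ordinal.{0}} (hα : α < ω₁)
    (hβα : β ≤ α) (h : SF y β) :
    ∃ Γ : SimpleGraph ℕ, HasRankLE β Γ ∧ Pi11Complete {H | HasRankLE α H ∧ ¬ IsMinor Γ H} := by
  obtain ⟨Γ, hΓ, Φ, hΦ, hrk, hΦ'⟩ := h.exists_guest
  refine ⟨Γ, hasRankLE_iff.2 hΓ, ?_, fun A hA => ?_⟩
  · refine analytic_graph ?_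
    have h1 : AnalyticSet (⋃ b : Bool, (bif b then
        {E : ℕ × ℕ → Bool | RankLE (gr E) α Set.univ}ᶜ else
        {E : ℕ × ℕ → Bool | Minor Γ Set.univ (gr E) Set.univ})) := by
      refine AnalyticSet.iUnion fun b => ?_
      cases b
      · exact analytic_up Γ
      · exact (meas_rankLE hα).compl.analyticSet
    convert h1 using 1
    ext E
    simp only [mem_ofPred_eq, mem_compl_iff, not_and, not_not, mem_iUnion, Bool.exists_bool,
      cond_true, cond_false, hasRankLE_iff, isMinor_iff]
    tauto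
  · obtain ⟨T, hT, hT'⟩ := exists_tree_reduction A hA
    refine ⟨Φ ∘ T, @Continuous.comp _ _ _ _ _ graphTopology _ _ hΦ hT, ?_⟩
    ext z
    rw [hT', ← hΦ']
    show ¬ (HasRankLE α (Φ (T z)) ∧ ¬ IsMinor Γ (Φ (T z))) ↔ _
    have h1 : HasRankLE α (Φ (T z)) := hasRankLE_iff.2 ((hrk (T z)).mono_ord hβα)
    rw [← isMinor_iff]
    tauto

/-- S1. -/
theorem borel_iff_rooted_wqo {α : Ordinal.{0}} (hα : α < ω₁) :
    (∀ C : Set (SimpleGraph ℕ), MinorClosed C → (∀ G ∈ C, HasRankLE α G) → BorelFamily C) ↔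
      CodeWqo α := by
  constructor
  · intro h
    by_contra hcon
    obtain ⟨k, y, β, hβ, hy⟩ := sf_of_not_codeWqo hα hcon
    obtain ⟨Δ, hΔ, hc⟩ := hy.host_complete
    have hΔ' : HasRankLE α Δ := hasRankLE_iff.2 ((hasRankLE_iff.1 hΔ).mono_ord hβ)
    exact hc.not_borel (h _ (minorClosed_down Δ) (hasRankLE_down hΔ'))
  · intro h C hmc hC
    exact borel_of_codeWqo hα h hmc hC

/-- S2. -/
theorem nonborel_iff_principal {α : Ordinal.{0}} (hα : α < ω₁) :
    (∃ C : Set (SimpleGraph ℕ), MinorClosed C ∧ (∀ G ∈ C, HasRankLE α G) ∧ ¬ BorelFamily C) ↔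
      ∃ Δ : SimpleGraph ℕ, HasRankLE α Δ ∧ Sigma11Complete {H | IsMinor H Δ} := by
  constructor
  · rintro ⟨C, h1, h2, h3⟩
    have hcon : ¬ CodeWqo α := fun h => h3 (borel_of_codeWqo hα h h1 h2)
    obtain ⟨k, y, β, hβ, hy⟩ := sf_of_not_codeWqo hα hcon
    obtain ⟨Δ, hΔ, hc⟩ := hy.host_complete
    exact ⟨Δ, hasRankLE_iff.2 ((hasRankLE_iff.1 hΔ).mono_ord hβ), hc⟩
  · rintro ⟨Δ, hΔ, hc⟩
    exact ⟨_, minorClosed_down Δ, hasRankLE_down hΔ, hc.not_borel⟩

/-- S4. -/
theorem nonborel_iff_excluded {α : Ordinal.{0}} (hα : α < ω₁) :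
    (∃ C : Set (SimpleGraph ℕ), MinorClosed C ∧ (∀ G ∈ C, HasRankLE α G) ∧ ¬ BorelFamily C) ↔
      ∃ Γ : SimpleGraph ℕ, HasRankLE α Γ ∧
        Pi11Complete {H | HasRankLE α H ∧ ¬ IsMinor Γ H} := by
  constructor
  · rintro ⟨C, h1, h2, h3⟩
    have hcon : ¬ CodeWqo α := fun h => h3 (borel_of_codeWqo hα h h1 h2)
    obtain ⟨k, y, β, hβ, hy⟩ := sf_of_not_codeWqo hα hcon
    obtain ⟨Γ, hΓ, hc⟩ := hy.guest_complete hα hβ
    exact ⟨Γ, hasRankLE_iff.2 ((hasRankLE_iff.1 hΓ).mono_ord hβ), hc⟩
  · rintro ⟨Γ, hΓ, hc⟩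
    refine ⟨_, ?_, fun G hG => hG.1, hc.not_borel⟩
    intro G hG H hH
    have h1 := isMinor_iff.1 hH
    refine ⟨hasRankLE_iff.2 ((hasRankLE_iff.1 hG.1).of_minor h1), fun h => hG.2 ?_⟩
    exact isMinor_iff.2 ((isMinor_iff.1 h).trans h1)

end Run7.h891
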