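import Pool.Agent.Run7.h891.WqoPage
import Pool.Agent.Run7.h891.Defs5

/-! Rank slices of families closed under minor-twins. -/

set_option autoImplicit false

open Set Ordinal MeasureTheory Cardinal

namespace Run7.h891

theorem hasRankLE_minor {G H : SimpleGraph ℕ} {α : Ordinal.{0}} (h : HasRankLE α G)
    (hm : IsMinor H G) : HasRankLE α H :=
  hasRankLE_iff.2 ((hasRankLE_iff.1 h).of_minor (isMinor_iff.1 hm))

theorem isMinor_trans {A B C : SimpleGraph ℕ} (h : IsMinor A B) (h' : IsMinor B C) :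
    IsMinor A C := isMinor_iff.2 ((isMinor_iff.1 h).trans (isMinor_iff.1 h'))

theorem BorelFamily.iUnion {ι : Type*} [Countable ι] {C : ι → Set (SimpleGraph ℕ)}
    (h : ∀ i, BorelFamily (C i)) : BorelFamily (⋃ i, C i) :=
  @MeasurableSet.iUnion _ _ (@borel _ graphTopology) _ _ h

theorem BorelFamily.iInter {ι : Type*} [Countable ι] {C : ι → Set (SimpleGraph ℕ)}
    (h : ∀ i, BorelFamily (C i)) : BorelFamily (⋂ i, C i) :=
  @MeasurableSet.iInter _ _ (@borel _ graphTopology) _ _ h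

theorem BorelFamily.inter {C D : Set (SimpleGraph ℕ)} (h : BorelFamily C) (h' : BorelFamily D) :
    BorelFamily (C ∩ D) := @MeasurableSet.inter _ (@borel _ graphTopology) _ _ h h'

theorem BorelRelation.right {R : Set (SimpleGraph ℕ × SimpleGraph ℕ)} (h : BorelRelation R)
    (G : SimpleGraph ℕ) : BorelFamily {H | (G, H) ∈ R} := by
  let _ := graphTopology
  have h1 : @Continuous _ _ graphTopology pairTopology
      (fun H : SimpleGraph ℕ => (G, H)) := by
    exact Continuous.prodMk continuous_const continuous_id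
  exact @Continuous.borel_measurable _ _ graphTopology pairTopology _ h1 _ h

/-- The slices of the family of all rayless graphs are Borel. -/
theorem borel_slice_rayless {α : Ordinal.{0}} (hα : α < ω₁) :
    BorelFamily (RankSlice {G | Rayless G} α) := by
  have := countable_Iio_of_lt hα
  have h1 : RankSlice {G | Rayless G} α =
      {G | HasRankLE α G} ∩ ⋂ β : Set.Iio α, {G | HasRankLE β.1 G}ᶜ := by
    ext G
    simp only [RankSlice, mem_ofPred_eq, mem_inter_iff, mem_iInter, mem_compl_iff, Subtype.forall,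
      mem_Iio]
    constructor
    · rintro ⟨_, h1, h2⟩
      exact ⟨h1, h2⟩
    · rintro ⟨h1, h2⟩
      exact ⟨rayless_iff.2 ⟨α, hα, hasRankLE_iff.1 h1⟩, h1, h2⟩
  rw [h1]
  exact (borelFamily_rank hα).inter
    (BorelFamily.iInter fun β => (borelFamily_rank (lt_trans β.2 hα)).compl)

theorem slice_of_wqo (h : WellQuasiOrdered MinorLE) {C : Set (SimpleGraph ℕ)}
    (htw : TwinClosed C) {α : Ordinal.{0}} (hα : α < ω₁) : BorelFamily (RankSlice C α) := by
  classical
  have hc := codeWqo_of_wqo h hα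
  have hrel := borelRelation_of_codeWqo hα hc
  obtain ⟨R, hR, hR'⟩ := twin_of_codeWqo hα hc
  let R' : Set (SimpleGraph ℕ) := {H | H ∈ R ∧ ∃ G ∈ RankSlice C α, IsMinor G H ∧ IsMinor H G}
  have hR'c : Countable R' := (hR.mono fun H hH => hH.1).to_subtype
  have h1 : RankSlice C α = ⋃ H : R', ({G | (G, H.1) ∈ minorRelation α} ∩
      {G | (H.1, G) ∈ minorRelation α}) := by
    ext G
    constructor
    · intro hG
      obtain ⟨H, hH, h2, h3⟩ := hR' G hG.2.1
      have hHr : HasRankLE α H := hasRankLE_minor hG.2.1 h3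
      exact mem_iUnion.2 ⟨⟨H, hH, G, hG, h2, h3⟩, ⟨hG.2.1, hHr, h2⟩, hHr, hG.2.1, h3⟩
    · intro hG
      obtain ⟨⟨H, _, G', hG', h2, h3⟩, ⟨h4, _, h5⟩, _, _, h6⟩ := mem_iUnion.1 hG
      have h7 : IsMinor G G' := isMinor_trans h5 h3
      have h8 : IsMinor G' G := isMinor_trans h2 h6
      exact ⟨htw G' hG'.1 G h7 h8, h4, fun β hβ h9 => hG'.2.2 β hβ (hasRankLE_minor h9 h8)⟩
  rw [h1]
  exact BorelFamily.iUnion fun H => (hrel.left H.1).inter (hrel.right H.1)

theorem borel_of_slices {C : Set (SimpleGraph ℕ)} {α : Ordinal.{0}} (hα : α < ω₁)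
    (hrk : ∀ G ∈ C, HasRankLE α G) (h : ∀ β < ω₁, BorelFamily (RankSlice C β)) :
    BorelFamily C := by
  have hα' : Order.succ α < ω₁ := succ_lt_omega_one hα
  have := countable_Iio_of_lt hα'
  have h1 : C = ⋃ β : Set.Iio (Order.succ α), RankSlice C β.1 := by
    ext G
    constructor
    · intro hG
      let E : Set Ordinal.{0} := {β | HasRankLE β G}
      have hE : E.Nonempty := ⟨α, hrk G hG⟩
      have hlt : sInf E < Order.succ α := Order.lt_succ_of_le (csInf_le' (hrk G hG))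
      refine mem_iUnion.2 ⟨⟨sInf E, hlt⟩, hG, csInf_mem hE, fun β hβ h2 => ?_⟩
      exact absurd (csInf_le' (show β ∈ E from h2)) (not_le.2 hβ)
    · intro hG
      obtain ⟨β, hβ⟩ := mem_iUnion.1 hG
      exact hβ.1
  rw [h1]
  exact BorelFamily.iUnion fun β => h β.1 (lt_trans β.2 hα')

/-- The list for rank slices. -/
theorem slices_tfae :
    [∀ C : Set (SimpleGraph ℕ), (∀ G ∈ C, Rayless G) → TwinClosed C →
        (∀ α < ω₁, BorelFamily (RankSlice C α)) → WqoFamily C,
      ∀ C : Set (SimpleGraph ℕ), (∀ G ∈ C, Rayless G) → TwinClosed C →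
        ∀ α < ω₁, BorelFamily (RankSlice C α),
      ∀ C : Set (SimpleGraph ℕ), (∀ G ∈ C, Rayless G) → WqoFamily C,
      WellQuasiOrdered MinorLE,
      BetterQuasiOrdered MinorLE,
      ∀ α < ω₁, CountablyManyTwinClasses α,
      ¬ ∃ Φ : (ℕ → Bool) → SimpleGraph ℕ, @Continuous _ _ _ graphTopology Φ ∧
        (∀ t, Rayless (Φ t)) ∧ ∀ t t', t ≠ t' → ¬ IsMinor (Φ t) (Φ t')].TFAE := by
  have hw := wqo_tfae
  tfae_have 4 ↔ 5 := hw.out 0 1
  tfae_have 4 ↔ 6 := hw.out 0 3
  tfae_have 4 ↔ 7 := hw.out 0 5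
  tfae_have 4 → 3 := by
    intro h C hC f hf
    obtain ⟨i, j, hij, hm⟩ := h fun n => ⟨ℕ, f n, inferInstance, hC _ (hf n)⟩
    exact ⟨i, j, hij, hm⟩
  tfae_have 3 → 1 := fun h C hC _ _ => h C hC
  tfae_have 1 → 7 := by
    rintro h ⟨Φ, _, h2, h3⟩
    have htw : TwinClosed {G : SimpleGraph ℕ | Rayless G} := by
      intro G hG H hH _
      obtain ⟨α, hα, h4⟩ := rayless_iff.1 hG
      exact rayless_iff.2 ⟨α, hα, h4.of_minor (isMinor_iff.1 hH)⟩
    obtain ⟨i, j, hij, hm⟩ := h {G | Rayless G} (fun G hG => hG) htw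
      (fun α hα => borel_slice_rayless hα) (fun n => Φ fun k => decide (k = n)) (fun n => h2 _)
    refine h3 _ _ (fun h5 => ?_) hm
    have h6 := congrFun h5 i
    simp at h6
    omega
  tfae_have 4 → 2 := fun h C _ htw α hα => slice_of_wqo h htw hα
  tfae_have 2 → 4 := by
    intro h
    have h14 := q1_tfae.out 0 1
    refine h14.1 ?_
    rintro ⟨C, hC, hmc, ⟨α, hα, hrk⟩, hB⟩
    exact hB (borel_of_slices hα hrk (h C hC fun G hG H hH _ => hmc G hG H hH))
  tfae_finish

end Run7.h891
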