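import Pool.Agent.Run7.h891.Attach

/-! Stars of graphs and cones. -/

set_option autoImplicit false

open Set Ordinal

namespace Run7.h891

universe u v w

variable {V : Type u} {W : Type v} {U : Type w} {ι : Type*}

/-- A hub vertex joined to all vertices of a copy of `T i`, for every `i`. -/
def star (T : ι → SimpleGraph W) : SimpleGraph (Unit ⊕ ι × W) :=
  att (⊥ : SimpleGraph Unit) (fun _ => ()) T

/-- The part of a star given by the index set `I` and carriers `Z i`. -/
def starSet (I : Set ι) (Z : ι → Set W) : Set (Unit ⊕ ι × W) := attSet Set.univ I Z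

/-- The embedding of the `i`-th copy. -/
def starCopy (T : ι → SimpleGraph W) (i : ι) : T i ↪g star T := attCopy _ _ T i

variable {T : ι → SimpleGraph W} {I : Set ι} {Z : ι → Set W}

@[simp] theorem hub_mem_starSet : (Sum.inl () : Unit ⊕ ι × W) ∈ starSet I Z := by
  simp [starSet]

@[simp] theorem inr_mem_starSet {i : ι} {x : W} :
    (Sum.inr (i, x) : Unit ⊕ ι × W) ∈ starSet I Z ↔ i ∈ I ∧ x ∈ Z i := by
  simp [starSet]

theorem star_adj_hub {i : ι} {x : W} : (star T).Adj (.inl ()) (.inr (i, x)) := rfl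

theorem star_copy_image (i : ι) (A : Set W) : starCopy T i '' A = copySet Unit i A := rfl

theorem star_copySet_subset {i : ι} (hi : i ∈ I) : copySet Unit i (Z i) ⊆ starSet I Z :=
  copySet_subset hi

theorem star_conn : Conn (star T) (starSet I Z) := by
  have h : ∀ z ∈ starSet I Z, Reach (star T) (starSet I Z) (.inl ()) z := by
    rintro (⟨⟩ | ⟨i, x⟩) hz
    · exact Reach.refl hz
    · exact Reach.of_adj hub_mem_starSet hz star_adj_hub
  intro x hx y hy
  exact (h x hx).symm.trans (h y hy)

theorem star_comp {A : Set (Unit ⊕ ι × W)} (hA : Conn (star T) A) (hne : A.Nonempty)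
    (hsub : A ⊆ starSet I Z) (hhub : Sum.inl () ∉ A) : ∃ i ∈ I, A ⊆ copySet Unit i (Z i) := by
  obtain ⟨z, hz⟩ := hne
  rcases z with ⟨⟩ | ⟨i, x⟩
  · exact absurd hz hhub
  · refine ⟨i, (inr_mem_starSet.1 (hsub hz)).1, ?_⟩
    exact attSet_inter_copy hsub (att_subset_copy hA hz hhub)

theorem copy_conn {i : ι} {A : Set W} : Conn (star T) (copySet Unit i A) ↔ Conn (T i) A :=
  conn_image (starCopy T i)

theorem copy_rank {i : ι} {A : Set W} {α : Ordinal.{0}} :
    RankLE (star T) α (copySet Unit i A) ↔ RankLE (T i) α A :=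
  rankLE_image (starCopy T i)

theorem minor_copy_right {i : ι} {A : Set W} {H : SimpleGraph U} {Y : Set U} :
    Minor H Y (star T) (copySet Unit i A) ↔ Minor H Y (T i) A :=
  minor_image_right (starCopy T i)

theorem minor_copy_left {i : ι} {A : Set W} {H : SimpleGraph U} {Y : Set U} :
    Minor (star T) (copySet Unit i A) H Y ↔ Minor (T i) A H Y :=
  minor_image_left (starCopy T i)

/-- A connected part of a graph whose branch sets avoid the hub is a minor of a single copy. -/
theorem star_model_in_copy {H : SimpleGraph U} {Y P : Set U} {B : U → Set (Unit ⊕ ι × W)}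
    (hB : IsModel H Y (star T) (starSet I Z) B) (hP : P ⊆ Y) (hPc : Conn H P)
    (hPne : P.Nonempty) (h : ∀ w ∈ P, Sum.inl () ∉ B w) : ∃ i ∈ I, Minor H P (T i) (Z i) := by
  have hconn := hB.conn_union hP hPc
  obtain ⟨p, hp⟩ := hPne
  obtain ⟨x, hx⟩ := hB.ne p (hP hp)
  obtain ⟨i, hi, hsub⟩ := star_comp hconn ⟨x, mem_biUnion hp hx⟩
    (iUnion₂_subset fun w hw => hB.sub w (hP hw)) (by
      simp only [mem_iUnion, not_exists]
      exact h)
  refine ⟨i, hi, minor_copy_right.1 ⟨B, ?_⟩⟩
  exact (hB.restrict hP).shrink (fun t ht => (subset_biUnion_of_mem ht).trans hsub)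

theorem star_rank_le {α : Ordinal.{0}}
    (h : ∀ i ∈ I, ∃ β < α, RankLE (T i) β (Z i)) : RankLE (star T) α (starSet I Z) := by
  refine RankLE.of_comps (S := {.inl ()}) (finite_singleton _) fun v hv => ?_
  obtain ⟨i, hi, hsub⟩ := star_comp (T := T) (I := I) (Z := Z) comp_conn
    ⟨v, mem_comp_self hv⟩ (comp_subset.trans sdiff_subset) (fun h => (comp_subset h).2 rfl)
  obtain ⟨β, hβ, h'⟩ := h i hi
  exact ⟨β, hβ, _, hsub, copy_rank.2 h'⟩

theorem star_rank_ge {α : Ordinal.{0}} (hI : I.Infinite) (hne : ∀ i ∈ I, (Z i).Nonempty)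
    (hc : ∀ i ∈ I, Conn (T i) (Z i)) (h : RankLE (star T) α (starSet I Z)) :
    ∃ i ∈ I, ∃ β < α, RankLE (T i) β (Z i) := by
  rw [rankLE_iff] at h
  have hav : ∀ F : Set (Unit ⊕ ι × W), F.Finite → ∃ i ∈ I, Disjoint (copySet Unit i (Z i)) F :=
    fun F hF => avoid hI (fun i _ j _ hij => copySet_disjoint hij _ _) hF
  rcases h with hfin | ⟨S, hS, h⟩
  · obtain ⟨i, hi, hd⟩ := hav _ hfin
    obtain ⟨x, hx⟩ := hne i hi
    have h1 : (Sum.inr (i, x) : Unit ⊕ ι × W) ∈ copySet Unit i (Z i) := by simp [hx]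
    exact absurd (star_copySet_subset hi h1) (Set.disjoint_left.1 hd h1)
  · obtain ⟨i, hi, hd⟩ := hav _ hS
    obtain ⟨x, hx⟩ := hne i hi
    have h1 : (Sum.inr (i, x) : Unit ⊕ ι × W) ∈ copySet Unit i (Z i) := by simp [hx]
    have hsub : copySet Unit i (Z i) ⊆ starSet I Z \ S := fun y hy =>
      ⟨star_copySet_subset hi hy, Set.disjoint_left.1 hd hy⟩
    obtain ⟨β, hβ, h'⟩ := h _ (hsub h1)
    refine ⟨i, hi, β, hβ, copy_rank.1 (h'.mono_set ?_)⟩
    exact conn_subset_comp_self (copy_conn.2 (hc i hi)) hsub h1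

/-- The cone over a graph. -/
def cone (G : SimpleGraph V) : SimpleGraph (Unit ⊕ Unit × V) := star (fun _ : Unit => G)

/-- The cone over `G[X]`. -/
def coneSet (X : Set V) : Set (Unit ⊕ Unit × V) := starSet Set.univ (fun _ : Unit => X)

theorem cone_conn {G : SimpleGraph V} {X : Set V} : Conn (cone G) (coneSet X) := star_conn

theorem coneSet_nonempty {X : Set V} : (coneSet X).Nonempty := ⟨.inl (), hub_mem_starSet⟩

theorem cone_rank {G : SimpleGraph V} {X : Set V} {α : Ordinal.{0}} (h : RankLE G α X) :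
    RankLE (cone G) α (coneSet X) := by
  have h1 : RankLE (cone G) α (copySet Unit () X ∪ {.inl ()}) :=
    (copy_rank (T := fun _ : Unit => G).2 h).union_finite (finite_singleton _)
  refine h1.mono_set ?_
  rintro (⟨⟩ | ⟨⟨⟩, x⟩) hz
  · exact Or.inr rfl
  · refine Or.inl ?_
    simp only [coneSet, inr_mem_starSet] at hz
    simp [hz.2]

theorem minor_of_cone {G : SimpleGraph V} {X : Set V} {H : SimpleGraph W} {Y : Set W}
    (h : Minor (cone G) (coneSet X) (cone H) (coneSet Y)) : Minor G X H Y := by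
  classical
  obtain ⟨B, hB⟩ := h
  have hsubX : copySet Unit () X ⊆ coneSet X := by
    rintro _ ⟨x, hx, rfl⟩
    simp [coneSet, hx]
  have hhub : (Sum.inl () : Unit ⊕ Unit × V) ∈ coneSet X := hub_mem_starSet
  -- sets avoiding the apex
  have hav : ∀ A : Set (Unit ⊕ Unit × W), A ⊆ coneSet Y → Sum.inl () ∉ A →
      A ⊆ copySet Unit () Y := by
    rintro A hA h (⟨⟩ | ⟨⟨⟩, x⟩) hz
    · exact absurd hz h
    · have := hA hz
      simp only [coneSet, inr_mem_starSet] at this
      simp [this.2]
  refine minor_copy_left (T := fun _ : Unit => G) (i := ()).1 ?_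
  refine minor_copy_right (T := fun _ : Unit => H) (i := ()).1 ?_
  by_cases hcase : ∃ x ∈ X, (Sum.inl () : Unit ⊕ Unit × W) ∈ B (.inr ((), x))
  · obtain ⟨x0, hx0, hmem⟩ := hcase
    have hx0' : (Sum.inr ((), x0) : Unit ⊕ Unit × V) ∈ coneSet X := hsubX (by simp [hx0])
    have hne0 : ∀ a ∈ coneSet X, a ≠ Sum.inr ((), x0) → (Sum.inl () : Unit ⊕ Unit × W) ∉ B a :=
      fun a ha hne h => hne (hB.eq_of_mem ha hx0' h hmem)
    refine ⟨fun a => if a = .inr ((), x0) then B (.inl ()) else B a, ?_, ?_, ?_, ?_, ?_⟩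
    · intro a ha
      by_cases h : a = .inr ((), x0)
      · simp only [h, if_true]
        exact hav _ (hB.sub _ hhub) (hne0 _ hhub (by simp))
      · simp only [h, if_false]
        exact hav _ (hB.sub _ (hsubX ha)) (hne0 _ (hsubX ha) h)
    · intro a ha
      by_cases h : a = .inr ((), x0)
      · simp only [h, if_true]
        exact hB.ne _ hhub
      · simp only [h, if_false]
        exact hB.ne _ (hsubX ha)
    · intro a ha
      by_cases h : a = .inr ((), x0)
      · simp only [h, if_true]
        exact hB.conn _ hhub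
      · simp only [h, if_false]
        exact hB.conn _ (hsubX ha)
    · intro a ha b hb hab
      by_cases h : a = .inr ((), x0)
      · have h' : b ≠ .inr ((), x0) := fun h' => hab (h.trans h'.symm)
        simp only [h, if_true, h', if_false]
        refine hB.disj _ hhub _ (hsubX hb) ?_
        rintro rfl
        simp at hb
      · by_cases h' : b = .inr ((), x0)
        · simp only [h, if_false, h', if_true]
          refine hB.disj _ (hsubX ha) _ hhub ?_
          rintro rfl
          simp at ha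
        · simp only [h, if_false, h']
          exact hB.disj _ (hsubX ha) _ (hsubX hb) hab
    · intro a ha b hb hab
      by_cases h : a = .inr ((), x0)
      · have h' : b ≠ .inr ((), x0) := fun h' => by
          rw [h, h'] at hab
          exact (star _).loopless.irrefl _ hab
        simp only [h, if_true, h', if_false]
        refine hB.adj _ hhub _ (hsubX hb) ?_
        obtain ⟨y, _, rfl⟩ := hb
        exact star_adj_hub
      · by_cases h' : b = .inr ((), x0)
        · simp only [h, if_false, h', if_true]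
          refine hB.adj _ (hsubX ha) _ hhub ?_
          obtain ⟨y, _, rfl⟩ := ha
          exact star_adj_hub.symm
        · simp only [h, if_false, h']
          exact hB.adj _ (hsubX ha) _ (hsubX hb) hab
  · push Not at hcase
    refine ⟨B, (hB.restrict hsubX).shrink ?_⟩
    rintro _ ⟨x, hx, rfl⟩
    exact hav _ (hB.sub _ (hsubX (by simp [hx]))) (hcase x hx)

end Run7.h891
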