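import Pool.Agent.Run7.h891.FamilyMatch

/-! Stars of rooted graphs, attached to the centre by single edges. -/

set_option autoImplicit false

open Set Ordinal

namespace Run7.h891

universe u v w

variable {V : Type u} {W : Type v} {U : Type w} {ι : Type*}

/-- Adjacency in `star1`. -/
def star1Rel (T : ι → SimpleGraph W) (r : ι → W) : Unit ⊕ ι × W → Unit ⊕ ι × W → Prop
  | .inl _, .inl _ => False
  | .inl _, .inr p => p.2 = r p.1
  | .inr p, .inl _ => p.2 = r p.1
  | .inr p, .inr q => p.1 = q.1 ∧ (T p.1).Adj p.2 q.2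

/-- A centre joined to the root of a copy of `T i`, for every `i`. -/
def star1 (T : ι → SimpleGraph W) (r : ι → W) : SimpleGraph (Unit ⊕ ι × W) where
  Adj := star1Rel T r
  symm := ⟨by
    rintro (u | ⟨i, x⟩) (v | ⟨j, y⟩) h
    · exact h
    · exact h
    · exact h
    · obtain ⟨h1, h2⟩ := h
      simp only at h1 h2
      subst h1
      exact ⟨rfl, h2.symm⟩⟩
  loopless := ⟨by
    rintro (u | ⟨i, x⟩) h
    · exact h
    · exact (T i).loopless.irrefl _ h.2⟩

variable {T : ι → SimpleGraph W} {r : ι → W} {Z : ι → Set W}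

/-- The embedding of a copy. -/
def star1Copy (T : ι → SimpleGraph W) (r : ι → W) (i : ι) : T i ↪g star1 T r where
  toFun x := .inr (i, x)
  inj' x y h := by
    have := Sum.inr_injective h
    exact (Prod.ext_iff.1 this).2
  map_rel_iff' {x y} := by
    show (i = i ∧ (T i).Adj x y) ↔ _
    simp

/-- A connected set which avoids the centre is in a copy. -/
theorem star1_comp {A : Set (Unit ⊕ ι × W)} (hA : Conn (star1 T r) A) (hne : A.Nonempty)
    (hsub : A ⊆ starSet Set.univ Z) (hhub : Sum.inl () ∉ A) :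
    ∃ i, A ⊆ copySet Unit i (Z i) := by
  obtain ⟨z, hz⟩ := hne
  rcases z with ⟨⟩ | ⟨i, x⟩
  · exact absurd hz hhub
  · refine ⟨i, ?_⟩
    intro w hw
    refine (hA _ hz w hw).closed (inr_mem_copySet.2 ⟨rfl, (inr_mem_starSet.1 (hsub hz)).2⟩) ?_
    rintro _ ⟨y, hy, rfl⟩ _ (⟨⟩ | ⟨j, b⟩) hb hab
    · exact absurd hb hhub
    · obtain ⟨h1, _⟩ := hab
      simp only at h1
      subst h1
      exact inr_mem_copySet.2 ⟨rfl, (inr_mem_starSet.1 (hsub hb)).2⟩

theorem star1_copy_minor {i : ι} {A : Set W} {H : SimpleGraph U} {Y : Set U} :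
    Minor H Y (star1 T r) (copySet Unit i A) ↔ Minor H Y (T i) A :=
  minor_image_right (star1Copy T r i)

theorem star1_copy_minor_left {i : ι} {A : Set W} {H : SimpleGraph U} {Y : Set U} :
    Minor (star1 T r) (copySet Unit i A) H Y ↔ Minor (T i) A H Y :=
  minor_image_left (star1Copy T r i)

theorem star1_conn (hc : ∀ i, Conn (T i) (Z i)) (hr : ∀ i, r i ∈ Z i) :
    Conn (star1 T r) (starSet Set.univ Z) := by
  have h : ∀ z ∈ starSet Set.univ Z, Reach (star1 T r) (starSet Set.univ Z) (.inl ()) z := by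
    rintro (⟨⟩ | ⟨i, x⟩) hz
    · exact Reach.refl hz
    · have h1 : (Sum.inr (i, r i) : Unit ⊕ ι × W) ∈ starSet Set.univ Z :=
        inr_mem_starSet.2 ⟨mem_univ _, hr i⟩
      have h2 : Reach (star1 T r) (starSet Set.univ Z) (.inl ()) (.inr (i, r i)) :=
        Reach.of_adj hub_mem_starSet h1 rfl
      have h3 : Conn (star1 T r) (copySet Unit i (Z i)) :=
        (conn_image (star1Copy T r i)).2 (hc i)
      refine h2.trans ((h3 _ (inr_mem_copySet.2 ⟨rfl, hr i⟩) _
        (inr_mem_copySet.2 ⟨rfl, (inr_mem_starSet.1 hz).2⟩)).mono ?_)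
      exact star_copySet_subset (mem_univ i)
  intro x hx y hy
  exact (h x hx).symm.trans (h y hy)

theorem star1_rank {α : Ordinal.{0}} (h : ∀ i, ∃ β < α, RankLE (T i) β (Z i)) :
    RankLE (star1 T r) α (starSet Set.univ Z) := by
  refine RankLE.of_comps (S := {.inl ()}) (finite_singleton _) fun v hv => ?_
  obtain ⟨i, hsub⟩ := star1_comp (T := T) (r := r) (Z := Z) comp_conn
    ⟨v, mem_comp_self hv⟩ (comp_subset.trans sdiff_subset) (fun h => (comp_subset h).2 rfl)
  obtain ⟨β, hβ, h'⟩ := h i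
  exact ⟨β, hβ, _, hsub, (rankLE_image (star1Copy T r i)).2 h'⟩

/-- The main property of infinite repetition. -/
theorem star1_star1 {W' : Type*} {K : ℕ → SimpleGraph W'} {X : ℕ → Set W'}
    {s : ℕ → W'} (hc : ∀ n, Conn (K n) (X n)) (hs : ∀ n, s n ∈ X n)
    (h : Minor (star1 (fun p : ℕ × ℕ => K p.1) (fun p => s p.1))
      (starSet Set.univ (fun p : ℕ × ℕ => X p.1)) (star1 T r) (starSet Set.univ Z)) :
    (∀ n, ∃ j, Minor (K n) (X n) (T j) (Z j)) ∨
      ∃ j, Minor (star1 (fun p : ℕ × ℕ => K p.1) (fun p => s p.1))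
      (starSet Set.univ (fun p : ℕ × ℕ => X p.1)) (T j) (Z j) := by
  classical
  obtain ⟨B, hB⟩ := h
  have hconn : Conn (star1 (fun p : ℕ × ℕ => K p.1) (fun p => s p.1))
      (starSet Set.univ (fun p : ℕ × ℕ => X p.1)) := star1_conn (fun p => hc p.1) (fun p => hs p.1)
  by_cases hcen : ∃ w ∈ starSet Set.univ (fun p : ℕ × ℕ => X p.1), Sum.inl () ∈ B w
  · left
    obtain ⟨w, hw, hwc⟩ := hcen
    intro n
    -- a copy which does not contain `w`
    obtain ⟨k, hk⟩ : ∃ k : ℕ, w ∉ copySet Unit (n, k) (X n) := by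
      by_contra hcon
      push Not at hcon
      obtain ⟨x, _, h0⟩ := hcon 0
      obtain ⟨y, _, h1⟩ := hcon 1
      rw [← h0] at h1
      simp at h1
    have hsub : copySet Unit (n, k) (X n) ⊆ starSet Set.univ (fun p : ℕ × ℕ => X p.1) :=
      star_copySet_subset (Z := fun p : ℕ × ℕ => X p.1) (i := (n, k)) (mem_univ _)
    have hcc : Conn (star1 (fun p : ℕ × ℕ => K p.1) (fun p => s p.1))
        (copySet Unit (n, k) (X n)) :=
      (conn_image (star1Copy (fun p : ℕ × ℕ => K p.1) (fun p => s p.1) (n, k))).2 (hc n)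
    have hcu := hB.conn_union hsub hcc
    obtain ⟨z, hz⟩ := hB.ne _ (hsub (inr_mem_copySet.2 ⟨rfl, hs n⟩))
    obtain ⟨j, hj⟩ := star1_comp hcu ⟨z, mem_biUnion (inr_mem_copySet.2 ⟨rfl, hs n⟩) hz⟩
      (iUnion₂_subset fun t ht => hB.sub t (hsub ht)) (by
        intro hmem
        simp only [mem_iUnion, exists_prop] at hmem
        obtain ⟨t, ht, hmem⟩ := hmem
        exact hk (hB.eq_of_mem hw (hsub ht) hwc hmem ▸ ht))
    have hm : Minor (star1 (fun p : ℕ × ℕ => K p.1) (fun p => s p.1))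
        (copySet Unit (n, k) (X n)) (star1 T r) (copySet Unit j (Z j)) :=
      ⟨B, (hB.restrict hsub).shrink (fun t ht => (subset_biUnion_of_mem ht).trans hj)⟩
    exact ⟨j, star1_copy_minor.1 ((star1_copy_minor_left (T := fun p : ℕ × ℕ => K p.1)
      (r := fun p => s p.1) (i := (n, k))).1 hm)⟩
  · right
    push Not at hcen
    have hcu := hB.conn_union subset_rfl hconn
    obtain ⟨z, hz⟩ := hB.ne _ (hub_mem_starSet (I := Set.univ) (Z := fun p : ℕ × ℕ => X p.1))
    obtain ⟨j, hj⟩ := star1_comp hcu ⟨z, mem_biUnion hub_mem_starSet hz⟩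
      (iUnion₂_subset fun t ht => hB.sub t ht) (by
        intro hmem
        simp only [mem_iUnion, exists_prop] at hmem
        obtain ⟨t, ht, hmem⟩ := hmem
        exact hcen t ht hmem)
    refine ⟨j, (star1_copy_minor (r := r)).1 ⟨B, ?_⟩⟩
    exact hB.shrink (fun t ht => (subset_biUnion_of_mem ht).trans hj)

/-- Two-connected graphs, in the form needed here. -/
structure TwoConn (H : SimpleGraph U) (Y : Set U) : Prop where
  ne : Y.Nonempty
  conn : Conn H Y
  del : ∀ x ∈ Y, Conn H (Y \ {x})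
  nbr : ∀ x ∈ Y, ∃ a ∈ Y, ∃ b ∈ Y, a ≠ b ∧ H.Adj x a ∧ H.Adj x b

/-- A two-connected minor of a star of rooted graphs is a minor of one of them. -/
theorem twoConn_star1 {H : SimpleGraph U} {Y : Set U} (hH : TwoConn H Y)
    (h : Minor H Y (star1 T r) (starSet Set.univ Z)) : ∃ j, Minor H Y (T j) (Z j) := by
  classical
  obtain ⟨B, hB⟩ := h
  by_cases hcen : ∃ x ∈ Y, Sum.inl () ∈ B x
  swap
  · push Not at hcen
    have hcu := hB.conn_union subset_rfl hH.conn
    obtain ⟨y, hy⟩ := hH.ne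
    obtain ⟨z, hz⟩ := hB.ne y hy
    obtain ⟨j, hj⟩ := star1_comp hcu ⟨z, mem_biUnion hy hz⟩
      (iUnion₂_subset fun t ht => hB.sub t ht) (by
        intro hmem
        simp only [mem_iUnion, exists_prop] at hmem
        obtain ⟨t, ht, hmem⟩ := hmem
        exact hcen t ht hmem)
    exact ⟨j, (star1_copy_minor (r := r)).1 ⟨B, hB.shrink
      (fun t ht => (subset_biUnion_of_mem ht).trans hj)⟩⟩
  obtain ⟨x, hx, hxc⟩ := hcen
  obtain ⟨a, ha, b, hb, hab, hxa, hxb⟩ := hH.nbr x hx
  have hax : a ≠ x := fun h => H.loopless.irrefl _ (h ▸ hxa)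
  have hbx : b ≠ x := fun h => H.loopless.irrefl _ (h ▸ hxb)
  have hcu := hB.conn_union sdiff_subset (hH.del x hx)
  obtain ⟨z, hz⟩ := hB.ne a ha
  obtain ⟨j, hj⟩ := star1_comp hcu ⟨z, mem_biUnion (⟨ha, hax⟩ : a ∈ Y \ {x}) hz⟩
    (iUnion₂_subset fun t ht => hB.sub t ht.1) (by
      intro hmem
      simp only [mem_iUnion, exists_prop] at hmem
      obtain ⟨t, ht, hmem⟩ := hmem
      exact ht.2 (hB.eq_of_mem ht.1 hx hmem hxc))
  have hin : ∀ t ∈ Y, t ≠ x → B t ⊆ copySet Unit j (Z j) := fun t ht htx =>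
    (subset_biUnion_of_mem (u := fun t => B t) (⟨ht, htx⟩ : t ∈ Y \ {x})).trans hj
  -- if `B x` meets the copy, it contains its root
  have hroot : ∀ v, Sum.inr (j, v) ∈ B x → Sum.inr (j, r j) ∈ B x := by
    intro v hv
    obtain ⟨p, hp, hpD, q, hq, hqD, hpq⟩ := conn_exit (hB.conn x hx)
      (D := {z : Unit ⊕ ι × W | ∃ v, z = .inr (j, v)}) hv ⟨v, rfl⟩ hxc (by simp)
    obtain ⟨v', rfl⟩ := hpD
    rcases q with ⟨⟩ | ⟨i, q⟩
    · have h1 : v' = r j := hpq
      rw [← h1]
      exact hp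
    · obtain ⟨h1, _⟩ := hpq
      simp only at h1
      subst h1
      exact absurd ⟨q, rfl⟩ hqD
  -- an edge from `x`
  have hedge : ∀ t ∈ Y, t ≠ x → H.Adj x t →
      (∃ v ∈ {v | Sum.inr (j, v) ∈ B x}, ∃ w, Sum.inr (j, w) ∈ B t ∧ (T j).Adj v w) ∨
      Sum.inr (j, r j) ∈ B t := by
    intro t ht htx hxt
    obtain ⟨p, hp, q, hq, hpq⟩ := hB.adj x hx t ht hxt
    obtain ⟨w, hw, rfl⟩ := hin t ht htx hq
    rcases p with ⟨⟩ | ⟨i, p⟩
    · right
      have h1 : w = r j := hpq
      rw [← h1]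
      exact hq
    · left
      obtain ⟨h1, h2⟩ := hpq
      simp only at h1 h2
      subst h1
      exact ⟨p, hp, w, hq, h2⟩
  have hne : ∃ v, Sum.inr (j, v) ∈ B x := by
    rcases hedge a ha hax hxa with ⟨v, hv, _⟩ | h1
    · exact ⟨v, hv⟩
    · rcases hedge b hb hbx hxb with ⟨v, hv, _⟩ | h2
      · exact ⟨v, hv⟩
      · exact absurd (hB.eq_of_mem ha hb h1 h2) hab
  have hrx : Sum.inr (j, r j) ∈ B x := by
    obtain ⟨v, hv⟩ := hne
    exact hroot v hv
  refine ⟨j, fun t => {v | Sum.inr (j, v) ∈ B t}, ?_, ?_, ?_, ?_, ?_⟩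
  · intro t ht v hv
    exact (inr_mem_starSet.1 (hB.sub t ht hv)).2
  · intro t ht
    by_cases htx : t = x
    · rw [htx]
      exact hne
    · obtain ⟨z, hz⟩ := hB.ne t ht
      obtain ⟨v, _, rfl⟩ := hin t ht htx hz
      exact ⟨v, hz⟩
  · intro t ht
    by_cases htx : t = x
    · subst htx
      intro v hv w hw
      have key : ∀ z, Reach (star1 T r) (B t) (.inr (j, v)) z →
          (∃ w, z = .inr (j, w) ∧ Reach (T j) {v | Sum.inr (j, v) ∈ B t} v w) ∨
          ((∀ w, z ≠ .inr (j, w)) ∧ Reach (T j) {v | Sum.inr (j, v) ∈ B t} v (r j)) := by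
        intro z hz
        refine hz.induct (P := fun z =>
          (∃ w, z = .inr (j, w) ∧ Reach (T j) {v | Sum.inr (j, v) ∈ B t} v w) ∨
          ((∀ w, z ≠ .inr (j, w)) ∧ Reach (T j) {v | Sum.inr (j, v) ∈ B t} v (r j)))
          (Or.inl ⟨v, rfl, Reach.refl hv⟩) ?_
        intro p q hp hvp hq hpq
        rcases hp with ⟨w, rfl, hw⟩ | ⟨hp, hw⟩
        · rcases q with ⟨⟩ | ⟨i, q⟩
          · right
            have h1 : w = r j := hpq
            rw [h1] at hw
            exact ⟨by simp, hw⟩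
          · obtain ⟨h1, h2⟩ := hpq
            simp only at h1 h2
            subst h1
            exact Or.inl ⟨q, rfl, hw.step h2 hq⟩
        · rcases q with ⟨⟩ | ⟨i, q⟩
          · exact Or.inr ⟨by simp, hw⟩
          · by_cases hi : i = j
            · subst hi
              left
              refine ⟨q, rfl, ?_⟩
              rcases p with ⟨⟩ | ⟨i', p⟩
              · have h1 : q = r i := hpq
                rw [h1]
                exact hw
              · have h5 : i' = i := hpq.1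
                exact absurd (by rw [h5]) (hp p)
            · right
              refine ⟨fun w h => hi ?_, hw⟩
              exact (Prod.ext_iff.1 (Sum.inr_injective h)).1
      rcases key _ (hB.conn t ht _ hv _ hw) with ⟨w', h1, h2⟩ | ⟨h1, _⟩
      · have := (Prod.ext_iff.1 (Sum.inr_injective h1)).2
        simp only at this
        rw [this]
        exact h2
      · exact absurd rfl (h1 w)
    · intro v hv w hw
      have h1 := hB.conn t ht _ hv _ hw
      have : (Sum.inr (j, w) : Unit ⊕ ι × W) ∈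
          {z | ∃ w, z = .inr (j, w) ∧ Reach (T j) {v | Sum.inr (j, v) ∈ B t} v w} := by
        refine h1.closed ⟨v, rfl, Reach.refl hv⟩ ?_
        rintro _ ⟨p, rfl, hp⟩ _ q hq hpq
        obtain ⟨q, _, rfl⟩ := hin t ht htx hq
        exact ⟨q, rfl, hp.step hpq.2 hq⟩
      obtain ⟨w', h2, h3⟩ := this
      have h4 := (Prod.ext_iff.1 (Sum.inr_injective h2)).2
      simp only at h4
      rw [h4]
      exact h3
  · intro s hs t ht hst
    rw [Set.disjoint_left]
    intro v hvs hvt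
    exact Set.disjoint_left.1 (hB.disj s hs t ht hst) hvs hvt
  · have hone : ∀ t ∈ Y, t ≠ x → H.Adj x t → ∃ v ∈ {v | Sum.inr (j, v) ∈ B x},
        ∃ w ∈ {v | Sum.inr (j, v) ∈ B t}, (T j).Adj v w := by
      intro t ht htx hxt
      rcases hedge t ht htx hxt with ⟨v, hv, w, hw, hvw⟩ | h1
      · exact ⟨v, hv, w, hw, hvw⟩
      · exact absurd (hB.eq_of_mem ht hx h1 hrx) htx
    intro s hs t ht hst
    by_cases hsx : s = x
    · subst hsx
      exact hone t ht (fun h => H.loopless.irrefl _ (h ▸ hst)) hst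
    · by_cases htx : t = x
      · subst htx
        obtain ⟨v, hv, w, hw, hvw⟩ := hone s hs hsx hst.symm
        exact ⟨w, hw, v, hv, hvw.symm⟩
      · obtain ⟨p, hp, q, hq, hpq⟩ := hB.adj s hs t ht hst
        obtain ⟨p, _, rfl⟩ := hin s hs hsx hp
        obtain ⟨q, _, rfl⟩ := hin t ht htx hq
        exact ⟨p, hp, q, hq, hpq.2⟩

end Run7.h891
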