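import Pool.Agent.Run7.h891.Gadget
import Pool.Agent.H534R3.NonBorel

/-! Encoding trees as matching problems between guests and hosts. -/

set_option autoImplicit false

open Set Ordinal

namespace Run7.h891

open Pool.Agent.H534R3.NonBorel (br)

/-- The nodes of a branch, as reversed lists. -/
def pre (f : ℕ → ℕ) : ℕ → List ℕ
  | 0 => []
  | k + 1 => f k :: pre f k

theorem length_pre (f : ℕ → ℕ) (k : ℕ) : (pre f k).length = k := by
  induction k with
  | zero => rfl
  | succ k ih => simp [pre, ih]

theorem reverse_br (f : ℕ → ℕ) (k : ℕ) : (br f k).reverse = pre f k := by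
  induction k with
  | zero => simp [br, pre]
  | succ k ih =>
    have : br f (k + 1) = br f k ++ [f k] := by simp [br, List.range_succ]
    rw [this, List.reverse_append, ih]
    rfl

/-- The parent of a node (`none` for the root). -/
def par : List ℕ → Option (List ℕ)
  | [] => none
  | _ :: l => some l

/-- From a consistent displacement we get a branch. -/
theorem exists_branch {P : List ℕ → Prop} (h0 : P []) (hs : ∀ s, P s → ∃ n : ℕ, P (n :: s)) :
    ∃ f : ℕ → ℕ, ∀ k, P (pre f k) := by
  classical
  choose nx hnx using hs
  let node : ℕ → {s : List ℕ // P s} := fun k =>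
    Nat.rec ⟨[], h0⟩ (fun _ p => ⟨nx p.1 p.2 :: p.1, hnx p.1 p.2⟩) k
  have hnode : ∀ k, node (k + 1) = ⟨nx (node k).1 (node k).2 :: (node k).1,
    hnx (node k).1 (node k).2⟩ := fun k => rfl
  refine ⟨fun k => nx (node k).1 (node k).2, fun k => ?_⟩
  have : pre (fun k => nx (node k).1 (node k).2) k = (node k).1 := by
    induction k with
    | zero => rfl
    | succ k ih => rw [pre, ih, hnode]
  rw [this]
  exact (node k).2

/-- Guests: `inl none`, `inl (some s)` and the blockers `inr s`. -/
abbrev GQ := Option (List ℕ) ⊕ List ℕ

/-- The label of a guest. -/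
def lab (q : GQ) : ℕ := Encodable.encode q

theorem lab_inj {q q' : GQ} (h : lab q = lab q') : q = q' := Encodable.encode_injective h

/-- Labels needed by a guest. -/
def guestN (q : GQ) : Set ℕ := {lab q}

/-- Labels offered by a host. -/
def hostM (s : List ℕ) : Set ℕ := {lab (.inl (some s)), lab (.inl (par s)), lab (.inr s)}

/-- The guests which are present for the tree `t`. -/
def act (t : Set (List ℕ)) : Set GQ
  | .inl none => True
  | .inl (some s) => s ∈ t
  | .inr s => s ∉ t

theorem inl_none_mem_act (t : Set (List ℕ)) : Sum.inl none ∈ act t := trivial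
theorem inl_some_mem_act {t : Set (List ℕ)} {s : List ℕ} : Sum.inl (some s) ∈ act t ↔ s ∈ t :=
  Iff.rfl
theorem inr_mem_act {t : Set (List ℕ)} {s : List ℕ} : Sum.inr s ∈ act t ↔ s ∉ t := Iff.rfl

theorem guestN_subset {q : GQ} {s : List ℕ} :
    guestN q ⊆ hostM s ↔ q = .inl (some s) ∨ q = .inl (par s) ∨ q = .inr s := by
  unfold guestN hostM
  rw [singleton_subset_iff]
  simp only [mem_insert_iff, mem_singleton_iff]
  constructor
  · rintro (h | h | h)
    · exact Or.inl (lab_inj h)
    · exact Or.inr (Or.inl (lab_inj h))
    · exact Or.inr (Or.inr (lab_inj h))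
  · rintro (rfl | rfl | rfl) <;> simp

theorem par_eq_none {s : List ℕ} (h : par s = none) : s = [] := by
  cases s with
  | nil => rfl
  | cons a l => simp [par] at h

theorem par_eq_some {s l : List ℕ} (h : par s = some l) : ∃ n, s = n :: l := by
  cases s with
  | nil => simp [par] at h
  | cons a l' =>
    simp only [par, Option.some.injEq] at h
    exact ⟨a, by rw [h]⟩

/-- Variable guests: matchings correspond to branches. -/
theorem match_iff (t : Set (List ℕ)) :
    (∃ σ : GQ → List ℕ, InjOn σ (act t) ∧
      ∀ q ∈ act t, σ q ∈ (Set.univ : Set (List ℕ)) ∧ guestN q ⊆ hostM (σ q)) ↔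
    ∃ f : ℕ → ℕ, ∀ k, pre f k ∈ t := by
  classical
  constructor
  · rintro ⟨σ, hinj, hσ⟩
    have h0 : σ (.inl none) = [] := by
      rcases guestN_subset.1 (hσ _ (inl_none_mem_act t)).2 with h | h | h
      · simp at h
      · exact par_eq_none (Sum.inl_injective h).symm
      · simp at h
    have hb : ∀ s, s ∉ t → σ (.inr s) = s := by
      intro s hs
      rcases guestN_subset.1 (hσ (.inr s) (inr_mem_act.2 hs)).2 with h | h | h
      · simp at h
      · simp at h
      · exact (Sum.inr_injective h).symm
    let P : List ℕ → Prop := fun s => s ∈ t ∧ ∃ q ∈ act t, q ≠ .inl (some s) ∧ σ q = s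
    have hmem : ∀ s, (∃ q ∈ act t, q ≠ .inr s ∧ σ q = s) → s ∈ t := by
      rintro s ⟨q, hq, hne, hqs⟩
      by_contra hs
      exact hne (hinj hq (inr_mem_act.2 hs) (hqs.trans (hb s hs).symm))
    obtain ⟨f, hf⟩ := exists_branch (P := P)
      ⟨hmem [] ⟨_, inl_none_mem_act t, by simp, h0⟩, _, inl_none_mem_act t, by simp, h0⟩ (by
        rintro s ⟨hs, q, hq, hne, hqs⟩
        have hsA : (Sum.inl (some s) : GQ) ∈ act t := hs
        rcases guestN_subset.1 (hσ _ hsA).2 with h | h | h
        · exfalso
          have : s = σ (.inl (some s)) := by
            simpa using h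
          exact hne (hinj hq hsA (hqs.trans this))
        · obtain ⟨n, hn⟩ := par_eq_some (Sum.inl_injective h).symm
          refine ⟨n, ?_, _, hsA, ?_, hn⟩
          · exact hmem _ ⟨_, hsA, by simp, hn⟩
          · intro h'
            have := Option.some_injective _ (Sum.inl_injective h')
            exact absurd (congrArg List.length this) (by simp)
        · simp at h)
    exact ⟨f, fun k => (hf k).1⟩
  · rintro ⟨f, hf⟩
    let σ : GQ → List ℕ := fun q => match q with
      | .inl none => []
      | .inl (some s) => if s = pre f s.length then pre f (s.length + 1) else s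
      | .inr s => s
    have h1 : ∀ s, s = pre f s.length → σ (.inl (some s)) = pre f (s.length + 1) := fun s hs =>
      if_pos hs
    have h2 : ∀ s, ¬ s = pre f s.length → σ (.inl (some s)) = s := fun s hs => if_neg hs
    refine ⟨σ, ?_, ?_⟩
    · -- injectivity
      have hne1 : ∀ s, σ (.inl (some s)) ≠ [] := by
        intro s h
        by_cases hs : s = pre f s.length
        · rw [h1 s hs] at h
          exact absurd (congrArg List.length h) (by simp [length_pre])
        · rw [h2 s hs] at h
          subst h
          exact hs rfl
      have hne2 : ∀ s, s ∉ t → s ≠ [] := by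
        rintro _ hs rfl
        exact hs (hf 0)
      have hne3 : ∀ s s', s' ∉ t → σ (.inl (some s)) = s' → s = s' := by
        intro s s' hs' h
        by_cases hs : s = pre f s.length
        · rw [h1 s hs] at h
          rw [← h] at hs'
          exact absurd (hf _) hs'
        · rwa [h2 s hs] at h
      rintro ((_ | s) | s) hq ((_ | s') | s') hq' h
      · rfl
      · exact absurd h.symm (hne1 s')
      · exact absurd h.symm (hne2 s' hq')
      · exact absurd h (hne1 s)
      · have : s = s' := by
          by_cases hs : s = pre f s.length
          · by_cases hs' : s' = pre f s'.length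
            · rw [h1 s hs, h1 s' hs'] at h
              have h3 := congrArg List.length h
              simp only [length_pre] at h3
              have h4 : s.length = s'.length := by omega
              rw [hs, hs', h4]
            · rw [h1 s hs, h2 s' hs'] at h
              exfalso
              apply hs'
              rw [← h, length_pre]
          · by_cases hs' : s' = pre f s'.length
            · rw [h2 s hs, h1 s' hs'] at h
              exfalso
              apply hs
              rw [h, length_pre]
            · rwa [h2 s hs, h2 s' hs'] at h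
        rw [this]
      · have := hne3 s s' hq' h
        rw [this] at hq
        exact absurd hq hq'
      · exact absurd h (hne2 s hq)
      · have := hne3 s' s hq h.symm
        rw [this] at hq'
        exact absurd hq' hq
      · exact congrArg Sum.inr h
    · rintro ((_ | s) | s) hq
      · exact ⟨mem_univ _, guestN_subset.2 (Or.inr (Or.inl rfl))⟩
      · refine ⟨mem_univ _, guestN_subset.2 ?_⟩
        by_cases hs : s = pre f s.length
        · rw [h1 s hs]
          refine Or.inr (Or.inl ?_)
          rw [pre, par, ← hs]
        · rw [h2 s hs]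
          exact Or.inl rfl
      · exact ⟨mem_univ _, guestN_subset.2 (Or.inr (Or.inr rfl))⟩

/-- Labels for the variant with variable hosts. -/
def lab' (q : Option (List ℕ)) : ℕ := Encodable.encode q

theorem lab'_inj {q q' : Option (List ℕ)} (h : lab' q = lab' q') : q = q' :=
  Encodable.encode_injective h

/-- Labels offered by the host `s`, depending on whether `s` is in the tree. -/
def hostM' (t : Set (List ℕ)) (s : List ℕ) : Set ℕ :=
  {x | x = lab' (some s) ∨ (s ∈ t ∧ x = lab' (par s))}

theorem guestN'_subset {t : Set (List ℕ)} {q : Option (List ℕ)} {s : List ℕ} :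
    ({lab' q} : Set ℕ) ⊆ hostM' t s ↔ q = some s ∨ (s ∈ t ∧ q = par s) := by
  rw [singleton_subset_iff]
  constructor
  · rintro (h | ⟨h1, h2⟩)
    · exact Or.inl (lab'_inj h)
    · exact Or.inr ⟨h1, lab'_inj h2⟩
  · rintro (rfl | ⟨h1, rfl⟩)
    · exact Or.inl rfl
    · exact Or.inr ⟨h1, rfl⟩

/-- Variable hosts: matchings correspond to branches. -/
theorem match_iff' (t : Set (List ℕ)) :
    (∃ σ : Option (List ℕ) → List ℕ, InjOn σ (Set.univ : Set (Option (List ℕ))) ∧
      ∀ q ∈ (Set.univ : Set (Option (List ℕ))), σ q ∈ (Set.univ : Set (List ℕ)) ∧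
        ({lab' q} : Set ℕ) ⊆ hostM' t (σ q)) ↔
    ∃ f : ℕ → ℕ, ∀ k, pre f k ∈ t := by
  classical
  constructor
  · rintro ⟨σ, hinj, hσ⟩
    have hinj' : Function.Injective σ := fun a b h => hinj (mem_univ a) (mem_univ b) h
    have h0 : σ none = [] ∧ [] ∈ t := by
      rcases guestN'_subset.1 (hσ none (mem_univ _)).2 with h | ⟨h1, h2⟩
      · simp at h
      · have := par_eq_none h2.symm
        rw [this] at h1
        exact ⟨this, h1⟩
    let P : List ℕ → Prop := fun s => s ∈ t ∧ ∃ q, q ≠ some s ∧ σ q = s
    obtain ⟨f, hf⟩ := exists_branch (P := P) ⟨h0.2, none, by simp, h0.1⟩ (by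
        rintro s ⟨hs, q, hne, hqs⟩
        rcases guestN'_subset.1 (hσ (some s) (mem_univ _)).2 with h | ⟨h1, h2⟩
        · exfalso
          have : s = σ (some s) := by simpa using h
          exact hne (hinj' (hqs.trans this))
        · obtain ⟨n, hn⟩ := par_eq_some h2.symm
          rw [hn] at h1
          refine ⟨n, h1, some s, ?_, hn⟩
          intro h'
          have := Option.some_injective _ h'
          exact absurd (congrArg List.length this) (by simp))
    exact ⟨f, fun k => (hf k).1⟩
  · rintro ⟨f, hf⟩
    let σ : Option (List ℕ) → List ℕ := fun q => match q with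
      | none => []
      | some s => if s = pre f s.length then pre f (s.length + 1) else s
    have h1 : ∀ s, s = pre f s.length → σ (some s) = pre f (s.length + 1) := fun s hs => if_pos hs
    have h2 : ∀ s, ¬ s = pre f s.length → σ (some s) = s := fun s hs => if_neg hs
    refine ⟨σ, ?_, ?_⟩
    · have hne1 : ∀ s, σ (some s) ≠ [] := by
        intro s h
        by_cases hs : s = pre f s.length
        · rw [h1 s hs] at h
          exact absurd (congrArg List.length h) (by simp [length_pre])
        · rw [h2 s hs] at h
          subst h
          exact hs rfl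
      rintro (_ | s) _ (_ | s') _ h
      · rfl
      · exact absurd h.symm (hne1 s')
      · exact absurd h (hne1 s)
      · have : s = s' := by
          by_cases hs : s = pre f s.length
          · by_cases hs' : s' = pre f s'.length
            · rw [h1 s hs, h1 s' hs'] at h
              have h3 := congrArg List.length h
              simp only [length_pre] at h3
              have h4 : s.length = s'.length := by omega
              rw [hs, hs', h4]
            · rw [h1 s hs, h2 s' hs'] at h
              exfalso
              apply hs'
              rw [← h, length_pre]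
          · by_cases hs' : s' = pre f s'.length
            · rw [h2 s hs, h1 s' hs'] at h
              exfalso
              apply hs
              rw [h, length_pre]
            · rwa [h2 s hs, h2 s' hs'] at h
        rw [this]
    · rintro (_ | s) _
      · exact ⟨mem_univ _, guestN'_subset.2 (Or.inr ⟨hf 0, rfl⟩)⟩
      · refine ⟨mem_univ _, guestN'_subset.2 ?_⟩
        by_cases hs : s = pre f s.length
        · rw [h1 s hs]
          refine Or.inr ⟨hf _, ?_⟩
          rw [pre, par, ← hs]
        · rw [h2 s hs]
          exact Or.inl rfl

end Run7.h891
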