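import Pool.Agent.Run7.h891.Coanalytic
import Pool.Agent.Run7.h891.SharpPerfect

/-! Well-quasi-ordering of the countable rayless graphs, better-quasi-ordering, rooted graphs,
numbers of classes of mutual minors, perfect antichains. -/

set_option autoImplicit false

open Set Ordinal MeasureTheory Cardinal

namespace Run7.h891

/-- The graphs which are minors of a value of a continuous function form an analytic family. -/
theorem analytic_minors_range {Φ : (ℕ → Bool) → SimpleGraph ℕ}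
    (hΦ : @Continuous _ _ _ graphTopology Φ) :
    @AnalyticSet (SimpleGraph ℕ) graphTopology {H | ∃ t, IsMinor H (Φ t)} := by
  refine analytic_graph ?_
  have hadj : ∀ x y, MeasurableSet {t : ℕ → Bool | (Φ t).Adj x y} := by
    intro x y
    have h1 : Continuous fun t => edgeIndicator (Φ t) :=
      @Continuous.comp _ _ _ _ graphTopology _ _ _ continuous_induced_dom hΦ
    have h2 : MeasurableSet {E : ℕ × ℕ → Bool | E (x, y) = true} := meas_coord (x, y) true
    have h3 : {t : ℕ → Bool | (Φ t).Adj x y} =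
        (fun t => edgeIndicator (Φ t)) ⁻¹' {E : ℕ × ℕ → Bool | E (x, y) = true} := by
      ext t
      simp [edgeIndicator]
    rw [h3]
    exact h1.measurable h2
  have h1 : MeasurableSet {p : (ℕ × ℕ → Bool) × (ℕ → Bool) × (ℕ → ℕ) |
      IsModel (gr p.1) Set.univ (Φ p.2.1) Set.univ (brs p.2.2)} := by
    refine meas_model (Ω := (ℕ × ℕ → Bool) × (ℕ → Bool) × (ℕ → ℕ)) (Gr1 := fun p => gr p.1)
      (Gr2 := fun p => Φ p.2.1) (b := fun p => p.2.2) ?_ ?_ ?_
    · intro x y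
      exact measurable_fst (meas_gr x y)
    · intro x y
      exact (measurable_fst.comp measurable_snd) (hadj x y)
    · intro v k
      exact (measurable_snd.comp measurable_snd) (meas_coord v k)
  have h2 : {E : ℕ × ℕ → Bool | gr E ∈ {H | ∃ t, IsMinor H (Φ t)}} =
      Prod.fst '' {p : (ℕ × ℕ → Bool) × (ℕ → Bool) × (ℕ → ℕ) |
        IsModel (gr p.1) Set.univ (Φ p.2.1) Set.univ (brs p.2.2)} := by
    ext E
    constructor
    · rintro ⟨t, h⟩
      obtain ⟨b, hb⟩ := exists_brs (isMinor_iff.1 h)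
      exact ⟨(E, t, b), hb, rfl⟩
    · rintro ⟨⟨E', t, b⟩, hb, rfl⟩
      exact ⟨t, isMinor_iff.2 ⟨_, hb⟩⟩
  rw [h2]
  exact h1.analyticSet_image measurable_fst

theorem not_twin_of_nontwins {α : Ordinal.{0}} {Φ : (ℕ → Bool) → SimpleGraph ℕ}
    (h1 : ∀ t, HasRankLE α (Φ t))
    (h2 : ∀ t t', t ≠ t' → ¬ (IsMinor (Φ t) (Φ t') ∧ IsMinor (Φ t') (Φ t))) :
    ¬ CountablyManyTwinClasses α := by
  classical
  rintro ⟨R, hR, hR'⟩
  choose g hg hg1 hg2 using fun t => hR' (Φ t) (h1 t)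
  have hinj : Function.Injective g := by
    intro t t' htt
    by_contra hne
    have h3 := hg1 t
    have h4 := hg2 t
    rw [htt] at h3 h4
    exact h2 t t' hne ⟨isMinor_iff.2 ((isMinor_iff.1 h3).trans (isMinor_iff.1 (hg2 t'))),
      isMinor_iff.2 ((isMinor_iff.1 (hg1 t')).trans (isMinor_iff.1 h4))⟩
  have h3 : (range g).Countable := hR.mono (by rintro _ ⟨t, rfl⟩; exact hg t)
  have h4 : Countable (ℕ → Bool) := by
    rw [← countable_univ_iff]
    have h5 : (Set.univ : Set (ℕ → Bool)) ⊆ g ⁻¹' range g := fun t _ => ⟨t, rfl⟩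
    exact (h3.preimage_of_injOn hinj.injOn).mono h5
  have h6 : #(ℕ → Bool) ≤ ℵ₀ := mk_le_aleph0_iff.2 h4
  rw [card_cantor] at h6
  exact absurd h6 (not_le.2 aleph0_lt_continuum)

/-- Without well-quasi-ordering some level has a family which is not Borel. -/
theorem exists_level_of_not_wqo (h : ¬ WellQuasiOrdered MinorLE) :
    ∃ α < ω₁, ∃ C ∈ minorClosedFamilies α, ¬ BorelFamily C := by
  have h14 := q1_tfae.out 0 1
  by_contra hcon
  push Not at hcon
  refine h (h14.1 ?_)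
  rintro ⟨C, _, hmc, ⟨α, hα, hrk⟩, hB⟩
  exact hB (hcon α hα C ⟨hmc, hrk⟩)

theorem level_of_wqo (h : WellQuasiOrdered MinorLE) {α : Ordinal.{0}} (hα : α < ω₁) :
    ∀ C ∈ minorClosedFamilies α, BorelFamily C := by
  have h14 := q1_tfae.out 0 1
  intro C hC
  by_contra hB
  refine h14.2 h ⟨C, ?_, hC.1, ⟨α, hα, hC.2⟩, hB⟩
  intro G hG
  exact rayless_iff.2 ⟨α, hα, hasRankLE_iff.1 (hC.2 G hG)⟩

theorem codeWqo_of_wqo (h : WellQuasiOrdered MinorLE) {α : Ordinal.{0}} (hα : α < ω₁) :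
    CodeWqo α :=
  (borel_iff_rooted_wqo hα).1 fun C h1 h2 => level_of_wqo h hα C ⟨h1, h2⟩

/-- The main list for the well-quasi-ordering of the countable rayless graphs. -/
theorem wqo_tfae :
    [WellQuasiOrdered MinorLE,
      BetterQuasiOrdered MinorLE,
      ∀ (n : ℕ) (V : ℕ → Type) (_ : ∀ i, Countable (V i)) (G : ∀ i, SimpleGraph (V i))
        (r : ∀ i, Fin n ↪ V i), (∀ i, Rayless (G i)) →
        ∃ i j, i < j ∧ IsRootedMinor (G i) (r i) (G j) (r j),
      ∀ α < ω₁, CountablyManyTwinClasses α,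
      ∀ α < ω₁, #(minorClosedFamilies α) ≤ 𝔠,
      ¬ ∃ Φ : (ℕ → Bool) → SimpleGraph ℕ, @Continuous _ _ _ graphTopology Φ ∧
        (∀ t, Rayless (Φ t)) ∧ ∀ t t', t ≠ t' → ¬ IsMinor (Φ t) (Φ t'),
      ¬ ∃ Φ : (ℕ → Bool) → SimpleGraph ℕ, @Continuous _ _ _ graphTopology Φ ∧
        (∀ t, Rayless (Φ t)) ∧
        ∀ t t', t ≠ t' → ¬ (IsMinor (Φ t) (Φ t') ∧ IsMinor (Φ t') (Φ t))].TFAE := by
  tfae_have 1 ↔ 2 := wqo_iff_bqo
  tfae_have 1 → 3 := by
    intro h n V hV G r hG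
    have hr : ∀ i, ∃ α : Ordinal.{0}, α < ω₁ ∧ HasRankLE α (G i) := fun i => by
      have := hV i
      obtain ⟨α, hα, h1⟩ := rayless_iff.1 (hG i)
      exact ⟨α, hα, hasRankLE_iff.2 h1⟩
    choose a ha ha' using hr
    have hα : Order.succ (⨆ i, a i) < ω₁ := succ_lt_omega_one (Ordinal.iSup_lt_omega_one ha)
    exact codeWqo_iff.1 (codeWqo_of_wqo h hα) n V hV G r fun i =>
      ⟨a i, Order.lt_succ_of_le (Ordinal.le_iSup a i), ha' i⟩
  tfae_have 3 → 1 := by
    intro h f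
    obtain ⟨i, j, hij, B, h1, h2, h3, _⟩ := h 0 (fun i => (f i).V) (fun i => (f i).countable)
      (fun i => (f i).G) (fun i => ⟨Fin.elim0, fun x => x.elim0⟩) (fun i => (f i).rayless)
    exact ⟨i, j, hij, B, h1, h2, h3⟩
  tfae_have 1 → 4 := fun h α hα => twin_of_codeWqo hα (codeWqo_of_wqo h hα)
  tfae_have 4 → 1 := by
    intro h
    by_contra hcon
    obtain ⟨α, hα, hC⟩ := exists_level_of_not_wqo hcon
    exact absurd (h α hα) (((perfect_tfae hα).out 0 1).1 hC)
  tfae_have 1 → 5 := by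
    intro h α hα
    refine (mk_le_mk_of_subset ?_).trans card_borelFamily
    exact fun C hC => level_of_wqo h hα C hC
  tfae_have 5 → 1 := by
    intro h
    by_contra hcon
    obtain ⟨α, hα, hC⟩ := exists_level_of_not_wqo hcon
    have h1 := ((perfect_tfae hα).out 0 3).1 hC
    have h2 := h α hα
    rw [h1] at h2
    exact absurd h2 (not_le.2 (cantor _))
  tfae_have 7 → 6 := by
    rintro h ⟨Φ, h1, h2, h3⟩
    exact h ⟨Φ, h1, h2, fun t t' htt h4 => h3 t t' htt h4.1⟩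
  tfae_have 6 → 1 := by
    intro h
    by_contra hcon
    obtain ⟨α, hα, hC⟩ := exists_level_of_not_wqo hcon
    obtain ⟨Φ, h1, h2, h3⟩ := ((perfect_tfae hα).out 0 2).1 hC
    exact h ⟨Φ, h1, fun t => rayless_iff.2 ⟨α, hα, hasRankLE_iff.1 (h2 t)⟩, h3⟩
  tfae_have 1 → 7 := by
    rintro h ⟨Φ, h1, h2, h3⟩
    have hC : ∀ G ∈ {H : SimpleGraph ℕ | ∃ t, IsMinor H (Φ t)}, Rayless G := by
      rintro G ⟨t, ht⟩
      obtain ⟨α, hα, h4⟩ := rayless_iff.1 (h2 t)
      exact rayless_iff.2 ⟨α, hα, h4.of_minor (isMinor_iff.1 ht)⟩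
    have hmc : MinorClosed {H : SimpleGraph ℕ | ∃ t, IsMinor H (Φ t)} := by
      rintro G ⟨t, ht⟩ H hH
      exact ⟨t, isMinor_iff.2 ((isMinor_iff.1 hH).trans (isMinor_iff.1 ht))⟩
    have hB : BorelFamily {H : SimpleGraph ℕ | ∃ t, IsMinor H (Φ t)} :=
      borel_of_analytic (analytic_minors_range h1)
        (coanalytic_of_wqo (wqo_iff_official.2 h) hC hmc)
    obtain ⟨α, hα, h4⟩ := (rank_bounded_iff hC hmc).2 fun hF => not_borel_of_forests hC hF hB
    exact not_twin_of_nontwins (fun t => h4 _ ⟨t, isMinor_iff.2 (Minor.refl _ _)⟩) h3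
      (twin_of_codeWqo hα (codeWqo_of_wqo h hα))
  tfae_finish

end Run7.h891
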